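import Pool.Agent.Helper59.GT.Defs

/-!
# GT-34 Periodize: sums over the integer translations of a smooth compactly supported function

`pz u x = ∑ᶠ k, u (x + latt k)`.

Proof. The family `k ↦ (x ↦ u (x + latt k))` has locally finite support (for `x` in a ball of radius `1` only the finitely many `k` with `‖x + latt k‖ ≤ R` matter, where `u = 0` outside `closedBall 0 R`; a ball contains finitely many lattice vectors).
So near a given point `pz u` is a fixed finite sum: smooth (also `ContDiff` of a finsum: `contMDiff_finsum` + `contMDiff_iff_contDiff`), and derivatives can be taken termwise. Periodic: reindex by `k ↦ k + k0` (`finsum_comp_equiv`, `latt_add` (prove it locally)).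
-/

set_option autoImplicit false
set_option maxSynthPendingDepth 3

open scoped ContDiff

namespace Pool.Agent.Helper59.GT

/-- Periodization. -/
noncomputable def pz {n : ℕ} (u : E n → ℝ) (x : E n) : ℝ := ∑ᶠ k : Fin n → ℤ, u (x + latt k)

theorem pz_support {n : ℕ} (u : E n → ℝ) (hu : HasCompactSupport u) (x : E n) :
    ∃ S : Finset (Fin n → ℤ), ∀ y, dist y x < 1 → ∀ k, k ∉ S → u (y + latt k) = 0 := by
  obtain ⟨R, hR⟩ : ∃ R : ℝ, ∀ z, u z ≠ 0 → ‖z‖ ≤ R := by
    obtain ⟨R, hR⟩ := hu.isCompact.isBounded.exists_norm_le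
    exact ⟨R, fun z hz => hR z (subset_tsupport u hz)⟩
  refine ⟨Fintype.piFinset fun _ => Finset.Icc (-⌈R + ‖x‖ + 1⌉) ⌈R + ‖x‖ + 1⌉, ?_⟩
  intro y hy k hk
  by_contra hne
  apply hk
  rw [Fintype.mem_piFinset]
  intro i
  have h1 : ‖y + latt k‖ ≤ R := hR _ hne
  have h2 : ‖(latt k : E n)‖ ≤ R + ‖x‖ + 1 := by
    have h3 : (latt k : E n) = (y + latt k) - (y - x) - x := by abel
    have h4 : ‖y - x‖ < 1 := by rwa [← dist_eq_norm]
    calc ‖(latt k : E n)‖ = ‖(y + latt k) - (y - x) - x‖ := by rw [← h3]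
      _ ≤ ‖(y + latt k) - (y - x)‖ + ‖x‖ := norm_sub_le _ _
      _ ≤ ‖y + latt k‖ + ‖y - x‖ + ‖x‖ := by
        have := norm_sub_le (y + latt k) (y - x)
        linarith
      _ ≤ R + ‖x‖ + 1 := by linarith
  have h5 : |(k i : ℝ)| ≤ R + ‖x‖ + 1 := by
    have h6 := PiLp.norm_apply_le (latt k : E n) i
    have h7 : ‖(latt k : E n) i‖ = |(k i : ℝ)| := rfl
    rw [h7] at h6
    exact h6.trans h2
  have h8 := abs_le.1 (h5.trans (Int.le_ceil _))
  rw [Finset.mem_Icc]
  constructor
  · have h9 := h8.1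
    have h10 : ((-⌈R + ‖x‖ + 1⌉ : ℤ) : ℝ) ≤ (k i : ℝ) := by
      push_cast
      exact h9
    exact_mod_cast h10
  · exact_mod_cast h8.2

private theorem pz_local {n : ℕ} (u : E n → ℝ) (x : E n) (S T : Finset (Fin n → ℤ)) (hST : S ⊆ T)
    (hS : ∀ y, dist y x < 1 → ∀ k, k ∉ S → u (y + latt k) = 0) (y : E n) (hy : dist y x < 1) :
    pz u y = ∑ k ∈ T, u (y + latt k) := by
  unfold pz
  apply finsum_eq_sum_of_support_subset
  intro k hk
  by_contra hkT
  exact hk (hS y hy k fun h => hkT (hST h))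

private theorem pz_ev {n : ℕ} (u : E n → ℝ) (x : E n) (S T : Finset (Fin n → ℤ)) (hST : S ⊆ T)
    (hS : ∀ y, dist y x < 1 → ∀ k, k ∉ S → u (y + latt k) = 0) :
    pz u =ᶠ[nhds x] fun y => ∑ k ∈ T, u (y + latt k) := by
  filter_upwards [Metric.ball_mem_nhds x one_pos] with y hy
  exact pz_local u x S T hST hS y hy

theorem contDiff_pz {n : ℕ} (u : E n → ℝ) (hs : ContDiff ℝ ∞ u) (hu : HasCompactSupport u) : ContDiff ℝ ∞ (pz u) := by
  rw [contDiff_iff_contDiffAt]
  intro x
  obtain ⟨S, hS⟩ := pz_support u hu x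
  refine ContDiffAt.congr_of_eventuallyEq ?_ (pz_ev u x S S subset_rfl hS)
  refine ContDiff.contDiffAt ?_
  exact ContDiff.sum fun k _ => hs.comp (contDiff_id.add contDiff_const)

theorem pz_per {n : ℕ} (u : E n → ℝ) (k : Fin n → ℤ) (x : E n) : pz u (x + latt k) = pz u x := by
  unfold pz
  have h1 : ∀ k' : Fin n → ℤ, u (x + latt k + latt k') = u (x + latt (k + k')) := by
    intro k'
    congr 1
    rw [add_assoc]
    congr 1
    ext i
    simp [latt]
  simp only [h1]
  exact finsum_comp_equiv (Equiv.addLeft k) (f := fun k'' => u (x + latt k''))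

theorem pz_eq_sum {n : ℕ} (u : E n → ℝ) (hs : ContDiff ℝ ∞ u) (hu : HasCompactSupport u) (x : E n) :
    ∃ S : Finset (Fin n → ℤ), ∀ T : Finset (Fin n → ℤ), S ⊆ T →
      pz u x = ∑ k ∈ T, u (x + latt k) ∧ fderiv ℝ (pz u) x = ∑ k ∈ T, fderiv ℝ u (x + latt k) := by
  obtain ⟨S, hS⟩ := pz_support u hu x
  refine ⟨S, fun T hT => ⟨pz_local u x S T hT hS x (by simp), ?_⟩⟩
  rw [(pz_ev u x S T hT hS).fderiv_eq]
  have hd : Differentiable ℝ u := hs.differentiable (by simp)
  have hd2 : ∀ k ∈ T, DifferentiableAt ℝ (fun y => u (y + latt k)) x := fun k _ =>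
    (hd _).comp x (differentiableAt_id.add_const _)
  rw [fderiv_fun_sum hd2]
  exact Finset.sum_congr rfl fun k _ => fderiv_comp_add_right _

end Pool.Agent.Helper59.GT
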