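import Pool.Agent.Helper59.GT.Phase

/-!
# GT-11 Cometric: bounds of a metric, the dual metric

Proof. `metric_bounds`: the function `(x, u) ↦ g x u u` is continuous and positive on the compact set `[0, 1] ^ n × unit sphere` (if `n = 0` everything is trivial, `u = 0`), so it has bounds `0 < a ≤ g x u u ≤ b` there; by periodicity for all `x`
(translate by integer parts) and by homogeneity `a ‖u‖ ^ 2 ≤ g x u u ≤ b ‖u‖ ^ 2`.
`cog_left`, `cog_right`: `opA g x` is injective (`⟪opA g x u, u⟫ = g x u u > 0` for `u ≠ 0`), so bijective (finite dimension), a continuous linear equivalence, and `ContinuousLinearMap.inverse` is its inverse.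
`cog_symm`: `⟪cog p, q⟫` with `p = A u`, `q = A w`: `⟪u, A w⟫ = g x w u = g x u w = ⟪A u, w⟫`.
`contDiff_cog`: `opA g` is `C ^ m` (composition of `g` with a continuous linear map) and inversion is smooth at invertible operators (`contDiffAt_map_inverse`).
`cog_per`: clear. `cog_deriv`: differentiate `cog g x (opA g x u) = u`, i.e. `D cog (w) (A u) = - cog (D A (w) u)`, so for `p = A u`: `⟪D cog (w) p, p⟫ = - ⟪cog (D A (w) u), p⟫ = - ⟪D A (w) u, u⟫ = - (D g (w)) u u`.
`Hk_bounds`: `Hk g (x, p) = (1 / 2) g x v v` with `v = cog g x p`, and `‖p‖ = ‖A v‖ ≤ b' ‖v‖` (`‖A x v‖ ^ 2 = g x v (A v) ≤ ‖g x‖ ‖v‖ ‖A v‖`, `‖g x‖` bounded by periodicity) so `Hk ≥ c ‖p‖ ^ 2`.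
-/

set_option autoImplicit false
set_option maxSynthPendingDepth 3

open scoped ContDiff InnerProductSpace

namespace Pool.Agent.Helper59.GT

variable {n : ℕ} {m : WithTop ℕ∞} {g : E n → Bil n}

private theorem co_trans (x : E n) : ∃ k : Fin n → ℤ, ‖x + latt k‖ ≤ √n := by
  refine ⟨fun i => -⌊x i⌋, ?_⟩
  rw [EuclideanSpace.norm_eq]
  refine Real.sqrt_le_sqrt ?_
  calc ∑ i, ‖(x + latt (fun i => -⌊x i⌋) : E n) i‖ ^ 2 ≤ ∑ _i : Fin n, (1 : ℝ) := by
        refine Finset.sum_le_sum fun i _ => ?_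
        have h1 : (x + latt (fun i => -⌊x i⌋) : E n) i = Int.fract (x i) := by
          rw [PiLp.add_apply, latt_apply]
          push_cast
          unfold Int.fract
          ring
        rw [h1, Real.norm_of_nonneg (Int.fract_nonneg _)]
        exact pow_le_one₀ (Int.fract_nonneg _) (Int.fract_lt_one _).le
    _ = n := by simp

private theorem co_equiv (hg : IsMetric m g) (x : E n) :
    ∃ e : E n ≃L[ℝ] E n, (e : E n →L[ℝ] E n) = opA g x := by
  have hinj : Function.Injective (opA g x).toLinearMap := by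
    rw [← LinearMap.ker_eq_bot, LinearMap.ker_eq_bot']
    intro u hu
    by_contra hu0
    have h1 := hg.pos x u hu0
    rw [← inner_opA] at h1
    have h2 : opA g x u = 0 := hu
    rw [h2, inner_zero_left] at h1
    exact lt_irrefl _ h1
  refine ⟨(LinearEquiv.ofInjectiveEndo (opA g x).toLinearMap hinj).toContinuousLinearEquiv, ?_⟩
  ext u
  rfl

theorem metric_bounds (hg : IsMetric m g) :
    ∃ a b : ℝ, 0 < a ∧ 0 < b ∧ ∀ x u, a * ‖u‖ ^ 2 ≤ g x u u ∧ g x u u ≤ b * ‖u‖ ^ 2 := by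
  obtain ⟨f, hf⟩ : ∃ f : E n × E n → ℝ, ∀ p, f p = g p.1 p.2 p.2 := ⟨_, fun _ => rfl⟩
  have hfc : Continuous f := by
    have h1 : f = fun p => g p.1 p.2 p.2 := funext hf
    rw [h1]
    exact ((hg.smooth.continuous.comp continuous_fst).clm_apply continuous_snd).clm_apply
      continuous_snd
  have hK : IsCompact (Metric.closedBall (0 : E n) (√n) ×ˢ Metric.sphere (0 : E n) 1) :=
    (isCompact_closedBall _ _).prod (isCompact_sphere _ _)
  have hper : ∀ (x u : E n) (k : Fin n → ℤ), g (x + latt k) u u = g x u u := by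
    intro x u k
    rw [hg.per]
  have hscale : ∀ (x u : E n), u ≠ 0 →
      g x u u = ‖u‖ ^ 2 * g x (‖u‖⁻¹ • u) (‖u‖⁻¹ • u) := by
    intro x u hu
    have h1 : ‖u‖ ≠ 0 := norm_ne_zero_iff.2 hu
    simp only [map_smul, _root_.smul_apply, smul_eq_mul]
    field_simp
  have hmem : ∀ (u : E n), u ≠ 0 → ‖u‖⁻¹ • u ∈ Metric.sphere (0 : E n) 1 := by
    intro u hu
    rw [mem_sphere_zero_iff_norm, norm_smul, norm_inv, norm_norm,
      inv_mul_cancel₀ (norm_ne_zero_iff.2 hu)]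
  by_cases hne : (Metric.closedBall (0 : E n) (√n) ×ˢ Metric.sphere (0 : E n) 1).Nonempty
  · obtain ⟨p0, hp0, hmin⟩ := hK.exists_isMinOn hne hfc.continuousOn
    obtain ⟨p1, hp1, hmax⟩ := hK.exists_isMaxOn hne hfc.continuousOn
    have h0 : 0 < f p0 := by
      rw [hf]
      refine hg.pos _ _ fun h => ?_
      have h1 := hp0.2
      rw [mem_sphere_zero_iff_norm, h, norm_zero] at h1
      exact zero_ne_one h1
    have h1 : 0 < f p1 := h0.trans_le (hmin hp1)
    refine ⟨f p0, f p1, h0, h1, fun x u => ?_⟩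
    by_cases hu : u = 0
    · rw [hu]
      simp
    · obtain ⟨k, hk⟩ := co_trans x
      have h2 : (x + latt k, ‖u‖⁻¹ • u) ∈
          Metric.closedBall (0 : E n) (√n) ×ˢ Metric.sphere (0 : E n) 1 := by
        refine ⟨?_, hmem u hu⟩
        rw [mem_closedBall_zero_iff]
        exact hk
      have h3 : f p0 ≤ f (x + latt k, ‖u‖⁻¹ • u) := hmin h2
      have h4 : f (x + latt k, ‖u‖⁻¹ • u) ≤ f p1 := hmax h2
      rw [hf (x + latt k, ‖u‖⁻¹ • u)] at h3 h4
      simp only [hper] at h3 h4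
      rw [hscale x u hu]
      have h5 : 0 ≤ ‖u‖ ^ 2 := by positivity
      constructor
      · rw [mul_comm]
        exact mul_le_mul_of_nonneg_left h3 h5
      · rw [mul_comm (f p1)]
        exact mul_le_mul_of_nonneg_left h4 h5
  · refine ⟨1, 1, one_pos, one_pos, fun x u => ?_⟩
    have hu : u = 0 := by
      by_contra hu
      refine hne ⟨(0, ‖u‖⁻¹ • u), ?_, hmem u hu⟩
      rw [mem_closedBall_zero_iff, norm_zero]
      positivity
    rw [hu]
    simp

theorem cog_left (hg : IsMetric m g) (x u : E n) : cog g x (opA g x u) = u := by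
  obtain ⟨e, he⟩ := co_equiv hg x
  unfold cog
  rw [← he, ContinuousLinearMap.inverse_equiv]
  exact e.symm_apply_apply u

theorem cog_right (hg : IsMetric m g) (x p : E n) : opA g x (cog g x p) = p := by
  obtain ⟨e, he⟩ := co_equiv hg x
  unfold cog
  rw [← he, ContinuousLinearMap.inverse_equiv]
  exact e.apply_symm_apply p

theorem cog_symm (hg : IsMetric m g) (x p q : E n) : ⟪cog g x p, q⟫_ℝ = ⟪p, cog g x q⟫_ℝ := by
  have h1 := cog_right hg x p
  have h2 := cog_right hg x q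
  calc ⟪cog g x p, q⟫_ℝ = ⟪cog g x p, opA g x (cog g x q)⟫_ℝ := by rw [h2]
    _ = ⟪opA g x (cog g x q), cog g x p⟫_ℝ := real_inner_comm _ _
    _ = g x (cog g x q) (cog g x p) := inner_opA g x _ _
    _ = g x (cog g x p) (cog g x q) := hg.symm x _ _
    _ = ⟪opA g x (cog g x p), cog g x q⟫_ℝ := (inner_opA g x _ _).symm
    _ = ⟪p, cog g x q⟫_ℝ := by rw [h1]

theorem contDiff_cog (hg : IsMetric m g) : ContDiff ℝ m (cog g) := by
  rw [contDiff_iff_contDiffAt]
  intro x
  obtain ⟨e, he⟩ := co_equiv hg x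
  have h1 : ContDiff ℝ m (opA g) := by
    unfold opA
    exact contDiff_const.clm_comp hg.smooth
  have h2 : ContDiffAt ℝ m ContinuousLinearMap.inverse (opA g x) := by
    rw [← he]
    exact contDiffAt_map_inverse e
  exact h2.comp x h1.contDiffAt

theorem cog_per (hg : IsMetric m g) (k : Fin n → ℤ) (x : E n) : cog g (x + latt k) = cog g x := by
  unfold cog opA
  rw [hg.per]

theorem cog_deriv (hg : IsMetric m g) (hm : 1 ≤ m) (x u w : E n) :
    ⟪fderiv ℝ (cog g) x w (opA g x u), opA g x u⟫_ℝ = -(fderiv ℝ g x w u u) := by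
  have hm0 : m ≠ 0 := by
    intro h
    rw [h] at hm
    exact absurd hm (by norm_num)
  have hG : HasFDerivAt g (fderiv ℝ g x) x := (hg.smooth.differentiable hm0 x).hasFDerivAt
  have hC : HasFDerivAt (cog g) (fderiv ℝ (cog g) x) x :=
    ((contDiff_cog hg).differentiable hm0 x).hasFDerivAt
  have hGu : HasFDerivAt (fun y => g y u) ((fderiv ℝ g x).flip u) x := by
    have h1 := hG.clm_apply (hasFDerivAt_const u x)
    have h2 : (g x).comp (0 : E n →L[ℝ] E n) + (fderiv ℝ g x).flip u = (fderiv ℝ g x).flip u := by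
      rw [ContinuousLinearMap.comp_zero, zero_add]
    rw [h2] at h1
    exact h1
  have hA : HasFDerivAt (fun y => opA g y u) (riesz.comp ((fderiv ℝ g x).flip u)) x :=
    (riesz (n := n)).hasFDerivAt.comp x hGu
  have hP := hC.clm_apply hA
  have hconst : (fun y => cog g y (opA g y u)) = fun _ => u := by
    funext y
    exact cog_left hg y u
  rw [hconst] at hP
  have h3 := hP.unique (hasFDerivAt_const u x)
  have h4 := DFunLike.congr_fun h3 w
  have h5 : cog g x (riesz (fderiv ℝ g x w u)) + fderiv ℝ (cog g) x w (opA g x u) = 0 := h4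
  have h6 : fderiv ℝ (cog g) x w (opA g x u) = -cog g x (riesz (fderiv ℝ g x w u)) := by
    rw [eq_neg_iff_add_eq_zero, add_comm]
    exact h5
  rw [h6, inner_neg_left, cog_symm hg, cog_left hg, inner_riesz]

theorem Hk_eq (hg : IsMetric m g) (x u : E n) : Hk g (x, opA g x u) = (1 / 2) * g x u u := by
  unfold Hk
  simp only
  rw [cog_left hg, real_inner_comm, inner_opA]

theorem Hk_bounds (hg : IsMetric m g) :
    ∃ c d : ℝ, 0 < c ∧ 0 < d ∧ ∀ z : Ph n, c * ‖z.2‖ ^ 2 ≤ Hk g z ∧ Hk g z ≤ d * ‖z.2‖ ^ 2 := by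
  obtain ⟨a, b, ha, hb, hab⟩ := metric_bounds hg
  refine ⟨1 / (2 * b), 1 / (2 * a), by positivity, by positivity, ?_⟩
  rintro ⟨x, p⟩
  obtain ⟨v, hv⟩ : ∃ v, v = cog g x p := ⟨_, rfl⟩
  have hp : p = opA g x v := by rw [hv, cog_right hg]
  have hH : Hk g (x, p) = (1 / 2) * g x v v := by
    rw [hp]
    exact Hk_eq hg x v
  have hvp : g x v p = ‖p‖ ^ 2 := by
    rw [← inner_opA, ← hp, real_inner_self_eq_norm_sq]
  have hvv : g x v v = ⟪p, v⟫_ℝ := by
    rw [← inner_opA, ← hp]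
  simp only
  rw [hH]
  constructor
  · have h1 : 0 ≤ g x (v - b⁻¹ • p) (v - b⁻¹ • p) := by
      refine le_trans ?_ (hab x _).1
      positivity
    have h2 : g x (v - b⁻¹ • p) (v - b⁻¹ • p) =
        g x v v - 2 * b⁻¹ * g x v p + b⁻¹ ^ 2 * g x p p := by
      simp only [map_sub, map_smul, _root_.sub_apply, _root_.smul_apply, smul_eq_mul]
      rw [hg.symm x p v]
      ring
    have h3 : b⁻¹ ^ 2 * g x p p ≤ b⁻¹ ^ 2 * (b * ‖p‖ ^ 2) :=
      mul_le_mul_of_nonneg_left (hab x p).2 (by positivity)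
    have h4 : b⁻¹ ^ 2 * (b * ‖p‖ ^ 2) = b⁻¹ * ‖p‖ ^ 2 := by field_simp
    rw [h2, hvp] at h1
    have h5 : 1 / (2 * b) * ‖p‖ ^ 2 = 1 / 2 * (b⁻¹ * ‖p‖ ^ 2) := by field_simp
    rw [h5]
    linarith
  · have h1 : ⟪p, v⟫_ℝ ≤ ‖p‖ * ‖v‖ := real_inner_le_norm p v
    have h2 := (hab x v).1
    rw [hvv] at h2
    have h3 : a * ‖v‖ ≤ ‖p‖ := by
      by_cases hv0 : ‖v‖ = 0
      · rw [hv0, mul_zero]
        exact norm_nonneg p
      · have hv1 : 0 < ‖v‖ := lt_of_le_of_ne (norm_nonneg v) (Ne.symm hv0)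
        refine le_of_mul_le_mul_right ?_ hv1
        calc a * ‖v‖ * ‖v‖ = a * ‖v‖ ^ 2 := by ring
          _ ≤ ‖p‖ * ‖v‖ := h2.trans h1
    have h4 : ‖p‖ * ‖v‖ ≤ 1 / a * ‖p‖ ^ 2 := by
      have h5 : ‖v‖ ≤ 1 / a * ‖p‖ := by
        rw [one_div, inv_mul_eq_div, le_div_iff₀ ha]
        linarith
      calc ‖p‖ * ‖v‖ ≤ ‖p‖ * (1 / a * ‖p‖) := mul_le_mul_of_nonneg_left h5 (norm_nonneg p)
        _ = 1 / a * ‖p‖ ^ 2 := by ring
    have h6 : 1 / (2 * a) * ‖p‖ ^ 2 = 1 / 2 * (1 / a * ‖p‖ ^ 2) := by field_simp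
    rw [hvv, h6]
    linarith

end Pool.Agent.Helper59.GT
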