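import Pool.Agent.Helper59.GT.Defs

/-!
# GT-20 ELUnif: uniform continuity of the Euler-Lagrange expression, geodesics of smooth metrics

Proof. `EL g x v a` is a continuous function of `(x, v, a)` (`g` is `C ^ 1`), periodic in `x` (`fderiv ℝ g` is periodic). It is uniformly continuous on the compact set `[-1, 2] ^ n × closedBall 0 M × closedBall 0 M`
(`IsCompact.uniformContinuousOn_of_continuous`); given `x, x'` with `‖x - x'‖ < δ ≤ 1` translate both by the same integer vector such that `x ∈ [0, 1] ^ n`, then `x' ∈ [-1, 2] ^ n`. The same for `g x v v`.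
`EL_of_geodesic`: for a twice differentiable `c`, `t ↦ g (c t) (c' t) w` has derivative `g (c) (c'', w) + (D g (c) c') (c', w)`; compare with the derivative in `IsGeodesic` (uniqueness of derivatives). `geodesic_of_EL`: conversely.
`EL_energy`: `EL g x v a v = g x a v + (1 / 2) (D g v) v v`, which is half the derivative of `g (c) (c', c')`.
-/

set_option autoImplicit false
set_option maxSynthPendingDepth 3

open scoped ContDiff

namespace Pool.Agent.Helper59.GT

variable {n : ℕ} {g : E n → Bil n}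

private theorem eu_norm_le {n : ℕ} (x : E n) (C : ℝ) (hC : ∀ i, ‖x i‖ ≤ C) :
    ‖x‖ ≤ √(n * C ^ 2) := by
  rw [EuclideanSpace.norm_eq]
  apply Real.sqrt_le_sqrt
  calc ∑ i, ‖x i‖ ^ 2 ≤ ∑ _i : Fin n, C ^ 2 :=
        Finset.sum_le_sum fun i _ => pow_le_pow_left₀ (norm_nonneg _) (hC i) 2
    _ = n * C ^ 2 := by simp

private theorem eu_red {n : ℕ} (x : E n) : ∃ k : Fin n → ℤ, ‖x + latt k‖ ≤ √(n * 1 ^ 2) := by
  refine ⟨fun i => -⌊x i⌋, eu_norm_le _ 1 (fun i => ?_)⟩
  have h1 : (x + latt fun i => -⌊x i⌋) i = Int.fract (x i) := by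
    simp only [latt, PiLp.add_apply, Int.cast_neg, Int.fract]
    ring
  rw [h1, Real.norm_eq_abs, abs_of_nonneg (Int.fract_nonneg _)]
  exact (Int.fract_lt_one _).le

private theorem eu_per (hg : IsMetric ∞ g) (k : Fin n → ℤ) (x : E n) :
    fderiv ℝ g (x + latt k) = fderiv ℝ g x := by
  have h1 : (fun y => g (y + latt k)) = g := funext fun y => hg.per k y
  rw [← fderiv_comp_add_right (latt k), h1]

private theorem eu_EL_per (hg : IsMetric ∞ g) (k : Fin n → ℤ) (x v a : E n) :
    EL g (x + latt k) v a = EL g x v a := by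
  rw [EL, EL, eu_per hg, hg.per]

private theorem eu_cont (hg : IsMetric ∞ g) :
    Continuous fun p : E n × E n × E n => (EL g p.1 p.2.1 p.2.2, g p.1 p.2.1 p.2.1) := by
  have h1 : Continuous g := hg.smooth.continuous
  have h2 : Continuous (fderiv ℝ g) := hg.smooth.continuous_fderiv (by simp)
  have g1 : Continuous fun p : E n × E n × E n => g p.1 := h1.comp continuous_fst
  have g2 : Continuous fun p : E n × E n × E n => fderiv ℝ g p.1 := h2.comp continuous_fst
  have v1 : Continuous fun p : E n × E n × E n => p.2.1 := continuous_fst.comp continuous_snd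
  have a1 : Continuous fun p : E n × E n × E n => p.2.2 := continuous_snd.comp continuous_snd
  have f1 : Continuous fun p : E n × E n × E n => (fderiv ℝ g p.1).flip :=
    (ContinuousLinearMap.flipₗᵢ ℝ (E n) (E n) (E n →L[ℝ] ℝ)).continuous.comp g2
  have f2 : Continuous fun p : E n × E n × E n => (fderiv ℝ g p.1).flip p.2.1 := f1.clm_apply v1
  have f3 : Continuous fun p : E n × E n × E n => ((fderiv ℝ g p.1).flip p.2.1).flip :=
    (ContinuousLinearMap.flipₗᵢ ℝ (E n) (E n) ℝ).continuous.comp f2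
  have f4 : Continuous fun p : E n × E n × E n => ((fderiv ℝ g p.1).flip p.2.1).flip p.2.1 :=
    f3.clm_apply v1
  have f5 : Continuous fun p : E n × E n × E n =>
      (1 / 2 : ℝ) • ((fderiv ℝ g p.1).flip p.2.1).flip p.2.1 := by
    exact f4.const_smul (1 / 2 : ℝ)
  refine Continuous.prodMk ?_ ((g1.clm_apply v1).clm_apply v1)
  exact ((g1.clm_apply a1).add ((g2.clm_apply v1).clm_apply v1)).sub f5

private theorem eu_deriv (hg : IsMetric ∞ g) {c : ℝ → E n} (hs : ContDiff ℝ ∞ c) (t : ℝ) :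
    HasDerivAt (deriv c) (deriv (deriv c) t) t ∧
    HasDerivAt (fun s => g (c s) (deriv c s))
      (fderiv ℝ g (c t) (deriv c t) (deriv c t) + g (c t) (deriv (deriv c) t)) t := by
  have h1 : HasDerivAt c (deriv c t) t := (hs.differentiable (by simp) t).hasDerivAt
  have h2 : ContDiff ℝ ∞ (deriv c) := (contDiff_infty_iff_deriv.1 hs).2
  have h3 : HasDerivAt (deriv c) (deriv (deriv c) t) t := (h2.differentiable (by simp) t).hasDerivAt
  have h4 : HasFDerivAt g (fderiv ℝ g (c t)) (c t) :=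
    (hg.smooth.differentiable (by simp) (c t)).hasFDerivAt
  have h5 : HasDerivAt (fun s => g (c s)) (fderiv ℝ g (c t) (deriv c t)) t := h4.comp_hasDerivAt t h1
  exact ⟨h3, h5.clm_apply h3⟩

private theorem eu_deriv_w (hg : IsMetric ∞ g) {c : ℝ → E n} (hs : ContDiff ℝ ∞ c) (t : ℝ) (w : E n) :
    HasDerivAt (fun s => g (c s) (deriv c s) w)
      (fderiv ℝ g (c t) (deriv c t) (deriv c t) w + g (c t) (deriv (deriv c) t) w) t := by
  have h1 := (eu_deriv hg hs t).2.clm_apply (hasDerivAt_const t w)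
  simpa using h1

theorem EL_unif (hg : IsMetric ∞ g) (M ε : ℝ) (hε : 0 < ε) :
    ∃ δ > 0, ∀ x v a x' v' a' : E n, ‖v‖ ≤ M → ‖a‖ ≤ M → ‖v'‖ ≤ M → ‖a'‖ ≤ M → ‖x - x'‖ < δ → ‖v - v'‖ < δ →
      ‖a - a'‖ < δ → ‖EL g x v a - EL g x' v' a'‖ < ε ∧ |g x v v - g x' v' v'| < ε := by
  have hK : IsCompact (Metric.closedBall (0 : E n) (√(n * 1 ^ 2) + 1) ×ˢ
      (Metric.closedBall (0 : E n) M ×ˢ Metric.closedBall (0 : E n) M)) :=
    (isCompact_closedBall _ _).prod ((isCompact_closedBall _ _).prod (isCompact_closedBall _ _))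
  have hu := hK.uniformContinuousOn_of_continuous (eu_cont hg).continuousOn
  rw [Metric.uniformContinuousOn_iff] at hu
  obtain ⟨δ, hδ, hu⟩ := hu ε hε
  refine ⟨min δ 1, lt_min hδ one_pos, ?_⟩
  intro x v a x' v' a' hv ha hv' ha' hx hvv haa
  obtain ⟨k, hk⟩ := eu_red x
  have hxx : ‖(x + latt k) - (x' + latt k)‖ < min δ 1 := by
    rwa [add_sub_add_right_eq_sub]
  have hk' : ‖x' + latt k‖ ≤ √(n * 1 ^ 2) + 1 := by
    have h1 : x' + latt k = (x + latt k) - ((x + latt k) - (x' + latt k)) := by abel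
    rw [h1]
    have h2 := hxx.le.trans (min_le_right _ _)
    linarith [norm_sub_le (x + latt k) ((x + latt k) - (x' + latt k))]
  have h3 := hu (x + latt k, v, a) ⟨mem_closedBall_zero_iff.2 (by linarith),
    mem_closedBall_zero_iff.2 hv, mem_closedBall_zero_iff.2 ha⟩
    (x' + latt k, v', a') ⟨mem_closedBall_zero_iff.2 hk',
    mem_closedBall_zero_iff.2 hv', mem_closedBall_zero_iff.2 ha'⟩ (by
      rw [Prod.dist_eq, Prod.dist_eq, dist_eq_norm, dist_eq_norm, dist_eq_norm]
      exact max_lt (hxx.trans_le (min_le_left _ _))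
        (max_lt (hvv.trans_le (min_le_left _ _)) (haa.trans_le (min_le_left _ _))))
  simp only [eu_EL_per hg, hg.per] at h3
  rw [Prod.dist_eq, dist_eq_norm, Real.dist_eq] at h3
  exact ⟨(le_max_left _ _).trans_lt h3, (le_max_right _ _).trans_lt h3⟩

theorem EL_of_geodesic (hg : IsMetric ∞ g) {c : ℝ → E n} (hs : ContDiff ℝ ∞ c) (hc : IsGeodesic g c) (t : ℝ) :
    EL g (c t) (deriv c t) (deriv (deriv c) t) = 0 := by
  ext1 w
  have h1 := (eu_deriv_w hg hs t w).unique (hc.2 t w)
  rw [EL_apply, zero_apply]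
  linarith

theorem geodesic_of_EL (hg : IsMetric ∞ g) {c : ℝ → E n} (hs : ContDiff ℝ ∞ c)
    (hc : ∀ t, EL g (c t) (deriv c t) (deriv (deriv c) t) = 0) : IsGeodesic g c := by
  refine ⟨hs.differentiable (by simp), fun t w => ?_⟩
  have h1 := EL_apply g (c t) (deriv c t) (deriv (deriv c) t) w
  rw [hc t, zero_apply] at h1
  have h2 := eu_deriv_w hg hs t w
  have h3 : fderiv ℝ g (c t) (deriv c t) (deriv c t) w + g (c t) (deriv (deriv c) t) w =
      (1 / 2) * fderiv ℝ g (c t) w (deriv c t) (deriv c t) := by linarith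
  rwa [h3] at h2

theorem EL_energy (hg : IsMetric ∞ g) {c : ℝ → E n} (hs : ContDiff ℝ ∞ c) (t : ℝ) :
    HasDerivAt (fun s => g (c s) (deriv c s) (deriv c s)) (2 * EL g (c t) (deriv c t) (deriv (deriv c) t) (deriv c t)) t := by
  obtain ⟨h1, h2⟩ := eu_deriv hg hs t
  have h3 := h2.clm_apply h1
  have h4 : (fderiv ℝ g (c t) (deriv c t) (deriv c t) + g (c t) (deriv (deriv c) t)) (deriv c t) +
      g (c t) (deriv c t) (deriv (deriv c) t) = 2 * EL g (c t) (deriv c t) (deriv (deriv c) t) (deriv c t) := by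
    rw [EL_apply, add_apply, hg.symm (c t) (deriv c t) (deriv (deriv c) t)]
    ring
  rwa [h4] at h3

end Pool.Agent.Helper59.GT
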