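import Pool.Agent.Helper59.GT.Phase

/-!
# GT-09 HamTrace: Hamiltonian vector fields are smooth, periodic and divergence free

Proof. `XH H` is `C ^ ∞`: `fderiv ℝ H` is `C ^ ∞` and `XH H z` depends linearly and continuously on it (`riesz`, composition with `inl`, `inr`).
`trace`: take the basis of `E n × E n` given by `(e_i, 0)`, `(0, e_i)` (`Module.Basis.prod`, `EuclideanSpace.basisFun`); the trace is the sum of the diagonal entries
`⟪D (gradp H) (z) (e_i, 0), e_i⟫ + ⟪D (- gradx H) (z) (0, e_i), e_i⟫ = D²H (z) ((e_i, 0), (0, e_i)) - D²H (z) ((0, e_i), (e_i, 0)) = 0` by the symmetry of the second derivative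
(`second_derivative_symmetric` or `ContDiffAt.isSymmSndFDerivAt`).
`periodic`: `fderiv` of a periodic function is periodic (`fderiv_comp_add_right`).
`energy`: `D H (z) (XH H z) = ⟪gradx H z, gradp H z⟫ - ⟪gradp H z, gradx H z⟫ = 0`, and the derivative of `t ↦ H (Z t)` is `D H (Z t) (XH H (Z t)) = 0` (`is_const_of_deriv_eq_zero`).
-/

set_option autoImplicit false
set_option maxSynthPendingDepth 3

open scoped ContDiff

namespace Pool.Agent.Helper59.GT

open scoped InnerProductSpace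

private theorem contDiff_D {n : ℕ} {H : Ph n → ℝ} (hH : ContDiff ℝ ∞ H) :
    ContDiff ℝ ∞ (fderiv ℝ H) := hH.fderiv_right (by simp)

private theorem contDiff_gradp {n : ℕ} {H : Ph n → ℝ} (hH : ContDiff ℝ ∞ H) :
    ContDiff ℝ ∞ (gradp H) :=
  (riesz (n := n)).contDiff.comp ((contDiff_D hH).clm_comp contDiff_const)

private theorem contDiff_gradx {n : ℕ} {H : Ph n → ℝ} (hH : ContDiff ℝ ∞ H) :
    ContDiff ℝ ∞ (gradx H) :=
  (riesz (n := n)).contDiff.comp ((contDiff_D hH).clm_comp contDiff_const)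

theorem contDiff_XH {n : ℕ} {H : Ph n → ℝ} (hH : ContDiff ℝ ∞ H) : ContDiff ℝ ∞ (XH H) :=
  (contDiff_gradp hH).prodMk (contDiff_gradx hH).neg

private theorem fderiv_gradp {n : ℕ} {H : Ph n → ℝ} (hH : ContDiff ℝ ∞ H) (z u : Ph n) (w : E n) :
    ⟪fderiv ℝ (gradp H) z u, w⟫_ℝ = fderiv ℝ (fderiv ℝ H) z u (0, w) := by
  have h1 : HasFDerivAt (fderiv ℝ H) (fderiv ℝ (fderiv ℝ H) z) z :=
    ((contDiff_D hH).differentiable (by simp) z).hasFDerivAt
  have h2 : HasFDerivAt (gradp H) (fderiv ℝ (gradp H) z) z :=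
    ((contDiff_gradp hH).differentiable (by simp) z).hasFDerivAt
  have h3 : HasFDerivAt (fun y => ⟪gradp H y, w⟫_ℝ)
      ((innerSL ℝ w).comp (fderiv ℝ (gradp H) z)) z := by
    have h4 := (innerSL ℝ w).hasFDerivAt.comp z h2
    refine h4.congr_of_eventuallyEq (Filter.Eventually.of_forall fun y => ?_)
    change ⟪gradp H y, w⟫_ℝ = ⟪w, gradp H y⟫_ℝ
    exact real_inner_comm _ _
  have h5 : HasFDerivAt (fun y => fderiv ℝ H y (0, w))
      ((ContinuousLinearMap.apply ℝ ℝ ((0, w) : Ph n)).comp (fderiv ℝ (fderiv ℝ H) z)) z :=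
    (ContinuousLinearMap.apply ℝ ℝ ((0, w) : Ph n)).hasFDerivAt.comp z h1
  have h6 : (fun y => ⟪gradp H y, w⟫_ℝ) = fun y => fderiv ℝ H y (0, w) := by
    funext y
    exact inner_gradp H y w
  rw [h6] at h3
  have h7 := h3.unique h5
  have h8 := congrArg (fun L : Ph n →L[ℝ] ℝ => L u) h7
  simp only [ContinuousLinearMap.comp_apply, ContinuousLinearMap.apply_apply,
    innerSL_apply_apply] at h8
  rw [real_inner_comm]
  exact h8

private theorem fderiv_gradx {n : ℕ} {H : Ph n → ℝ} (hH : ContDiff ℝ ∞ H) (z u : Ph n) (w : E n) :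
    ⟪fderiv ℝ (gradx H) z u, w⟫_ℝ = fderiv ℝ (fderiv ℝ H) z u (w, 0) := by
  have h1 : HasFDerivAt (fderiv ℝ H) (fderiv ℝ (fderiv ℝ H) z) z :=
    ((contDiff_D hH).differentiable (by simp) z).hasFDerivAt
  have h2 : HasFDerivAt (gradx H) (fderiv ℝ (gradx H) z) z :=
    ((contDiff_gradx hH).differentiable (by simp) z).hasFDerivAt
  have h3 : HasFDerivAt (fun y => ⟪gradx H y, w⟫_ℝ)
      ((innerSL ℝ w).comp (fderiv ℝ (gradx H) z)) z := by
    have h4 := (innerSL ℝ w).hasFDerivAt.comp z h2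
    refine h4.congr_of_eventuallyEq (Filter.Eventually.of_forall fun y => ?_)
    change ⟪gradx H y, w⟫_ℝ = ⟪w, gradx H y⟫_ℝ
    exact real_inner_comm _ _
  have h5 : HasFDerivAt (fun y => fderiv ℝ H y (w, 0))
      ((ContinuousLinearMap.apply ℝ ℝ ((w, 0) : Ph n)).comp (fderiv ℝ (fderiv ℝ H) z)) z :=
    (ContinuousLinearMap.apply ℝ ℝ ((w, 0) : Ph n)).hasFDerivAt.comp z h1
  have h6 : (fun y => ⟪gradx H y, w⟫_ℝ) = fun y => fderiv ℝ H y (w, 0) := by
    funext y
    exact inner_gradx H y w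
  rw [h6] at h3
  have h7 := h3.unique h5
  have h8 := congrArg (fun L : Ph n →L[ℝ] ℝ => L u) h7
  simp only [ContinuousLinearMap.comp_apply, ContinuousLinearMap.apply_apply,
    innerSL_apply_apply] at h8
  rw [real_inner_comm]
  exact h8

private theorem fderiv_XH {n : ℕ} {H : Ph n → ℝ} (hH : ContDiff ℝ ∞ H) (z u : Ph n) :
    fderiv ℝ (XH H) z u = (fderiv ℝ (gradp H) z u, -fderiv ℝ (gradx H) z u) := by
  have h1 : HasFDerivAt (gradp H) (fderiv ℝ (gradp H) z) z :=
    ((contDiff_gradp hH).differentiable (by simp) z).hasFDerivAt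
  have h2 : HasFDerivAt (gradx H) (fderiv ℝ (gradx H) z) z :=
    ((contDiff_gradx hH).differentiable (by simp) z).hasFDerivAt
  have h3 : HasFDerivAt (XH H) ((fderiv ℝ (gradp H) z).prod (-fderiv ℝ (gradx H) z)) z :=
    h1.prodMk h2.neg
  rw [h3.fderiv]
  rfl

private theorem coord {n : ℕ} (v : E n) (i : Fin n) :
    v i = ⟪v, EuclideanSpace.single i (1 : ℝ)⟫_ℝ := by
  rw [EuclideanSpace.inner_single_right]
  simp

theorem trace_XH {n : ℕ} {H : Ph n → ℝ} (hH : ContDiff ℝ ∞ H) (z : Ph n) :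
    LinearMap.trace ℝ (Ph n) (fderiv ℝ (XH H) z : Ph n →ₗ[ℝ] Ph n) = 0 := by
  have hsym : IsSymmSndFDerivAt ℝ H z :=
    hH.contDiffAt.isSymmSndFDerivAt (by
      rw [minSmoothness_of_isRCLikeNormedField]
      exact WithTop.coe_le_coe.mpr le_top)
  have e : ∀ i, (EuclideanSpace.basisFun (Fin n) ℝ).toBasis i = EuclideanSpace.single i (1 : ℝ) := by
    intro i
    simp
  have r : ∀ (v : E n) i, (EuclideanSpace.basisFun (Fin n) ℝ).toBasis.repr v i = v i := by
    intro v i
    simp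
  rw [LinearMap.trace_eq_matrix_trace ℝ ((EuclideanSpace.basisFun (Fin n) ℝ).toBasis.prod
    (EuclideanSpace.basisFun (Fin n) ℝ).toBasis), Matrix.trace, Fintype.sum_sum_type,
    ← Finset.sum_add_distrib]
  refine Finset.sum_eq_zero fun i _ => ?_
  simp only [Matrix.diag_apply, LinearMap.toMatrix_apply,
    Module.Basis.prod_repr_inl, Module.Basis.prod_repr_inr, ContinuousLinearMap.coe_coe]
  have b1 : ((EuclideanSpace.basisFun (Fin n) ℝ).toBasis.prod
      (EuclideanSpace.basisFun (Fin n) ℝ).toBasis) (Sum.inl i) =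
      ((EuclideanSpace.single i (1 : ℝ), 0) : Ph n) := by
    refine Prod.ext ?_ ?_
    · rw [Module.Basis.prod_apply_inl_fst]
      exact e i
    · rw [Module.Basis.prod_apply_inl_snd]
  have b2 : ((EuclideanSpace.basisFun (Fin n) ℝ).toBasis.prod
      (EuclideanSpace.basisFun (Fin n) ℝ).toBasis) (Sum.inr i) =
      ((0, EuclideanSpace.single i (1 : ℝ)) : Ph n) := by
    refine Prod.ext ?_ ?_
    · rw [Module.Basis.prod_apply_inr_fst]
    · rw [Module.Basis.prod_apply_inr_snd]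
      exact e i
  rw [b1, b2, r, r, fderiv_XH hH, fderiv_XH hH]
  simp only
  rw [coord, coord (-_) i, inner_neg_left, fderiv_gradp hH, fderiv_gradx hH, hsym.eq]
  ring

theorem XH_sh {n : ℕ} {H : Ph n → ℝ} (hper : ∀ k z, H (sh k z) = H z) (k : Fin n → ℤ) (z : Ph n) :
    XH H (sh k z) = XH H z := by
  have h1 : ∀ y : Ph n, sh k y = y + ((latt k, 0) : Ph n) := by
    intro y
    refine Prod.ext rfl ?_
    change y.2 = y.2 + 0
    rw [add_zero]
  have h2 : fderiv ℝ H (sh k z) = fderiv ℝ H z := by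
    rw [h1, ← fderiv_comp_add_right]
    congr 1
    funext y
    rw [← h1]
    exact hper k y
  unfold XH gradp gradx
  rw [h2]

theorem energy_const {n : ℕ} {H : Ph n → ℝ} (hH : ContDiff ℝ ∞ H) {Z : ℝ → Ph n}
    (hZ : ∀ t, HasDerivAt Z (XH H (Z t)) t) (t : ℝ) : H (Z t) = H (Z 0) := by
  have hd : ∀ s, HasDerivAt (fun s => H (Z s)) 0 s := by
    intro s
    have h1 : HasFDerivAt H (fderiv ℝ H (Z s)) (Z s) :=
      (hH.differentiable (by simp) (Z s)).hasFDerivAt
    have h2 := h1.comp_hasDerivAt s (hZ s)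
    have h3 : fderiv ℝ H (Z s) (XH H (Z s)) = 0 := by
      have e1 : XH H (Z s) = ((gradp H (Z s), 0) : Ph n) - ((0, gradx H (Z s)) : Ph n) := by
        refine Prod.ext ?_ ?_
        · change gradp H (Z s) = gradp H (Z s) - 0
          rw [sub_zero]
        · change -gradx H (Z s) = 0 - gradx H (Z s)
          rw [zero_sub]
      rw [e1, map_sub, ← inner_gradx, ← inner_gradp, real_inner_comm, sub_self]
    rw [h3] at h2
    exact h2
  exact is_const_of_deriv_eq_zero (fun s => (hd s).differentiableAt) (fun s => (hd s).deriv) t 0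

end Pool.Agent.Helper59.GT
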