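import Mathlib

/-!
# GT-02 SmoothSol: solutions of smooth autonomous equations are smooth

Proof. By induction on `m : ℕ`: `Z` is `C ^ m`. `Z` is differentiable, so continuous (`m = 0`). If `Z` is `C ^ m` then `deriv Z = X ∘ Z` is `C ^ m`, so `Z` is `C ^ (m + 1)` (`contDiff_succ_iff_deriv`).
Then `contDiff_infty`.
-/

set_option autoImplicit false
set_option maxSynthPendingDepth 3

open scoped ContDiff

namespace Pool.Agent.Helper59.GT

theorem contDiff_of_solution {F : Type} [NormedAddCommGroup F] [NormedSpace ℝ F] {X : F → F} (hX : ContDiff ℝ ∞ X)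
    {Z : ℝ → F} (hZ : ∀ t, HasDerivAt Z (X (Z t)) t) : ContDiff ℝ ∞ Z := by
  have hd : Differentiable ℝ Z := fun t => (hZ t).differentiableAt
  have hdz : deriv Z = X ∘ Z := funext fun t => (hZ t).deriv
  have key : ∀ m : ℕ, ContDiff ℝ m Z := by
    intro m
    induction m with
    | zero => exact contDiff_zero.2 hd.continuous
    | succ m ih =>
      have : ((m + 1 : ℕ) : WithTop ℕ∞) = (m : WithTop ℕ∞) + 1 := by push_cast; rfl
      rw [this, contDiff_succ_iff_deriv]
      refine ⟨hd, ?_, ?_⟩
      · intro h
        exact absurd h (by simp)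
      · rw [hdz]
        exact (hX.of_le (by exact_mod_cast le_top)).comp ih
  exact contDiff_infty.2 key

end Pool.Agent.Helper59.GT
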