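import Pool.Agent.Helper59.GT.EulerConv

/-!
# GT-06 Liouville: the time one map of a divergence free field does not decrease volume

Proof. Let `A` be compact, `φ = Φ 1`. For `m` large (`h = 1 / m`, `h K < 1`, `C h ^ 2 ≤ 1`), `eul_iterate_volume` gives `(1 - C / m ^ 2) ^ m μ A ≤ μ (eul ^ m '' A)`, and `(1 - C / m ^ 2) ^ m ≥ 1 - C / m` (`one_add_mul_le_pow`). By
`euler_conv`, `eul ^ m '' A ⊆ cthickening (M / m) (φ '' A)`; `φ '' A` is compact (`φ` is continuous by `IsFlow.dist_le`), so `μ (cthickening (M / m) (φ '' A)) → μ (φ '' A)`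
(`tendsto_measure_cthickening_of_isCompact`). In the limit `μ A ≤ μ (φ '' A)` (`μ A < ∞`; `le_of_tendsto_of_tendsto`).
For measurable `A` use inner regularity: `μ A = ⨆ μ (compact subsets)` (`MeasurableSet.measure_eq_iSup_isCompact`, valid for σ-finite Borel measures on `F`; a Haar measure is regular), and `μ (φ '' K) ≤ μ (φ '' A)`.
-/

set_option autoImplicit false
set_option maxSynthPendingDepth 3

open MeasureTheory
open scoped NNReal

namespace Pool.Agent.Helper59.GT

variable {F : Type} [NormedAddCommGroup F] [NormedSpace ℝ F]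

private theorem liouville_compact [FiniteDimensional ℝ F] [MeasurableSpace F] [BorelSpace F]
    (μ : Measure F) [μ.IsAddHaarMeasure]
    {X : F → F} {Φ : ℝ → F → F} (h : IsFlow X Φ) {K : ℝ≥0} (hK : LipschitzWith K X) {C : ℝ} (hC : ∀ z, ‖X z‖ ≤ C)
    (hd : Differentiable ℝ X) (ht : ∀ z, LinearMap.trace ℝ F (fderiv ℝ X z : F →ₗ[ℝ] F) = 0)
    (A : Set F) (hA : IsCompact A) : μ A ≤ μ (Φ 1 '' A) := by
  have hprop : ProperSpace F := FiniteDimensional.proper ℝ F
  obtain ⟨C', hC'0, hvol⟩ := eul_iterate_volume (F := F) μ K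
  obtain ⟨M, hM0, hM⟩ := euler_conv h hK hC
  have hφ : Continuous (Φ 1) := by
    have h1 : LipschitzWith (Real.toNNReal (Real.exp (K * |1|))) (Φ 1) := by
      apply LipschitzWith.of_dist_le_mul
      intro z w
      rw [Real.coe_toNNReal _ (Real.exp_pos _).le]
      exact h.dist_le hK 1 z w
    exact h1.continuous
  have hcomp : IsCompact (Φ 1 '' A) := hA.image hφ
  -- the left side
  have hleft : Filter.Tendsto (fun m : ℕ => ENNReal.ofReal (1 - C' / m) * μ A) Filter.atTop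
      (nhds (μ A)) := by
    have h1 : Filter.Tendsto (fun m : ℕ => ENNReal.ofReal (1 - C' / m)) Filter.atTop
        (nhds (ENNReal.ofReal 1)) := by
      apply ENNReal.tendsto_ofReal
      have h2 : Filter.Tendsto (fun m : ℕ => 1 - C' / (m : ℝ)) Filter.atTop (nhds (1 - 0)) :=
        (tendsto_const_div_atTop_nhds_zero_nat C').const_sub 1
      rwa [sub_zero] at h2
    rw [ENNReal.ofReal_one] at h1
    have h3 := ENNReal.Tendsto.mul_const (b := μ A) h1 (Or.inl one_ne_zero)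
    rwa [one_mul] at h3
  -- the right side
  have hright : Filter.Tendsto (fun m : ℕ => μ (Metric.cthickening (M / m) (Φ 1 '' A)))
      Filter.atTop (nhds (μ (Φ 1 '' A))) :=
    (tendsto_measure_cthickening_of_isCompact hcomp).comp
      (tendsto_const_div_atTop_nhds_zero_nat M)
  refine le_of_tendsto_of_tendsto hleft hright ?_
  have hev : ∀ᶠ m : ℕ in Filter.atTop, 1 ≤ m ∧ (K : ℝ) < m ∧ C' ≤ m := by
    refine (Filter.eventually_ge_atTop 1).and ?_
    exact (tendsto_natCast_atTop_atTop.eventually_gt_atTop (K : ℝ)).and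
      (tendsto_natCast_atTop_atTop.eventually_ge_atTop C')
  filter_upwards [hev] with m hm
  obtain ⟨hm1, hmK, hmC⟩ := hm
  have hm1' : (1 : ℝ) ≤ m := by exact_mod_cast hm1
  have hm0 : (0 : ℝ) < m := by linarith
  have g0 : (0 : ℝ) ≤ 1 / m := by positivity
  have g1 : (1 : ℝ) / m ≤ 1 := by
    rw [div_le_one hm0]
    exact hm1'
  have g2 : (1 : ℝ) / m * K < 1 := by
    rw [one_div, inv_mul_lt_iff₀ hm0, mul_one]
    exact hmK
  have g3 : C' * (1 / (m : ℝ)) ^ 2 ≤ 1 := by
    rw [one_div, inv_pow, ← div_eq_mul_inv, div_le_one (by positivity)]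
    nlinarith
  have hv := hvol X hK hd ht (1 / (m : ℝ)) g0 g1 g2 g3 m A hA.isClosed.measurableSet
  have hb : 1 - C' / m ≤ (1 - C' * (1 / (m : ℝ)) ^ 2) ^ m := by
    have h1 : -2 ≤ -(C' * (1 / (m : ℝ)) ^ 2) := by linarith
    have h2 := one_add_mul_le_pow h1 m
    have h3 : 1 + (m : ℝ) * -(C' * (1 / (m : ℝ)) ^ 2) = 1 - C' / m := by
      have h4 : (m : ℝ) * (C' * (1 / (m : ℝ)) ^ 2) = C' / m := by
        field_simp
      rw [mul_neg, h4, sub_eq_add_neg]
    rw [h3] at h2
    rwa [← sub_eq_add_neg] at h2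
  have hsub : (eul X (1 / (m : ℝ)))^[m] '' A ⊆ Metric.cthickening (M / m) (Φ 1 '' A) := by
    rintro _ ⟨z, hz, rfl⟩
    refine Metric.mem_cthickening_of_dist_le _ (Φ 1 z) _ _ ⟨z, hz, rfl⟩ ?_
    rw [dist_eq_norm]
    exact hM m hm1 z
  calc ENNReal.ofReal (1 - C' / m) * μ A
      ≤ ENNReal.ofReal ((1 - C' * (1 / (m : ℝ)) ^ 2) ^ m) * μ A :=
        mul_le_mul_left (ENNReal.ofReal_le_ofReal hb) _
    _ ≤ μ ((eul X (1 / (m : ℝ)))^[m] '' A) := hv
    _ ≤ μ (Metric.cthickening (M / m) (Φ 1 '' A)) := measure_mono hsub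

theorem liouville [FiniteDimensional ℝ F] [MeasurableSpace F] [BorelSpace F] (μ : Measure F) [μ.IsAddHaarMeasure]
    {X : F → F} {Φ : ℝ → F → F} (h : IsFlow X Φ) {K : ℝ≥0} (hK : LipschitzWith K X) {C : ℝ} (hC : ∀ z, ‖X z‖ ≤ C)
    (hd : Differentiable ℝ X) (ht : ∀ z, LinearMap.trace ℝ F (fderiv ℝ X z : F →ₗ[ℝ] F) = 0)
    (A : Set F) (hA : MeasurableSet A) : μ A ≤ μ (Φ 1 '' A) := by
  have hprop : ProperSpace F := FiniteDimensional.proper ℝ F
  rw [hA.measure_eq_iSup_isCompact]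
  refine iSup_le fun B => iSup_le fun hBA => iSup_le fun hB => ?_
  exact (liouville_compact μ h hK hC hd ht B hB).trans (measure_mono (Set.image_mono hBA))

end Pool.Agent.Helper59.GT
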