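import Pool.Agent.Helper59.GT.Phase

/-!
# GT-10 PerLip: a smooth periodic vector field which vanishes for large momenta is bounded and Lipschitz

Proof. Let `Q` be the compact set of the `z` with `z.1 ∈ [0, 1] ^ n` and `‖z.2‖ ≤ M + 1`. `‖X‖` and `‖D X‖` are continuous, so bounded on `Q`. Every `z` has a translate `sh k z` with position in `[0, 1] ^ n` (integer parts);
`X` and `D X` are invariant under `sh k` (`fderiv_comp_add_right`), and vanish for `‖z.2‖ > M` (open set where `X = 0`). So both are bounded everywhere; `lipschitzWith_of_nnnorm_fderiv_le`.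
-/

set_option autoImplicit false
set_option maxSynthPendingDepth 3

open scoped ContDiff NNReal

namespace Pool.Agent.Helper59.GT

private lemma pl_norm {n : ℕ} (x : E n) (hx : ∀ i, 0 ≤ x i ∧ x i < 1) : ‖x‖ ≤ Real.sqrt n := by
  rw [EuclideanSpace.norm_eq]
  apply Real.sqrt_le_sqrt
  calc ∑ i, ‖x i‖ ^ 2 ≤ ∑ _i : Fin n, (1 : ℝ) := by
        apply Finset.sum_le_sum
        intro i _
        rw [Real.norm_eq_abs, abs_of_nonneg (hx i).1]
        nlinarith [(hx i).1, (hx i).2]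
    _ = n := by simp

private lemma pl_floor {n : ℕ} (z : Ph n) : ∃ k : Fin n → ℤ, ‖(sh k z).1‖ ≤ Real.sqrt n := by
  refine ⟨fun i => -⌊z.1 i⌋, pl_norm _ (fun i => ?_)⟩
  have h1 : (sh (fun i => -⌊z.1 i⌋) z).1 i = z.1 i - ⌊z.1 i⌋ := by
    show z.1 i + (latt (fun i => -⌊z.1 i⌋) : E n) i = _
    rw [latt_apply]
    push_cast
    ring
  rw [h1]
  exact ⟨by linarith [Int.floor_le (z.1 i)], by linarith [Int.lt_floor_add_one (z.1 i)]⟩

theorem per_lip {n : ℕ} {X : Ph n → Ph n} (hX : ContDiff ℝ ∞ X) (hper : ∀ k z, X (sh k z) = X z) (M : ℝ)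
    (hM : ∀ z : Ph n, M < ‖z.2‖ → X z = 0) : ∃ (K : ℝ≥0) (C : ℝ), LipschitzWith K X ∧ ∀ z, ‖X z‖ ≤ C := by
  obtain ⟨R, hR1, hR2⟩ : ∃ R : ℝ, Real.sqrt n ≤ R ∧ M ≤ R :=
    ⟨max (Real.sqrt n) M, le_max_left _ _, le_max_right _ _⟩
  have hR0 : 0 ≤ R := (Real.sqrt_nonneg _).trans hR1
  have hcomp : IsCompact (Metric.closedBall (0 : Ph n) R) := isCompact_closedBall _ _
  have hXc : Continuous X := hX.continuous
  have hDc : Continuous (fderiv ℝ X) := hX.continuous_fderiv (by simp)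
  obtain ⟨C₁, hC₁⟩ := hcomp.exists_bound_of_continuousOn hXc.continuousOn
  obtain ⟨C₂, hC₂⟩ := hcomp.exists_bound_of_continuousOn hDc.continuousOn
  have h0 : (0 : Ph n) ∈ Metric.closedBall (0 : Ph n) R := Metric.mem_closedBall_self hR0
  have hC₁0 : 0 ≤ C₁ := (norm_nonneg _).trans (hC₁ 0 h0)
  have hC₂0 : 0 ≤ C₂ := (norm_nonneg _).trans (hC₂ 0 h0)
  have hmem : ∀ z : Ph n, ‖z.2‖ ≤ M → ∃ k, sh k z ∈ Metric.closedBall (0 : Ph n) R := by
    intro z hz
    obtain ⟨k, hk⟩ := pl_floor z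
    refine ⟨k, ?_⟩
    rw [mem_closedBall_zero_iff, Prod.norm_def]
    exact max_le (hk.trans hR1) (hz.trans hR2)
  have hfper : ∀ k (z : Ph n), fderiv ℝ X (sh k z) = fderiv ℝ X z := by
    intro k z
    have h1 : (fun w : Ph n => X (w + ((latt k, 0) : Ph n))) = X := by
      funext w
      have h2 : w + ((latt k, 0) : Ph n) = sh k w := by
        show ((w.1 + latt k, w.2 + 0) : Ph n) = (w.1 + latt k, w.2)
        rw [add_zero]
      rw [h2, hper]
    have h3 := fderiv_comp_add_right (𝕜 := ℝ) (f := X) (x := z) ((latt k, 0) : Ph n)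
    rw [h1] at h3
    have h4 : z + ((latt k, 0) : Ph n) = sh k z := by
      show ((z.1 + latt k, z.2 + 0) : Ph n) = (z.1 + latt k, z.2)
      rw [add_zero]
    rw [h3, h4]
  have hXb : ∀ z, ‖X z‖ ≤ C₁ := by
    intro z
    rcases le_or_gt ‖z.2‖ M with h | h
    · obtain ⟨k, hk⟩ := hmem z h
      rw [← hper k z]
      exact hC₁ _ hk
    · rw [hM z h, norm_zero]
      exact hC₁0
  have hDb : ∀ z, ‖fderiv ℝ X z‖ ≤ C₂ := by
    intro z
    rcases le_or_gt ‖z.2‖ M with h | h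
    · obtain ⟨k, hk⟩ := hmem z h
      rw [← hfper k z]
      exact hC₂ _ hk
    · have hopen : IsOpen {w : Ph n | M < ‖w.2‖} := isOpen_lt continuous_const (by fun_prop)
      have hev : X =ᶠ[nhds z] fun _ => (0 : Ph n) := by
        filter_upwards [hopen.mem_nhds h] with w hw
        exact hM w hw
      rw [hev.fderiv_eq, fderiv_fun_const]
      simpa using hC₂0
  refine ⟨⟨C₂, hC₂0⟩, C₁, ?_, hXb⟩
  refine lipschitzWith_of_nnnorm_fderiv_le (𝕜 := ℝ) (hX.differentiable (by simp)) (fun z => ?_)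
  exact hDb z

end Pool.Agent.Helper59.GT
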