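import Pool.Agent.Helper59.GT.Cut
import Pool.Agent.Helper59.GT.PerLip
import Pool.Agent.Helper59.GT.Liouville
import Pool.Agent.Helper59.GT.SmoothSol

/-!
# GT-13 GeoFlow: the geodesic flow of a smooth metric in phase space

Proof. Take `H, M` from `exists_cut`, `X = XH H`: smooth (`contDiff_XH`), periodic (`XH_sh`), divergence free (`trace_XH`), Lipschitz and bounded (`per_lip`). `Φ` = its flow (`exists_flow`).
* `sh`: `t ↦ sh k (Φ t z)` is a solution (`X` is periodic) with value `sh k z` at `0`: `eq_of_deriv`.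
* `energy`: `H` is constant along solutions (`energy_const`). If `Hk g z < 4` then `H (Φ t z) = H z = Hk g z < 4`, so `Hk g (Φ t z) < 4` (otherwise `H ≥ 4`) and `Hk g (Φ t z) = H (Φ t z) = Hk g z`.
* `ham`: by `energy` and `XH H = XH (Hk g)` on `Hk g < 4`.
* `uniq`: `Z` solves the equation of `Hk g`, so `Hk g (Z t) = Hk g (Z 0) < 4` (`energy_const` with `Hk g`, smooth), so `Z` solves the equation of `X`: `eq_of_deriv`.
* `vol`: `liouville` with `μ = volume`. `smooth`: `contDiff_of_solution`.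
-/

set_option autoImplicit false
set_option maxSynthPendingDepth 3

open MeasureTheory
open scoped ContDiff

namespace Pool.Agent.Helper59.GT

/-- Properties of the (cut off) geodesic flow in phase space. -/
structure GeoFlow {n : ℕ} (g : E n → Bil n) (Φ : ℝ → Ph n → Ph n) (K : ℝ) : Prop where
  zero : ∀ z, Φ 0 z = z
  add : ∀ s t z, Φ (s + t) z = Φ s (Φ t z)
  dist_le : ∀ t z w, dist (Φ t z) (Φ t w) ≤ Real.exp (K * |t|) * dist z w
  sh : ∀ t k z, Φ t (sh k z) = sh k (Φ t z)
  energy : ∀ z, Hk g z < 4 → ∀ t, Hk g (Φ t z) = Hk g z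
  ham : ∀ z, Hk g z < 4 → ∀ t, HasDerivAt (fun s => Φ s z) (XH (Hk g) (Φ t z)) t
  uniq : ∀ Z : ℝ → Ph n, (∀ t, HasDerivAt Z (XH (Hk g) (Z t)) t) → Hk g (Z 0) < 4 → ∀ t, Z t = Φ t (Z 0)
  vol : ∀ A : Set (Ph n), MeasurableSet A → volume A ≤ volume (Φ 1 '' A)
  smooth : ∀ z, ContDiff ℝ ∞ (fun t => Φ t z)

private theorem gf_sh_eq {n : ℕ} (k : Fin n → ℤ) (z : Ph n) : sh k z = z + (latt k, 0) := by
  simp [sh, Prod.ext_iff]

private theorem gf_smooth {n : ℕ} {g : E n → Bil n} (hg : IsMetric ∞ g) : ContDiff ℝ ∞ (Hk g) := by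
  have h1 : ContDiff ℝ ∞ (fun z : Ph n => cog g z.1) := (contDiff_cog hg).comp contDiff_fst
  have h2 : ContDiff ℝ ∞ (fun z : Ph n => cog g z.1 z.2) := h1.clm_apply contDiff_snd
  exact contDiff_const.mul (h2.inner ℝ contDiff_snd)

theorem exists_geoFlow {n : ℕ} {g : E n → Bil n} (hg : IsMetric ∞ g) :
    ∃ (Φ : ℝ → Ph n → Ph n) (K : ℝ), 0 ≤ K ∧ GeoFlow g Φ K := by
  obtain ⟨H, M, hH, hper, hlt, hX, hge, hM⟩ := exists_cut hg
  have hXs : ContDiff ℝ ∞ (XH H) := contDiff_XH hH
  have hXper : ∀ k z, XH H (sh k z) = XH H z := XH_sh hper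
  obtain ⟨K, C, hK, hC⟩ := per_lip hXs hXper M hM
  obtain ⟨Φ, hΦ⟩ := exists_flow (XH H) K hK C hC
  have hen : ∀ z t, H (Φ t z) = H z := by
    intro z t
    have h1 := energy_const hH (Z := fun s => Φ s z) (hΦ.deriv · z) t
    rw [hΦ.zero] at h1
    exact h1
  have hsub : ∀ z, Hk g z < 4 → ∀ t, Hk g (Φ t z) < 4 := by
    intro z hz t
    by_contra h
    have h1 := hge _ (not_lt.1 h)
    rw [hen, hlt z hz] at h1
    linarith
  refine ⟨Φ, K, K.2, ?_⟩
  refine
    { zero := hΦ.zero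
      add := hΦ.add hK
      dist_le := hΦ.dist_le hK
      sh := ?_
      energy := ?_
      ham := ?_
      uniq := ?_
      vol := ?_
      smooth := ?_ }
  · intro t k z
    have h1 := hΦ.eq_of_deriv hK (Z := fun t => sh k (Φ t z)) (fun t => by
      have h2 := (hΦ.deriv t z).add_const ((latt k, 0) : Ph n)
      have h3 : (fun s => sh k (Φ s z)) = fun s => Φ s z + ((latt k, 0) : Ph n) := by
        funext s
        exact gf_sh_eq k _
      rw [h3, hXper]
      exact h2) t
    rw [hΦ.zero] at h1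
    exact h1.symm
  · intro z hz t
    rw [← hlt z hz, ← hlt _ (hsub z hz t), hen]
  · intro z hz t
    rw [← hX _ (hsub z hz t)]
    exact hΦ.deriv t z
  · intro Z hZ hZ0 t
    have h1 : ∀ t, Hk g (Z t) < 4 := by
      intro t
      rw [energy_const (gf_smooth hg) hZ t]
      exact hZ0
    exact hΦ.eq_of_deriv hK (fun t => by
      rw [hX _ (h1 t)]
      exact hZ t) t
  · intro A hA
    have : (volume : Measure (Ph n)).IsAddHaarMeasure := by
      rw [Measure.volume_eq_prod]
      infer_instance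
    exact liouville volume hΦ hK hC (hXs.differentiable (by simp)) (trace_XH hH) A hA
  · intro z
    exact contDiff_of_solution hXs (hΦ.deriv · z)

end Pool.Agent.Helper59.GT
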