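import Pool.Agent.Helper59.GT.Cometric
import Pool.Agent.Helper59.GT.HamTrace

/-!
# GT-14 GeoHam: geodesics and solutions of Hamilton's equations

Proof. `XH_Hk`: from `Hk g (x, p) = (1 / 2) ⟪cog g x p, p⟫`, product rule, `cog_symm`: `D Hk (x, p) (y, w) = (1 / 2) ⟪D cog (y) p, p⟫ + ⟪cog g x p, w⟫`; with `p = A v`: `gradp = v`, and by `cog_deriv`
`⟪gradx, w⟫ = - (1 / 2) (D g (w)) v v`.
`geod_of_ham`: `Z = (c, p)`, `v t = cog g (c t) (p t)`, so `p = A v` (`cog_right`), `c' = v` (first component), and for constant `w`: `g (c) (c', w) = ⟪A v, w⟫ = ⟪p, w⟫` has derivative `⟪p', w⟫ = - ⟪gradx, w⟫ = (1 / 2) (D g (w)) v v`.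
Speed: `g (c', c') = 2 Hk` (`Hk_eq`).
`ham_of_geod`: `p t = A (c t) (c' t)`. For every `w`, `⟪p t, w⟫ = g (c t) (c' t) w` has derivative `(1 / 2) (D g (w)) (c', c') = ⟪- gradx, w⟫`; so `p` has derivative `- gradx Hk (c, p)` (components: `hasDerivAt_euclidean` or
`hasDerivAt_pi`). And `c' = gradp`.
-/

set_option autoImplicit false
set_option maxSynthPendingDepth 3

open scoped ContDiff InnerProductSpace

namespace Pool.Agent.Helper59.GT

variable {n : ℕ} {g : E n → Bil n}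

private lemma fderiv_Hk (hg : IsMetric ∞ g) (x p y w : E n) :
    fderiv ℝ (Hk g) (x, p) (y, w) =
      (1 / 2) * ⟪fderiv ℝ (cog g) x y p, p⟫_ℝ + ⟪cog g x p, w⟫_ℝ := by
  have h1 : HasFDerivAt (cog g) (fderiv ℝ (cog g) x) ((x, p) : Ph n).1 :=
    ((contDiff_cog hg).differentiable (by simp) x).hasFDerivAt
  have h2 : HasFDerivAt (fun z : Ph n => cog g z.1)
      ((fderiv ℝ (cog g) x).comp (ContinuousLinearMap.fst ℝ (E n) (E n))) (x, p) :=
    h1.comp (x, p) hasFDerivAt_fst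
  have h3 : HasFDerivAt (fun z : Ph n => z.2) (ContinuousLinearMap.snd ℝ (E n) (E n)) (x, p) :=
    hasFDerivAt_snd
  have h5 := ((h2.clm_apply h3).inner ℝ h3).const_mul (1 / 2)
  have h6 : HasFDerivAt (Hk g) _ (x, p) := h5
  rw [h6.fderiv]
  have h7 : ⟪cog g x w, p⟫_ℝ = ⟪cog g x p, w⟫_ℝ := by
    rw [cog_symm hg, real_inner_comm]
  simp only [_root_.smul_apply, ContinuousLinearMap.comp_apply,
    ContinuousLinearMap.prod_apply, _root_.add_apply, ContinuousLinearMap.flip_apply,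
    ContinuousLinearMap.coe_fst', ContinuousLinearMap.coe_snd', fderivInnerCLM_apply, smul_eq_mul,
    inner_add_left, h7]
  ring

private lemma hasDerivAt_of_inner {f : ℝ → E n} {f' : E n} {t : ℝ}
    (h : ∀ w : E n, HasDerivAt (fun s => ⟪f s, w⟫_ℝ) ⟪f', w⟫_ℝ t) : HasDerivAt f f' t := by
  rw [hasDerivAt_iff_hasFDerivAt, ← hasFDerivWithinAt_univ, hasFDerivWithinAt_euclidean]
  intro i
  rw [hasFDerivWithinAt_univ]
  have h1 := h (EuclideanSpace.single i 1)
  have h2 : ∀ v : E n, ⟪v, EuclideanSpace.single i (1 : ℝ)⟫_ℝ = v i := by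
    intro v
    rw [EuclideanSpace.inner_single_right]
    simp
  simp only [h2] at h1
  refine h1.hasFDerivAt.congr_fderiv ?_
  ext
  simp

theorem gradp_Hk (hg : IsMetric ∞ g) (x v : E n) : gradp (Hk g) (x, opA g x v) = v := by
  refine ext_inner_right ℝ fun w => ?_
  rw [inner_gradp, fderiv_Hk hg, map_zero, _root_.zero_apply, inner_zero_left,
    mul_zero, zero_add, cog_left hg]

theorem gradx_Hk (hg : IsMetric ∞ g) (x v w : E n) :
    ⟪gradx (Hk g) (x, opA g x v), w⟫_ℝ = -((1 / 2) * fderiv ℝ g x w v v) := by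
  rw [inner_gradx, fderiv_Hk hg, inner_zero_right, add_zero,
    cog_deriv hg (by exact_mod_cast le_top) x v w]
  ring

theorem geod_of_ham (hg : IsMetric ∞ g) {Z : ℝ → Ph n} (hZ : ∀ t, HasDerivAt Z (XH (Hk g) (Z t)) t) :
    IsGeodesic g (fun t => (Z t).1) ∧ (∀ t, deriv (fun s => (Z s).1) t = cog g (Z t).1 (Z t).2) ∧
      ∀ t, g (Z t).1 (cog g (Z t).1 (Z t).2) (cog g (Z t).1 (Z t).2) = 2 * Hk g (Z t) := by
  have hc : ∀ t, HasDerivAt (fun s => (Z s).1) (cog g (Z t).1 (Z t).2) t := by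
    intro t
    have h1 : HasDerivAt (fun s => (Z s).1) (XH (Hk g) (Z t)).1 t :=
      (ContinuousLinearMap.fst ℝ (E n) (E n)).hasFDerivAt.comp_hasDerivAt t (hZ t)
    have h2 : (XH (Hk g) (Z t)).1 = cog g (Z t).1 (Z t).2 := by
      have h3 := gradp_Hk hg (Z t).1 (cog g (Z t).1 (Z t).2)
      rw [cog_right hg] at h3
      exact h3
    rwa [h2] at h1
  have hd : ∀ t, deriv (fun s => (Z s).1) t = cog g (Z t).1 (Z t).2 := fun t => (hc t).deriv
  refine ⟨⟨fun t => (hc t).differentiableAt, fun t w => ?_⟩, hd, fun t => ?_⟩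
  · have h1 : HasDerivAt (fun s => (Z s).2) (XH (Hk g) (Z t)).2 t :=
      (ContinuousLinearMap.snd ℝ (E n) (E n)).hasFDerivAt.comp_hasDerivAt t (hZ t)
    have h2 : HasDerivAt (fun s => ⟪(Z s).2, w⟫_ℝ) ⟪(XH (Hk g) (Z t)).2, w⟫_ℝ t := by
      have h3 := h1.inner ℝ (hasDerivAt_const t w)
      simpa using h3
    have h3 : (fun s => g (Z s).1 (deriv (fun s => (Z s).1) s) w) = fun s => ⟪(Z s).2, w⟫_ℝ := by
      funext s
      rw [hd s, ← inner_opA, cog_right hg]
    have h4 : ⟪(XH (Hk g) (Z t)).2, w⟫_ℝ = (1 / 2) * fderiv ℝ g (Z t).1 w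
        (deriv (fun s => (Z s).1) t) (deriv (fun s => (Z s).1) t) := by
      have h5 := gradx_Hk hg (Z t).1 (cog g (Z t).1 (Z t).2) w
      rw [cog_right hg] at h5
      have h6 : (XH (Hk g) (Z t)).2 = -gradx (Hk g) ((Z t).1, (Z t).2) := rfl
      rw [h6, inner_neg_left, h5, hd t, neg_neg]
    rw [h4] at h2
    change HasDerivAt (fun s => g (Z s).1 (deriv (fun s => (Z s).1) s) w) _ t
    rw [h3]
    exact h2
  · have h1 := Hk_eq hg (Z t).1 (cog g (Z t).1 (Z t).2)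
    rw [cog_right hg] at h1
    have h2 : Hk g (Z t) = Hk g ((Z t).1, (Z t).2) := rfl
    rw [h2, h1]
    ring

theorem ham_of_geod (hg : IsMetric ∞ g) {c : ℝ → E n} (hc : IsGeodesic g c) (t : ℝ) :
    HasDerivAt (fun s => ((c s, opA g (c s) (deriv c s)) : Ph n))
      (XH (Hk g) (c t, opA g (c t) (deriv c t))) t := by
  have h1 : HasDerivAt c (deriv c t) t := (hc.1 t).hasDerivAt
  have h2 : XH (Hk g) (c t, opA g (c t) (deriv c t)) =
      (deriv c t, -gradx (Hk g) (c t, opA g (c t) (deriv c t))) := by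
    unfold XH
    rw [gradp_Hk hg]
  rw [h2]
  refine h1.prodMk (hasDerivAt_of_inner fun w => ?_)
  have h3 := hc.2 t w
  have h4 : (fun s => ⟪opA g (c s) (deriv c s), w⟫_ℝ) = fun s => g (c s) (deriv c s) w := by
    funext s
    rw [inner_opA]
  rw [h4, inner_neg_left, gradx_Hk hg, neg_neg]
  exact h3

end Pool.Agent.Helper59.GT
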