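import Pool.Agent.Helper59.GT.Cometric
import Pool.Agent.Helper59.GT.ELUnif

/-!
# GT-38 ConfLem: conformal metrics

Proof. `conf u g x = exp (2 u x) • g x`; `D (conf u g) x w = exp (2 u x) • (D g x w + 2 (D u x w) • g x)`.
`isMetric_conf`, `conf_conf`: clear (`exp` of a sum). `geodesic_conf`: by `geodesic_of_EL` for the metric `conf u g`: at `x = c t`, `u x = 0`, `D u x = EL g ...`, so
`EL (conf u g) x v a w = EL g x v a w + 2 (D u x v) g x v w - (D u x w) g x v v` and `D u x v = EL g x v a v = 0` because `g (c', c')` is constant (`EL_energy`), `g x v v = 1`. So it is `EL g x v a w - D u x w = 0`.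
`conf_close`: `‖exp (2 u) g - g‖ = |exp (2 u) - 1| ‖g‖`, and the derivative differs by `(exp (2 u) - 1) D g + 2 exp (2 u) D u ⊗ g`; `g`, `D g` are bounded (periodic, continuous).
-/

set_option autoImplicit false
set_option maxSynthPendingDepth 3

open scoped ContDiff

namespace Pool.Agent.Helper59.GT

variable {n : ℕ} {g : E n → Bil n}

theorem isMetric_conf {m : WithTop ℕ∞} {u : E n → ℝ} (hg : IsMetric m g) (hu : ContDiff ℝ m u)
    (hper : ∀ k x, u (x + latt k) = u x) : IsMetric m (conf u g) := by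
  refine ⟨?_, ?_, ?_, ?_⟩
  · exact ((contDiff_const.mul hu).exp).smul hg.smooth
  · intro x a b
    show (Real.exp (2 * u x) • g x) a b = (Real.exp (2 * u x) • g x) b a
    rw [ContinuousLinearMap.smul_apply, ContinuousLinearMap.smul_apply,
      ContinuousLinearMap.smul_apply, ContinuousLinearMap.smul_apply, hg.symm]
  · intro x a ha
    show 0 < (Real.exp (2 * u x) • g x) a a
    rw [ContinuousLinearMap.smul_apply, ContinuousLinearMap.smul_apply, smul_eq_mul]
    exact mul_pos (Real.exp_pos _) (hg.pos x a ha)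
  · intro k x
    show Real.exp (2 * u (x + latt k)) • g (x + latt k) = Real.exp (2 * u x) • g x
    rw [hper, hg.per]

theorem conf_conf (u v : E n → ℝ) (g : E n → Bil n) : conf v (conf u g) = conf (fun x => u x + v x) g := by
  funext x
  show Real.exp (2 * v x) • (Real.exp (2 * u x) • g x) = Real.exp (2 * (u x + v x)) • g x
  rw [smul_smul, ← Real.exp_add]
  congr 2
  ring

theorem fderiv_conf {u : E n → ℝ} (hg : IsMetric ∞ g) (x : E n) (hu : DifferentiableAt ℝ u x) (w : E n) :
    fderiv ℝ (conf u g) x w = Real.exp (2 * u x) • (fderiv ℝ g x w + (2 * fderiv ℝ u x w) • g x) := by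
  have h1 : HasFDerivAt (fun y => Real.exp (2 * u y))
      (Real.exp (2 * u x) • ((2 : ℝ) • fderiv ℝ u x)) x :=
    (hu.hasFDerivAt.const_mul 2).exp
  have h2 : HasFDerivAt g (fderiv ℝ g x) x :=
    (hg.smooth.differentiable (by simp) x).hasFDerivAt
  have h3 : HasFDerivAt (conf u g) _ x := h1.smul h2
  rw [h3.fderiv]
  rw [ContinuousLinearMap.add_apply, ContinuousLinearMap.smul_apply,
    ContinuousLinearMap.smulRight_apply, ContinuousLinearMap.smul_apply,
    ContinuousLinearMap.smul_apply, smul_add, smul_eq_mul, smul_eq_mul]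
  congr 1
  rw [smul_smul]

theorem geodesic_conf {u : E n → ℝ} (hg : IsMetric ∞ g) (hu : ContDiff ℝ ∞ u) (hper : ∀ k x, u (x + latt k) = u x)
    {c : ℝ → E n} (hs : ContDiff ℝ ∞ c) (hc : UnitSpeed g c) (h0 : ∀ t, u (c t) = 0)
    (h1 : ∀ t, fderiv ℝ u (c t) = EL g (c t) (deriv c t) (deriv (deriv c) t)) :
    IsGeodesic (conf u g) c ∧ UnitSpeed (conf u g) c := by
  have hm := isMetric_conf hg hu hper
  have hx : ∀ t, conf u g (c t) = g (c t) := by
    intro t
    show Real.exp (2 * u (c t)) • g (c t) = g (c t)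
    rw [h0, mul_zero, Real.exp_zero, one_smul]
  have hE : ∀ t, EL g (c t) (deriv c t) (deriv (deriv c) t) (deriv c t) = 0 := by
    intro t
    have e1 := EL_energy hg hs t
    have e2 : HasDerivAt (fun s => g (c s) (deriv c s) (deriv c s)) 0 t := by
      have e3 : (fun s => g (c s) (deriv c s) (deriv c s)) = fun _ => (1 : ℝ) := funext hc
      rw [e3]
      exact hasDerivAt_const t 1
    have e4 := e1.unique e2
    linarith
  refine ⟨geodesic_of_EL hm hs fun t => ?_, fun t => ?_⟩
  · ext w
    have hd : DifferentiableAt ℝ u (c t) := hu.differentiable (by simp) (c t)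
    rw [EL_apply, fderiv_conf hg _ hd, fderiv_conf hg _ hd, hx, h0, mul_zero, Real.exp_zero,
      one_smul, one_smul]
    have e1 := hE t
    rw [← h1 t] at e1
    have e2 : fderiv ℝ u (c t) w = EL g (c t) (deriv c t) (deriv (deriv c) t) w := by
      rw [h1 t]
    rw [EL_apply] at e2
    have e3 := hc t
    simp only [ContinuousLinearMap.add_apply, ContinuousLinearMap.smul_apply, smul_eq_mul,
      ContinuousLinearMap.zero_apply]
    rw [e1, e3, e2]
    ring
  · rw [hx]
    exact hc t

private theorem cl_bound {V : Type*} [NormedAddCommGroup V] {F : E n → V} (hF : Continuous F)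
    (hper : ∀ k x, F (x + latt k) = F x) : ∃ B : ℝ, 0 ≤ B ∧ ∀ x, ‖F x‖ ≤ B := by
  obtain ⟨B, hB⟩ := (isCompact_closedBall (0 : E n) (√n)).exists_bound_of_continuousOn
    hF.continuousOn
  refine ⟨B, ?_, fun x => ?_⟩
  · have h1 := hB 0 (by
      rw [Metric.mem_closedBall, dist_self]
      exact Real.sqrt_nonneg _)
    exact (norm_nonneg _).trans h1
  · rw [← hper (fun i => -⌊x i⌋) x]
    apply hB
    rw [mem_closedBall_zero_iff, EuclideanSpace.norm_eq]
    apply Real.sqrt_le_sqrt
    have h2 : ∀ i : Fin n, ‖(x + latt (fun i => -⌊x i⌋) : E n) i‖ ^ 2 ≤ 1 := by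
      intro i
      have h3 : (x + latt (fun i => -⌊x i⌋) : E n) i = Int.fract (x i) := by
        show x i + ((-⌊x i⌋ : ℤ) : ℝ) = Int.fract (x i)
        rw [Int.cast_neg, ← sub_eq_add_neg, Int.self_sub_floor]
      rw [h3, Real.norm_eq_abs, abs_of_nonneg (Int.fract_nonneg _)]
      exact pow_le_one₀ (Int.fract_nonneg _) (Int.fract_lt_one _).le
    refine (Finset.sum_le_sum fun i _ => h2 i).trans ?_
    simp

theorem conf_close (hg : IsMetric ∞ g) (ε : ℝ) (hε : 0 < ε) : ∃ δ > 0, ∀ u : E n → ℝ, Differentiable ℝ u →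
    (∀ x, |u x| < δ ∧ ‖fderiv ℝ u x‖ < δ) →
    ∀ x, ‖conf u g x - g x‖ < ε ∧ ‖fderiv ℝ (conf u g) x - fderiv ℝ g x‖ < ε := by
  obtain ⟨B1, hB1, hg1⟩ := cl_bound hg.smooth.continuous hg.per
  have hcd : Continuous (fderiv ℝ g) := hg.smooth.continuous_fderiv (by simp)
  have hpd : ∀ k x, fderiv ℝ g (x + latt k) = fderiv ℝ g x := by
    intro k x
    rw [← fderiv_comp_add_right]
    congr 1
    exact funext fun y => hg.per k y
  obtain ⟨B2, hB2, hg2⟩ := cl_bound hcd hpd
  set B := B1 + B2 + 1 with hB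
  have hBp : 0 < B := by linarith
  refine ⟨min (1 / 2) (ε / (20 * B)), lt_min (by norm_num) (by positivity), ?_⟩
  intro u hu hδ x
  obtain ⟨hu1, hu2⟩ := hδ x
  have hu3 : |u x| < 1 / 2 := hu1.trans_le (min_le_left _ _)
  have hu4 : |u x| * (20 * B) < ε := by
    rw [← lt_div_iff₀ (by positivity)]
    exact hu1.trans_le (min_le_right _ _)
  have hu5 : ‖fderiv ℝ u x‖ * (20 * B) < ε := by
    rw [← lt_div_iff₀ (by positivity)]
    exact hu2.trans_le (min_le_right _ _)
  have he : |Real.exp (2 * u x) - 1| ≤ 4 * |u x| := by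
    have h1 := Real.abs_exp_sub_one_le (x := 2 * u x) (by
      rw [abs_mul, abs_two]
      linarith)
    rw [abs_mul, abs_two] at h1
    linarith
  have he2 : Real.exp (2 * u x) ≤ 3 := by
    have h1 := (abs_le.1 he).2
    linarith
  have he3 := Real.exp_pos (2 * u x)
  have ha := abs_nonneg (u x)
  have hn := norm_nonneg (fderiv ℝ u x)
  constructor
  · have h1 : conf u g x - g x = (Real.exp (2 * u x) - 1) • g x := by
      show Real.exp (2 * u x) • g x - g x = _
      rw [sub_smul, one_smul]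
    rw [h1, norm_smul, Real.norm_eq_abs]
    have h2 := hg1 x
    calc |Real.exp (2 * u x) - 1| * ‖g x‖ ≤ (4 * |u x|) * B :=
          mul_le_mul he (by linarith) (norm_nonneg _) (by linarith)
      _ ≤ |u x| * (20 * B) := by nlinarith
      _ < ε := hu4
  · have h2 := hg1 x
    have h3 := hg2 x
    have key : ‖fderiv ℝ (conf u g) x - fderiv ℝ g x‖ ≤
        4 * |u x| * B + 3 * (2 * ‖fderiv ℝ u x‖) * B := by
      refine ContinuousLinearMap.opNorm_le_bound _ (by positivity) fun w => ?_
      have h4 : (fderiv ℝ (conf u g) x - fderiv ℝ g x) w =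
          (Real.exp (2 * u x) - 1) • fderiv ℝ g x w +
            Real.exp (2 * u x) • ((2 * fderiv ℝ u x w) • g x) := by
        rw [ContinuousLinearMap.sub_apply, fderiv_conf hg x (hu x), sub_smul, one_smul, smul_add]
        abel
      rw [h4]
      refine (norm_add_le _ _).trans ?_
      rw [norm_smul, norm_smul, norm_smul, Real.norm_eq_abs, Real.norm_eq_abs, abs_of_pos he3,
        norm_mul, Real.norm_eq_abs (2 : ℝ), abs_two, add_mul]
      have h5 := (fderiv ℝ g x).le_opNorm w
      have h6 := (fderiv ℝ u x).le_opNorm w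
      have hw := norm_nonneg w
      have h7 : ‖fderiv ℝ g x w‖ ≤ B * ‖w‖ := by
        refine h5.trans (mul_le_mul_of_nonneg_right (by linarith) hw)
      refine add_le_add ?_ ?_
      · calc |Real.exp (2 * u x) - 1| * ‖fderiv ℝ g x w‖ ≤ (4 * |u x|) * (B * ‖w‖) :=
              mul_le_mul he h7 (norm_nonneg _) (by linarith)
          _ = 4 * |u x| * B * ‖w‖ := by ring
      · calc Real.exp (2 * u x) * (2 * ‖fderiv ℝ u x w‖ * ‖g x‖)
            ≤ 3 * (2 * (‖fderiv ℝ u x‖ * ‖w‖) * B) := by
              refine mul_le_mul he2 ?_ (by positivity) (by norm_num)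
              exact mul_le_mul (by linarith) (by linarith) (norm_nonneg _) (by positivity)
          _ = 3 * (2 * ‖fderiv ℝ u x‖) * B * ‖w‖ := by ring
    refine key.trans_lt ?_
    nlinarith

end Pool.Agent.Helper59.GT
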