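import Pool.Agent.Helper59.GT.Defs

/-!
# GT-36 Cutoff: smooth periodic cutoff functions around a periodic set with gradient `≤ C / r`

Proof. `d x = Metric.infDist x S`: `1`-Lipschitz, periodic (`S` is invariant). Let `ψ` be a normalised smooth bump supported in `ball 0 (r / 8)` (`ContDiffBump.normed`, integral `1`, `≥ 0`) and `d' = d ⋆ ψ` (`MeasureTheory.convolution`), i.e. `d' x = ∫ ψ (y) d (x - y) dy`: smooth (`HasCompactSupport.contDiff_convolution_right` or
`_left`), `1`-Lipschitz, periodic, `|d' x - d x| ≤ r / 8`. `ζ : ℝ → ℝ` smooth, `0 ≤ ζ ≤ 1`, `ζ = 1` on `(-∞, 1/4]`, `ζ = 0` on `[3/4, ∞)` (`ζ s = Real.smoothTransition (3/2 - 2 s)`), `|ζ'| ≤ C`. `χ x = ζ (d' x / r)`: if `d x < r / 8` then `d' x < r / 4`, `χ = 1`; if `d x ≥ r` then `d' x ≥ 7 r / 8`, `χ = 0`;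
`‖D χ‖ ≤ C ‖D d'‖ / r ≤ C / r` (`norm_fderiv_le_of_lipschitz`). Periodic.
-/

set_option autoImplicit false
set_option maxSynthPendingDepth 3

open scoped ContDiff

namespace Pool.Agent.Helper59.GT

private lemma latt_neg' {n : ℕ} (k : Fin n → ℤ) : (latt (-k) : E n) = -latt k := by
  ext i
  simp [latt]

/-- the distance to an invariant set is periodic -/
private lemma infDist_per {n : ℕ} {S : Set (E n)} (hS : ∀ k, ∀ x ∈ S, x + latt k ∈ S)
    (k : Fin n → ℤ) (x : E n) : Metric.infDist (x + latt k) S = Metric.infDist x S := by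
  have himg : (fun y : E n => y + latt k) '' S = S := by
    ext y
    constructor
    · rintro ⟨z, hz, rfl⟩
      exact hS k z hz
    · intro hy
      refine ⟨y + latt (-k), hS (-k) y hy, ?_⟩
      simp [latt_neg']
  have hiso : Isometry fun y : E n => y + latt k := isometry_add_right (latt k)
  have h := Metric.infDist_image (x := x) (t := S) hiso
  rw [himg] at h
  exact h

private lemma lip_smoothTransition : ∃ B : NNReal, LipschitzWith B Real.smoothTransition := by
  have hsm : ContDiff ℝ 1 Real.smoothTransition :=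
    Real.smoothTransition.contDiff (n := 1)
  have hcd : Continuous (deriv Real.smoothTransition) := hsm.continuous_deriv (by simp)
  obtain ⟨B, hB⟩ := (isCompact_Icc (a := (0 : ℝ)) (b := 1)).exists_bound_of_continuousOn
    hcd.continuousOn
  refine ⟨B.toNNReal, lipschitzWith_of_nnnorm_deriv_le (hsm.differentiable (by simp)) ?_⟩
  intro x
  have hB0 : 0 ≤ B := (norm_nonneg _).trans (hB 0 ⟨le_refl _, zero_le_one⟩)
  have hx : ‖deriv Real.smoothTransition x‖ ≤ B := by
    rcases lt_or_ge x 0 with hx | hx
    · have h1 : Real.smoothTransition =ᶠ[nhds x] fun _ => (0 : ℝ) := by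
        filter_upwards [Iio_mem_nhds hx] with y hy
        exact Real.smoothTransition.zero_of_nonpos (le_of_lt hy)
      rw [h1.deriv_eq, deriv_const, norm_zero]
      exact hB0
    · rcases lt_or_ge 1 x with hx' | hx'
      · have h1 : Real.smoothTransition =ᶠ[nhds x] fun _ => (1 : ℝ) := by
          filter_upwards [Ioi_mem_nhds hx'] with y hy
          exact Real.smoothTransition.one_of_one_le (le_of_lt hy)
        rw [h1.deriv_eq, deriv_const, norm_zero]
        exact hB0
      · exact hB x ⟨hx, hx'⟩
  rw [← NNReal.coe_le_coe, coe_nnnorm, Real.coe_toNNReal B hB0]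
  exact hx

open MeasureTheory ContinuousLinearMap in
/-- smoothing of a periodic function with Lipschitz constant one -/
private lemma exists_smooth {n : ℕ} (d : E n → ℝ) (hd : LipschitzWith 1 d)
    (hper : ∀ (k : Fin n → ℤ) x, d (x + latt k) = d x) (r : ℝ) (hr : 0 < r) :
    ∃ d' : E n → ℝ, ContDiff ℝ ∞ d' ∧ LipschitzWith 1 d' ∧
      (∀ (k : Fin n → ℤ) x, d' (x + latt k) = d' x) ∧ ∀ x, |d' x - d x| ≤ r / 8 := by
  let φ : ContDiffBump (0 : E n) := ⟨r / 16, r / 8, by positivity, by linarith⟩
  have hint : ∀ x, Integrable (fun t => φ.normed volume t * d (x - t)) := by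
    intro x
    refine Continuous.integrable_of_hasCompactSupport ?_ ?_
    · exact (φ.continuous_normed).mul (hd.continuous.comp (continuous_const.sub continuous_id))
    · exact φ.hasCompactSupport_normed.mul_right
  have hint1 : Integrable (fun t => φ.normed volume t) (volume : Measure (E n)) :=
    Continuous.integrable_of_hasCompactSupport φ.continuous_normed φ.hasCompactSupport_normed
  refine ⟨fun x => convolution (φ.normed volume) d (lsmul ℝ ℝ) volume x, ?_, ?_, ?_, ?_⟩
  · exact φ.hasCompactSupport_normed.contDiff_convolution_left _ φ.contDiff_normed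
      hd.continuous.locallyIntegrable
  · refine LipschitzWith.of_dist_le_mul fun x y => ?_
    have h1 : convolution (φ.normed volume) d (lsmul ℝ ℝ) volume x -
        convolution (φ.normed volume) d (lsmul ℝ ℝ) volume y =
        ∫ t, (φ.normed volume t * d (x - t) - φ.normed volume t * d (y - t)) := by
      rw [integral_sub (hint x) (hint y)]
      rfl
    rw [Real.dist_eq, h1, ← Real.norm_eq_abs]
    have h2 : ∫ t, φ.normed volume t * dist x y = dist x y := by
      rw [integral_mul_const, φ.integral_normed, one_mul]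
    have h3 : ‖∫ t, (φ.normed volume t * d (x - t) - φ.normed volume t * d (y - t))‖ ≤
        ∫ t, φ.normed volume t * dist x y := by
      refine norm_integral_le_of_norm_le (hint1.mul_const _) (Filter.Eventually.of_forall ?_)
      intro t
      rw [← mul_sub, norm_mul, Real.norm_of_nonneg (φ.nonneg_normed t)]
      refine mul_le_mul_of_nonneg_left ?_ (φ.nonneg_normed t)
      have h4 := hd.dist_le_mul (x - t) (y - t)
      rw [Real.dist_eq, dist_sub_right] at h4
      simpa using h4
    rw [h2] at h3
    simpa using h3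
  · intro k x
    have h1 : ∀ t, d (x + latt k - t) = d (x - t) := by
      intro t
      rw [← hper k (x - t)]
      congr 1
      abel
    have h2 : convolution (φ.normed volume) d (lsmul ℝ ℝ) volume (x + latt k) =
        convolution (φ.normed volume) d (lsmul ℝ ℝ) volume x := by
      rw [convolution_def, convolution_def]
      simp only [h1]
    exact h2
  · intro x
    have h1 := φ.dist_normed_convolution_le (μ := volume) (x₀ := x) (g := d) (ε := r / 8)
      hd.continuous.aestronglyMeasurable (fun y hy => ?_)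
    · rw [Real.dist_eq] at h1
      exact h1
    · have h2 := hd.dist_le_mul y x
      have h3 : dist y x < r / 8 := hy
      have h4 : ((1 : NNReal) : ℝ) = 1 := rfl
      rw [h4, one_mul] at h2
      linarith

theorem exists_cutoff {n : ℕ} : ∃ C : ℝ, 0 < C ∧ ∀ S : Set (E n), S.Nonempty → (∀ k, ∀ x ∈ S, x + latt k ∈ S) → ∀ r > 0,
    ∃ χ : E n → ℝ, ContDiff ℝ ∞ χ ∧ (∀ k x, χ (x + latt k) = χ x) ∧ (∀ x, 0 ≤ χ x ∧ χ x ≤ 1) ∧
      (∀ x, Metric.infDist x S < r / 8 → χ x = 1) ∧ (∀ x, r ≤ Metric.infDist x S → χ x = 0) ∧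
      ∀ x, ‖fderiv ℝ χ x‖ ≤ C / r := by
  obtain ⟨B, hB⟩ := lip_smoothTransition
  refine ⟨2 * B + 1, by positivity, ?_⟩
  intro S hne hS r hr
  have _hne := hne
  obtain ⟨d', h1, h2, h3, h4⟩ := exists_smooth (fun x => Metric.infDist x S)
    (Metric.lipschitz_infDist_pt S) (infDist_per hS) r hr
  refine ⟨fun x => Real.smoothTransition (3 / 2 - 2 / r * d' x), ?_, ?_, ?_, ?_, ?_, ?_⟩
  · exact Real.smoothTransition.contDiff.comp (contDiff_const.sub (contDiff_const.mul h1))
  · intro k x
    exact congrArg (fun s => Real.smoothTransition (3 / 2 - 2 / r * s)) (h3 k x)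
  · intro x
    exact ⟨Real.smoothTransition.nonneg _, Real.smoothTransition.le_one _⟩
  · intro x hx
    have h5 := (abs_le.1 (h4 x)).2
    have h6 : d' x ≤ r / 4 := by linarith
    apply Real.smoothTransition.one_of_one_le
    have h7 : 2 / r * d' x ≤ 2 / r * (r / 4) := mul_le_mul_of_nonneg_left h6 (by positivity)
    have h8 : 2 / r * (r / 4) = 1 / 2 := by field_simp; norm_num
    linarith
  · intro x hx
    have h5 := (abs_le.1 (h4 x)).1
    have h6 : 7 * r / 8 ≤ d' x := by linarith
    apply Real.smoothTransition.zero_of_nonpos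
    have h7 : 2 / r * (7 * r / 8) ≤ 2 / r * d' x := mul_le_mul_of_nonneg_left h6 (by positivity)
    have h8 : 2 / r * (7 * r / 8) = 7 / 4 := by field_simp; norm_num
    linarith
  · intro x
    have hr2 : 0 ≤ 2 * (B : ℝ) / r := by positivity
    have hL : LipschitzWith ⟨2 * (B : ℝ) / r, hr2⟩
        (fun x => Real.smoothTransition (3 / 2 - 2 / r * d' x)) := by
      refine LipschitzWith.of_dist_le_mul fun a b => ?_
      have h5 := hB.dist_le_mul (3 / 2 - 2 / r * d' a) (3 / 2 - 2 / r * d' b)
      have h6 : dist (3 / 2 - 2 / r * d' a) (3 / 2 - 2 / r * d' b) ≤ 2 / r * dist a b := by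
        rw [dist_sub_left, Real.dist_eq, ← mul_sub, abs_mul, abs_of_pos (by positivity : 0 < 2 / r)]
        refine mul_le_mul_of_nonneg_left ?_ (by positivity)
        have h7 := h2.dist_le_mul a b
        rw [Real.dist_eq] at h7
        simpa using h7
      have h8 : (B : ℝ) * dist (3 / 2 - 2 / r * d' a) (3 / 2 - 2 / r * d' b) ≤
          B * (2 / r * dist a b) := mul_le_mul_of_nonneg_left h6 B.2
      refine (h5.trans h8).trans (le_of_eq ?_)
      show (B : ℝ) * (2 / r * dist a b) = 2 * (B : ℝ) / r * dist a b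
      ring
    refine (norm_fderiv_le_of_lipschitz ℝ hL).trans ?_
    show 2 * (B : ℝ) / r ≤ (2 * B + 1) / r
    exact div_le_div_of_nonneg_right (by linarith) hr.le

end Pool.Agent.Helper59.GT
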