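import Pool.Agent.Helper59.GT.Jet
import Pool.Agent.Helper59.GT.Cutoff

/-!
# GT-37 SmallJet: the function with prescribed jet can be taken `C ^ 1`-small

Proof. `F` from `exists_jet`, `S = {c t + latt k}` (nonempty, invariant, closed). `D F` is periodic and continuous, so uniformly continuous: for `η > 0` there is `r₀` such that `‖D F (x)‖ ≤ ε + η` whenever `infDist x S < r₀` (`D F = α t` on `S` by periodicity, `‖α t‖ ≤ ε`). Take
`r ≤ min r₀ 1` with `(ε + η) r ≤ η`, and `χ` from `exists_cutoff`, `f = χ F`. On `S`: `χ = 1` near `S`, so `f = F` near `S`: the jets agree. Let `infDist x S < r`: there is `y ∈ S` with `‖x - y‖ < r`, the segment lies in `{infDist < r}`, `F y = 0`, so `|F x| ≤ (ε + η) r ≤ η` and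
`‖D f‖ ≤ ‖D F‖ + |F| C / r ≤ (ε + η) (1 + C)`. If `infDist x S ≥ r`: `f x = 0`, and `D f (x) = D χ (x) F (x) + χ (x) D F (x)` with `χ x = 0`, `D χ (x) = 0` (minimum of `χ ≥ 0`). So the bounds hold everywhere, with the constant `1 + C`.
-/

set_option autoImplicit false
set_option maxSynthPendingDepth 3

open scoped ContDiff

namespace Pool.Agent.Helper59.GT

private theorem unif {n : ℕ} {F : Type*} [NormedAddCommGroup F] {f : E n → F} (hf : Continuous f)
    (hper : ∀ k x, f (x + latt k) = f x) {ε : ℝ} (hε : 0 < ε) :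
    ∃ δ > 0, ∀ x y, dist x y < δ → dist (f x) (f y) < ε := by
  have hK : IsCompact (Metric.closedBall (0 : E n) (Real.sqrt n + 1)) := isCompact_closedBall _ _
  have h1 := hK.uniformContinuousOn_of_continuous hf.continuousOn
  rw [Metric.uniformContinuousOn_iff] at h1
  obtain ⟨δ, hδ, h2⟩ := h1 ε hε
  refine ⟨min δ 1, lt_min hδ one_pos, fun x y hxy => ?_⟩
  set k : Fin n → ℤ := fun i => -⌊x i⌋ with hk
  have hx : ‖x + latt k‖ ≤ Real.sqrt n := by
    rw [EuclideanSpace.norm_eq]
    apply Real.sqrt_le_sqrt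
    calc ∑ i, ‖(x + latt k) i‖ ^ 2 ≤ ∑ i : Fin n, (1 : ℝ) := by
          apply Finset.sum_le_sum
          intro i _
          have e1 : (x + latt k) i = Int.fract (x i) := by
            show x i + ((k i : ℤ) : ℝ) = Int.fract (x i)
            rw [hk]
            simp only [Int.cast_neg, Int.fract]
            ring
          rw [e1, Real.norm_eq_abs, abs_of_nonneg (Int.fract_nonneg _)]
          have e2 := Int.fract_lt_one (x i)
          have e3 := Int.fract_nonneg (x i)
          nlinarith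
      _ = n := by simp
  have hd : dist (x + latt k) (y + latt k) = dist x y := dist_add_right _ _ _
  have hy : ‖y + latt k‖ ≤ Real.sqrt n + 1 := by
    have e1 : ‖y + latt k‖ ≤ ‖x + latt k‖ + dist (x + latt k) (y + latt k) := by
      rw [dist_comm, dist_eq_norm]
      calc ‖y + latt k‖ = ‖(x + latt k) + ((y + latt k) - (x + latt k))‖ := by
            congr 1; abel
        _ ≤ _ := norm_add_le _ _
    rw [hd] at e1
    have e2 := hxy.trans_le (min_le_right _ _)
    linarith
  have h3 := h2 (x + latt k) (mem_closedBall_zero_iff.2 (by linarith)) (y + latt k)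
    (mem_closedBall_zero_iff.2 hy) (by rw [hd]; exact hxy.trans_le (min_le_left _ _))
  rwa [hper, hper] at h3

private theorem fderiv_per {n : ℕ} {u : E n → ℝ} (hper : ∀ k x, u (x + latt k) = u x) (k : Fin n → ℤ) (x : E n) :
    fderiv ℝ u (x + latt k) = fderiv ℝ u x := by
  rw [← fderiv_comp_add_right]
  congr 1
  funext y
  exact hper k y

private theorem latt_zero' {n : ℕ} : (latt 0 : E n) = 0 := by
  ext i
  show (((0 : Fin n → ℤ) i : ℤ) : ℝ) = 0
  simp

private theorem latt_add' {n : ℕ} (k l : Fin n → ℤ) : (latt (k + l) : E n) = latt k + latt l := by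
  ext i
  show (((k + l) i : ℤ) : ℝ) = (k i : ℝ) + (l i : ℝ)
  simp

theorem exists_small_jet {n : ℕ} : ∃ C : ℝ, 0 < C ∧ ∀ (c : ℝ → E n) (P : ℝ), 0 < P → ContDiff ℝ ∞ c →
    (∃ k, ∀ t, c (t + P) = c t + latt k) → (∀ s t, (∃ k, c s = c t + latt k) → ∃ m : ℤ, s - t = m * P) →
    (∀ t, deriv c t ≠ 0) → ∀ α : ℝ → E n →L[ℝ] ℝ, ContDiff ℝ ∞ α → (∀ t, α (t + P) = α t) → (∀ t, α t (deriv c t) = 0) →
    ∀ ε η : ℝ, 0 ≤ ε → 0 < η → (∀ t, ‖α t‖ ≤ ε) →
    ∃ f : E n → ℝ, ContDiff ℝ ∞ f ∧ (∀ k x, f (x + latt k) = f x) ∧ (∀ t, f (c t) = 0 ∧ fderiv ℝ f (c t) = α t) ∧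
      ∀ x, |f x| ≤ η ∧ ‖fderiv ℝ f x‖ ≤ C * (ε + η) := by
  obtain ⟨C₀, hC₀, hcut⟩ := exists_cutoff (n := n)
  refine ⟨1 + C₀, by linarith, ?_⟩
  intro c P hP hcs hper hemb hreg α hα hαP hα0 ε η hε hη hαε
  obtain ⟨F, hFs, hFp, hFj⟩ := exists_jet c P hP hcs hper hemb hreg α hα hαP hα0
  set S : Set (E n) := {x | ∃ t k, x = c t + latt k} with hS
  have hSne : S.Nonempty := ⟨c 0 + latt 0, 0, 0, rfl⟩
  have hSinv : ∀ k, ∀ x ∈ S, x + latt k ∈ S := by
    rintro k x ⟨t, l, rfl⟩
    exact ⟨t, l + k, by rw [latt_add', add_assoc]⟩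
  have hcS : ∀ t, c t ∈ S := fun t => ⟨t, 0, by rw [latt_zero', add_zero]⟩
  have hF0 : ∀ y ∈ S, F y = 0 := by
    rintro y ⟨t, k, rfl⟩
    rw [hFp]; exact (hFj t).1
  have hFD : ∀ y ∈ S, ‖fderiv ℝ F y‖ ≤ ε := by
    rintro y ⟨t, k, rfl⟩
    rw [fderiv_per hFp, (hFj t).2]; exact hαε t
  have hDc : Continuous (fderiv ℝ F) := hFs.continuous_fderiv (by simp)
  obtain ⟨r₀, hr₀, hunif⟩ := unif hDc (fderiv_per hFp) hη
  have hεη : 0 < ε + η := by linarith
  set r : ℝ := min r₀ (η / (ε + η)) with hr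
  have hrpos : 0 < r := lt_min hr₀ (div_pos hη hεη)
  have hrη : (ε + η) * r ≤ η := by
    calc (ε + η) * r ≤ (ε + η) * (η / (ε + η)) :=
          mul_le_mul_of_nonneg_left (min_le_right _ _) hεη.le
      _ = η := by field_simp
  have hnear : ∀ x, Metric.infDist x S < r → ‖fderiv ℝ F x‖ ≤ ε + η := by
    intro x hx
    obtain ⟨y, hy, hxy⟩ := (Metric.infDist_lt_iff hSne).1 hx
    have h1 := hunif x y (hxy.trans_le (min_le_left _ _))
    rw [dist_eq_norm] at h1
    have h2 := hFD y hy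
    calc ‖fderiv ℝ F x‖ = ‖fderiv ℝ F y + (fderiv ℝ F x - fderiv ℝ F y)‖ := by congr 1; abel
      _ ≤ ‖fderiv ℝ F y‖ + ‖fderiv ℝ F x - fderiv ℝ F y‖ := norm_add_le _ _
      _ ≤ ε + η := by linarith
  have hFd : Differentiable ℝ F := hFs.differentiable (by simp)
  obtain ⟨χ, hχs, hχp, hχ01, hχ1, hχ0, hχD⟩ := hcut S hSne hSinv r hrpos
  have hχd : Differentiable ℝ χ := hχs.differentiable (by simp)
  refine ⟨fun x => χ x * F x, hχs.mul hFs, ?_, ?_, ?_⟩
  · intro k x
    show χ (x + latt k) * F (x + latt k) = χ x * F x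
    rw [hχp, hFp]
  · intro t
    have h0 : Metric.infDist (c t) S < r / 8 := by
      rw [Metric.infDist_zero_of_mem (hcS t)]; positivity
    have h1 : (fun x => χ x * F x) =ᶠ[nhds (c t)] F := by
      have h2 : ∀ᶠ x in nhds (c t), Metric.infDist x S < r / 8 :=
        (Metric.continuous_infDist_pt S).continuousAt.eventually (gt_mem_nhds h0)
      filter_upwards [h2] with x hx
      rw [hχ1 x hx, one_mul]
    refine ⟨?_, ?_⟩
    · show χ (c t) * F (c t) = 0
      rw [(hFj t).1, mul_zero]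
    · rw [h1.fderiv_eq]; exact (hFj t).2
  · intro x
    have hDf : fderiv ℝ (fun x => χ x * F x) x = χ x • fderiv ℝ F x + F x • fderiv ℝ χ x :=
      fderiv_fun_mul hχd.differentiableAt hFd.differentiableAt
    by_cases hx : Metric.infDist x S < r
    · obtain ⟨y, hy, hxy⟩ := (Metric.infDist_lt_iff hSne).1 hx
      have hball : ∀ z ∈ Metric.ball y r, ‖fderiv ℝ F z‖ ≤ ε + η := by
        intro z hz
        exact hnear z ((Metric.infDist_lt_iff hSne).2 ⟨y, hy, Metric.mem_ball.1 hz⟩)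
      have h1 : ‖F x - F y‖ ≤ (ε + η) * ‖x - y‖ :=
        (convex_ball y r).norm_image_sub_le_of_norm_fderiv_le (fun z _ => hFd.differentiableAt) hball
          (Metric.mem_ball_self hrpos) (Metric.mem_ball.2 hxy)
      rw [hF0 y hy, sub_zero, ← dist_eq_norm] at h1
      have h2 : ‖F x‖ ≤ (ε + η) * r := h1.trans (mul_le_mul_of_nonneg_left hxy.le hεη.le)
      have h3 : |χ x| ≤ 1 := by rw [abs_of_nonneg (hχ01 x).1]; exact (hχ01 x).2
      constructor
      · rw [abs_mul]
        calc |χ x| * |F x| ≤ 1 * η := by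
              apply mul_le_mul h3 _ (abs_nonneg _) zero_le_one
              rw [← Real.norm_eq_abs]; exact h2.trans hrη
          _ = η := one_mul _
      · rw [hDf]
        calc ‖χ x • fderiv ℝ F x + F x • fderiv ℝ χ x‖
            ≤ ‖χ x • fderiv ℝ F x‖ + ‖F x • fderiv ℝ χ x‖ := norm_add_le _ _
          _ = |χ x| * ‖fderiv ℝ F x‖ + ‖F x‖ * ‖fderiv ℝ χ x‖ := by
              rw [norm_smul, norm_smul, Real.norm_eq_abs]
          _ ≤ 1 * (ε + η) + ((ε + η) * r) * (C₀ / r) := by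
              apply add_le_add
              · exact mul_le_mul h3 (hnear x hx) (norm_nonneg _) zero_le_one
              · exact mul_le_mul h2 (hχD x) (norm_nonneg _) (by positivity)
          _ = (1 + C₀) * (ε + η) := by field_simp
    · push Not at hx
      have h1 : χ x = 0 := hχ0 x hx
      have h2 : fderiv ℝ χ x = 0 := by
        apply IsLocalMin.fderiv_eq_zero
        exact Filter.Eventually.of_forall fun y => by rw [h1]; exact (hχ01 y).1
      constructor
      · show |χ x * F x| ≤ η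
        rw [h1, zero_mul, abs_zero]; exact hη.le
      · rw [hDf, h1, h2, zero_smul, smul_zero, add_zero, norm_zero]
        positivity

end Pool.Agent.Helper59.GT
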