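import Pool.Agent.Helper59.GT.UnitLoop
import Pool.Agent.Helper59.GT.SmallJet
import Pool.Agent.Helper59.GT.ConfLem

/-!
# GT-39 Closing: part (a): `C ^ 1`-small conformal perturbations with an `ε`-dense closed geodesic

Proof. `C` from `exists_small_jet`; `ε₁` small: `C (ε₁ + η) < ε`, `η < ε`, `ε₁ ≤ ε / 2`, and moreover such that unit vectors of `conf u g` are close to unit vectors of `g`: if `|u| ≤ η` and `conf u g x v v = 1` then `v' = exp (u x) v` has `g x v' v' = 1` and `‖v' - v‖ ≤ |exp (u x) - 1| ‖v‖ < ε / 2`, with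
`‖v‖ ≤ (exp η / √a)` (`metric_bounds`). `c, P` from `exists_unit_loop` for `ε₁`; `α t = EL g (c t) (c' t) (c'' t)`: smooth in `t`, `P`-periodic, `‖α‖ ≤ ε₁`, `α t (c' t) = 0` (`EL_energy` and unit speed), `c' ≠ 0`. `u = f` from `exists_small_jet`. `geodesic_conf`.
-/

set_option autoImplicit false
set_option maxSynthPendingDepth 3

open scoped ContDiff

namespace Pool.Agent.Helper59.GT

private theorem fderiv_per' {n : ℕ} {g : E n → Bil n} (hper : ∀ k x, g (x + latt k) = g x)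
    (k : Fin n → ℤ) (x : E n) : fderiv ℝ g (x + latt k) = fderiv ℝ g x := by
  rw [← fderiv_comp_add_right]
  congr 1
  funext y
  exact hper k y

private theorem deriv_per' {n : ℕ} {c : ℝ → E n} {P : ℝ} {z : E n} (h : ∀ t, c (t + P) = c t + z)
    (t : ℝ) : deriv c (t + P) = deriv c t := by
  rw [← deriv_comp_add_const]
  have h1 : (fun x => c (x + P)) = fun x => c x + z := funext h
  rw [h1, deriv_add_const]

theorem closing {n : ℕ} (hn : 3 ≤ n) {g : E n → Bil n} (hg : IsMetric ∞ g) (ε : ℝ) (hε : 0 < ε) :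
    ∃ u : E n → ℝ, ContDiff ℝ ∞ u ∧ (∀ k x, u (x + latt k) = u x) ∧ (∀ x, |u x| < ε ∧ ‖fderiv ℝ u x‖ < ε) ∧
      ∃ (c : ℝ → E n) (P : ℝ), 0 < P ∧ (∃ k, ∀ t, c (t + P) = c t + latt k) ∧ IsGeodesic (conf u g) c ∧
        UnitSpeed (conf u g) c ∧ EpsDense (conf u g) c ε Set.univ := by
  obtain ⟨C, hC, hjet⟩ := exists_small_jet (n := n)
  obtain ⟨a, b, ha, hb, hab⟩ := metric_bounds hg
  have hsa : 0 < Real.sqrt a := Real.sqrt_pos.2 ha
  obtain ⟨η, hη, hη1, hηε, hηC, hηa⟩ : ∃ η : ℝ, 0 < η ∧ η ≤ 1 ∧ η ≤ ε / 2 ∧ C * (η + η) ≤ ε / 2 ∧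
      8 * η ≤ ε * Real.sqrt a := by
    refine ⟨min (min 1 (ε / 2)) (min (ε / (4 * C)) (ε * Real.sqrt a / 8)), ?_, ?_, ?_, ?_, ?_⟩
    · refine lt_min (lt_min one_pos (by positivity)) (lt_min (by positivity) (by positivity))
    · exact (min_le_left _ _).trans (min_le_left _ _)
    · exact (min_le_left _ _).trans (min_le_right _ _)
    · have h1 : min (min 1 (ε / 2)) (min (ε / (4 * C)) (ε * Real.sqrt a / 8)) ≤ ε / (4 * C) :=
        (min_le_right _ _).trans (min_le_left _ _)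
      calc C * (_ + _) ≤ C * (ε / (4 * C) + ε / (4 * C)) :=
            mul_le_mul_of_nonneg_left (add_le_add h1 h1) hC.le
        _ = ε / 2 := by field_simp; ring
    · have h1 : min (min 1 (ε / 2)) (min (ε / (4 * C)) (ε * Real.sqrt a / 8)) ≤
          ε * Real.sqrt a / 8 := (min_le_right _ _).trans (min_le_right _ _)
      linarith
  obtain ⟨c, P, hP, hcs, ⟨k₀, hper⟩, hemb, hus, hEL, hdense⟩ := exists_unit_loop hn hg η hη
  have hd1 : ContDiff ℝ ∞ (deriv c) := ((contDiff_infty_iff_deriv).1 hcs).2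
  have hd2 : ContDiff ℝ ∞ (deriv (deriv c)) := ((contDiff_infty_iff_deriv).1 hd1).2
  have hgc : ContDiff ℝ ∞ (fun t => g (c t)) := hg.smooth.comp hcs
  have hdg : ContDiff ℝ ∞ (fderiv ℝ g) := hg.smooth.fderiv_right (by simp)
  have hdgc : ContDiff ℝ ∞ (fun t => fderiv ℝ g (c t)) := hdg.comp hcs
  set α : ℝ → E n →L[ℝ] ℝ := fun t => EL g (c t) (deriv c t) (deriv (deriv c) t) with hα
  have hαs : ContDiff ℝ ∞ α := by
    rw [contDiff_clm_apply_iff]
    intro w
    have e : (fun t => α t w) = fun t => g (c t) (deriv (deriv c) t) w +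
        fderiv ℝ g (c t) (deriv c t) (deriv c t) w -
        (1 / 2) * fderiv ℝ g (c t) w (deriv c t) (deriv c t) := by
      funext t
      rw [hα, EL_apply]
    rw [e]
    refine ContDiff.sub (ContDiff.add ?_ ?_) (contDiff_const.mul ?_)
    · exact (hgc.clm_apply hd2).clm_apply contDiff_const
    · exact ((hdgc.clm_apply hd1).clm_apply hd1).clm_apply contDiff_const
    · exact ((hdgc.clm_apply contDiff_const).clm_apply hd1).clm_apply hd1
  have hp1 : ∀ t, deriv c (t + P) = deriv c t := deriv_per' hper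
  have hp2 : ∀ t, deriv (deriv c) (t + P) = deriv (deriv c) t :=
    deriv_per' (z := 0) (fun t => by rw [hp1, add_zero])
  have hαP : ∀ t, α (t + P) = α t := by
    intro t
    ext w
    rw [hα, EL_apply, EL_apply, hp1, hp2, hper, hg.per, fderiv_per' hg.per]
  have hα0 : ∀ t, α t (deriv c t) = 0 := by
    intro t
    have h1 := EL_energy hg hcs t
    have h2 : (fun s => g (c s) (deriv c s) (deriv c s)) = fun _ => (1 : ℝ) := funext hus
    rw [h2] at h1
    have h3 := h1.unique (hasDerivAt_const t (1 : ℝ))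
    have h4 : α t (deriv c t) = EL g (c t) (deriv c t) (deriv (deriv c) t) (deriv c t) := rfl
    rw [h4]
    linarith
  have hreg : ∀ t, deriv c t ≠ 0 := by
    intro t h0
    have h1 := hus t
    rw [h0, map_zero] at h1
    exact zero_ne_one h1
  obtain ⟨u, husm, hup, huj, hub⟩ := hjet c P hP hcs ⟨k₀, hper⟩ hemb hreg α hαs hαP hα0 η η hη.le hη hEL
  obtain ⟨hgeo, hunit⟩ := geodesic_conf hg husm hup hcs hus (fun t => (huj t).1) (fun t => (huj t).2)
  refine ⟨u, husm, hup, fun x => ⟨?_, ?_⟩, c, P, hP, ⟨k₀, hper⟩, hgeo, hunit, ?_⟩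
  · have := (hub x).1
    linarith
  · have := (hub x).2
    linarith
  intro x v hv
  have hv1 : Real.exp (2 * u x) * g x v v = 1 := by
    have h1 : conf u g x v v = Real.exp (2 * u x) * g x v v := by
      simp [conf]
    rw [← h1]; exact hv
  set v' : E n := Real.exp (u x) • v with hv'
  have hv2 : g x v' v' = 1 := by
    have e1 : (g x) (Real.exp (u x) • v) = Real.exp (u x) • (g x) v := map_smul (g x) _ _
    rw [hv', e1, ContinuousLinearMap.smul_apply, map_smul, smul_eq_mul, smul_eq_mul, ← mul_assoc,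
      ← Real.exp_add, ← two_mul]
    exact hv1
  obtain ⟨t, -, k, h1, h2⟩ := hdense x v' hv2
  refine ⟨t, Set.mem_univ _, k, by linarith, ?_⟩
  have hvv : v' - v = (1 - Real.exp (-u x)) • v' := by
    rw [sub_smul, one_smul, hv', smul_smul, ← Real.exp_add, neg_add_cancel, Real.exp_zero, one_smul]
  have hu1 : |(-u x)| ≤ η := by rw [abs_neg]; exact (hub x).1
  have he : |1 - Real.exp (-u x)| ≤ 2 * η := by
    rw [abs_sub_comm]
    have h3 := Real.abs_exp_sub_one_le (hu1.trans hη1)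
    linarith
  have hn' : Real.sqrt a * ‖v'‖ ≤ 1 := by
    have h3 := (hab x v').1
    rw [hv2] at h3
    have h4 : (Real.sqrt a * ‖v'‖) ^ 2 ≤ 1 ^ 2 := by
      rw [mul_pow, Real.sq_sqrt ha.le, one_pow]; exact h3
    exact (pow_le_pow_iff_left₀ (by positivity) zero_le_one two_ne_zero).1 h4
  have hdiff : ‖v' - v‖ ≤ ε / 4 := by
    rw [hvv, norm_smul, Real.norm_eq_abs]
    calc |1 - Real.exp (-u x)| * ‖v'‖ ≤ (2 * η) * ‖v'‖ :=
          mul_le_mul_of_nonneg_right he (norm_nonneg _)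
      _ ≤ (ε * Real.sqrt a / 4) * ‖v'‖ :=
          mul_le_mul_of_nonneg_right (by linarith) (norm_nonneg _)
      _ = (ε / 4) * (Real.sqrt a * ‖v'‖) := by ring
      _ ≤ (ε / 4) * 1 := mul_le_mul_of_nonneg_left hn' (by positivity)
      _ = ε / 4 := mul_one _
  calc ‖deriv c t - v‖ = ‖(deriv c t - v') + (v' - v)‖ := by congr 1; abel
    _ ≤ ‖deriv c t - v'‖ + ‖v' - v‖ := norm_add_le _ _
    _ < ε := by linarith

end Pool.Agent.Helper59.GT
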