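import Pool.Agent.Helper59.GT.ConfLem

/-!
# GT-42 ConfConv: `u ↦ conf u g` is continuous in the `C ^ 1` sense

Proof. `‖conf v g - conf u g‖ = |exp (2 v) - exp (2 u)| ‖g‖`; `D (conf v g) x w - D (conf u g) x w = (exp (2 v) - exp (2 u)) D g x w + 2 (exp (2 v) D v x w - exp (2 u) D u x w) g x` (`fderiv_conf`). `u`, `D u`, `g`, `D g` are bounded (continuous and periodic), `exp` is Lipschitz on bounded sets.
-/

set_option autoImplicit false
set_option maxSynthPendingDepth 3

open scoped ContDiff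

namespace Pool.Agent.Helper59.GT

private theorem per_bdd {n : ℕ} {F : Type} [NormedAddCommGroup F] (f : E n → F)
    (hf : Continuous f) (hper : ∀ k x, f (x + latt k) = f x) : ∃ C : ℝ, 0 ≤ C ∧ ∀ x, ‖f x‖ ≤ C := by
  have hc : Continuous (fun y : Fin n → ℝ => (WithLp.toLp 2 y : E n)) := PiLp.continuous_toLp 2 _
  obtain ⟨C, hC⟩ := (isCompact_Icc (a := (0 : Fin n → ℝ)) (b := 1)).exists_bound_of_continuousOn
    (hf.comp hc).continuousOn
  refine ⟨|C|, abs_nonneg C, fun x => ?_⟩
  have h1 := hC (fun i => x i - ⌊x i⌋) ⟨fun i => by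
      show (0 : ℝ) ≤ x i - ⌊x i⌋
      linarith [Int.floor_le (x i)], fun i => by
      show x i - ⌊x i⌋ ≤ (1 : ℝ)
      linarith [Int.lt_floor_add_one (x i)]⟩
  have h2 : (WithLp.toLp 2 (fun i => x i - ⌊x i⌋) : E n) = x + latt (fun i => -⌊x i⌋) := by
    ext i
    simp [latt, sub_eq_add_neg]
  have h3 : f (WithLp.toLp 2 (fun i => x i - ⌊x i⌋)) = f x := by
    rw [h2, hper]
  have h4 : ‖f (WithLp.toLp 2 (fun i => x i - ⌊x i⌋))‖ ≤ C := h1
  rw [h3] at h4
  exact h4.trans (le_abs_self C)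

private theorem fderiv_per {n : ℕ} {F : Type} [NormedAddCommGroup F] [NormedSpace ℝ F]
    (f : E n → F) (hper : ∀ k x, f (x + latt k) = f x) (k : Fin n → ℤ) (x : E n) :
    fderiv ℝ f (x + latt k) = fderiv ℝ f x := by
  rw [← fderiv_comp_add_right (f := f) (latt k)]
  have : (fun y => f (y + latt k)) = f := funext fun y => hper k y
  rw [this]

private theorem exp_lip {a b M : ℝ} (ha : a ≤ M) (hb : b ≤ M) :
    |Real.exp a - Real.exp b| ≤ Real.exp M * |a - b| := by
  have h1 := Real.exp_le_exp.2 ha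
  have h2 := Real.exp_le_exp.2 hb
  have key : ∀ x y : ℝ, Real.exp x - Real.exp y ≤ Real.exp x * (x - y) := by
    intro x y
    have h3 := Real.add_one_le_exp (y - x)
    have h4 : Real.exp y = Real.exp x * Real.exp (y - x) := by
      rw [← Real.exp_add]
      congr 1
      ring
    rw [h4]
    have h5 := Real.exp_pos x
    nlinarith
  rw [abs_le]
  have h6 := abs_nonneg (a - b)
  constructor
  · have h7 := key b a
    have h8 : Real.exp b * (b - a) ≤ Real.exp M * |a - b| := by
      calc Real.exp b * (b - a) ≤ Real.exp b * |a - b| :=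
            mul_le_mul_of_nonneg_left (by rw [abs_sub_comm]; exact le_abs_self _) (Real.exp_pos b).le
        _ ≤ _ := mul_le_mul_of_nonneg_right h2 h6
    linarith
  · have h7 := key a b
    have h8 : Real.exp a * (a - b) ≤ Real.exp M * |a - b| := by
      calc Real.exp a * (a - b) ≤ Real.exp a * |a - b| :=
            mul_le_mul_of_nonneg_left (le_abs_self _) (Real.exp_pos a).le
        _ ≤ _ := mul_le_mul_of_nonneg_right h1 h6
    linarith

theorem conf_conv {n : ℕ} {g : E n → Bil n} (hg : IsMetric ∞ g) (u : E n → ℝ) (hu : ContDiff ℝ 1 u)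
    (hper : ∀ k x, u (x + latt k) = u x) (ε : ℝ) (hε : 0 < ε) : ∃ δ > 0, ∀ v : E n → ℝ, Differentiable ℝ v →
    (∀ x, |v x - u x| < δ ∧ ‖fderiv ℝ v x - fderiv ℝ u x‖ < δ) →
    ∀ x, ‖conf v g x - conf u g x‖ < ε ∧ ‖fderiv ℝ (conf v g) x - fderiv ℝ (conf u g) x‖ < ε := by
  obtain ⟨A, hA0, hA⟩ := per_bdd u hu.continuous hper
  obtain ⟨B, hB0, hB⟩ := per_bdd (fderiv ℝ u) (hu.continuous_fderiv (by norm_num))
    (fderiv_per u hper)
  obtain ⟨G, hG0, hG⟩ := per_bdd g hg.smooth.continuous hg.per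
  obtain ⟨G', hG'0, hG'⟩ := per_bdd (fderiv ℝ g) (hg.smooth.continuous_fderiv (by simp))
    (fderiv_per g hg.per)
  obtain ⟨L, hL⟩ : ∃ L : ℝ, L = Real.exp (2 * (A + 1)) := ⟨_, rfl⟩
  have hL0 : 0 < L := by rw [hL]; exact Real.exp_pos _
  obtain ⟨C, hC⟩ : ∃ C : ℝ, C = 2 * L * G + (2 * L * G' + 2 * G * (L + 2 * L * B)) + 1 := ⟨_, rfl⟩
  have hC0 : 0 < C := by rw [hC]; positivity
  refine ⟨min 1 (ε / (2 * C)), lt_min one_pos (by positivity), ?_⟩
  intro v hv hδ x
  obtain ⟨δ, hδ'⟩ : ∃ δ : ℝ, δ = min 1 (ε / (2 * C)) := ⟨_, rfl⟩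
  rw [← hδ'] at hδ
  have hδ0 : 0 < δ := by rw [hδ']; exact lt_min one_pos (by positivity)
  have hδ1 : δ ≤ 1 := by rw [hδ']; exact min_le_left _ _
  have hδC : C * δ < ε := by
    have h1 : δ ≤ ε / (2 * C) := by rw [hδ']; exact min_le_right _ _
    have h2 : C * δ ≤ C * (ε / (2 * C)) := mul_le_mul_of_nonneg_left h1 hC0.le
    have h3 : C * (ε / (2 * C)) = ε / 2 := by field_simp
    linarith
  obtain ⟨hvu, hdvu⟩ := hδ x
  have hux : |u x| ≤ A := hA x
  have hvx : v x ≤ A + 1 := by
    have h1 := (abs_lt.1 hvu).2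
    have h2 := (abs_le.1 hux).2
    linarith
  have hux' : u x ≤ A + 1 := by
    have h2 := (abs_le.1 hux).2
    linarith
  have hexp : |Real.exp (2 * v x) - Real.exp (2 * u x)| ≤ 2 * L * δ := by
    have h1 := exp_lip (a := 2 * v x) (b := 2 * u x) (M := 2 * (A + 1)) (by linarith) (by linarith)
    have h2 : 2 * v x - 2 * u x = 2 * (v x - u x) := by ring
    rw [← hL, h2, abs_mul, abs_of_pos (by norm_num : (0 : ℝ) < 2)] at h1
    have h3 : L * (2 * |v x - u x|) ≤ L * (2 * δ) :=
      mul_le_mul_of_nonneg_left (by linarith) hL0.le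
    linarith
  have hexpv : Real.exp (2 * v x) ≤ L := by
    rw [hL]
    exact Real.exp_le_exp.2 (by linarith)
  constructor
  · have h1 : conf v g x - conf u g x = (Real.exp (2 * v x) - Real.exp (2 * u x)) • g x := by
      simp only [conf, sub_smul]
    rw [h1, norm_smul, Real.norm_eq_abs]
    have h2 : |Real.exp (2 * v x) - Real.exp (2 * u x)| * ‖g x‖ ≤ 2 * L * δ * G :=
      mul_le_mul hexp (hG x) (norm_nonneg _) (by positivity)
    have h3 : 2 * L * δ * G ≤ C * δ := by
      rw [hC]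
      have h4 : 0 ≤ (2 * L * G' + 2 * G * (L + 2 * L * B)) * δ := by positivity
      nlinarith
    linarith
  · have h1 : ‖fderiv ℝ (conf v g) x - fderiv ℝ (conf u g) x‖ ≤
        (2 * L * G' + 2 * G * (L + 2 * L * B)) * δ := by
      refine ContinuousLinearMap.opNorm_le_bound _ (by positivity) fun w => ?_
      rw [ContinuousLinearMap.sub_apply, fderiv_conf hg x (hv x) w,
        fderiv_conf hg x (hu.differentiable (by norm_num) x) w]
      have h2 : Real.exp (2 * v x) • (fderiv ℝ g x w + (2 * fderiv ℝ v x w) • g x) -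
          Real.exp (2 * u x) • (fderiv ℝ g x w + (2 * fderiv ℝ u x w) • g x) =
          (Real.exp (2 * v x) - Real.exp (2 * u x)) • fderiv ℝ g x w +
            (2 * (Real.exp (2 * v x) * (fderiv ℝ v x - fderiv ℝ u x) w +
              (Real.exp (2 * v x) - Real.exp (2 * u x)) * fderiv ℝ u x w)) • g x := by
        rw [ContinuousLinearMap.sub_apply]
        module
      rw [h2]
      refine (norm_add_le _ _).trans ?_
      rw [norm_smul, norm_smul, Real.norm_eq_abs, Real.norm_eq_abs]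
      have h3 : |Real.exp (2 * v x) - Real.exp (2 * u x)| * ‖fderiv ℝ g x w‖ ≤
          2 * L * δ * (G' * ‖w‖) :=
        mul_le_mul hexp (((fderiv ℝ g x).le_opNorm w).trans
          (mul_le_mul_of_nonneg_right (hG' x) (norm_nonneg _))) (norm_nonneg _) (by positivity)
      have h4 : |2 * (Real.exp (2 * v x) * (fderiv ℝ v x - fderiv ℝ u x) w +
              (Real.exp (2 * v x) - Real.exp (2 * u x)) * fderiv ℝ u x w)| ≤
          2 * (L * (δ * ‖w‖) + 2 * L * δ * (B * ‖w‖)) := by
        rw [abs_mul, abs_of_pos (by norm_num : (0 : ℝ) < 2)]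
        refine mul_le_mul_of_nonneg_left ((abs_add_le _ _).trans (add_le_add ?_ ?_)) (by norm_num)
        · rw [abs_mul, abs_of_pos (Real.exp_pos _)]
          refine mul_le_mul hexpv ?_ (abs_nonneg _) hL0.le
          have h5 := (fderiv ℝ v x - fderiv ℝ u x).le_opNorm w
          rw [Real.norm_eq_abs] at h5
          exact h5.trans (mul_le_mul_of_nonneg_right hdvu.le (norm_nonneg _))
        · rw [abs_mul]
          refine mul_le_mul hexp ?_ (abs_nonneg _) (by positivity)
          have h5 := (fderiv ℝ u x).le_opNorm w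
          rw [Real.norm_eq_abs] at h5
          exact h5.trans (mul_le_mul_of_nonneg_right (hB x) (norm_nonneg _))
      have h6 := mul_le_mul h4 (hG x) (norm_nonneg _) (by positivity)
      calc _ ≤ 2 * L * δ * (G' * ‖w‖) + 2 * (L * (δ * ‖w‖) + 2 * L * δ * (B * ‖w‖)) * G :=
            add_le_add h3 h6
        _ = (2 * L * G' + 2 * G * (L + 2 * L * B)) * δ * ‖w‖ := by ring
    have h3 : (2 * L * G' + 2 * G * (L + 2 * L * B)) * δ ≤ C * δ := by
      refine mul_le_mul_of_nonneg_right ?_ hδ0.le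
      rw [hC]
      have : 0 ≤ 2 * L * G := by positivity
      linarith
    linarith

end Pool.Agent.Helper59.GT
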