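import Pool.Agent.Helper59.GT.Cometric

/-!
# GT-43 Limit: limits of geodesics along an ultrafilter, for metrics of class `C ^ 1`

`ConvMet gs g`: `gs j → g` in `C ^ 1`.

Proof. `a, b` from `metric_bounds` for `g`; eventually `‖gs j x - g x‖ ≤ a / 2`, so for these `j` unit vectors satisfy `‖v‖ ≤ V := √(2 / a)`; `‖gs j‖, ‖D gs j‖ ≤ G`. Let `v_j = c_j'`, `p_j = opA (gs j) (c_j) v_j`, so `⟪p_j, w⟫ = gs j (c_j) v_j w`, `p_j' = f_j`, `⟪f_j, w⟫ = (1/2) (D gs j (c_j) w) (v_j, v_j)`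
(as in GeoHam; or keep everything weak: for each fixed `w` the real function `t ↦ gs j (c_j t) (v_j t) w` is Lipschitz with constant `F = G V ^ 2 ‖w‖ / 2`).
1. `c_j` is `V`-Lipschitz, so `‖c_j t‖ ≤ R + V |t|`; by compactness of closed balls (`Ultrafilter` on a proper space: `(isCompact_closedBall ..).ultrafilter_le_nhds` for `U.map`) the limits `c t = lim_U c_j t` and `v t = lim_U v_j t` exist. `c` is `V`-Lipschitz.
2. `v_j` are equicontinuous in `t`: `v_j = cog (gs j) (c_j) p_j`; directly: for `t, s`: `gs j (c_j s) (v_j t - v_j s, v_j t - v_j s) = [gs j (c_j t) (v_j t, w) - gs j (c_j s) (v_j s, w)] - (gs j (c_j t) - gs j (c_j s)) (v_j t, w)` with `w = v_j t - v_j s`, `‖w‖ ≤ 2 V`, so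
   `(a / 2) ‖w‖ ^ 2 ≤ (F' + G V ^ 2) |t - s| ‖w‖` (`g_j` is `G`-Lipschitz): `‖v_j t - v_j s‖ ≤ L |t - s|` with `L` independent of `j`.
3. So `‖c_j t - c_j s - (t - s) v_j s‖ ≤ L |t - s| ^ 2`; in the limit the same for `c, v`: `c' = v`.
4. `φ_j (t) = gs j (c_j t) (v_j t) w` has derivative `ψ_j (t) = (1/2) (D gs j (c_j t) w) (v_j t, v_j t)`, and `|ψ_j t - ψ_j s| ≤ ω (|t - s|) + 2 ε_j` with `ω` a modulus from the uniform continuity of `D g` (periodic) and the Lipschitz bounds, `ε_j = sup ‖D gs j - D g‖ V ^ 2 ‖w‖ → 0`. So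
   `|φ_j t - φ_j s - (t - s) ψ_j s| ≤ (ω (|t - s|) + 2 ε_j) |t - s|`, and in the limit `|φ t - φ s - (t - s) ψ s| ≤ ω (|t - s|) |t - s|` with `φ = g (c) v w`, `ψ = (1/2) (D g (c) w) (v, v)`: `φ' = ψ`. So `c` is a `g`-geodesic, `g (v, v) = lim gs j (v_j, v_j) = 1`.
5. The last statement: `‖c_j (t_j) - c t0‖ ≤ V |t_j - t0| + ‖c_j t0 - c t0‖`.
-/

set_option autoImplicit false
set_option maxSynthPendingDepth 3

open scoped ContDiff
open Filter Topology

namespace Pool.Agent.Helper59.GT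

/-- Convergence of metrics in `C ^ 1`. -/
def ConvMet {n : ℕ} (gs : ℕ → E n → Bil n) (g : E n → Bil n) : Prop :=
  ∀ ε > 0, ∀ᶠ j in atTop, ∀ x, ‖gs j x - g x‖ < ε ∧ ‖fderiv ℝ (gs j) x - fderiv ℝ g x‖ < ε

private lemma exists_shift {n : ℕ} (x : E n) : ∃ k : Fin n → ℤ, ‖x + latt k‖ ≤ n := by
  refine ⟨fun i => -⌊x i⌋, ?_⟩
  have h1 : ∀ i, (x + latt (fun i => -⌊x i⌋)) i = Int.fract (x i) := by
    intro i
    change x i + ((-⌊x i⌋ : ℤ) : ℝ) = Int.fract (x i)
    push_cast
    rw [Int.fract]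
    ring
  rw [EuclideanSpace.norm_eq]
  have h2 : ∑ i, ‖(x + latt (fun i => -⌊x i⌋)) i‖ ^ 2 ≤ (n : ℝ) := by
    calc ∑ i, ‖(x + latt (fun i => -⌊x i⌋)) i‖ ^ 2 ≤ ∑ i : Fin n, (1 : ℝ) := by
          apply Finset.sum_le_sum
          intro i _
          rw [h1, Real.norm_eq_abs, abs_of_nonneg (Int.fract_nonneg _)]
          have := Int.fract_nonneg (x i)
          have := (Int.fract_lt_one (x i)).le
          nlinarith
      _ = n := by simp
  calc Real.sqrt (∑ i, ‖(x + latt (fun i => -⌊x i⌋)) i‖ ^ 2) ≤ Real.sqrt ((n : ℝ) ^ 2) := by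
        apply Real.sqrt_le_sqrt
        refine h2.trans ?_
        rcases Nat.eq_zero_or_pos n with h | h
        · simp [h]
        · have : (1 : ℝ) ≤ n := by exact_mod_cast h
          nlinarith
    _ = n := Real.sqrt_sq (Nat.cast_nonneg n)

private lemma per_bdd {n : ℕ} {V : Type} [NormedAddCommGroup V] (f : E n → V) (hf : Continuous f)
    (hper : ∀ k x, f (x + latt k) = f x) : ∃ C : ℝ, 0 ≤ C ∧ ∀ x, ‖f x‖ ≤ C := by
  obtain ⟨C, hC⟩ := (isCompact_closedBall (0 : E n) n).exists_bound_of_continuousOn hf.continuousOn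
  refine ⟨max C 0, le_max_right _ _, fun x => ?_⟩
  obtain ⟨k, hk⟩ := exists_shift x
  rw [← hper k x]
  refine (hC _ ?_).trans (le_max_left _ _)
  rw [mem_closedBall_zero_iff]
  exact hk

private lemma per_unif {n : ℕ} {V : Type} [NormedAddCommGroup V] (f : E n → V) (hf : Continuous f)
    (hper : ∀ k x, f (x + latt k) = f x) (ε : ℝ) (hε : 0 < ε) :
    ∃ δ > 0, ∀ x y, ‖x - y‖ < δ → ‖f x - f y‖ < ε := by
  have hc := (isCompact_closedBall (0 : E n) (n + 1)).uniformContinuousOn_of_continuous hf.continuousOn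
  rw [Metric.uniformContinuousOn_iff] at hc
  obtain ⟨δ, hδ, h⟩ := hc ε hε
  refine ⟨min δ 1, lt_min hδ one_pos, fun x y hxy => ?_⟩
  obtain ⟨k, hk⟩ := exists_shift x
  rw [← hper k x, ← hper k y, ← dist_eq_norm]
  have h1 : ‖(y + latt k) - (x + latt k)‖ < 1 := by
    rw [add_sub_add_right_eq_sub, norm_sub_rev]
    exact hxy.trans_le (min_le_right _ _)
  apply h
  · rw [mem_closedBall_zero_iff]
    linarith
  · rw [mem_closedBall_zero_iff]
    have := norm_add_le ((y + latt k) - (x + latt k)) (x + latt k)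
    rw [sub_add_cancel] at this
    linarith
  · rw [dist_add_right, dist_eq_norm]
    exact hxy.trans_le (min_le_left _ _)

private lemma taylor1 {F : Type} [NormedAddCommGroup F] [NormedSpace ℝ F] (f f' : ℝ → F)
    (hf : ∀ t, HasDerivAt f (f' t) t) (s t B : ℝ) (hB : ∀ r, |r - s| ≤ |t - s| → ‖f' r - f' s‖ ≤ B) :
    ‖f t - f s - (t - s) • f' s‖ ≤ B * |t - s| := by
  have h1 : ∀ r ∈ Set.uIcc s t, HasDerivWithinAt (fun r => f r - r • f' s) (f' r - f' s) (Set.uIcc s t) r := by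
    intro r _
    have h2 : HasDerivAt (fun r : ℝ => r • f' s) ((1 : ℝ) • f' s) r := (hasDerivAt_id r).smul_const (f' s)
    rw [one_smul] at h2
    exact ((hf r).sub h2).hasDerivWithinAt
  have h3 := Convex.norm_image_sub_le_of_norm_hasDerivWithin_le (C := B) h1 (fun r hr => hB r ?_)
    (convex_uIcc s t) (Set.left_mem_uIcc (a := s) (b := t)) (Set.right_mem_uIcc (a := s) (b := t))
  · rw [Real.norm_eq_abs] at h3
    have h4 : f t - f s - (t - s) • f' s = (f t - t • f' s) - (f s - s • f' s) := by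
      rw [sub_smul]
      abel
    rw [h4]
    exact h3
  · exact Set.abs_sub_left_of_mem_uIcc hr

private lemma hasDerivAt_of_est {F : Type} [NormedAddCommGroup F] [NormedSpace ℝ F] (f : ℝ → F) (f' : F) (s : ℝ)
    (h : ∀ ε > 0, ∃ δ > 0, ∀ t, |t - s| < δ → ‖f t - f s - (t - s) • f'‖ ≤ ε * |t - s|) : HasDerivAt f f' s := by
  rw [hasDerivAt_iff_isLittleO, Asymptotics.isLittleO_iff]
  intro ε hε
  obtain ⟨δ, hδ, h1⟩ := h ε hε
  filter_upwards [Metric.ball_mem_nhds s hδ] with t ht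
  rw [Metric.mem_ball, Real.dist_eq] at ht
  rw [Real.norm_eq_abs]
  exact h1 t ht

private lemma exists_ulim {n : ℕ} (U : Ultrafilter ℕ) (f : ℕ → E n) (C : ℝ) (h : ∀ᶠ j in (U : Filter ℕ), ‖f j‖ ≤ C) :
    ∃ x, Tendsto f U (𝓝 x) := by
  have h1 : ((U.map f : Ultrafilter (E n)) : Filter (E n)) ≤ 𝓟 (Metric.closedBall (0 : E n) C) := by
    rw [Filter.le_principal_iff, Ultrafilter.coe_map, Filter.mem_map]
    filter_upwards [h] with j hj
    rw [Set.mem_preimage, mem_closedBall_zero_iff]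
    exact hj
  obtain ⟨x, _, hx⟩ := (isCompact_closedBall (0 : E n) C).ultrafilter_le_nhds (U.map f) h1
  exact ⟨x, hx⟩

private lemma tendsto_clm {A B : Type} [NormedAddCommGroup A] [NormedSpace ℝ A] [NormedAddCommGroup B] [NormedSpace ℝ B]
    {l : Filter ℕ} {f : ℕ → A →L[ℝ] B} {u : ℕ → A} {f0 : A →L[ℝ] B} {u0 : A} (hf : Tendsto f l (𝓝 f0))
    (hu : Tendsto u l (𝓝 u0)) : Tendsto (fun j => f j (u j)) l (𝓝 (f0 u0)) := by
  have h := (isBoundedBilinearMap_apply (𝕜 := ℝ) (E := A) (F := B)).continuous.tendsto (f0, u0)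
  exact h.comp (hf.prodMk_nhds hu)

theorem limit_geodesic {n : ℕ} (U : Ultrafilter ℕ) (hU : (U : Filter ℕ) ≤ atTop) (g : E n → Bil n) (hg : IsMetric 1 g)
    (gs : ℕ → E n → Bil n) (hgs : ∀ j, IsMetric 1 (gs j)) (hconv : ConvMet gs g) (cs : ℕ → ℝ → E n)
    (hcs : ∀ j, IsGeodesic (gs j) (cs j)) (hus : ∀ j, UnitSpeed (gs j) (cs j)) (R : ℝ) (hR : ∀ j, ‖cs j 0‖ ≤ R) :
    ∃ c : ℝ → E n, IsGeodesic g c ∧ UnitSpeed g c ∧ (∀ t, Tendsto (fun j => cs j t) U (𝓝 (c t))) ∧
      (∀ t, Tendsto (fun j => deriv (cs j) t) U (𝓝 (deriv c t))) ∧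
      ∀ (t : ℕ → ℝ) (t0 : ℝ), Tendsto t U (𝓝 t0) → Tendsto (fun j => cs j (t j)) U (𝓝 (c t0)) := by
  obtain ⟨a, b, ha, hb, hab⟩ := metric_bounds hg
  have hgc : Continuous g := hg.smooth.continuous
  have hDc : Continuous (fderiv ℝ g) := hg.smooth.continuous_fderiv (by norm_num)
  have hDper : ∀ k x, fderiv ℝ g (x + latt k) = fderiv ℝ g x := by
    intro k x
    have h1 : (fun y => g (y + latt k)) = g := funext fun y => hg.per k y
    rw [← fderiv_comp_add_right, h1]
  obtain ⟨G1, hG1, hG1'⟩ := per_bdd g hgc hg.per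
  obtain ⟨G2, hG2, hG2'⟩ := per_bdd (fderiv ℝ g) hDc hDper
  set G : ℝ := G1 + G2 + a + 1 with hG
  have hG0 : 0 < G := by positivity
  set V : ℝ := Real.sqrt (2 / a) with hV
  have hV0 : 0 ≤ V := Real.sqrt_nonneg _
  set L : ℝ := 3 * G * V ^ 2 / a with hL
  have hL0 : 0 ≤ L := by positivity
  -- good indices
  have hgood : ∀ᶠ j in (U : Filter ℕ), (∀ x, ‖gs j x - g x‖ < a / 2) ∧ ∀ x, ‖fderiv ℝ (gs j) x - fderiv ℝ g x‖ < 1 := by
    have h1 := hconv (min (a / 2) 1) (by positivity)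
    filter_upwards [hU h1] with j hj
    exact ⟨fun x => (hj x).1.trans_le (min_le_left _ _), fun x => (hj x).2.trans_le (min_le_right _ _)⟩
  have hdiff : ∀ j t, HasDerivAt (cs j) (deriv (cs j) t) t := fun j t => ((hcs j).1 t).hasDerivAt
  have key : ∀ j, ((∀ x, ‖gs j x - g x‖ < a / 2) ∧ ∀ x, ‖fderiv ℝ (gs j) x - fderiv ℝ g x‖ < 1) →
      (∀ x, ‖fderiv ℝ (gs j) x‖ ≤ G) ∧ (∀ t, ‖deriv (cs j) t‖ ≤ V) ∧ (∀ t s, ‖cs j t - cs j s‖ ≤ V * |t - s|) ∧
      ∀ t s, ‖deriv (cs j) t - deriv (cs j) s‖ ≤ L * |t - s| := by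
    rintro j ⟨h1, h2⟩
    have hlow : ∀ x u, a / 2 * ‖u‖ ^ 2 ≤ gs j x u u := by
      intro x u
      have h3 := (hab x u).1
      have h4 : |(gs j x - g x) u u| ≤ a / 2 * ‖u‖ * ‖u‖ :=
        ((gs j x - g x).le_opNorm₂ u u).trans (by gcongr; exact (h1 x).le)
      have h5 : (gs j x - g x) u u = gs j x u u - g x u u := by simp
      rw [h5] at h4
      have h6 := (abs_le.mp h4).1
      nlinarith
    have hDj : ∀ x, ‖fderiv ℝ (gs j) x‖ ≤ G := by
      intro x
      have h3 : ‖fderiv ℝ (gs j) x‖ ≤ ‖fderiv ℝ (gs j) x - fderiv ℝ g x‖ + ‖fderiv ℝ g x‖ := by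
        have := norm_add_le (fderiv ℝ (gs j) x - fderiv ℝ g x) (fderiv ℝ g x)
        rwa [sub_add_cancel] at this
      have := (h2 x).le
      have := hG2' x
      rw [hG]
      linarith
    have hv : ∀ t, ‖deriv (cs j) t‖ ≤ V := by
      intro t
      rw [hV]
      apply Real.le_sqrt_of_sq_le
      have h3 := hlow (cs j t) (deriv (cs j) t)
      rw [hus j t] at h3
      rw [le_div_iff₀ ha]
      linarith
    have hc : ∀ t s, ‖cs j t - cs j s‖ ≤ V * |t - s| := by
      intro t s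
      have := Convex.norm_image_sub_le_of_norm_deriv_le (f := cs j) (C := V) (s := Set.univ) (x := s) (y := t)
        (fun r _ => (hcs j).1 r) (fun r _ => hv r) convex_univ (Set.mem_univ _) (Set.mem_univ _)
      rwa [Real.norm_eq_abs] at this
    refine ⟨hDj, hv, hc, fun t s => ?_⟩
    set w := deriv (cs j) t - deriv (cs j) s with hw
    have hglip : ‖gs j (cs j t) - gs j (cs j s)‖ ≤ G * (V * |t - s|) := by
      have h3 := Convex.norm_image_sub_le_of_norm_fderiv_le (𝕜 := ℝ) (f := gs j) (C := G) (s := Set.univ) (x := cs j s)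
        (y := cs j t) (fun r _ => ((hgs j).smooth.differentiable (by norm_num)) r) (fun r _ => hDj r) convex_univ
        (Set.mem_univ _) (Set.mem_univ _)
      exact h3.trans (mul_le_mul_of_nonneg_left (hc t s) hG0.le)
    have hphi : |gs j (cs j t) (deriv (cs j) t) w - gs j (cs j s) (deriv (cs j) s) w| ≤
        (1 / 2 * (G * ‖w‖ * V * V)) * |t - s| := by
      have h3 := Convex.norm_image_sub_le_of_norm_hasDerivWithin_le
        (f := fun r => gs j (cs j r) (deriv (cs j) r) w)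
        (f' := fun r => (1 / 2) * fderiv ℝ (gs j) (cs j r) w (deriv (cs j) r) (deriv (cs j) r))
        (C := 1 / 2 * (G * ‖w‖ * V * V)) (s := Set.univ) (x := s) (y := t)
        (fun r _ => ((hcs j).2 r w).hasDerivWithinAt) (fun r _ => ?_) convex_univ (Set.mem_univ _) (Set.mem_univ _)
      · rwa [Real.norm_eq_abs, Real.norm_eq_abs] at h3
      · rw [norm_mul, Real.norm_of_nonneg (by norm_num : (0 : ℝ) ≤ 1 / 2)]
        apply mul_le_mul_of_nonneg_left _ (by norm_num)
        calc ‖fderiv ℝ (gs j) (cs j r) w (deriv (cs j) r) (deriv (cs j) r)‖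
            ≤ ‖fderiv ℝ (gs j) (cs j r) w‖ * ‖deriv (cs j) r‖ * ‖deriv (cs j) r‖ :=
              (fderiv ℝ (gs j) (cs j r) w).le_opNorm₂ _ _
          _ ≤ (G * ‖w‖) * V * V := by
              gcongr
              · exact ((fderiv ℝ (gs j) (cs j r)).le_opNorm w).trans (by gcongr; exact hDj _)
              · exact hv r
              · exact hv r
    have hid : gs j (cs j s) w w = (gs j (cs j t) (deriv (cs j) t) w - gs j (cs j s) (deriv (cs j) s) w) -
        (gs j (cs j t) - gs j (cs j s)) (deriv (cs j) t) w := by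
      have : gs j (cs j s) w = gs j (cs j s) (deriv (cs j) t) - gs j (cs j s) (deriv (cs j) s) := by
        rw [hw, map_sub]
      rw [this]
      simp only [sub_apply]
      ring
    have hb2 : |(gs j (cs j t) - gs j (cs j s)) (deriv (cs j) t) w| ≤ G * (V * |t - s|) * V * ‖w‖ := by
      refine ((gs j (cs j t) - gs j (cs j s)).le_opNorm₂ _ _).trans ?_
      gcongr
      exact hv t
    have h6 := hlow (cs j s) w
    rw [hid] at h6
    have h7 := (abs_le.mp hphi).2
    have h8 := (abs_le.mp hb2).1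
    have h9 : a / 2 * ‖w‖ ^ 2 ≤ (3 / 2 * G * V ^ 2 * |t - s|) * ‖w‖ := by
      nlinarith
    have h10 : a / 2 * ‖w‖ ≤ 3 / 2 * G * V ^ 2 * |t - s| := by
      rcases eq_or_lt_of_le (norm_nonneg w) with h | h
      · rw [← h, mul_zero]
        positivity
      · have : (a / 2 * ‖w‖) * ‖w‖ ≤ (3 / 2 * G * V ^ 2 * |t - s|) * ‖w‖ := by nlinarith
        exact le_of_mul_le_mul_right this h
    rw [hL, div_mul_eq_mul_div, le_div_iff₀ ha]
    linarith
  -- limits
  have hlimc : ∀ t, ∃ x, Tendsto (fun j => cs j t) U (𝓝 x) := by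
    intro t
    apply exists_ulim U _ (R + V * |t - 0|)
    filter_upwards [hgood] with j hj
    have h1 := (key j hj).2.2.1 t 0
    have h2 := norm_add_le (cs j t - cs j 0) (cs j 0)
    rw [sub_add_cancel] at h2
    have := hR j
    linarith
  have hlimv : ∀ t, ∃ x, Tendsto (fun j => deriv (cs j) t) U (𝓝 x) := by
    intro t
    apply exists_ulim U _ V
    filter_upwards [hgood] with j hj
    exact (key j hj).2.1 t
  choose c hc using hlimc
  choose v hv using hlimv
  have hcv : ∀ s, HasDerivAt c (v s) s := by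
    intro s
    apply hasDerivAt_of_est
    intro ε hε
    refine ⟨ε / (L + 1), by positivity, fun t ht => ?_⟩
    have h1 : ‖c t - c s - (t - s) • v s‖ ≤ (L * |t - s|) * |t - s| := by
      apply le_of_tendsto (((hc t).sub (hc s)).sub ((hv s).const_smul (t - s))).norm
      filter_upwards [hgood] with j hj
      apply taylor1 (cs j) (deriv (cs j)) (hdiff j) s t
      intro r hr
      exact ((key j hj).2.2.2 r s).trans (mul_le_mul_of_nonneg_left hr hL0)
    refine h1.trans ?_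
    apply mul_le_mul_of_nonneg_right _ (abs_nonneg _)
    rw [lt_div_iff₀ (by positivity)] at ht
    nlinarith [abs_nonneg (t - s)]
  have hdc : ∀ s, deriv c s = v s := fun s => (hcv s).deriv
  have hgt : ∀ t, Tendsto (fun j => gs j (cs j t)) U (𝓝 (g (c t))) := by
    intro t
    have h1 : Tendsto (fun j => g (cs j t)) U (𝓝 (g (c t))) := (hgc.tendsto _).comp (hc t)
    have h2 : Tendsto (fun j => gs j (cs j t) - g (cs j t)) U (𝓝 0) := by
      rw [Metric.tendsto_nhds]
      intro ε hε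
      filter_upwards [hU (hconv ε hε)] with j hj
      rw [dist_zero_right]
      exact (hj _).1
    have h3 := h2.add h1
    simpa using h3
  have hDt : ∀ t, Tendsto (fun j => fderiv ℝ (gs j) (cs j t)) U (𝓝 (fderiv ℝ g (c t))) := by
    intro t
    have h1 : Tendsto (fun j => fderiv ℝ g (cs j t)) U (𝓝 (fderiv ℝ g (c t))) := (hDc.tendsto _).comp (hc t)
    have h2 : Tendsto (fun j => fderiv ℝ (gs j) (cs j t) - fderiv ℝ g (cs j t)) U (𝓝 0) := by
      rw [Metric.tendsto_nhds]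
      intro ε hε
      filter_upwards [hU (hconv ε hε)] with j hj
      rw [dist_zero_right]
      exact (hj _).2
    have h3 := h2.add h1
    simpa using h3
  refine ⟨c, ⟨fun s => (hcv s).differentiableAt, fun s w => ?_⟩, fun t => ?_, hc, fun t => ?_, fun t t0 ht => ?_⟩
  · rw [hdc]
    have hfun : (fun r => g (c r) (deriv c r) w) = fun r => g (c r) (v r) w := by
      funext r
      rw [hdc]
    rw [hfun]
    apply hasDerivAt_of_est
    intro ε hε
    set ε1 : ℝ := ε / (3 * ‖w‖ * V ^ 2 + 1) with hε1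
    have hε10 : 0 < ε1 := by positivity
    obtain ⟨δ1, hδ1, hδ1'⟩ := per_unif (fderiv ℝ g) hDc hDper ε1 hε10
    set δ : ℝ := min (δ1 / (V + 1)) (ε / (2 * G * ‖w‖ * L * V + 1)) with hδ
    have hδ0 : 0 < δ := by positivity
    refine ⟨δ, hδ0, fun t ht => ?_⟩
    have hφ : ∀ r, Tendsto (fun j => gs j (cs j r) (deriv (cs j) r) w) U (𝓝 (g (c r) (v r) w)) := by
      intro r
      exact tendsto_clm (tendsto_clm (hgt r) (hv r)) tendsto_const_nhds
    have hψ : Tendsto (fun j => (1 / 2 : ℝ) * fderiv ℝ (gs j) (cs j s) w (deriv (cs j) s) (deriv (cs j) s)) U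
        (𝓝 ((1 / 2) * fderiv ℝ g (c s) w (v s) (v s))) := by
      exact (tendsto_clm (tendsto_clm (tendsto_clm (hDt s) tendsto_const_nhds) (hv s)) (hv s)).const_mul _
    apply le_of_tendsto (((hφ t).sub (hφ s)).sub (hψ.const_smul (t - s))).norm
    filter_upwards [hgood, hU (hconv ε1 hε10)] with j hj hj1
    apply taylor1 (fun r => gs j (cs j r) (deriv (cs j) r) w)
      (fun r => (1 / 2) * fderiv ℝ (gs j) (cs j r) w (deriv (cs j) r) (deriv (cs j) r)) (fun r => (hcs j).2 r w) s t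
    intro r hr
    obtain ⟨k1, k2, k3, k4⟩ := key j hj
    have hrs : |r - s| < δ := hr.trans_lt ht
    have h1 : ‖fderiv ℝ (gs j) (cs j r) - fderiv ℝ (gs j) (cs j s)‖ ≤ 3 * ε1 := by
      have e1 := (hj1 (cs j r)).2
      have e2 := (hj1 (cs j s)).2
      have e3 : ‖fderiv ℝ g (cs j r) - fderiv ℝ g (cs j s)‖ < ε1 := by
        apply hδ1'
        refine (k3 r s).trans_lt ?_
        have : |r - s| < δ1 / (V + 1) := hrs.trans_le (min_le_left _ _)
        rw [lt_div_iff₀ (by positivity)] at this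
        nlinarith [abs_nonneg (r - s)]
      have e4 : fderiv ℝ (gs j) (cs j r) - fderiv ℝ (gs j) (cs j s) =
          (fderiv ℝ (gs j) (cs j r) - fderiv ℝ g (cs j r)) + (fderiv ℝ g (cs j r) - fderiv ℝ g (cs j s)) -
          (fderiv ℝ (gs j) (cs j s) - fderiv ℝ g (cs j s)) := by abel
      rw [e4]
      refine (norm_sub_le _ _).trans ?_
      have := norm_add_le (fderiv ℝ (gs j) (cs j r) - fderiv ℝ g (cs j r)) (fderiv ℝ g (cs j r) - fderiv ℝ g (cs j s))
      linarith
    have h2 : fderiv ℝ (gs j) (cs j r) w (deriv (cs j) r) (deriv (cs j) r) -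
        fderiv ℝ (gs j) (cs j s) w (deriv (cs j) s) (deriv (cs j) s) =
        (fderiv ℝ (gs j) (cs j r) - fderiv ℝ (gs j) (cs j s)) w (deriv (cs j) r) (deriv (cs j) r) +
        fderiv ℝ (gs j) (cs j s) w (deriv (cs j) r - deriv (cs j) s) (deriv (cs j) r) +
        fderiv ℝ (gs j) (cs j s) w (deriv (cs j) s) (deriv (cs j) r - deriv (cs j) s) := by
      simp only [sub_apply, map_sub]
      ring
    have b1 : ‖(fderiv ℝ (gs j) (cs j r) - fderiv ℝ (gs j) (cs j s)) w (deriv (cs j) r) (deriv (cs j) r)‖ ≤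
        3 * ε1 * ‖w‖ * V * V := by
      refine (ContinuousLinearMap.le_opNorm₂ _ _ _).trans ?_
      gcongr
      · exact (ContinuousLinearMap.le_opNorm _ _).trans (by gcongr)
      · exact k2 r
      · exact k2 r
    have b2 : ‖fderiv ℝ (gs j) (cs j s) w (deriv (cs j) r - deriv (cs j) s) (deriv (cs j) r)‖ ≤
        G * ‖w‖ * (L * |r - s|) * V := by
      refine (ContinuousLinearMap.le_opNorm₂ _ _ _).trans ?_
      gcongr
      · exact (ContinuousLinearMap.le_opNorm _ _).trans (by gcongr; exact k1 _)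
      · exact k4 r s
      · exact k2 r
    have b3 : ‖fderiv ℝ (gs j) (cs j s) w (deriv (cs j) s) (deriv (cs j) r - deriv (cs j) s)‖ ≤
        G * ‖w‖ * V * (L * |r - s|) := by
      refine (ContinuousLinearMap.le_opNorm₂ _ _ _).trans ?_
      gcongr
      · exact (ContinuousLinearMap.le_opNorm _ _).trans (by gcongr; exact k1 _)
      · exact k2 s
      · exact k4 r s
    have h3 : (1 / 2 : ℝ) * fderiv ℝ (gs j) (cs j r) w (deriv (cs j) r) (deriv (cs j) r) -
        (1 / 2) * fderiv ℝ (gs j) (cs j s) w (deriv (cs j) s) (deriv (cs j) s) =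
        (1 / 2) * (fderiv ℝ (gs j) (cs j r) w (deriv (cs j) r) (deriv (cs j) r) -
          fderiv ℝ (gs j) (cs j s) w (deriv (cs j) s) (deriv (cs j) s)) := by ring
    change ‖(1 / 2 : ℝ) * fderiv ℝ (gs j) (cs j r) w (deriv (cs j) r) (deriv (cs j) r) -
        (1 / 2) * fderiv ℝ (gs j) (cs j s) w (deriv (cs j) s) (deriv (cs j) s)‖ ≤ ε
    rw [h3, h2, norm_mul, Real.norm_of_nonneg (by norm_num : (0 : ℝ) ≤ 1 / 2)]
    have h4 := norm_add₃_le (a := (fderiv ℝ (gs j) (cs j r) - fderiv ℝ (gs j) (cs j s)) w (deriv (cs j) r) (deriv (cs j) r))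
      (b := fderiv ℝ (gs j) (cs j s) w (deriv (cs j) r - deriv (cs j) s) (deriv (cs j) r))
      (c := fderiv ℝ (gs j) (cs j s) w (deriv (cs j) s) (deriv (cs j) r - deriv (cs j) s))
    have h5 : 3 * ε1 * ‖w‖ * V * V ≤ ε := by
      have : ε1 * (3 * ‖w‖ * V ^ 2 + 1) = ε := by
        rw [hε1]
        field_simp
      nlinarith
    have h6 : |r - s| * (2 * G * ‖w‖ * L * V) ≤ ε := by
      have h7 : |r - s| < ε / (2 * G * ‖w‖ * L * V + 1) := hrs.trans_le (min_le_right _ _)
      rw [lt_div_iff₀ (by positivity)] at h7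
      nlinarith [abs_nonneg (r - s)]
    nlinarith
  · rw [hdc]
    have h1 : Tendsto (fun j => gs j (cs j t) (deriv (cs j) t) (deriv (cs j) t)) U (𝓝 (g (c t) (v t) (v t))) :=
      tendsto_clm (tendsto_clm (hgt t) (hv t)) (hv t)
    have h2 : (fun j => gs j (cs j t) (deriv (cs j) t) (deriv (cs j) t)) = fun _ => (1 : ℝ) :=
      funext fun j => hus j t
    rw [h2] at h1
    exact tendsto_nhds_unique tendsto_const_nhds h1 |>.symm
  · rw [hdc]
    exact hv t
  · have h1 : Tendsto (fun j => cs j (t j) - cs j t0) U (𝓝 0) := by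
      have h2 : Tendsto (fun j => V * |t j - t0|) U (𝓝 0) := by
        have h3 : Tendsto (fun j => V * |t j - t0|) U (𝓝 (V * |t0 - t0|)) :=
          ((ht.sub tendsto_const_nhds).abs).const_mul V
        simpa using h3
      apply squeeze_zero_norm' _ h2
      filter_upwards [hgood] with j hj
      exact (key j hj).2.2.1 _ _
    have h4 := h1.add (hc t0)
    simpa using h4

end Pool.Agent.Helper59.GT
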