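import Pool.Agent.Helper59.GT.Defs

/-!
# GT-41 Mollify: smooth periodic functions are dense in the periodic `C ^ 1` functions

Proof. `u` and `D u` are continuous and periodic, so uniformly continuous; take `r > 0` with `|u y - u x| < ε`, `‖D u y - D u x‖ < ε` for `‖y - x‖ < r`. `ψ` a normalised bump with support in `ball 0 r`, `v = u ⋆ ψ`, i.e. `v x = ∫ ψ (y) u (x - y) dy`. Smooth (`contDiff_convolution`), periodic,
`D v = (D u) ⋆ ψ` (`HasCompactSupport.hasFDerivAt_convolution_left/right`; or differentiation under the integral sign), so `|v - u| ≤ sup_(|y| < r) |u (x - y) - u x| ≤ ε'` (`ContDiffBump.dist_normed_convolution_le`) and the same for `D`.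
-/

set_option autoImplicit false
set_option maxSynthPendingDepth 3

open scoped ContDiff

namespace Pool.Agent.Helper59.GT

private theorem unif {n : ℕ} {F : Type*} [NormedAddCommGroup F] {f : E n → F} (hf : Continuous f)
    (hper : ∀ k x, f (x + latt k) = f x) {ε : ℝ} (hε : 0 < ε) :
    ∃ δ > 0, ∀ x y, dist x y < δ → dist (f x) (f y) < ε := by
  have hK : IsCompact (Metric.closedBall (0 : E n) (Real.sqrt n + 1)) := isCompact_closedBall _ _
  have h1 := hK.uniformContinuousOn_of_continuous hf.continuousOn
  rw [Metric.uniformContinuousOn_iff] at h1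
  obtain ⟨δ, hδ, h2⟩ := h1 ε hε
  refine ⟨min δ 1, lt_min hδ one_pos, fun x y hxy => ?_⟩
  set k : Fin n → ℤ := fun i => -⌊x i⌋ with hk
  have hx : ‖x + latt k‖ ≤ Real.sqrt n := by
    rw [EuclideanSpace.norm_eq]
    apply Real.sqrt_le_sqrt
    calc ∑ i, ‖(x + latt k) i‖ ^ 2 ≤ ∑ i : Fin n, (1 : ℝ) := by
          apply Finset.sum_le_sum
          intro i _
          have e1 : (x + latt k) i = Int.fract (x i) := by
            show x i + ((k i : ℤ) : ℝ) = Int.fract (x i)
            rw [hk]
            simp only [Int.cast_neg, Int.fract]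
            ring
          rw [e1, Real.norm_eq_abs, abs_of_nonneg (Int.fract_nonneg _)]
          have e2 := Int.fract_lt_one (x i)
          have e3 := Int.fract_nonneg (x i)
          nlinarith
      _ = n := by simp
  have hd : dist (x + latt k) (y + latt k) = dist x y := dist_add_right _ _ _
  have hy : ‖y + latt k‖ ≤ Real.sqrt n + 1 := by
    have e1 : ‖y + latt k‖ ≤ ‖x + latt k‖ + dist (x + latt k) (y + latt k) := by
      rw [dist_comm, dist_eq_norm]
      calc ‖y + latt k‖ = ‖(x + latt k) + ((y + latt k) - (x + latt k))‖ := by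
            congr 1; abel
        _ ≤ _ := norm_add_le _ _
    rw [hd] at e1
    have e2 := hxy.trans_le (min_le_right _ _)
    linarith
  have h3 := h2 (x + latt k) (mem_closedBall_zero_iff.2 (by linarith)) (y + latt k)
    (mem_closedBall_zero_iff.2 hy) (by rw [hd]; exact hxy.trans_le (min_le_left _ _))
  rwa [hper, hper] at h3

private theorem bdd {n : ℕ} {F : Type*} [NormedAddCommGroup F] {f : E n → F} (hf : Continuous f)
    (hper : ∀ k x, f (x + latt k) = f x) : ∃ M : ℝ, ∀ x, ‖f x‖ ≤ M := by
  have hK : IsCompact (Metric.closedBall (0 : E n) (Real.sqrt n)) := isCompact_closedBall _ _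
  obtain ⟨M, hM⟩ := hK.exists_bound_of_continuousOn hf.continuousOn
  refine ⟨M, fun x => ?_⟩
  set k : Fin n → ℤ := fun i => -⌊x i⌋ with hk
  have hx : ‖x + latt k‖ ≤ Real.sqrt n := by
    rw [EuclideanSpace.norm_eq]
    apply Real.sqrt_le_sqrt
    calc ∑ i, ‖(x + latt k) i‖ ^ 2 ≤ ∑ i : Fin n, (1 : ℝ) := by
          apply Finset.sum_le_sum
          intro i _
          have e1 : (x + latt k) i = Int.fract (x i) := by
            show x i + ((k i : ℤ) : ℝ) = Int.fract (x i)
            rw [hk]
            simp only [Int.cast_neg, Int.fract]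
            ring
          rw [e1, Real.norm_eq_abs, abs_of_nonneg (Int.fract_nonneg _)]
          have e2 := Int.fract_lt_one (x i)
          have e3 := Int.fract_nonneg (x i)
          nlinarith
      _ = n := by simp
  have h := hM (x + latt k) (mem_closedBall_zero_iff.2 hx)
  rwa [hper] at h

private theorem fderiv_per {n : ℕ} {u : E n → ℝ} (hper : ∀ k x, u (x + latt k) = u x) (k : Fin n → ℤ) (x : E n) :
    fderiv ℝ u (x + latt k) = fderiv ℝ u x := by
  rw [← fderiv_comp_add_right]
  congr 1
  funext y
  exact hper k y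

open MeasureTheory ContinuousLinearMap in
private theorem conv_deriv {n : ℕ} (u : E n → ℝ) (hu : ContDiff ℝ 1 u) (hper : ∀ k x, u (x + latt k) = u x)
    (ψ : E n → ℝ) (hψ : Continuous ψ) (hc : HasCompactSupport ψ) (x : E n) :
    HasFDerivAt (convolution ψ u (lsmul ℝ ℝ) volume) (convolution ψ (fderiv ℝ u) (lsmul ℝ ℝ) volume x) x := by
  have hDc : Continuous (fderiv ℝ u) := hu.continuous_fderiv one_ne_zero
  obtain ⟨M, hM⟩ := bdd hDc (fderiv_per hper)
  have hM0 : 0 ≤ M := (norm_nonneg _).trans (hM 0)
  have hψi : Integrable ψ := hψ.integrable_of_hasCompactSupport hc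
  have key := hasFDerivAt_integral_of_dominated_of_fderiv_le (𝕜 := ℝ) (μ := (volume : Measure (E n)))
    (F := fun z y => ψ y • u (z - y)) (F' := fun z y => ψ y • fderiv ℝ u (z - y)) (x₀ := x)
    (s := Set.univ) (bound := fun y => ‖ψ y‖ * M) Filter.univ_mem
    (Filter.Eventually.of_forall fun z => by
      exact (hψ.smul (hu.continuous.comp (continuous_const.sub continuous_id))).aestronglyMeasurable)
    (by
      apply Continuous.integrable_of_hasCompactSupport
      · exact hψ.smul (hu.continuous.comp (continuous_const.sub continuous_id))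
      · exact hc.smul_right)
    (by
      exact (hψ.smul (hDc.comp (continuous_const.sub continuous_id))).aestronglyMeasurable)
    (Filter.Eventually.of_forall fun y z _ => by
      rw [norm_smul]
      exact mul_le_mul_of_nonneg_left (hM _) (norm_nonneg _))
    (hψi.norm.mul_const M)
    (Filter.Eventually.of_forall fun y z _ => by
      have h1 : HasFDerivAt u (fderiv ℝ u (z - y)) (z - y) :=
        (hu.differentiable one_ne_zero).differentiableAt.hasFDerivAt
      have h2 : HasFDerivAt (fun z : E n => u (z - y)) (fderiv ℝ u (z - y)) z := by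
        have h3 := h1.comp z ((hasFDerivAt_id z).sub_const y)
        rw [ContinuousLinearMap.comp_id] at h3
        exact h3
      exact h2.const_smul (ψ y))
  exact key

theorem exists_smooth_near {n : ℕ} (u : E n → ℝ) (hu : ContDiff ℝ 1 u) (hper : ∀ k x, u (x + latt k) = u x) (ε : ℝ)
    (hε : 0 < ε) : ∃ v : E n → ℝ, ContDiff ℝ ∞ v ∧ (∀ k x, v (x + latt k) = v x) ∧
      ∀ x, |v x - u x| < ε ∧ ‖fderiv ℝ v x - fderiv ℝ u x‖ < ε := by
  have hDc : Continuous (fderiv ℝ u) := hu.continuous_fderiv one_ne_zero
  obtain ⟨δ₁, hδ₁, h1⟩ := unif hu.continuous hper (half_pos hε)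
  obtain ⟨δ₂, hδ₂, h2⟩ := unif hDc (fderiv_per hper) (half_pos hε)
  have hδ : 0 < min δ₁ δ₂ := lt_min hδ₁ hδ₂
  let φ : ContDiffBump (0 : E n) := ⟨min δ₁ δ₂ / 2, min δ₁ δ₂, half_pos hδ, half_lt_self hδ⟩
  have hrO : φ.rOut = min δ₁ δ₂ := rfl
  set ψ : E n → ℝ := φ.normed MeasureTheory.volume with hψd
  have hψs : ContDiff ℝ ∞ ψ := φ.contDiff_normed
  have hψc : HasCompactSupport ψ := φ.hasCompactSupport_normed
  refine ⟨MeasureTheory.convolution ψ u (ContinuousLinearMap.lsmul ℝ ℝ) MeasureTheory.volume, ?_, ?_, ?_⟩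
  · exact hψc.contDiff_convolution_left _ hψs hu.continuous.locallyIntegrable
  · intro k x
    rw [MeasureTheory.convolution_def, MeasureTheory.convolution_def]
    congr 1
    funext y
    rw [show x + latt k - y = (x - y) + latt k by abel, hper]
  · intro x
    constructor
    · have h3 := φ.dist_normed_convolution_le (μ := MeasureTheory.volume) (x₀ := x) (g := u) (ε := ε / 2)
        hu.continuous.aestronglyMeasurable (fun y hy => by
          rw [Metric.mem_ball, hrO] at hy
          exact (h1 y x (hy.trans_le (min_le_left _ _))).le)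
      rw [Real.dist_eq] at h3
      exact h3.trans_lt (half_lt_self hε)
    · rw [(conv_deriv u hu hper ψ hψs.continuous hψc x).fderiv]
      have h3 := φ.dist_normed_convolution_le (μ := MeasureTheory.volume) (x₀ := x) (g := fderiv ℝ u) (ε := ε / 2)
        hDc.aestronglyMeasurable (fun y hy => by
          rw [Metric.mem_ball, hrO] at hy
          exact (h2 y x (hy.trans_le (min_le_right _ _))).le)
      rw [dist_eq_norm] at h3
      exact h3.trans_lt (half_lt_self hε)

end Pool.Agent.Helper59.GT
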