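import Pool.Agent.Helper59.GT.Defs

/-!
# GT-25 LocalInj: uniform local injectivity of regular closed curves, stable under `C ^ 1`-small perturbations

Proof. `c' (t + P) = c' t`, so `‖c'‖` has a minimum `m > 0` and a maximum `C`, and `c'` is uniformly continuous (periodic and continuous: compactness of `[0, P]`, or `[-P, 2 P]`). Take `ρ > 0` with `‖c' τ - c' s‖ ≤ m / 4` for `|τ - s| ≤ ρ`, `ρ (C + m) ≤ 1 / 2`, and `η₀ = m / 4`.
For `s < t ≤ s + ρ` the mean value inequality (for `τ ↦ c τ + e τ - τ c' s` on `[s, t]`, derivative bounded by `m / 2`) gives `‖(c + e) t - (c + e) s - (t - s) c' s‖ ≤ (t - s) m / 2`, so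
`0 < (t - s) m / 2 ≤ ‖(c + e) t - (c + e) s‖ ≤ (t - s) (C + m) ≤ 1 / 2`. A lattice vector `latt k` is `0` or has norm `≥ 1`. So the difference is not a lattice vector. (Symmetric in `s, t`.)
-/

set_option autoImplicit false
set_option maxSynthPendingDepth 3

open scoped ContDiff

namespace Pool.Agent.Helper59.GT

private theorem one_le_norm_latt {n : ℕ} (k : Fin n → ℤ) (hk : latt k ≠ (0 : E n)) :
    1 ≤ ‖(latt k : E n)‖ := by
  obtain ⟨i, hi⟩ : ∃ i, k i ≠ 0 := by
    by_contra h
    push Not at h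
    apply hk
    ext i
    simp [latt, h i]
  have h1 : (1 : ℝ) ≤ |(k i : ℝ)| := by
    have : (1 : ℤ) ≤ |k i| := Int.one_le_abs hi
    exact_mod_cast this
  refine h1.trans ?_
  have h2 := PiLp.norm_apply_le (latt k : E n) i
  rw [Real.norm_eq_abs] at h2
  exact h2

theorem local_inj {n : ℕ} (c : ℝ → E n) (P : ℝ) (hP : 0 < P) (hs : ContDiff ℝ ∞ c) (hper : ∃ k, ∀ t, c (t + P) = c t + latt k)
    (hreg : ∀ t, deriv c t ≠ 0) :
    ∃ ρ η₀ : ℝ, 0 < ρ ∧ 0 < η₀ ∧ ∀ e : ℝ → E n, ContDiff ℝ ∞ e → (∀ t, ‖deriv e t‖ ≤ η₀) →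
      ∀ s t, s ≠ t → |s - t| ≤ ρ → ∀ k, c s + e s ≠ c t + e t + latt k := by
  have htop : (∞ : WithTop ℕ∞) ≠ 0 := by simp
  obtain ⟨k0, hk0⟩ := hper
  have hD1 : ContDiff ℝ ∞ (deriv c) := hs.deriv'
  have hD : Continuous (deriv c) := hD1.continuous
  have hDper : Function.Periodic (deriv c) P := by
    intro t
    have h1 : (fun s => c (s + P)) = fun s => c s + latt k0 := funext hk0
    have h2 := congrArg (fun f => deriv f t) h1
    simp only [deriv_comp_add_const, deriv_add_const] at h2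
    exact h2
  have hunif : ∀ ε > 0, ∃ δ > 0, ∀ {a b : ℝ}, dist a b < δ → dist (deriv c a) (deriv c b) < ε := by
    intro ε hε
    have h1 := isCompact_Icc.uniformContinuousOn_of_continuous
      (s := Set.Icc (-P) (2 * P)) hD.continuousOn
    obtain ⟨δ, hδ, hδ2⟩ := Metric.uniformContinuousOn_iff.1 h1 ε hε
    refine ⟨min δ P, lt_min hδ hP, fun {a b} hab => ?_⟩
    have e1 := hDper.sub_int_mul_eq (x := a) ⌊a / P⌋
    have e2 := hDper.sub_int_mul_eq (x := b) ⌊a / P⌋
    rw [← e1, ← e2]
    have f1 : 0 ≤ a - ⌊a / P⌋ * P := by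
      have := Int.floor_le (a / P)
      rw [le_div_iff₀ hP] at this
      linarith
    have f2 : a - ⌊a / P⌋ * P < P := by
      have := Int.lt_floor_add_one (a / P)
      rw [div_lt_iff₀ hP] at this
      linarith
    have hab' : |a - b| < P := by
      rw [← Real.dist_eq]
      exact hab.trans_le (min_le_right _ _)
    rw [abs_lt] at hab'
    refine hδ2 _ ⟨by linarith, by linarith⟩ _ ⟨by linarith [hab'.2], by linarith [hab'.1]⟩ ?_
    rw [Real.dist_eq, sub_sub_sub_cancel_right, ← Real.dist_eq]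
    exact hab.trans_le (min_le_left _ _)
  have hne : (Set.Icc 0 P).Nonempty := ⟨0, le_rfl, hP.le⟩
  obtain ⟨t1, ht1, hmin⟩ := isCompact_Icc.exists_isMinOn hne hD.norm.continuousOn
  obtain ⟨C, hC⟩ := isCompact_Icc.exists_bound_of_continuousOn (s := Set.Icc 0 P) hD.continuousOn
  set m := ‖deriv c t1‖ with hm
  have hm0 : 0 < m := norm_pos_iff.2 (hreg t1)
  have hmle : ∀ t, m ≤ ‖deriv c t‖ := by
    intro t
    obtain ⟨y, hy, hy2⟩ := hDper.exists_mem_Ico₀ hP t
    rw [hy2]
    exact hmin ⟨hy.1, hy.2.le⟩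
  have hCle : ∀ t, ‖deriv c t‖ ≤ C := by
    intro t
    obtain ⟨y, hy, hy2⟩ := hDper.exists_mem_Ico₀ hP t
    rw [hy2]
    exact hC y ⟨hy.1, hy.2.le⟩
  have hC0 : 0 < C := hm0.trans_le ((hmle 0).trans (hCle 0))
  obtain ⟨δ, hδ, hδ2⟩ := hunif (m / 4) (by positivity)
  refine ⟨min (δ / 2) (1 / (2 * (C + m))), m / 4, lt_min (by positivity) (by positivity),
    by positivity, ?_⟩
  -- the ordered case
  have key : ∀ e : ℝ → E n, ContDiff ℝ ∞ e → (∀ t, ‖deriv e t‖ ≤ m / 4) → ∀ s t, s < t →
      t - s ≤ min (δ / 2) (1 / (2 * (C + m))) → ∀ k, c t + e t ≠ c s + e s + latt k := by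
    intro e he hem s t hst hts k hk
    have hts1 : t - s ≤ δ / 2 := hts.trans (min_le_left _ _)
    have hts2 : (t - s) * (C + m) ≤ 1 / 2 := by
      have h1 := hts.trans (min_le_right _ _)
      rw [le_div_iff₀ (by positivity)] at h1
      nlinarith
    have hmv : ‖(c t + e t - t • deriv c s) - (c s + e s - s • deriv c s)‖ ≤ m / 2 * (t - s) := by
      have h1 : ∀ τ ∈ Set.Icc s t, HasDerivWithinAt (fun τ => c τ + e τ - τ • deriv c s)
          (deriv c τ + deriv e τ - (1 : ℝ) • deriv c s) (Set.Icc s t) τ := by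
        intro τ _
        have e1 := (hs.differentiable htop τ).hasDerivAt
        have e2 := (he.differentiable htop τ).hasDerivAt
        have e3 := (hasDerivAt_id τ).smul_const (deriv c s)
        exact ((e1.add e2).sub e3).hasDerivWithinAt
      have h2 : ∀ τ ∈ Set.Ico s t, ‖deriv c τ + deriv e τ - (1 : ℝ) • deriv c s‖ ≤ m / 2 := by
        intro τ hτ
        have h3 : dist (deriv c τ) (deriv c s) < m / 4 := hδ2 (by
          rw [Real.dist_eq, abs_of_nonneg (by linarith [hτ.1])]
          linarith [hτ.2])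
        rw [dist_eq_norm] at h3
        have h4 : deriv c τ + deriv e τ - (1 : ℝ) • deriv c s =
          (deriv c τ - deriv c s) + deriv e τ := by rw [one_smul]; abel
        rw [h4]
        refine (norm_add_le _ _).trans ?_
        linarith [hem τ]
      exact norm_image_sub_le_of_norm_deriv_le_segment' h1 h2 t ⟨hst.le, le_rfl⟩
    have h5 : (c t + e t - t • deriv c s) - (c s + e s - s • deriv c s) =
        latt k - (t - s) • deriv c s := by
      rw [hk, sub_smul]
      abel
    rw [h5] at hmv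
    have h6 : ‖(t - s) • deriv c s‖ = (t - s) * ‖deriv c s‖ := by
      rw [norm_smul, Real.norm_eq_abs, abs_of_pos (by linarith)]
    have h7 : (t - s) * m ≤ (t - s) * ‖deriv c s‖ :=
      mul_le_mul_of_nonneg_left (hmle s) (by linarith)
    have h8 : (t - s) * ‖deriv c s‖ ≤ (t - s) * C :=
      mul_le_mul_of_nonneg_left (hCle s) (by linarith)
    have h9 : 0 < (t - s) * m := mul_pos (by linarith) hm0
    have h10 := norm_sub_norm_le ((t - s) • deriv c s) (latt k)
    rw [norm_sub_rev] at h10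
    have h11 : latt k ≠ (0 : E n) := by
      intro h0
      rw [h0, norm_zero] at h10
      rw [h6] at h10
      rw [h0] at hmv
      nlinarith
    have h12 := one_le_norm_latt k h11
    have h13 := norm_sub_norm_le (latt k) ((t - s) • deriv c s)
    rw [h6] at h13
    nlinarith
  intro e he hem s t hst hts k hk
  rcases lt_or_gt_of_ne hst with h | h
  · rw [abs_of_neg (by linarith)] at hts
    refine key e he hem s t h (by linarith) (-k) ?_
    have : (latt (-k) : E n) = -latt k := by ext i; simp [latt]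
    rw [this, hk]
    abel
  · rw [abs_of_pos (by linarith)] at hts
    exact key e he hem t s h hts k hk

end Pool.Agent.Helper59.GT
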