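import Pool.Agent.Helper59.GT.SepStep
import Pool.Agent.Helper59.GT.LocalInj

/-!
# GT-28 Embed: a regular closed curve in dimension `n ≥ 3` becomes embedded after a small perturbation

Proof. Take `ρ, η₀` from `local_inj`, `q ≥ 4` with `2 P / q ≤ ρ`, `S` = all far pairs of `range q ×ˢ range q`, `e` from `exists_sep` for `min η η₀`. Let `d = c + e` and `d s = d t + latt k`. Both `d (· + P) - d` is a constant lattice vector, so we may shift `s` and `t` by multiples of `P` into `[0, P)`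
(changing `k`). Let `s` lie in arc `a`, `t` in arc `b`. If `(a, b)` is far, this contradicts `Sep`. Otherwise `a, b` are equal or adjacent cyclically, so for some `j ∈ {-1, 0, 1}`, `|s - (t + j P)| ≤ 2 P / q ≤ ρ`; `d (t + j P) = d t +` lattice vector, so `local_inj` gives `s = t + j P`.
-/

set_option autoImplicit false
set_option maxSynthPendingDepth 3

open scoped ContDiff

namespace Pool.Agent.Helper59.GT

private theorem latt_add' {n : ℕ} (k l : Fin n → ℤ) : latt (k + l) = latt k + latt l := by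
  ext i
  simp [latt]

private theorem latt_neg' {n : ℕ} (k : Fin n → ℤ) : latt (-k) = -latt k := by
  ext i
  simp [latt]

theorem exists_embedded {n : ℕ} (hn : 3 ≤ n) (c : ℝ → E n) (P : ℝ) (hP : 0 < P) (hs : ContDiff ℝ ∞ c)
    (hper : ∃ k, ∀ t, c (t + P) = c t + latt k) (hreg : ∀ t, deriv c t ≠ 0) (η : ℝ) (hη : 0 < η) :
    ∃ e : ℝ → E n, ContDiff ℝ ∞ e ∧ (∀ t, e (t + P) = e t) ∧
      (∀ t, ‖e t‖ ≤ η ∧ ‖deriv e t‖ ≤ η ∧ ‖deriv (deriv e) t‖ ≤ η) ∧
      ∀ s t, (∃ k, c s + e s = c t + e t + latt k) → ∃ m : ℤ, s - t = m * P := by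
  classical
  obtain ⟨ρ, η₀, hρ, hη₀, hloc⟩ := local_inj c P hP hs hper hreg
  obtain ⟨q0, hq0⟩ := exists_nat_gt (2 * P / ρ)
  set q : ℕ := max 4 q0 with hq
  have hq4 : 4 ≤ q := le_max_left _ _
  have hqR : (0 : ℝ) < q := by
    have : (4 : ℝ) ≤ q := by exact_mod_cast hq4
    linarith
  have hqρ : 2 * P / q ≤ ρ := by
    have h1 : (q0 : ℝ) ≤ q := by exact_mod_cast le_max_right _ _
    rw [div_le_iff₀ hqR]
    rw [div_lt_iff₀ hρ] at hq0
    nlinarith
  let S : Finset (ℕ × ℕ) := (Finset.range q ×ˢ Finset.range q).filter (fun x => Far q x.1 x.2)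
  have hS : ∀ x ∈ S, Far q x.1 x.2 := fun x hx => (Finset.mem_filter.1 hx).2
  obtain ⟨e, he, heP, hesm, hesep⟩ := exists_sep hn c P hP hs q hq4 S hS (min η η₀) (lt_min hη hη₀)
  refine ⟨e, he, heP, fun t => ⟨(hesm t).1.trans (min_le_left _ _),
    (hesm t).2.1.trans (min_le_left _ _), (hesm t).2.2.trans (min_le_left _ _)⟩, ?_⟩
  -- the relation
  let R : ℝ → ℝ → Prop := fun s t => ∃ k, c s + e s = c t + e t + latt k
  have hsym : ∀ s t, R s t → R t s := by
    rintro s t ⟨k, hk⟩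
    refine ⟨-k, ?_⟩
    rw [latt_neg', hk]
    abel
  have htrans : ∀ s t u, R s t → R t u → R s u := by
    rintro s t u ⟨k, hk⟩ ⟨l, hl⟩
    refine ⟨l + k, ?_⟩
    rw [latt_add', hk, hl]
    abel
  have hrefl : ∀ s, R s s := fun s => ⟨0, by ext i; simp [latt]⟩
  have hshift1 : ∀ t, R (t + P) t := by
    intro t
    obtain ⟨k, hk⟩ := hper
    refine ⟨k, ?_⟩
    rw [hk, heP]
    abel
  have hshift : ∀ (m : ℤ) t, R (t + m * P) t := by
    intro m
    induction m using Int.induction_on with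
    | zero => intro t; simpa using hrefl t
    | succ m ih =>
      intro t
      have h1 := htrans _ _ _ (hshift1 (t + m * P)) (ih t)
      have h2 : t + ((m : ℤ) + 1 : ℤ) * P = t + m * P + P := by push_cast; ring
      rw [h2]
      exact h1
    | pred m ih =>
      intro t
      have h1 := hsym _ _ (hshift1 (t + (-(m : ℤ) - 1 : ℤ) * P))
      have h2 : t + (-(m : ℤ) - 1 : ℤ) * P + P = t + (-(m : ℤ) : ℤ) * P := by push_cast; ring
      rw [h2] at h1
      exact htrans _ _ _ h1 (ih t)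
  -- the local statement
  have hclose : ∀ s t, R s t → |s - t| ≤ ρ → s = t := by
    rintro s t ⟨k, hk⟩ hst
    by_contra hne
    exact hloc e he (fun t => (hesm t).2.1.trans (min_le_right _ _)) s t hne hst k hk
  -- points of a period
  have hred : ∀ s : ℝ, ∃ (m : ℤ) (s' : ℝ) (a : ℕ), s = s' + m * P ∧ a < q ∧ a * P / q ≤ s' ∧
      s' ≤ (a + 1) * P / q := by
    intro s
    refine ⟨⌊s / P⌋, s - ⌊s / P⌋ * P, ⌊(s - ⌊s / P⌋ * P) * q / P⌋₊, by ring, ?_, ?_, ?_⟩
    all_goals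
      have h1 : 0 ≤ s - ⌊s / P⌋ * P := by
        have := Int.floor_le (s / P)
        rw [le_div_iff₀ hP] at this
        linarith
      have h2 : s - ⌊s / P⌋ * P < P := by
        have := Int.lt_floor_add_one (s / P)
        rw [div_lt_iff₀ hP] at this
        linarith
      have h3 : 0 ≤ (s - ⌊s / P⌋ * P) * q / P := by positivity
    · rw [Nat.floor_lt h3, div_lt_iff₀ hP]
      nlinarith
    · have := Nat.floor_le h3
      rw [le_div_iff₀ hP] at this
      rw [div_le_iff₀ hqR]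
      exact this
    · have := (Nat.lt_floor_add_one ((s - ⌊s / P⌋ * P) * q / P)).le
      rw [div_le_iff₀ hP] at this
      rw [le_div_iff₀ hqR]
      exact this
  intro s t hst
  obtain ⟨m, s', a, hs', haq, ha1, ha2⟩ := hred s
  obtain ⟨m', t', b, ht', hbq, hb1, hb2⟩ := hred t
  have hst' : R s' t' := by
    have h1 : R s s' := by rw [hs']; exact hshift m s'
    have h2 : R t t' := by rw [ht']; exact hshift m' t'
    exact htrans _ _ _ (htrans _ _ _ (hsym _ _ h1) hst) h2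
  have hnf : ¬ Far q a b := by
    intro hfar
    have h1 : (a, b) ∈ S := by
      refine Finset.mem_filter.2 ⟨?_, hfar⟩
      rw [Finset.mem_product]
      exact ⟨Finset.mem_range.2 haq, Finset.mem_range.2 hbq⟩
    obtain ⟨k, hk⟩ := hst'
    exact hesep (a, b) h1 s' ⟨ha1, ha2⟩ t' ⟨hb1, hb2⟩ k hk
  -- adjacent arcs
  obtain ⟨j, hj⟩ : ∃ j : ℤ, |s' - (t' + j * P)| ≤ 2 * P / q := by
    have hcases : (a ≤ b + 1 ∧ b ≤ a + 1) ∨ (a = 0 ∧ b + 1 = q) ∨ (b = 0 ∧ a + 1 = q) := by
      by_contra hcon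
      apply hnf
      unfold Far
      omega
    rw [div_le_iff₀ hqR] at ha1 hb1
    rw [le_div_iff₀ hqR] at ha2 hb2
    rcases hcases with ⟨h1, h2⟩ | ⟨h1, h2⟩ | ⟨h1, h2⟩
    · refine ⟨0, ?_⟩
      have h1' : (a : ℝ) ≤ b + 1 := by exact_mod_cast h1
      have h2' : (b : ℝ) ≤ a + 1 := by exact_mod_cast h2
      rw [le_div_iff₀ hqR, Int.cast_zero, zero_mul, add_zero]
      rcases abs_cases (s' - t') with ⟨h, _⟩ | ⟨h, _⟩
      · rw [h]; nlinarith
      · rw [h]; nlinarith
    · refine ⟨-1, ?_⟩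
      have h2' : (b : ℝ) + 1 = q := by exact_mod_cast h2
      rw [le_div_iff₀ hqR]
      subst h1
      push_cast at ha1 ha2 ⊢
      rcases abs_cases (s' - (t' + (-1) * P)) with ⟨h, _⟩ | ⟨h, _⟩
      · rw [h]; nlinarith
      · rw [h]; nlinarith
    · refine ⟨1, ?_⟩
      have h2' : (a : ℝ) + 1 = q := by exact_mod_cast h2
      rw [le_div_iff₀ hqR]
      subst h1
      push_cast at hb1 hb2 ⊢
      rcases abs_cases (s' - (t' + 1 * P)) with ⟨h, _⟩ | ⟨h, _⟩
      · rw [h]; nlinarith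
      · rw [h]; nlinarith
  have heq : s' = t' + j * P :=
    hclose _ _ (htrans _ _ _ hst' (hsym _ _ (hshift j t'))) (hj.trans hqρ)
  refine ⟨m + j - m', ?_⟩
  rw [hs', ht', heq]
  push_cast
  ring

end Pool.Agent.Helper59.GT
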