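import Pool.Agent.Helper59.GT.Cometric

/-!
# GT-15 ShellLem: the shell `1 / 2 < Hk g < 2` is open, invariant, connected, of finite volume per cell

Proof. Open: `Hk g` is continuous. Invariant: `cog_per`. Finite: `Shell ∩ cell` is contained in the bounded set `‖z.1‖ ≤ √n` (or each coordinate in `[0, 1]`), `‖z.2‖ ≤ const` (`Hk_bounds`).
Connected (`2 ≤ n`): `E n \ {0}` is connected (`isPreconnected_compl_singleton_of_one_lt_rank`, `finrank = n`), so the set `Q = univ ×ˢ {0}ᶜ ×ˢ Ioo (1/2) 2` in `E n × E n × ℝ` is preconnected; the shell is its image under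
the map `(x, q, ρ) ↦ (x, √(ρ / Hk g (x, q)) q)`, continuous on `Q` (`Hk g (x, q) > 0` there by `Hk_bounds`); `Hk g` is quadratic in the momentum, so the image point has energy `ρ`, and a point `(x, p)` of the shell is the image of
`(x, p, Hk g (x, p))`.
-/

set_option autoImplicit false
set_option maxSynthPendingDepth 3

open MeasureTheory
open scoped ContDiff

namespace Pool.Agent.Helper59.GT

variable {n : ℕ} {g : E n → Bil n}

private lemma shl_smul (x q : E n) (t : ℝ) : Hk g ((x, t • q) : Ph n) = t ^ 2 * Hk g ((x, q) : Ph n) := by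
  simp only [Hk, map_smul, inner_smul_left, inner_smul_right]
  simp
  ring

private lemma shl_norm {n : ℕ} (x : E n) (hx : ∀ i, 0 ≤ x i ∧ x i < 1) : ‖x‖ ≤ Real.sqrt n := by
  rw [EuclideanSpace.norm_eq]
  apply Real.sqrt_le_sqrt
  calc ∑ i, ‖x i‖ ^ 2 ≤ ∑ _i : Fin n, (1 : ℝ) := by
        apply Finset.sum_le_sum
        intro i _
        rw [Real.norm_eq_abs, abs_of_nonneg (hx i).1]
        nlinarith [(hx i).1, (hx i).2]
    _ = n := by simp

theorem Hk_sh (hg : IsMetric ∞ g) (k : Fin n → ℤ) (z : Ph n) : Hk g (sh k z) = Hk g z := by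
  simp only [Hk, sh]
  rw [cog_per hg k z.1]

theorem continuous_Hk (hg : IsMetric ∞ g) : Continuous (Hk g) := by
  have h1 : Continuous (cog g) := (contDiff_cog hg).continuous
  have h2 : Continuous (fun z : Ph n => cog g z.1 z.2) :=
    (h1.comp continuous_fst).clm_apply continuous_snd
  have h3 : Continuous (fun z : Ph n => (1 / 2 : ℝ) * inner ℝ (cog g z.1 z.2) z.2) :=
    continuous_const.mul (h2.inner continuous_snd)
  exact h3

theorem shell_open (hg : IsMetric ∞ g) : IsOpen (Shell g) := by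
  have h1 := isOpen_Ioo (a := (1 / 2 : ℝ)) (b := 2)
  exact h1.preimage (continuous_Hk hg)

theorem shell_inv (hg : IsMetric ∞ g) : Inv (Shell g) := by
  intro k z hz
  show 1 / 2 < Hk g (sh k z) ∧ Hk g (sh k z) < 2
  rw [Hk_sh hg]
  exact hz

theorem shell_preconnected (hg : IsMetric ∞ g) (hn : 2 ≤ n) : IsPreconnected (Shell g) := by
  obtain ⟨c, d, hc, -, hb⟩ := Hk_bounds hg
  have hrank : 1 < Module.rank ℝ (E n) := by
    rw [← Module.finrank_eq_rank, finrank_euclideanSpace_fin]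
    exact_mod_cast hn
  have hQ : IsPreconnected ((Set.univ : Set (E n)) ×ˢ (({0}ᶜ : Set (E n)) ×ˢ Set.Ioo (1 / 2 : ℝ) 2)) :=
    isPreconnected_univ.prod
      ((isConnected_compl_singleton_of_one_lt_rank hrank 0).isPreconnected.prod isPreconnected_Ioo)
  have hpos : ∀ x q : E n, q ≠ 0 → 0 < Hk g ((x, q) : Ph n) := by
    intro x q hq
    refine lt_of_lt_of_le ?_ (hb (x, q)).1
    have : 0 < ‖q‖ := norm_pos_iff.2 hq
    show 0 < c * ‖q‖ ^ 2
    positivity
  have himg : (fun w : E n × E n × ℝ => ((w.1, Real.sqrt (w.2.2 / Hk g ((w.1, w.2.1) : Ph n)) • w.2.1) : Ph n)) ''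
      ((Set.univ : Set (E n)) ×ˢ (({0}ᶜ : Set (E n)) ×ˢ Set.Ioo (1 / 2 : ℝ) 2)) = Shell g := by
    ext ⟨x, p⟩
    constructor
    · rintro ⟨⟨y, q, ρ⟩, ⟨-, hq, hρ⟩, heq⟩
      have hq' : q ≠ 0 := hq
      have hH := hpos y q hq'
      have hρ' : 1 / 2 < ρ ∧ ρ < 2 := hρ
      have h1 : Hk g ((x, p) : Ph n) = ρ := by
        rw [← heq]
        show Hk g ((y, Real.sqrt (ρ / Hk g ((y, q) : Ph n)) • q) : Ph n) = ρ
        rw [shl_smul, Real.sq_sqrt (div_nonneg (by linarith) hH.le), div_mul_cancel₀ _ hH.ne']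
      show 1 / 2 < Hk g ((x, p) : Ph n) ∧ Hk g ((x, p) : Ph n) < 2
      rw [h1]
      exact hρ'
    · intro hz
      have hz' : 1 / 2 < Hk g ((x, p) : Ph n) ∧ Hk g ((x, p) : Ph n) < 2 := hz
      have hp : p ≠ 0 := by
        rintro rfl
        have h1 : Hk g ((x, (0 : E n)) : Ph n) = 0 := by simp [Hk]
        rw [h1] at hz'
        linarith [hz'.1]
      refine ⟨(x, p, Hk g ((x, p) : Ph n)), ⟨Set.mem_univ _, hp, hz'⟩, ?_⟩
      have hH := hpos x p hp
      show ((x, Real.sqrt (Hk g ((x, p) : Ph n) / Hk g ((x, p) : Ph n)) • p) : Ph n) = (x, p)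
      rw [div_self hH.ne', Real.sqrt_one, one_smul]
  rw [← himg]
  refine hQ.image _ ?_
  have hHc := continuous_Hk hg
  have h1 : Continuous (fun w : E n × E n × ℝ => Hk g ((w.1, w.2.1) : Ph n)) :=
    hHc.comp (by fun_prop)
  have h2 : ContinuousOn (fun w : E n × E n × ℝ => w.2.2 / Hk g ((w.1, w.2.1) : Ph n))
      ((Set.univ : Set (E n)) ×ˢ (({0}ᶜ : Set (E n)) ×ˢ Set.Ioo (1 / 2 : ℝ) 2)) := by
    refine ContinuousOn.div (by fun_prop) h1.continuousOn ?_
    rintro ⟨y, q, ρ⟩ ⟨-, hq, -⟩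
    exact (hpos y q hq).ne'
  have h3 : ContinuousOn (fun w : E n × E n × ℝ => Real.sqrt (w.2.2 / Hk g ((w.1, w.2.1) : Ph n)) • w.2.1)
      ((Set.univ : Set (E n)) ×ˢ (({0}ᶜ : Set (E n)) ×ˢ Set.Ioo (1 / 2 : ℝ) 2)) :=
    (Real.continuous_sqrt.comp_continuousOn h2).smul (by fun_prop)
  exact ContinuousOn.prodMk (by fun_prop) h3

theorem shell_finite (hg : IsMetric ∞ g) : volume (Shell g ∩ cell n) ≠ ⊤ := by
  obtain ⟨c, d, hc, -, hb⟩ := Hk_bounds hg
  have hsub : Shell g ∩ cell n ⊆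
      Metric.closedBall (0 : Ph n) (max (Real.sqrt n) (Real.sqrt (2 / c))) := by
    rintro z ⟨hz1, hz2⟩
    rw [mem_closedBall_zero_iff, Prod.norm_def]
    refine max_le_max (shl_norm z.1 hz2) ?_
    apply Real.le_sqrt_of_sq_le
    rw [le_div_iff₀ hc]
    have h1 := (hb z).1
    have h2 : Hk g z < 2 := hz1.2
    linarith [mul_comm c (‖z.2‖ ^ 2)]
  have hlt : volume (Metric.closedBall (0 : Ph n) (max (Real.sqrt n) (Real.sqrt (2 / c)))) < ⊤ :=
    (isCompact_closedBall (0 : Ph n) _).measure_lt_top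
  exact (lt_of_le_of_lt (measure_mono hsub) hlt).ne

end Pool.Agent.Helper59.GT
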