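import Pool.Agent.Helper59.GT.Cometric

/-!
# GT-22 Net: a finite net of the unit tangent bundle, as a set of points of the shell

Proof. The set `T = {(x, v) | x ∈ [0, 1] ^ n, g x v v = 1}` is compact (closed; bounded by `metric_bounds`), so there is a finite `T₀ ⊆ T` such that every point of `T` is within `ε` of `T₀` (`IsCompact.finite_cover_balls` or `TotallyBounded`).
`Y = image of T₀ under (x, v) ↦ (x, √2 • opA g x v)`. Energy: `Hk_eq` with `u = √2 v`: `(1 / 2) * 2 = 1`, so in the shell. For `(x, v)` with `g x v v = 1` translate `x` by `latt k` into `[0, 1] ^ n` (`g` is periodic).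
Nonempty: `n ≥ 1`, take `x = 0` and `v = e / √(g 0 e e)`, `e ≠ 0`.
-/

set_option autoImplicit false
set_option maxSynthPendingDepth 3

open scoped ContDiff

namespace Pool.Agent.Helper59.GT

private theorem ne_trans {n : ℕ} (x : E n) : ∃ k : Fin n → ℤ, ‖x + latt k‖ ≤ √n := by
  refine ⟨fun i => -⌊x i⌋, ?_⟩
  rw [EuclideanSpace.norm_eq]
  refine Real.sqrt_le_sqrt ?_
  calc ∑ i, ‖(x + latt (fun i => -⌊x i⌋) : E n) i‖ ^ 2 ≤ ∑ _i : Fin n, (1 : ℝ) := by
        refine Finset.sum_le_sum fun i _ => ?_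
        have h1 : (x + latt (fun i => -⌊x i⌋) : E n) i = Int.fract (x i) := by
          rw [PiLp.add_apply, latt_apply]
          push_cast
          unfold Int.fract
          ring
        rw [h1, Real.norm_of_nonneg (Int.fract_nonneg _)]
        exact pow_le_one₀ (Int.fract_nonneg _) (Int.fract_lt_one _).le
    _ = n := by simp

private theorem ne_shell {n : ℕ} {g : E n → Bil n} (hg : IsMetric ∞ g) {x v : E n}
    (h : g x v v = 1) : (x, Real.sqrt 2 • opA g x v) ∈ Shell g := by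
  have h2 : Real.sqrt 2 * Real.sqrt 2 = 2 := Real.mul_self_sqrt (by norm_num)
  have h1 : Hk g (x, Real.sqrt 2 • opA g x v) = 1 := by
    rw [← map_smul, Hk_eq hg]
    simp only [map_smul, _root_.smul_apply, smul_eq_mul, h]
    linarith
  show 1 / 2 < Hk g _ ∧ Hk g _ < 2
  rw [h1]
  constructor <;> norm_num

private theorem ne_unit {n : ℕ} (hn : 1 ≤ n) {g : E n → Bil n} (hg : IsMetric ∞ g) :
    ∃ x v, g x v v = 1 := by
  have he : (EuclideanSpace.single (⟨0, hn⟩ : Fin n) (1 : ℝ) : E n) ≠ 0 := by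
    intro h
    have h1 := congrArg norm h
    simp at h1
  obtain ⟨e, he'⟩ : ∃ e : E n, e ≠ 0 := ⟨_, he⟩
  have h0 := hg.pos 0 e he'
  refine ⟨0, (Real.sqrt (g 0 e e))⁻¹ • e, ?_⟩
  have h3 : Real.sqrt (g 0 e e) * Real.sqrt (g 0 e e) = g 0 e e := Real.mul_self_sqrt h0.le
  have h4 : Real.sqrt (g 0 e e) ≠ 0 := (Real.sqrt_pos.2 h0).ne'
  simp only [map_smul, _root_.smul_apply, smul_eq_mul]
  calc (Real.sqrt (g 0 e e))⁻¹ * ((Real.sqrt (g 0 e e))⁻¹ * g 0 e e)
      = (Real.sqrt (g 0 e e))⁻¹ * ((Real.sqrt (g 0 e e))⁻¹ *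
          (Real.sqrt (g 0 e e) * Real.sqrt (g 0 e e))) := by rw [h3]
    _ = 1 := by field_simp

theorem exists_net {n : ℕ} (hn : 1 ≤ n) {g : E n → Bil n} (hg : IsMetric ∞ g) (ε : ℝ) (hε : 0 < ε) :
    ∃ Y : Finset (Ph n), Y.Nonempty ∧ (∀ y ∈ Y, y ∈ Shell g) ∧
      ∀ x v, g x v v = 1 → ∃ x' v' k, g x' v' v' = 1 ∧ (x', Real.sqrt 2 • opA g x' v') ∈ Y ∧ ‖x' + latt k - x‖ < ε ∧
        ‖v' - v‖ < ε := by
  classical
  obtain ⟨a, b, ha, hb, hab⟩ := metric_bounds hg
  have hfc : Continuous fun p : E n × E n => g p.1 p.2 p.2 :=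
    ((hg.smooth.continuous.comp continuous_fst).clm_apply continuous_snd).clm_apply
      continuous_snd
  obtain ⟨T, hT⟩ : ∃ T : Set (E n × E n), T = (Metric.closedBall (0 : E n) (√n) ×ˢ
      Metric.closedBall (0 : E n) (1 + 1 / a)) ∩ {p | g p.1 p.2 p.2 = 1} := ⟨_, rfl⟩
  have hTc : IsCompact T := by
    rw [hT]
    exact ((isCompact_closedBall _ _).prod (isCompact_closedBall _ _)).inter_right
      (isClosed_eq hfc continuous_const)
  have hv : ∀ x v, g x v v = 1 → ‖v‖ ≤ 1 + 1 / a := by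
    intro x v h
    have h1 := (hab x v).1
    rw [h] at h1
    have h2 : ‖v‖ ^ 2 ≤ 1 / a := by
      rw [le_div_iff₀ ha, mul_comm]
      exact h1
    nlinarith [sq_nonneg (‖v‖ - 1), norm_nonneg v]
  obtain ⟨T₀, hT0, hfin, hcov⟩ := hTc.finite_cover_balls hε
  have hmain : ∀ x v, g x v v = 1 → ∃ x' v' k, g x' v' v' = 1 ∧
      (x', Real.sqrt 2 • opA g x' v') ∈
        hfin.toFinset.image (fun p : E n × E n => ((p.1, Real.sqrt 2 • opA g p.1 p.2) : Ph n)) ∧
      ‖x' + latt k - x‖ < ε ∧ ‖v' - v‖ < ε := by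
    intro x v h
    obtain ⟨k, hk⟩ := ne_trans x
    have h1 : (x + latt k, v) ∈ T := by
      rw [hT]
      refine ⟨⟨?_, ?_⟩, ?_⟩
      · rw [mem_closedBall_zero_iff]
        exact hk
      · rw [mem_closedBall_zero_iff]
        exact hv x v h
      · show g (x + latt k) v v = 1
        rw [hg.per]
        exact h
    obtain ⟨p, hp, hd⟩ := Set.mem_iUnion₂.1 (hcov h1)
    have hpT := hT0 hp
    rw [hT] at hpT
    rw [Metric.mem_ball, dist_comm, Prod.dist_eq, max_lt_iff, dist_eq_norm, dist_eq_norm] at hd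
    refine ⟨p.1, p.2, -k, hpT.2, ?_, ?_, hd.2⟩
    · exact Finset.mem_image.2 ⟨p, hfin.mem_toFinset.2 hp, rfl⟩
    · have h2 : p.1 + latt (-k) - x = p.1 - (x + latt k) := by
        rw [latt_neg]
        abel
      rw [h2]
      exact hd.1
  refine ⟨hfin.toFinset.image
    (fun p : E n × E n => ((p.1, Real.sqrt 2 • opA g p.1 p.2) : Ph n)), ?_, ?_, hmain⟩
  · obtain ⟨x, v, h⟩ := ne_unit hn hg
    obtain ⟨x', v', k, _, h2, _⟩ := hmain x v h
    exact ⟨_, h2⟩
  · intro y hy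
    obtain ⟨p, hp, rfl⟩ := Finset.mem_image.1 hy
    have hpT := hT0 (hfin.mem_toFinset.1 hp)
    rw [hT] at hpT
    exact ne_shell hg hpT.2

end Pool.Agent.Helper59.GT
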