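import Mathlib

/-!
# GT-19 Blend: blending a sequence of curves

`sig s = Real.smoothTransition (2 s - 1 / 2)`: `0` for `s ≤ 1 / 4`, `1` for `s ≥ 3 / 4`. `blend γ t = γ_i (t) + sig (t - i) (γ_(i+1) (t) - γ_i (t))`, `i = ⌊t⌋`.

Proof. `blend_eq`: for `t ∈ (i - 1/4, i)`: `⌊t⌋ = i - 1`, `t - (i - 1) > 3/4`, so `blend γ t = γ_i t`, and the right side is `γ_i t` because `sig (t - i) = 0`. For `t ∈ [i, i + 1)` by definition. For `t ∈ [i + 1, i + 5/4)`:
`⌊t⌋ = i + 1`, `sig (t - i - 1) = 0`, `blend γ t = γ_(i+1) t`, and `sig (t - i) = 1`.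
`contDiff_blend`: local (`contDiff_iff_contDiffAt`): near `t` use `blend_eq` with `i = ⌊t⌋`.
`blend_bound`: at `t ∈ [i, i + 1]`, with `d = γ_(i+1) - γ_i`: `blend - γ_i = sig(· - i) d` near `t`; its value, first and second derivative are bounded by `μ`, `(1 + B) μ`, `(1 + 2 B + B') μ` with bounds `B, B'` of `|sig'|, |sig''|` (`sig` is smooth and constant outside
`[0, 1]`, so its derivatives are bounded).
-/

set_option autoImplicit false
set_option maxSynthPendingDepth 3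

open scoped ContDiff

namespace Pool.Agent.Helper59.GT

/-- The transition function. -/
noncomputable def sig (s : ℝ) : ℝ := Real.smoothTransition (2 * s - 1 / 2)

variable {F : Type} [NormedAddCommGroup F] [NormedSpace ℝ F]

/-- The blended curve. -/
noncomputable def blend (γ : ℤ → ℝ → F) (t : ℝ) : F :=
  γ ⌊t⌋ t + sig (t - ⌊t⌋) • (γ (⌊t⌋ + 1) t - γ ⌊t⌋ t)

private theorem sig_zero (s : ℝ) (h : s ≤ 1 / 4) : sig s = 0 :=
  Real.smoothTransition.zero_of_nonpos (by linarith)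

private theorem sig_one (s : ℝ) (h : 3 / 4 ≤ s) : sig s = 1 :=
  Real.smoothTransition.one_of_one_le (by linarith)

private theorem sig_smooth : ContDiff ℝ ∞ sig := by
  have h : ContDiff ℝ ∞ (fun s : ℝ => 2 * s - 1 / 2) := by fun_prop
  exact Real.smoothTransition.contDiff.comp h

theorem blend_eq (γ : ℤ → ℝ → F) (i : ℤ) (t : ℝ) (h1 : (i : ℝ) - 1 / 4 < t) (h2 : t < i + 5 / 4) :
    blend γ t = γ i t + sig (t - i) • (γ (i + 1) t - γ i t) := by
  rcases lt_or_ge t i with h3 | h3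
  · have hf : ⌊t⌋ = i - 1 := by
      rw [Int.floor_eq_iff]
      push_cast
      constructor <;> linarith
    rw [blend, hf, sig_zero (t - i) (by linarith), sig_one _ (by push_cast; linarith)]
    simp
  · rcases lt_or_ge t (i + 1) with h4 | h4
    · have hf : ⌊t⌋ = i := by
        rw [Int.floor_eq_iff]
        exact ⟨h3, h4⟩
      rw [blend, hf]
    · have hf : ⌊t⌋ = i + 1 := by
        rw [Int.floor_eq_iff]
        push_cast
        constructor <;> linarith
      rw [blend, hf, sig_one (t - i) (by linarith), sig_zero _ (by push_cast; linarith)]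
      simp

private theorem blend_eventually (γ : ℤ → ℝ → F) (i : ℤ) (t : ℝ) (h1 : (i : ℝ) - 1 / 4 < t)
    (h2 : t < i + 5 / 4) :
    blend γ =ᶠ[nhds t] fun t => γ i t + sig (t - i) • (γ (i + 1) t - γ i t) := by
  filter_upwards [isOpen_Ioo.mem_nhds (⟨h1, h2⟩ : t ∈ Set.Ioo ((i : ℝ) - 1 / 4) (i + 5 / 4))]
    with s hs
  exact blend_eq γ i s hs.1 hs.2

private theorem piece_smooth (γ : ℤ → ℝ → F) (hγ : ∀ i, ContDiff ℝ ∞ (γ i)) (i : ℤ) :
    ContDiff ℝ ∞ fun t => γ i t + sig (t - i) • (γ (i + 1) t - γ i t) := by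
  have h1 : ContDiff ℝ ∞ fun t : ℝ => sig (t - i) :=
    sig_smooth.comp (by fun_prop : ContDiff ℝ ∞ fun t : ℝ => t - (i : ℝ))
  exact (hγ i).add (h1.smul ((hγ (i + 1)).sub (hγ i)))

theorem contDiff_blend (γ : ℤ → ℝ → F) (hγ : ∀ i, ContDiff ℝ ∞ (γ i)) : ContDiff ℝ ∞ (blend γ) := by
  rw [contDiff_iff_contDiffAt]
  intro t
  have h1 := Int.floor_le t
  have h2 := Int.lt_floor_add_one t
  exact (piece_smooth γ hγ ⌊t⌋).contDiffAt.congr_of_eventuallyEq
    (blend_eventually γ ⌊t⌋ t (by linarith) (by linarith))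

/-- a smooth function that is constant outside a compact interval has bounded derivative -/
private theorem deriv_bdd (f : ℝ → ℝ) (hf : Continuous f) (a b : ℝ)
    (h : ∀ s, s < a ∨ b < s → f s = 0) : ∃ B : ℝ, 0 ≤ B ∧ ∀ s, |f s| ≤ B := by
  obtain ⟨C, hC⟩ := isCompact_Icc.exists_bound_of_continuousOn (s := Set.Icc a b) hf.continuousOn
  refine ⟨max C 0, le_max_right _ _, fun s => ?_⟩
  by_cases hs : s ∈ Set.Icc a b
  · exact (hC s hs).trans (le_max_left _ _)
  · rw [h s (by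
      rw [Set.mem_Icc, not_and_or, not_le, not_le] at hs
      exact hs), abs_zero]
    exact le_max_right _ _

theorem blend_bound : ∃ B : ℝ, 0 ≤ B ∧ ∀ (γ : ℤ → ℝ → F), (∀ i, ContDiff ℝ ∞ (γ i)) → ∀ (i : ℤ) (t : ℝ) (μ : ℝ),
    (i : ℝ) ≤ t → t ≤ i + 1 → ‖γ (i + 1) t - γ i t‖ ≤ μ → ‖deriv (γ (i + 1)) t - deriv (γ i) t‖ ≤ μ →
    ‖deriv (deriv (γ (i + 1))) t - deriv (deriv (γ i)) t‖ ≤ μ →
    ‖blend γ t - γ i t‖ ≤ B * μ ∧ ‖deriv (blend γ) t - deriv (γ i) t‖ ≤ B * μ ∧
      ‖deriv (deriv (blend γ)) t - deriv (deriv (γ i)) t‖ ≤ B * μ := by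
  have hsm1 : ContDiff ℝ ∞ (deriv sig) := sig_smooth.deriv'
  have hsm2 : ContDiff ℝ ∞ (deriv (deriv sig)) := hsm1.deriv'
  have htop : (∞ : WithTop ℕ∞) ≠ 0 := by simp
  have hz1 : ∀ s, s < 0 ∨ 1 < s → deriv sig s = 0 := by
    rintro s (hs | hs)
    · have h1 : sig =ᶠ[nhds s] fun _ => (0 : ℝ) := by
        filter_upwards [Iio_mem_nhds hs] with r hr
        exact sig_zero r (by have := Set.mem_Iio.1 hr; linarith)
      rw [h1.deriv_eq, deriv_const]
    · have h1 : sig =ᶠ[nhds s] fun _ => (1 : ℝ) := by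
        filter_upwards [Ioi_mem_nhds hs] with r hr
        exact sig_one r (by have := Set.mem_Ioi.1 hr; linarith)
      rw [h1.deriv_eq, deriv_const]
  have hz2 : ∀ s, s < 0 ∨ 1 < s → deriv (deriv sig) s = 0 := by
    rintro s (hs | hs)
    · have h1 : deriv sig =ᶠ[nhds s] fun _ => (0 : ℝ) := by
        filter_upwards [Iio_mem_nhds hs] with r hr
        exact hz1 r (Or.inl hr)
      rw [h1.deriv_eq, deriv_const]
    · have h1 : deriv sig =ᶠ[nhds s] fun _ => (0 : ℝ) := by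
        filter_upwards [Ioi_mem_nhds hs] with r hr
        exact hz1 r (Or.inr hr)
      rw [h1.deriv_eq, deriv_const]
  obtain ⟨B1, hB1, hb1⟩ := deriv_bdd (deriv sig) hsm1.continuous 0 1 hz1
  obtain ⟨B2, hB2, hb2⟩ := deriv_bdd (deriv (deriv sig)) hsm2.continuous 0 1 hz2
  have hb0 : ∀ s, |sig s| ≤ 1 := fun s => by
    rw [abs_le]
    exact ⟨by have := Real.smoothTransition.nonneg (2 * s - 1 / 2); unfold sig; linarith,
      Real.smoothTransition.le_one _⟩
  refine ⟨1 + 2 * B1 + B2, by positivity, ?_⟩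
  intro γ hγ i t μ h1 h2 hd0 hd1 hd2
  have hμ : 0 ≤ μ := (norm_nonneg _).trans hd0
  have hev := blend_eventually γ i t (by linarith) (by linarith)
  have hdγ : ∀ j s, HasDerivAt (γ j) (deriv (γ j) s) s := fun j s =>
    ((hγ j).differentiable htop s).hasDerivAt
  have hdγ2 : ∀ j s, HasDerivAt (deriv (γ j)) (deriv (deriv (γ j)) s) s := fun j s =>
    ((hγ j).deriv'.differentiable htop s).hasDerivAt
  have hds : ∀ s : ℝ, HasDerivAt (fun t : ℝ => sig (t - i)) (deriv sig (s - i)) s := fun s => by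
    have := (sig_smooth.differentiable htop (s - i)).hasDerivAt
    exact this.comp_sub_const s i
  have hds2 : ∀ s : ℝ, HasDerivAt (fun t : ℝ => deriv sig (t - i)) (deriv (deriv sig) (s - i)) s :=
    fun s => by
      have := (hsm1.differentiable htop (s - i)).hasDerivAt
      exact this.comp_sub_const s i
  have hD1 : ∀ s, HasDerivAt (fun t => γ i t + sig (t - i) • (γ (i + 1) t - γ i t))
      (deriv (γ i) s + (sig (s - i) • (deriv (γ (i + 1)) s - deriv (γ i) s) +
        deriv sig (s - i) • (γ (i + 1) s - γ i s))) s := fun s =>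
    (hdγ i s).add ((hds s).smul ((hdγ (i + 1) s).sub (hdγ i s)))
  have hD1' : deriv (fun t => γ i t + sig (t - i) • (γ (i + 1) t - γ i t)) = fun s =>
      deriv (γ i) s + (sig (s - i) • (deriv (γ (i + 1)) s - deriv (γ i) s) +
        deriv sig (s - i) • (γ (i + 1) s - γ i s)) := funext fun s => (hD1 s).deriv
  have hD2 : HasDerivAt (fun s => deriv (γ i) s +
      (sig (s - i) • (deriv (γ (i + 1)) s - deriv (γ i) s) +
        deriv sig (s - i) • (γ (i + 1) s - γ i s)))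
      (deriv (deriv (γ i)) t + ((sig (t - i) • (deriv (deriv (γ (i + 1))) t -
        deriv (deriv (γ i)) t) + deriv sig (t - i) • (deriv (γ (i + 1)) t - deriv (γ i) t)) +
        (deriv sig (t - i) • (deriv (γ (i + 1)) t - deriv (γ i) t) +
          deriv (deriv sig) (t - i) • (γ (i + 1) t - γ i t)))) t :=
    (hdγ2 i t).add (((hds t).smul ((hdγ2 (i + 1) t).sub (hdγ2 i t))).add
      ((hds2 t).smul ((hdγ (i + 1) t).sub (hdγ i t))))
  have n0 : ∀ (r : ℝ) (v : F) (a : ℝ), |r| ≤ a → ‖v‖ ≤ μ → ‖r • v‖ ≤ a * μ := by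
    intro r v a hr hv
    rw [norm_smul, Real.norm_eq_abs]
    exact mul_le_mul hr hv (norm_nonneg _) ((abs_nonneg _).trans hr)
  refine ⟨?_, ?_, ?_⟩
  · rw [blend_eq γ i t (by linarith) (by linarith), add_sub_cancel_left]
    refine (n0 _ _ 1 (hb0 _) hd0).trans ?_
    nlinarith
  · rw [hev.deriv_eq, (hD1 t).deriv, add_sub_cancel_left]
    refine (norm_add_le _ _).trans ?_
    have e1 := n0 _ _ 1 (hb0 (t - i)) hd1
    have e2 := n0 _ _ B1 (hb1 (t - i)) hd0
    nlinarith [mul_nonneg hB1 hμ, mul_nonneg hB2 hμ]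
  · rw [hev.deriv.deriv_eq, hD1', hD2.deriv, add_sub_cancel_left]
    refine (norm_add_le _ _).trans ?_
    have e1 := n0 _ _ 1 (hb0 (t - i)) hd2
    have e2 := n0 _ _ B1 (hb1 (t - i)) hd1
    have e3 := n0 _ _ B2 (hb2 (t - i)) hd0
    have e4 := norm_add_le (sig (t - i) • (deriv (deriv (γ (i + 1))) t -
        deriv (deriv (γ i)) t)) (deriv sig (t - i) • (deriv (γ (i + 1)) t - deriv (γ i) t))
    have e5 := norm_add_le (deriv sig (t - i) • (deriv (γ (i + 1)) t - deriv (γ i) t))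
          (deriv (deriv sig) (t - i) • (γ (i + 1) t - γ i t))
    nlinarith [mul_nonneg hB1 hμ, mul_nonneg hB2 hμ]

end Pool.Agent.Helper59.GT
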