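import Mathlib

/-!
# GT-17 Tour: a closed chain through given points

Proof. A `TransGen` chain from `a` to `b` gives `N ≥ 1` and `s : ℕ → F` with `s 0 = a`, `s N = b`, `r (s i) (s (i + 1))` for `i < N` (induction on `TransGen`). List `Y = {y_0, ..., y_(m-1)}`, take the chains `y_0 → y_1 → ... → y_(m-1) → y_0`
(induction on the list: for every list `l` and start `a` there is a chain from `a` that passes through all members of `l` in order and ends at a prescribed point) to get one chain `s` on `[0, N]` with `s 0 = s N = y_0`, through all `y ∈ Y`; extend it by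
`s' i = s (i % N)`.
-/

set_option autoImplicit false
set_option maxSynthPendingDepth 3

namespace Pool.Agent.Helper59.GT

private theorem chain_of_transGen {F : Type} {r : F → F → Prop} {a b : F}
    (h : Relation.TransGen r a b) :
    ∃ (n : ℕ) (s : ℕ → F), 1 ≤ n ∧ s 0 = a ∧ s n = b ∧ ∀ i, i < n → r (s i) (s (i + 1)) := by
  induction h with
  | @single b h =>
    refine ⟨1, fun i => if i = 0 then a else b, le_refl _, by simp, by simp, ?_⟩
    intro i hi
    have : i = 0 := by omega
    subst this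
    simpa using h
  | @tail b c _ hbc ih =>
    obtain ⟨n, s, hn, h0, h1, h2⟩ := ih
    refine ⟨n + 1, fun i => if i ≤ n then s i else c, by omega, by simpa using h0, by simp, ?_⟩
    intro i hi
    rcases Nat.lt_or_ge i n with h3 | h3
    · have e1 : i ≤ n := by omega
      have e2 : i + 1 ≤ n := by omega
      simpa [e1, e2] using h2 i h3
    · have e : i = n := by omega
      subst e
      simpa [h1] using hbc

private theorem chain_concat {F : Type} {r : F → F → Prop} {a b c : F} {n m : ℕ}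
    {s t : ℕ → F} (hs0 : s 0 = a) (hsn : s n = b) (hs : ∀ i, i < n → r (s i) (s (i + 1)))
    (ht0 : t 0 = b) (htm : t m = c) (ht : ∀ i, i < m → r (t i) (t (i + 1))) :
    ∃ u : ℕ → F, u 0 = a ∧ u (n + m) = c ∧ (∀ i, i < n + m → r (u i) (u (i + 1))) ∧
      (∀ i, i ≤ n → u i = s i) ∧ ∀ i, u (n + i) = t i := by
  have key : ∀ i, (if n + i ≤ n then s (n + i) else t (n + i - n)) = t i := by
    intro i
    rcases Nat.eq_zero_or_pos i with h | h
    · subst h
      simp [hsn, ht0]
    · have h1 : ¬ n + i ≤ n := by omega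
      simp [h1]
  refine ⟨fun i => if i ≤ n then s i else t (i - n), by simpa using hs0, ?_, ?_, ?_, ?_⟩
  · have := key m
    rw [htm] at this
    exact this
  · intro i hi
    rcases Nat.lt_or_ge i n with h3 | h3
    · have e1 : i ≤ n := by omega
      have e2 : i + 1 ≤ n := by omega
      simpa [e1, e2] using hs i h3
    · obtain ⟨j, rfl⟩ := Nat.exists_eq_add_of_le h3
      have k1 := key j
      have k2 := key (j + 1)
      have k3 := ht j (by omega)
      rw [← k1, ← k2] at k3
      exact k3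
  · intro i hi
    simp [hi]
  · intro i
    exact key i

private theorem chain_visit {F : Type} (r : F → F → Prop) (K : Set F)
    (hr : ∀ a ∈ K, ∀ b ∈ K, Relation.TransGen r a b) {b : F} (hb : b ∈ K) (l : List F) :
    (∀ y ∈ l, y ∈ K) → ∀ a ∈ K, ∃ (n : ℕ) (s : ℕ → F), 1 ≤ n ∧ s 0 = a ∧ s n = b ∧
      (∀ i, i < n → r (s i) (s (i + 1))) ∧ ∀ y ∈ l, ∃ i, i ≤ n ∧ s i = y := by
  induction l with
  | nil =>
    intro _ a ha
    obtain ⟨n, s, h1, h2, h3, h4⟩ := chain_of_transGen (hr a ha b hb)
    exact ⟨n, s, h1, h2, h3, h4, fun y hy => absurd hy (by simp)⟩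
  | cons y l ih =>
    intro hl a ha
    have hy : y ∈ K := hl y (by simp)
    obtain ⟨n, s, h1, h2, h3, h4⟩ := chain_of_transGen (hr a ha y hy)
    obtain ⟨m, t, k1, k2, k3, k4, k5⟩ := ih (fun z hz => hl z (by simp [hz])) y hy
    obtain ⟨u, u0, u1, u2, u3, u4⟩ := chain_concat h2 h3 h4 k2 k3 k4
    refine ⟨n + m, u, by omega, u0, u1, u2, ?_⟩
    intro z hz
    rcases List.mem_cons.1 hz with hz | hz
    · subst hz
      exact ⟨n, by omega, by rw [u3 n (le_refl _), h3]⟩
    · obtain ⟨i, hi, hiz⟩ := k5 z hz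
      exact ⟨n + i, by omega, by rw [u4, hiz]⟩

theorem exists_tour {F : Type} (r : F → F → Prop) (K : Set F) (hr : ∀ a ∈ K, ∀ b ∈ K, Relation.TransGen r a b)
    (hK : ∀ a b, r a b → b ∈ K) (Y : Finset F) (hY : ∀ y ∈ Y, y ∈ K) (hne : Y.Nonempty) :
    ∃ (N : ℕ) (s : ℕ → F), 1 ≤ N ∧ (∀ i, s (i + N) = s i) ∧ (∀ i, r (s i) (s (i + 1))) ∧ (∀ i, s i ∈ K) ∧
      ∀ y ∈ Y, ∃ i, s i = y := by
  obtain ⟨y0, hy0⟩ := hne
  obtain ⟨N, s, h1, h2, h3, h4, h5⟩ := chain_visit r K hr (hY y0 hy0) Y.toList
    (fun y hy => hY y (by simpa using hy)) y0 (hY y0 hy0)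
  have hr' : ∀ i, r (s (i % N)) (s ((i + 1) % N)) := by
    intro i
    have hlt : i % N < N := Nat.mod_lt _ (by omega)
    have h6 := h4 (i % N) hlt
    rcases Nat.lt_or_ge (i % N + 1) N with h7 | h7
    · have e : (i + 1) % N = i % N + 1 := by
        rw [Nat.add_mod, Nat.mod_eq_of_lt (show 1 < N by omega), Nat.mod_eq_of_lt h7]
      rw [e]
      exact h6
    · have e0 : i % N + 1 = N := by omega
      have e : (i + 1) % N = 0 := by
        rw [← Nat.mod_add_mod, e0, Nat.mod_self]
      rw [e, h2, ← h3]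
      rw [e0] at h6
      exact h6
  refine ⟨N, fun i => s (i % N), h1, ?_, hr', ?_, ?_⟩
  · intro i
    simp
  · intro i
    have h6 := hr' (i + (N - 1))
    have e : i + (N - 1) + 1 = i + N := by omega
    rw [e, Nat.add_mod_right] at h6
    exact hK _ _ h6
  · intro y hy
    obtain ⟨i, hi, hiy⟩ := h5 y (by simpa using hy)
    rcases Nat.lt_or_ge i N with h7 | h7
    · exact ⟨i, by simp only [Nat.mod_eq_of_lt h7]; exact hiy⟩
    · have e : i = N := by omega
      subst e
      refine ⟨0, ?_⟩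
      simp only [Nat.zero_mod]
      rw [h2, ← h3]
      exact hiy

end Pool.Agent.Helper59.GT
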