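import Pool.Agent.Helper59.GT.ChainAbs
import Pool.Agent.Helper59.GT.Tour

/-!
# GT-18 Lift: lifting a closed chain modulo translations to a two-sided infinite sequence

Proof. Take `N, s` from `exists_tour` for `r = Step φ K δ` and choose `k i` (`i : ℕ`) with `dist (φ (s i)) (sh (k i) (s (i + 1))) < δ`; replace `k i` by `k (i % N)` (allowed since `s` is `N`-periodic). Let `κ j = ∑ i ∈ range j, k i` for `j ≤ N`, `kP = κ N`.
For `i : ℤ` write `i = q N + j`, `q = i / N`, `j = (i % N).toNat` (`0 ≤ j < N`) and put `S i = sh (q • kP + κ j) (s j)`. Then `S (i + N) = sh kP (S i)`. Step: if `j + 1 < N`, `i + 1 = q N + (j + 1)` and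
`dist (φ (S i)) (S (i + 1)) = dist (sh (q kP + κ j) (φ (s j))) (sh (q kP + κ j) (sh (k j) (s (j + 1)))) < δ` (`hsh`, `sh_sh`, `dist_sh`). If `j + 1 = N`: `i + 1 = (q + 1) N`, `S (i + 1) = sh ((q + 1) kP) (s 0)`, `s 0 = s N`,
`κ (N - 1) + k (N - 1) = kP`, the same estimate. For `y ∈ Y` take `i` with `s i = y` and reduce `i` mod `N`: `S j = sh (κ j) y`, `y = sh (- κ j) (S j)`.
-/

set_option autoImplicit false
set_option maxSynthPendingDepth 3

namespace Pool.Agent.Helper59.GT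

theorem exists_lift {n : ℕ} (φ : Ph n → Ph n) (hsh : ∀ k z, φ (sh k z) = sh k (φ z)) (K : Set (Ph n)) (hKi : Inv K) (δ : ℝ)
    (hr : ∀ a ∈ K, ∀ b ∈ K, Relation.TransGen (Step φ K δ) a b) (Y : Finset (Ph n)) (hY : ∀ y ∈ Y, y ∈ K)
    (hne : Y.Nonempty) :
    ∃ (N : ℕ) (S : ℤ → Ph n) (kP : Fin n → ℤ), 1 ≤ N ∧ (∀ i, S (i + N) = sh kP (S i)) ∧ (∀ i, S i ∈ K) ∧
      (∀ i, dist (φ (S i)) (S (i + 1)) < δ) ∧ ∀ y ∈ Y, ∃ i k, sh k (S i) = y := by
  obtain ⟨N, s, hN, hper, hstep, hsK, hsY⟩ := exists_tour (Step φ K δ) K hr (fun a b h => h.1) Y hY hne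
  have hk : ∀ i, ∃ k, dist (φ (s i)) (sh k (s (i + 1))) < δ := fun i => (hstep i).2
  choose k hk using hk
  have hN0 : (0 : ℤ) < (N : ℤ) := by exact_mod_cast hN
  set κ : ℕ → (Fin n → ℤ) := fun j => ∑ i ∈ Finset.range j, k i with hκ
  have hκs : ∀ j, κ (j + 1) = κ j + k j := fun j => Finset.sum_range_succ _ _
  have hκ0 : κ 0 = 0 := Finset.sum_range_zero _
  set S : ℤ → Ph n := fun i => sh ((i / N) • κ N + κ (i % N).toNat) (s (i % N).toNat) with hSdef
  have hS : ∀ (q : ℤ) (j : ℕ), j < N → S (q * N + j) = sh (q • κ N + κ j) (s j) := by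
    intro q j hj
    have hj' : (j : ℤ) < (N : ℤ) := by exact_mod_cast hj
    have h1 : (q * N + j) / (N : ℤ) = q := by
      rw [add_comm, Int.add_mul_ediv_right _ _ hN0.ne', Int.ediv_eq_zero_of_lt (by positivity) hj',
        zero_add]
    have h2 : (q * N + j) % (N : ℤ) = j := by
      rw [add_comm, Int.add_mul_emod_self_right, Int.emod_eq_of_lt (by positivity) hj']
    simp only [hSdef]
    rw [h1, h2, Int.toNat_natCast]
  have hdec : ∀ i : ℤ, ∃ (q : ℤ) (j : ℕ), j < N ∧ i = q * N + j := by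
    intro i
    have h1 := Int.emod_nonneg i hN0.ne'
    have h2 := Int.emod_lt_of_pos i hN0
    refine ⟨i / N, (i % N).toNat, ?_, ?_⟩
    · have h3 : ((i % N).toNat : ℤ) < N := by rw [Int.toNat_of_nonneg h1]; exact h2
      exact_mod_cast h3
    · rw [Int.toNat_of_nonneg h1]
      have := Int.emod_add_mul_ediv i N
      linarith
  refine ⟨N, S, κ N, hN, ?_, ?_, ?_, ?_⟩
  · intro i
    obtain ⟨q, j, hj, rfl⟩ := hdec i
    rw [show q * (N : ℤ) + j + N = (q + 1) * N + j by ring, hS _ _ hj, hS _ _ hj, sh_sh, add_smul,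
      one_smul]
    congr 1
    abel
  · intro i
    exact hKi _ _ (hsK _)
  · intro i
    obtain ⟨q, j, hj, rfl⟩ := hdec i
    have key : S (q * (N : ℤ) + j + 1) = sh (q • κ N + κ j) (sh (k j) (s (j + 1))) := by
      rw [sh_sh, add_assoc (q • κ N), ← hκs]
      by_cases hj1 : j + 1 < N
      · rw [show q * (N : ℤ) + j + 1 = q * N + ((j + 1 : ℕ) : ℤ) by push_cast; ring, hS _ _ hj1]
      · have hj2 : j + 1 = N := by omega
        have h1 := hper 0
        rw [zero_add] at h1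
        rw [show q * (N : ℤ) + j + 1 = (q + 1) * N + ((0 : ℕ) : ℤ) by
          have : ((j + 1 : ℕ) : ℤ) = N := by exact_mod_cast hj2
          push_cast at this ⊢
          linarith, hS _ _ hN, hj2, hκ0, h1, add_zero, add_smul, one_smul]
    rw [key, hS _ _ hj, hsh, dist_sh]
    exact hk j
  · intro y hy
    obtain ⟨i, hi⟩ := hsY y hy
    have hmod : ∀ m : ℕ, ∀ r : ℕ, s (r + m * N) = s r := by
      intro m
      induction m with
      | zero => intro r; simp
      | succ m ih => intro r; rw [add_mul, one_mul, ← add_assoc, hper, ih]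
    have h1 : s (i % N) = y := by
      rw [← hi]
      conv_rhs => rw [← Nat.mod_add_div i N, mul_comm N]
      exact (hmod _ _).symm
    have h2 := hS 0 (i % N) (Nat.mod_lt _ hN)
    refine ⟨0 * (N : ℤ) + ((i % N : ℕ) : ℤ), -(0 • κ N + κ (i % N)), ?_⟩
    rw [h2, sh_sh, h1]
    have h3 : -(0 • κ N + κ (i % N)) + ((0 : ℤ) • κ N + κ (i % N)) = 0 := by
      rw [zero_smul, zero_smul]
      abel
    rw [h3, sh_zero]

end Pool.Agent.Helper59.GT
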