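import Pool.Agent.Helper59.GT.GeoFlow
import Pool.Agent.Helper59.GT.GeoHam
import Pool.Agent.Helper59.GT.ShellLem

/-!
# GT-21 SolClose: bounds and closeness for the curves of the geodesic flow in the shell

Proof. Let `V z = (XH (Hk g) z).1` and `W z = fderiv ℝ V z (XH (Hk g) z)`; both are continuous (`contDiff_XH`; `Hk g` is smooth, since `cog g` is) and invariant under `sh k`. For `z` in the shell and `γ t = (Φ t z).1`: `γ' t = V (Φ t z)`, `γ'' t = W (Φ t z)` (`ham`,
chain rule), and `Φ t z` stays in the shell (`energy`). The set `Q = {z | z.1 ∈ [-1, 2] ^ n, Hk g z ≤ 2}` is compact (`Hk_bounds`, continuity), so `V, W` are bounded (by `M`) and uniformly continuous on `Q`. Every point of the shell has a translate with position in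
`[0, 1] ^ n`; two points of the shell with distance `< 1` have simultaneous translates in `Q`. So `V, W` are bounded by `M` on the shell, and for `η > 0` there is `δ₁ > 0` such that `‖V z - V z'‖, ‖W z - W z'‖ ≤ η` for `z, z'` in the shell, `dist z z' < δ₁`.
For `|t| ≤ 1`: `dist (Φ t z) (Φ t z') ≤ exp K * dist z z'`; take `δ = min δ₁ η * exp (-K)`.
-/

set_option autoImplicit false
set_option maxSynthPendingDepth 3

open scoped ContDiff

namespace Pool.Agent.Helper59.GT

private theorem sc_smooth {n : ℕ} {g : E n → Bil n} (hg : IsMetric ∞ g) :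
    ContDiff ℝ ∞ (Hk g) := by
  unfold Hk
  exact contDiff_const.mul (ContDiff.inner ℝ
    (((contDiff_cog hg).comp contDiff_fst).clm_apply contDiff_snd) contDiff_snd)

/-- every point of the shell has a translate in a fixed ball -/
private theorem sc_ball {n : ℕ} {g : E n → Bil n} (hg : IsMetric ∞ g) :
    ∃ R : ℝ, ∀ z ∈ Shell g, ∃ k : Fin n → ℤ, sh k z ∈ Metric.closedBall (0 : Ph n) R := by
  obtain ⟨c, d, hc, hd, hb⟩ := Hk_bounds hg
  refine ⟨max (Real.sqrt n) (Real.sqrt (2 / c)), fun z hz => ?_⟩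
  refine ⟨fun i => -⌊z.1 i⌋, ?_⟩
  rw [mem_closedBall_zero_iff, Prod.norm_def]
  refine max_le_max ?_ ?_
  · show ‖z.1 + latt (fun i => -⌊z.1 i⌋)‖ ≤ Real.sqrt n
    rw [EuclideanSpace.norm_eq]
    refine Real.sqrt_le_sqrt ?_
    calc ∑ i, ‖(z.1 + latt (fun i => -⌊z.1 i⌋)) i‖ ^ 2 ≤ ∑ _i : Fin n, (1 : ℝ) := by
          refine Finset.sum_le_sum fun i _ => ?_
          have h1 : (z.1 + latt (fun i => -⌊z.1 i⌋)) i = Int.fract (z.1 i) := by
            rw [PiLp.add_apply, latt_apply]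
            push_cast
            rw [← sub_eq_add_neg]
            rfl
          rw [h1, Real.norm_of_nonneg (Int.fract_nonneg _)]
          exact pow_le_one₀ (Int.fract_nonneg _) (Int.fract_lt_one _).le
      _ = n := by simp
  · show ‖z.2‖ ≤ Real.sqrt (2 / c)
    apply Real.le_sqrt_of_sq_le
    rw [le_div_iff₀ hc]
    have h1 := (hb z).1
    have h2 := hz.2
    linarith

/-- periodic continuous maps are bounded and uniformly continuous on the shell -/
private theorem sc_unif {n : ℕ} {g : E n → Bil n} (hg : IsMetric ∞ g) {X : Type}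
    [NormedAddCommGroup X] {F : Ph n → X} (hF : Continuous F) (hper : ∀ k z, F (sh k z) = F z) :
    (∃ M : ℝ, ∀ z ∈ Shell g, ‖F z‖ ≤ M) ∧
      ∀ η > 0, ∃ δ > 0, ∀ z ∈ Shell g, ∀ z', dist z z' < δ → ‖F z - F z'‖ ≤ η := by
  obtain ⟨R, hR⟩ := sc_ball hg
  have hcomp : IsCompact (Metric.closedBall (0 : Ph n) (R + 1)) := isCompact_closedBall _ _
  constructor
  · obtain ⟨M, hM⟩ := hcomp.exists_bound_of_continuousOn hF.continuousOn
    refine ⟨M, fun z hz => ?_⟩
    obtain ⟨k, hk⟩ := hR z hz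
    rw [← hper k z]
    exact hM _ (Metric.closedBall_subset_closedBall (by linarith) hk)
  · intro η hη
    have huc := hcomp.uniformContinuousOn_of_continuous hF.continuousOn
    rw [Metric.uniformContinuousOn_iff] at huc
    obtain ⟨δ, hδ, hδ2⟩ := huc η hη
    refine ⟨min δ 1, lt_min hδ one_pos, fun z hz z' hzz => ?_⟩
    obtain ⟨k, hk⟩ := hR z hz
    have h1 : sh k z' ∈ Metric.closedBall (0 : Ph n) (R + 1) := by
      rw [Metric.mem_closedBall] at hk ⊢
      have h2 := dist_triangle (sh k z') (sh k z) 0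
      rw [dist_sh, dist_comm z' z] at h2
      have h3 := lt_of_lt_of_le hzz (min_le_right _ _)
      linarith
    have h4 := hδ2 (sh k z) (Metric.closedBall_subset_closedBall (by linarith) hk) (sh k z') h1
      (by rw [dist_sh]; exact lt_of_lt_of_le hzz (min_le_left _ _))
    rw [hper, hper, dist_eq_norm] at h4
    exact h4.le

theorem sol_close {n : ℕ} {g : E n → Bil n} (hg : IsMetric ∞ g) {Φ : ℝ → Ph n → Ph n} {K : ℝ} (hK : 0 ≤ K)
    (hΦ : GeoFlow g Φ K) :
    ∃ M : ℝ, (∀ z ∈ Shell g, ∀ t, ‖deriv (fun s => (Φ s z).1) t‖ ≤ M ∧ ‖deriv (deriv (fun s => (Φ s z).1)) t‖ ≤ M) ∧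
      ∀ η > 0, ∃ δ > 0, ∀ z ∈ Shell g, ∀ z' ∈ Shell g, dist z z' < δ → ∀ t : ℝ, |t| ≤ 1 →
        ‖(Φ t z).1 - (Φ t z').1‖ ≤ η ∧
        ‖deriv (fun s => (Φ s z).1) t - deriv (fun s => (Φ s z').1) t‖ ≤ η ∧
        ‖deriv (deriv (fun s => (Φ s z).1)) t - deriv (deriv (fun s => (Φ s z').1)) t‖ ≤ η := by
  have hX : ContDiff ℝ ∞ (XH (Hk g)) := contDiff_XH (sc_smooth hg)
  obtain ⟨V, hVd⟩ : ∃ V : Ph n → E n, V = fun z => (XH (Hk g) z).1 := ⟨_, rfl⟩
  have hV : ContDiff ℝ ∞ V := by
    rw [hVd]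
    exact contDiff_fst.comp hX
  obtain ⟨W, hWd⟩ : ∃ W : Ph n → E n, W = fun z => fderiv ℝ V z (XH (Hk g) z) := ⟨_, rfl⟩
  have hW : Continuous W := by
    rw [hWd]
    exact (hV.continuous_fderiv (by simp)).clm_apply hX.continuous
  have hXper : ∀ k z, XH (Hk g) (sh k z) = XH (Hk g) z := fun k z => XH_sh (Hk_sh hg) k z
  have hVper : ∀ k z, V (sh k z) = V z := by
    intro k z
    rw [hVd]
    show (XH (Hk g) (sh k z)).1 = (XH (Hk g) z).1
    rw [hXper]
  have hWper : ∀ k z, W (sh k z) = W z := by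
    intro k z
    rw [hWd]
    show fderiv ℝ V (sh k z) (XH (Hk g) (sh k z)) = fderiv ℝ V z (XH (Hk g) z)
    rw [hXper]
    have h1 : (fun y => V (y + (latt k, 0))) = V := by
      funext y
      rw [← hVper k y]
      congr 1
      exact Prod.ext rfl (add_zero _)
    have h2 : sh k z = z + (latt k, 0) := Prod.ext rfl (add_zero _).symm
    rw [h2, ← fderiv_comp_add_right, h1]
  have hF : Continuous fun z => (V z, W z) := hV.continuous.prodMk hW
  obtain ⟨⟨M, hM⟩, hunif⟩ := sc_unif hg hF (fun k z => by rw [hVper, hWper])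
  have hshell : ∀ z ∈ Shell g, ∀ t, Φ t z ∈ Shell g := by
    intro z hz t
    have h1 := hΦ.energy z (by linarith [hz.2]) t
    show 1 / 2 < Hk g (Φ t z) ∧ Hk g (Φ t z) < 2
    rw [h1]
    exact hz
  have hd1 : ∀ z ∈ Shell g, deriv (fun s => (Φ s z).1) = fun t => V (Φ t z) := by
    intro z hz
    funext t
    have h1 := hΦ.ham z (by linarith [hz.2]) t
    rw [hVd]
    exact ((ContinuousLinearMap.fst ℝ (E n) (E n)).hasFDerivAt.comp_hasDerivAt t h1).deriv
  have hd2 : ∀ z ∈ Shell g, ∀ t, deriv (deriv (fun s => (Φ s z).1)) t = W (Φ t z) := by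
    intro z hz t
    rw [hd1 z hz, hWd]
    have h1 := hΦ.ham z (by linarith [hz.2]) t
    have h2 : HasFDerivAt V (fderiv ℝ V (Φ t z)) (Φ t z) :=
      (hV.differentiable (by simp) _).hasFDerivAt
    exact (h2.comp_hasDerivAt t h1).deriv
  refine ⟨M, ?_, ?_⟩
  · intro z hz t
    have h1 := hM _ (hshell z hz t)
    rw [Prod.norm_def] at h1
    rw [hd2 z hz, hd1 z hz]
    exact ⟨(le_max_left _ _).trans h1, (le_max_right _ _).trans h1⟩
  · intro η hη
    obtain ⟨δ₁, hδ₁, hu⟩ := hunif η hη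
    refine ⟨min δ₁ η * Real.exp (-K), mul_pos (lt_min hδ₁ hη) (Real.exp_pos _), ?_⟩
    intro z hz z' hz' hzz t ht
    have h1 : dist (Φ t z) (Φ t z') < min δ₁ η := by
      have h2 := hΦ.dist_le t z z'
      have h3 : Real.exp (K * |t|) ≤ Real.exp K := by
        apply Real.exp_le_exp.2
        nlinarith
      calc dist (Φ t z) (Φ t z') ≤ Real.exp (K * |t|) * dist z z' := h2
        _ ≤ Real.exp K * dist z z' := mul_le_mul_of_nonneg_right h3 dist_nonneg
        _ < Real.exp K * (min δ₁ η * Real.exp (-K)) :=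
            mul_lt_mul_of_pos_left hzz (Real.exp_pos _)
        _ = min δ₁ η * (Real.exp K * Real.exp (-K)) := by ring
        _ = min δ₁ η := by rw [← Real.exp_add, add_neg_cancel, Real.exp_zero, mul_one]
    have h4 := hu (Φ t z) (hshell z hz t) (Φ t z') (lt_of_lt_of_le h1 (min_le_left _ _))
    rw [Prod.norm_def] at h4
    rw [hd2 z hz, hd2 z' hz', hd1 z hz, hd1 z' hz']
    refine ⟨?_, (le_max_left _ _).trans h4, (le_max_right _ _).trans h4⟩
    rw [← dist_eq_norm]
    refine le_trans ?_ (lt_of_lt_of_le h1 (min_le_right _ _)).le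
    rw [Prod.dist_eq]
    exact le_max_left _ _

end Pool.Agent.Helper59.GT
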