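import Pool.Agent.Helper59.GT.GeoChain
import Pool.Agent.Helper59.GT.Lift
import Pool.Agent.Helper59.GT.Blend
import Pool.Agent.Helper59.GT.ELUnif
import Pool.Agent.Helper59.GT.SolClose
import Pool.Agent.Helper59.GT.Net

/-!
# GT-23 Loop: closed curves of small geodesic curvature with an almost dense set of directions

Proof. Take `Φ, K` from `exists_geoFlow`, `M` from `sol_close`, `B` from `blend_bound`, `δE` from `EL_unif` with `M + 1` and `min ε (1/2)`; `η > 0` with `B η < δE`, `B η ≤ 1`, `δ` from `sol_close` for `η`; `Y` from `exists_net` (for `ε`); `N, S, kP` from `exists_lift` with `φ = Φ 1`, the shell and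
`δ` (`geo_chain`). Put `γ i t = (Φ (t - i) (S i)).1`, `c = blend γ`, `P = N`.
* smooth: `contDiff_blend`, `GeoFlow.smooth`.
* periodic: `⌊t + N⌋ = ⌊t⌋ + N`, `γ (i + N) (t + N) = (Φ (t - i) (sh kP (S i))).1 = γ i t + latt kP`.
* for `t ∈ [i, i + 1]` (`i = ⌊t⌋`): `Φ (t - i) (S i) = Φ (t - (i + 1)) (Φ 1 (S i))`, `|t - (i + 1)| ≤ 1`, `dist (Φ 1 (S i)) (S (i + 1)) < δ`, both in the shell: `sol_close` gives the hypotheses of `blend_bound` with `μ = η` (derivatives of `t ↦ f (t - i)`: `deriv_comp_sub_const`). So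
  `c, c', c''` at `t` are within `B η` of `γ_i, γ_i', γ_i''`, with `‖γ_i'‖, ‖γ_i''‖ ≤ M`. `γ_i` is a smooth geodesic (`geod_of_ham` applied to `t ↦ Φ (t - i) (S i)`), so `EL (γ_i ...) = 0` (`EL_of_geodesic`) and `g (γ_i', γ_i') = 2 Hk ∈ (1, 4)`; `EL_unif` gives the bounds.
* directions: for `(x, v)` take `(x', v', k)` from `exists_net`, `y = (x', √2 • opA g x' v') ∈ Y`, `i, k'` with `sh k' (S i) = y`. At `t = i`: `c i = γ_i i = (S i).1 = x' - latt k'`, `c' i = γ_i' i = cog g (S i).1 (S i).2 = √2 v'` (`blend_eq` near `i` with `sig = 0` near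
  `0`; or `blend_eq` and the derivative; `cog_per`, `cog_left`), `g (c', c') = 2`, so the normalised direction is `v'`.
-/

set_option autoImplicit false
set_option maxSynthPendingDepth 3

open scoped ContDiff

namespace Pool.Agent.Helper59.GT

/-- The geodesic of `z` started at time `a`. -/
private noncomputable def gam {n : ℕ} (Φ : ℝ → Ph n → Ph n) (z : Ph n) (a : ℝ) : ℝ → E n :=
  fun t => (Φ (t - a) z).1

private lemma gam_d {n : ℕ} (Φ : ℝ → Ph n → Ph n) (z : Ph n) (a : ℝ) :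
    deriv (gam Φ z a) = fun t => deriv (fun s => (Φ s z).1) (t - a) := by
  ext1 t
  exact deriv_comp_sub_const (f := fun s => (Φ s z).1) a t

private lemma gam_dd {n : ℕ} (Φ : ℝ → Ph n → Ph n) (z : Ph n) (a t : ℝ) :
    deriv (deriv (gam Φ z a)) t = deriv (deriv (fun s => (Φ s z).1)) (t - a) := by
  rw [gam_d]
  exact deriv_comp_sub_const (f := deriv (fun s => (Φ s z).1)) a t

private lemma gam_smooth {n : ℕ} {g : E n → Bil n} {Φ : ℝ → Ph n → Ph n} {K : ℝ}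
    (hΦ : GeoFlow g Φ K) (z : Ph n) (a : ℝ) : ContDiff ℝ ∞ (gam Φ z a) := by
  unfold gam
  exact contDiff_fst.comp ((hΦ.smooth z).comp (contDiff_id.sub contDiff_const))

private lemma gam_shift {n : ℕ} {g : E n → Bil n} {Φ : ℝ → Ph n → Ph n} {K : ℝ}
    (hΦ : GeoFlow g Φ K) (z : Ph n) (a : ℝ) : gam Φ z a = gam Φ (Φ 1 z) (a + 1) := by
  ext1 t
  unfold gam
  rw [← hΦ.add]
  congr 2
  ring

private lemma gam_geod {n : ℕ} {g : E n → Bil n} (hg : IsMetric ∞ g) {Φ : ℝ → Ph n → Ph n} {K : ℝ}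
    (hΦ : GeoFlow g Φ K) (z : Ph n) (hz : Hk g z < 4) (a : ℝ) :
    (∀ t, EL g (gam Φ z a t) (deriv (gam Φ z a) t) (deriv (deriv (gam Φ z a)) t) = 0) ∧
    (∀ t, g (gam Φ z a t) (deriv (gam Φ z a) t) (deriv (gam Φ z a) t) = 2 * Hk g z) ∧
    (∀ t, deriv (gam Φ z a) t = cog g (Φ (t - a) z).1 (Φ (t - a) z).2) := by
  have hZ : ∀ t, HasDerivAt (fun s => Φ (s - a) z) (XH (Hk g) (Φ (t - a) z)) t := by
    intro t
    exact HasDerivAt.comp_sub_const t a (hΦ.ham z hz (t - a))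
  obtain ⟨h1, h2, h3⟩ := geod_of_ham hg hZ
  refine ⟨fun t => EL_of_geodesic hg (gam_smooth hΦ z a) h1 t, fun t => ?_, h2⟩
  have h4 := h3 t
  have h5 : deriv (gam Φ z a) t = cog g (Φ (t - a) z).1 (Φ (t - a) z).2 := h2 t
  rw [h5]
  rw [hΦ.energy z hz (t - a)] at h4
  exact h4

private lemma sig_zero {s : ℝ} (hs : s ≤ 1 / 4) : sig s = 0 := by
  unfold sig
  exact Real.smoothTransition.zero_of_nonpos (by linarith)

private lemma blend_near {F : Type} [NormedAddCommGroup F] [NormedSpace ℝ F] (γ : ℤ → ℝ → F)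
    (i : ℤ) : blend γ =ᶠ[nhds (i : ℝ)] γ i := by
  have h : Set.Ioo ((i : ℝ) - 1 / 4) (i + 1 / 4) ∈ nhds (i : ℝ) :=
    Ioo_mem_nhds (by linarith) (by linarith)
  filter_upwards [h] with t ht
  rw [blend_eq γ i t ht.1 (by linarith [ht.2]), sig_zero (by linarith [ht.2]), zero_smul, add_zero]

theorem exists_loop {n : ℕ} (hn : 2 ≤ n) {g : E n → Bil n} (hg : IsMetric ∞ g) (ε : ℝ) (hε : 0 < ε) :
    ∃ (c : ℝ → E n) (P : ℝ), 0 < P ∧ ContDiff ℝ ∞ c ∧ (∃ k, ∀ t, c (t + P) = c t + latt k) ∧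
      (∀ t, ‖EL g (c t) (deriv c t) (deriv (deriv c) t)‖ ≤ ε) ∧
      (∀ t, 1 / 2 ≤ g (c t) (deriv c t) (deriv c t) ∧ g (c t) (deriv c t) (deriv c t) ≤ 5) ∧
      ∀ x v, g x v v = 1 → ∃ t k, ‖c t + latt k - x‖ < ε ∧
        ‖(Real.sqrt (g (c t) (deriv c t) (deriv c t)))⁻¹ • deriv c t - v‖ < ε := by
  obtain ⟨Φ, K, hK, hΦ⟩ := exists_geoFlow hg
  obtain ⟨M, hM, hclose⟩ := sol_close hg hK hΦ
  obtain ⟨B, hB, hblend⟩ := blend_bound (F := E n)
  obtain ⟨δE, hδE, hEL⟩ := EL_unif hg (M + 1) (min ε (1 / 2)) (lt_min hε (by norm_num))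
  have hη : 0 < min δE 1 / (2 * (B + 1)) := by
    have : 0 < min δE 1 := lt_min hδE one_pos
    positivity
  set η : ℝ := min δE 1 / (2 * (B + 1)) with hηdef
  have hBη : B * η < min δE 1 := by
    have h1 : 0 < min δE 1 := lt_min hδE one_pos
    have h2 : B * η = min δE 1 * (B / (2 * (B + 1))) := by
      rw [hηdef]
      ring
    rw [h2]
    have h3 : B / (2 * (B + 1)) < 1 := by
      rw [div_lt_one (by positivity)]
      linarith
    nlinarith
  have hBη1 : B * η < δE := hBη.trans_le (min_le_left _ _)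
  have hBη2 : B * η ≤ 1 := hBη.le.trans (min_le_right _ _)
  obtain ⟨δ, hδ, hcl⟩ := hclose η hη
  obtain ⟨Y, hYne, hYs, hY⟩ := exists_net (by omega) hg ε hε
  obtain ⟨N, S, kP, hN, hSper, hSK, hSstep, hSY⟩ := exists_lift (Φ 1) (fun k z => hΦ.sh 1 k z)
    (Shell g) (shell_inv hg) δ (fun a ha b hb => geo_chain hn hg hΦ δ hδ a ha b hb) Y hYs hYne
  have hS4 : ∀ i, Hk g (S i) < 4 := fun i => by
    have := (hSK i).2
    linarith
  have hS1 : ∀ i, Φ 1 (S i) ∈ Shell g := by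
    intro i
    have h1 := hΦ.energy (S i) (hS4 i) 1
    have h2 := hSK i
    unfold Shell at h2 ⊢
    simp only [Set.mem_setOf_eq] at h2 ⊢
    rw [h1]
    exact h2
  set γ : ℤ → ℝ → E n := fun i => gam Φ (S i) (i : ℝ) with hγ
  have hγs : ∀ i, ContDiff ℝ ∞ (γ i) := fun i => gam_smooth hΦ _ _
  have hγ1 : ∀ i t, ‖deriv (γ i) t‖ ≤ M := by
    intro i t
    simp only [hγ]
    rw [gam_d]
    exact (hM (S i) (hSK i) _).1
  have hγ2 : ∀ i t, ‖deriv (deriv (γ i)) t‖ ≤ M := by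
    intro i t
    simp only [hγ]
    rw [gam_dd]
    exact (hM (S i) (hSK i) _).2
  have hbl : ∀ (i : ℤ) (t : ℝ), (i : ℝ) ≤ t → t ≤ i + 1 →
      ‖blend γ t - γ i t‖ ≤ B * η ∧ ‖deriv (blend γ) t - deriv (γ i) t‖ ≤ B * η ∧
      ‖deriv (deriv (blend γ)) t - deriv (deriv (γ i)) t‖ ≤ B * η := by
    intro i t h1 h2
    have e1 : γ i = gam Φ (Φ 1 (S i)) ((i : ℝ) + 1) := gam_shift hΦ (S i) i
    have e2 : γ (i + 1) = gam Φ (S (i + 1)) ((i : ℝ) + 1) := by
      simp only [hγ]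
      push_cast
      rfl
    have hd : dist (S (i + 1)) (Φ 1 (S i)) < δ := by
      rw [dist_comm]
      exact hSstep i
    have ht : |t - ((i : ℝ) + 1)| ≤ 1 := by
      rw [abs_le]
      constructor <;> linarith
    obtain ⟨h3, h4, h5⟩ := hcl (S (i + 1)) (hSK _) (Φ 1 (S i)) (hS1 i) hd _ ht
    apply hblend γ hγs i t η h1 h2
    · rw [e1, e2]
      exact h3
    · rw [e1, e2, gam_d, gam_d]
      exact h4
    · rw [e1, e2, gam_dd, gam_dd]
      exact h5
  have hmain : ∀ t, ‖EL g (blend γ t) (deriv (blend γ) t) (deriv (deriv (blend γ)) t)‖ < min ε (1 / 2) ∧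
      |g (blend γ t) (deriv (blend γ) t) (deriv (blend γ) t) - 2 * Hk g (S ⌊t⌋)| < min ε (1 / 2) := by
    intro t
    obtain ⟨h1, h2, h3⟩ := hbl ⌊t⌋ t (Int.floor_le t) (Int.lt_floor_add_one t).le
    obtain ⟨h4, h5, _⟩ := gam_geod hg hΦ (S ⌊t⌋) (hS4 _) (⌊t⌋ : ℝ)
    have h4' : EL g (γ ⌊t⌋ t) (deriv (γ ⌊t⌋) t) (deriv (deriv (γ ⌊t⌋)) t) = 0 := h4 t
    have h5' : g (γ ⌊t⌋ t) (deriv (γ ⌊t⌋) t) (deriv (γ ⌊t⌋) t) = 2 * Hk g (S ⌊t⌋) := h5 t
    have h6 : ‖deriv (blend γ) t‖ ≤ M + 1 := by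
      have h := norm_add_le (deriv (blend γ) t - deriv (γ ⌊t⌋) t) (deriv (γ ⌊t⌋) t)
      rw [sub_add_cancel] at h
      linarith [hγ1 ⌊t⌋ t]
    have h7 : ‖deriv (deriv (blend γ)) t‖ ≤ M + 1 := by
      have h := norm_add_le (deriv (deriv (blend γ)) t - deriv (deriv (γ ⌊t⌋)) t)
        (deriv (deriv (γ ⌊t⌋)) t)
      rw [sub_add_cancel] at h
      linarith [hγ2 ⌊t⌋ t]
    have h8 := hEL (blend γ t) (deriv (blend γ) t) (deriv (deriv (blend γ)) t) (γ ⌊t⌋ t)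
      (deriv (γ ⌊t⌋) t) (deriv (deriv (γ ⌊t⌋)) t) h6 h7 ((hγ1 _ t).trans (by linarith))
      ((hγ2 _ t).trans (by linarith)) (h1.trans_lt hBη1) (h2.trans_lt hBη1) (h3.trans_lt hBη1)
    rw [h4', h5', sub_zero] at h8
    exact h8
  refine ⟨blend γ, N, by exact_mod_cast hN, contDiff_blend γ hγs, ⟨kP, ?_⟩, ?_, ?_, ?_⟩
  · intro t
    have hper : ∀ (i : ℤ), γ (i + N) (t + N) = γ i t + latt kP := by
      intro i
      simp only [hγ]
      unfold gam
      have e : t + (N : ℝ) - ((i + (N : ℤ) : ℤ) : ℝ) = t - i := by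
        push_cast
        ring
      rw [e, hSper i, hΦ.sh]
      rfl
    unfold blend
    have e1 : ⌊t + (N : ℝ)⌋ = ⌊t⌋ + (N : ℤ) := Int.floor_add_natCast t N
    have e2 : (⌊t⌋ : ℤ) + (N : ℤ) + 1 = (⌊t⌋ + 1) + (N : ℤ) := by ring
    have e3 : t + (N : ℝ) - ((⌊t⌋ + (N : ℤ) : ℤ) : ℝ) = t - ⌊t⌋ := by
      push_cast
      ring
    rw [e1, e2, e3, hper, hper, add_sub_add_right_eq_sub]
    abel
  · intro t
    exact (hmain t).1.le.trans (min_le_left _ _)
  · intro t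
    have h1 := (hmain t).2.trans_le (min_le_right _ _)
    rw [abs_lt] at h1
    have h2 := hSK ⌊t⌋
    have h3 : 1 / 2 < Hk g (S ⌊t⌋) := h2.1
    have h4 : Hk g (S ⌊t⌋) < 2 := h2.2
    constructor <;> linarith [h1.1, h1.2]
  · intro x v hv
    obtain ⟨x', v', k, hg', hy, h1, h2⟩ := hY x v hv
    obtain ⟨i, k', hi⟩ := hSY _ hy
    have hi1 : (S i).1 + latt k' = x' := congrArg Prod.fst hi
    have hi2 : (S i).2 = Real.sqrt 2 • opA g x' v' := congrArg Prod.snd hi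
    have hop : opA g x' = opA g (S i).1 := by
      unfold opA
      rw [← hi1, hg.per]
    have hgx : g x' = g (S i).1 := by rw [← hi1, hg.per]
    have hc0 : blend γ i = (S i).1 := by
      have h := (blend_near γ i).eq_of_nhds
      rw [h]
      simp only [hγ]
      unfold gam
      rw [sub_self, hΦ.zero]
    have hc1 : deriv (blend γ) i = Real.sqrt 2 • v' := by
      rw [(blend_near γ i).deriv_eq]
      have h3 := (gam_geod hg hΦ (S i) (hS4 i) (i : ℝ)).2.2 i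
      have h4 : deriv (γ i) i = cog g (Φ ((i : ℝ) - i) (S i)).1 (Φ ((i : ℝ) - i) (S i)).2 := h3
      rw [h4, sub_self, hΦ.zero, hi2, hop, map_smul, cog_left hg]
    refine ⟨i, k' + k, ?_, ?_⟩
    · rw [hc0, latt_add, ← add_assoc, hi1]
      exact h1
    · have h5 : g (blend γ i) (deriv (blend γ) i) (deriv (blend γ) i) = 2 := by
        rw [hc0, hc1, ← hgx, map_smul, map_smul]
        simp only [ContinuousLinearMap.smul_apply, smul_eq_mul, hg', mul_one]
        exact Real.mul_self_sqrt (by norm_num)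
      rw [h5, hc1, smul_smul, inv_mul_cancel₀ (by positivity), one_smul]
      exact h2

end Pool.Agent.Helper59.GT
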