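import Mathlib

/-!
# GT-26 BumpCos: periodic bump functions on a circle divided into `q` arcs

The arcs are `[a P / q, (a + 1) P / q]`, `0 ≤ a < q`. For `q ≥ 4` (needed only to have `3 / (2 q) ≤ 1 / 2`) there is a smooth `P`-periodic function which is `1` on arc `a` and `0` on every arc `b` with `2 ≤ |a - b| ≤ q - 2`.

Proof. `β t = smoothTransition ((cos (2 π (t - m) / P) - v) / (u - v))` with `m = (a + 1 / 2) P / q`, `u = cos (π / q)`, `v = cos (3 π / q)`, `v < u` (`cos` is strictly decreasing on `[0, π]`, `3 / q ≤ 1`). On arc `a`: `|2 π (t - m) / P| ≤ π / q`, so `cos ≥ u` and `β = 1`.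
On arc `b`: `x = 2 π (t - m) / P` satisfies `3 π / q ≤ |x| ≤ 2 π - 3 π / q`, so `cos x ≤ cos (3 π / q)` (`cos` decreasing on `[0, π]`, symmetric about `π`), and `β = 0`. Smooth: composition. Derivatives: `β, β', β''` are continuous and periodic, so bounded.
-/

set_option autoImplicit false
set_option maxSynthPendingDepth 3

open scoped ContDiff

namespace Pool.Agent.Helper59.GT

private theorem cos_le_of_mem (y w : ℝ) (hw : 0 ≤ w) (h1 : w ≤ y) (h2 : y ≤ 2 * Real.pi - w) :
    Real.cos y ≤ Real.cos w := by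
  rcases le_total y Real.pi with h | h
  · exact Real.cos_le_cos_of_nonneg_of_le_pi hw h h1
  · have h3 : Real.cos y = Real.cos (2 * Real.pi - y) := by
      rw [Real.cos_two_pi_sub]
    rw [h3]
    exact Real.cos_le_cos_of_nonneg_of_le_pi hw (by linarith) (by linarith)

private theorem periodic_bdd (f : ℝ → ℝ) (P : ℝ) (hP : 0 < P) (hf : Continuous f)
    (hper : Function.Periodic f P) : ∃ C, ∀ t, |f t| ≤ C := by
  obtain ⟨C, hC⟩ := isCompact_Icc.exists_bound_of_continuousOn (s := Set.Icc 0 P) hf.continuousOn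
  refine ⟨C, fun t => ?_⟩
  obtain ⟨y, hy, hy2⟩ := hper.exists_mem_Ico₀ hP t
  rw [hy2]
  exact hC y ⟨hy.1, hy.2.le⟩

private theorem periodic_deriv (f : ℝ → ℝ) (P : ℝ) (hper : Function.Periodic f P) :
    Function.Periodic (deriv f) P := by
  intro t
  have h1 : (fun s => f (s + P)) = f := funext hper
  have h2 := congrArg (fun g => deriv g t) h1
  simp only [deriv_comp_add_const] at h2
  exact h2

theorem exists_bump (P : ℝ) (hP : 0 < P) (q : ℕ) (hq : 4 ≤ q) (a : ℕ) (ha : a < q) :
    ∃ (β : ℝ → ℝ) (B : ℝ), ContDiff ℝ ∞ β ∧ (∀ t, β (t + P) = β t) ∧ 0 ≤ B ∧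
      (∀ t, |β t| ≤ B ∧ |deriv β t| ≤ B ∧ |deriv (deriv β) t| ≤ B) ∧
      (∀ t ∈ Set.Icc (a * P / q) ((a + 1) * P / q), β t = 1) ∧
      ∀ b : ℕ, b < q → (a + 2 ≤ b ∧ b + 2 ≤ a + q ∨ b + 2 ≤ a ∧ a + 2 ≤ b + q) →
        ∀ t ∈ Set.Icc (b * P / q) ((b + 1) * P / q), β t = 0 := by
  have hqR : (4 : ℝ) ≤ q := by exact_mod_cast hq
  have hq0 : (0 : ℝ) < q := by linarith
  have hpi := Real.pi_pos
  set w : ℝ := Real.pi / q with hw
  have hw0 : 0 < w := by positivity
  have hwq : w * q = Real.pi := by rw [hw]; field_simp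
  have hw4 : 4 * w ≤ Real.pi := by nlinarith
  set u := Real.cos w with hu
  set v := Real.cos (3 * w) with hv
  have huv : v < u := Real.cos_lt_cos_of_nonneg_of_le_pi hw0.le (by linarith) (by linarith)
  let X : ℝ → ℝ := fun t => 2 * Real.pi * (t - (a + 1 / 2) * P / q) / P
  let β : ℝ → ℝ := fun t => Real.smoothTransition ((Real.cos (X t) - v) / (u - v))
  have hβ : ContDiff ℝ ∞ β := by
    have h1 : ContDiff ℝ ∞ fun t => (Real.cos (X t) - v) / (u - v) := by
      simp only [X]
      fun_prop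
    exact Real.smoothTransition.contDiff.comp h1
  have hper : Function.Periodic β P := by
    intro t
    simp only [β, X]
    have h1 : 2 * Real.pi * (t + P - (a + 1 / 2) * P / q) / P =
        2 * Real.pi * (t - (a + 1 / 2) * P / q) / P + 2 * Real.pi := by
      field_simp
      ring
    rw [h1, Real.cos_add_two_pi]
  have hβ1 : ContDiff ℝ ∞ (deriv β) := hβ.deriv'
  have hβ2 : ContDiff ℝ ∞ (deriv (deriv β)) := hβ1.deriv'
  obtain ⟨C0, hC0⟩ := periodic_bdd β P hP hβ.continuous hper
  obtain ⟨C1, hC1⟩ := periodic_bdd _ P hP hβ1.continuous (periodic_deriv _ P hper)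
  obtain ⟨C2, hC2⟩ := periodic_bdd _ P hP hβ2.continuous
    (periodic_deriv _ P (periodic_deriv _ P hper))
  refine ⟨β, max C0 (max C1 C2), hβ, hper, (abs_nonneg _).trans ((hC0 0).trans (le_max_left _ _)),
    fun t => ⟨(hC0 t).trans (le_max_left _ _), (hC1 t).trans ((le_max_left _ _).trans
      (le_max_right _ _)), (hC2 t).trans ((le_max_right _ _).trans (le_max_right _ _))⟩, ?_, ?_⟩
  · rintro t ⟨ht1, ht2⟩
    rw [div_le_iff₀ hq0] at ht1
    rw [le_div_iff₀ hq0] at ht2
    apply Real.smoothTransition.one_of_one_le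
    rw [le_div_iff₀ (by linarith), one_mul]
    have hX : X t = w * (2 * (t * q) / P - 2 * a - 1) := by
      simp only [X, hw]
      field_simp
      ring
    have h1 : |X t| ≤ w := by
      rw [hX, abs_mul, abs_of_pos hw0]
      have h2 : |2 * (t * q) / P - 2 * a - 1| ≤ 1 := by
        rw [abs_le]
        constructor
        · have : (2 * a : ℝ) ≤ 2 * (t * q) / P := by
            rw [le_div_iff₀ hP]; nlinarith
          linarith
        · have : 2 * (t * q) / P ≤ (2 * a + 2 : ℝ) := by
            rw [div_le_iff₀ hP]; nlinarith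
          linarith
      nlinarith
    have h3 : u ≤ Real.cos (X t) := by
      rw [hu, ← Real.cos_abs (X t)]
      exact Real.cos_le_cos_of_nonneg_of_le_pi (abs_nonneg _) (by linarith) h1
    linarith
  · rintro b hb hab t ⟨ht1, ht2⟩
    rw [div_le_iff₀ hq0] at ht1
    rw [le_div_iff₀ hq0] at ht2
    apply Real.smoothTransition.zero_of_nonpos
    apply div_nonpos_of_nonpos_of_nonneg _ (by linarith)
    have hX : X t = w * (2 * (t * q) / P - 2 * a - 1) := by
      simp only [X, hw]
      field_simp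
      ring
    have e1 : (2 * b : ℝ) ≤ 2 * (t * q) / P := by
      rw [le_div_iff₀ hP]; nlinarith
    have e2 : 2 * (t * q) / P ≤ (2 * b + 2 : ℝ) := by
      rw [div_le_iff₀ hP]; nlinarith
    have h3 : Real.cos (X t) ≤ v := by
      rcases hab with ⟨h1, h2⟩ | ⟨h1, h2⟩
      · have h1' : (a : ℝ) + 2 ≤ b := by exact_mod_cast h1
        have h2' : (b : ℝ) + 2 ≤ a + q := by exact_mod_cast h2
        apply cos_le_of_mem _ _ (by positivity)
        · rw [hX]
          nlinarith
        · rw [hX]
          nlinarith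
      · have h1' : (b : ℝ) + 2 ≤ a := by exact_mod_cast h1
        have h2' : (a : ℝ) + 2 ≤ b + q := by exact_mod_cast h2
        rw [← Real.cos_neg]
        apply cos_le_of_mem _ _ (by positivity)
        · rw [hX]
          nlinarith
        · rw [hX]
          nlinarith
    linarith

end Pool.Agent.Helper59.GT
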