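import Pool.Agent.Helper59.GT.Avoid
import Pool.Agent.Helper59.GT.BumpCos

/-!
# GT-27 SepStep: separating finitely many pairs of far arcs

`Far q a b`: the arcs `a, b` (of `q` arcs of the circle of length `P`) are not equal or adjacent. `Sep c I J`: the curve pieces `c (I)`, `c (J)` are disjoint modulo translations.

Proof. `sep_margin` (compactness): if `Sep c I J` for compact intervals then for some `μ > 0`, `μ ≤ ‖c s - (c t + latt k)‖` for all `s ∈ I, t ∈ J, k`: the set of the values `c s - c t` is compact, and it does not meet the closed set of the lattice vectors (closed discrete; or: only finitely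
many `k` satisfy `‖latt k‖ ≤ diam + 1`).
`exists_sep`: induction on the finset `S` of pairs, for all `η`. Empty: `e = 0`. Insert the pair `(a, b)` to `S'`: take `e'` for `S'` and `η / 2`; `c + e'` separates the pairs of `S'` with a common margin `μ`. Take `β, B` from `exists_bump` for the arc `a`, and `l` from `avoid` for the curves `c + e'`, `c + e'` with
`‖l‖ < min (η / (2 (B + 1))) (μ / (2 (B + 1)))`. `e = e' + β • l`: bounds `η / 2 + B ‖l‖ ≤ η`. The pair `(a, b)`: for `s` in arc `a`, `t` in arc `b`: `(c + e) s = (c + e') s + l`, `(c + e) t = (c + e') t`, different modulo translations by the choice of `l`. The pairs of `S'`: each point moves by at most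
`B ‖l‖ < μ / 2`.
-/

set_option autoImplicit false
set_option maxSynthPendingDepth 3

open scoped ContDiff

namespace Pool.Agent.Helper59.GT

/-- Far arcs. -/
def Far (q a b : ℕ) : Prop := a < q ∧ b < q ∧ (a + 2 ≤ b ∧ b + 2 ≤ a + q ∨ b + 2 ≤ a ∧ a + 2 ≤ b + q)

/-- Disjoint modulo translations. -/
def Sep {n : ℕ} (c : ℝ → E n) (I J : Set ℝ) : Prop := ∀ s ∈ I, ∀ t ∈ J, ∀ k, c s ≠ c t + latt k

private theorem finite_latt_le {n : ℕ} (M : ℝ) : {k : Fin n → ℤ | ‖(latt k : E n)‖ ≤ M}.Finite := by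
  refine (Set.Finite.pi' (fun _ : Fin n => Set.finite_Icc (-⌈M⌉) ⌈M⌉)).subset ?_
  intro k hk i
  have h2 := PiLp.norm_apply_le (latt k : E n) i
  rw [Real.norm_eq_abs] at h2
  have h3 : |(k i : ℝ)| ≤ ⌈M⌉ := (h2.trans hk).trans (Int.le_ceil M)
  have h4 : |k i| ≤ ⌈M⌉ := by exact_mod_cast h3
  exact abs_le.1 h4

theorem sep_margin {n : ℕ} (c : ℝ → E n) (hc : Continuous c) (a b a' b' : ℝ) (h : Sep c (Set.Icc a b) (Set.Icc a' b')) :
    ∃ μ > 0, ∀ s ∈ Set.Icc a b, ∀ t ∈ Set.Icc a' b', ∀ k, μ ≤ ‖c s - (c t + latt k)‖ := by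
  classical
  have hK : IsCompact (Set.Icc a b ×ˢ Set.Icc a' b') := isCompact_Icc.prod isCompact_Icc
  obtain ⟨M, hM⟩ := hK.exists_bound_of_continuousOn (f := fun p : ℝ × ℝ => c p.1 - c p.2)
    (by fun_prop)
  have hone : ∀ k, ∃ μ > 0, ∀ s ∈ Set.Icc a b, ∀ t ∈ Set.Icc a' b', μ ≤ ‖c s - (c t + latt k)‖ := by
    intro k
    rcases (Set.Icc a b ×ˢ Set.Icc a' b').eq_empty_or_nonempty with he | hne
    · refine ⟨1, one_pos, fun s hs t ht => ?_⟩
      have : (s, t) ∈ Set.Icc a b ×ˢ Set.Icc a' b' := ⟨hs, ht⟩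
      rw [he] at this
      exact absurd this (Set.notMem_empty _)
    · obtain ⟨p, hp, hmin⟩ := hK.exists_isMinOn hne
        (f := fun p : ℝ × ℝ => ‖c p.1 - (c p.2 + latt k)‖) (by fun_prop)
      refine ⟨‖c p.1 - (c p.2 + latt k)‖, ?_, fun s hs t ht => ?_⟩
      · exact norm_pos_iff.2 (sub_ne_zero.2 (h p.1 hp.1 p.2 hp.2 k))
      · have h1 : (s, t) ∈ Set.Icc a b ×ˢ Set.Icc a' b' := ⟨hs, ht⟩
        exact isMinOn_iff.1 hmin (s, t) h1
  have hfin : ∀ T : Finset (Fin n → ℤ), ∃ μ > 0, ∀ k ∈ T, ∀ s ∈ Set.Icc a b, ∀ t ∈ Set.Icc a' b',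
      μ ≤ ‖c s - (c t + latt k)‖ := by
    intro T
    induction T using Finset.induction_on with
    | empty => exact ⟨1, one_pos, by simp⟩
    | insert k T _ ih =>
      obtain ⟨μ, hμ, hμ2⟩ := ih
      obtain ⟨ν, hν, hν2⟩ := hone k
      refine ⟨min μ ν, lt_min hμ hν, fun l hl s hs t ht => ?_⟩
      rcases Finset.mem_insert.1 hl with rfl | hl
      · exact (min_le_right _ _).trans (hν2 s hs t ht)
      · exact (min_le_left _ _).trans (hμ2 l hl s hs t ht)
  obtain ⟨μ, hμ, hμ2⟩ := hfin (finite_latt_le (n := n) (M + 1)).toFinset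
  refine ⟨min μ 1, lt_min hμ one_pos, fun s hs t ht k => ?_⟩
  by_cases hk : ‖(latt k : E n)‖ ≤ M + 1
  · exact (min_le_left _ _).trans (hμ2 k (by simpa using hk) s hs t ht)
  · refine (min_le_right _ _).trans ?_
    push Not at hk
    have h1 := hM (s, t) ⟨hs, ht⟩
    have h2 : c s - (c t + latt k) = (c s - c t) - latt k := by abel
    have h3 := norm_sub_norm_le (latt k : E n) (c s - c t)
    rw [norm_sub_rev (latt k : E n) (c s - c t)] at h3
    rw [h2]
    simp only at h1
    linarith

theorem exists_sep {n : ℕ} (hn : 3 ≤ n) (c : ℝ → E n) (P : ℝ) (hP : 0 < P) (hs : ContDiff ℝ ∞ c) (q : ℕ) (hq : 4 ≤ q)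
    (S : Finset (ℕ × ℕ)) (hS : ∀ x ∈ S, Far q x.1 x.2) (η : ℝ) (hη : 0 < η) :
    ∃ e : ℝ → E n, ContDiff ℝ ∞ e ∧ (∀ t, e (t + P) = e t) ∧
      (∀ t, ‖e t‖ ≤ η ∧ ‖deriv e t‖ ≤ η ∧ ‖deriv (deriv e) t‖ ≤ η) ∧
      ∀ x ∈ S, Sep (fun t => c t + e t) (Set.Icc (x.1 * P / q) ((x.1 + 1) * P / q)) (Set.Icc (x.2 * P / q) ((x.2 + 1) * P / q)) := by
  classical
  have htop : (∞ : WithTop ℕ∞) ≠ 0 := by simp
  induction S using Finset.induction_on generalizing η with
  | empty =>
    refine ⟨fun _ => 0, contDiff_const, fun _ => rfl, fun t => ?_, by simp⟩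
    simp [hη.le]
  | insert x S hxS ih =>
    obtain ⟨a, b⟩ := x
    obtain ⟨e', he', hper', hsm', hsep'⟩ := ih (fun y hy => hS y (Finset.mem_insert_of_mem hy))
      (η / 2) (by positivity)
    have hfar : Far q a b := hS (a, b) (Finset.mem_insert_self _ _)
    have hce : ContDiff ℝ ∞ fun t => c t + e' t := hs.add he'
    -- a common margin
    have hmar : ∀ T : Finset (ℕ × ℕ), T ⊆ S → ∃ μ > 0, ∀ y ∈ T,
        ∀ s ∈ Set.Icc (y.1 * P / q) ((y.1 + 1) * P / q),
        ∀ t ∈ Set.Icc (y.2 * P / q) ((y.2 + 1) * P / q), ∀ k,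
          μ ≤ ‖(c s + e' s) - ((c t + e' t) + latt k)‖ := by
      intro T
      induction T using Finset.induction_on with
      | empty => intro _; exact ⟨1, one_pos, by simp⟩
      | insert y T _ ih2 =>
        intro hT
        obtain ⟨μ, hμ, hμ2⟩ := ih2 fun z hz => hT (Finset.mem_insert_of_mem hz)
        obtain ⟨ν, hν, hν2⟩ := sep_margin (fun t => c t + e' t) hce.continuous _ _ _ _
          (hsep' y (hT (Finset.mem_insert_self _ _)))
        refine ⟨min μ ν, lt_min hμ hν, fun z hz s hs' t ht k => ?_⟩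
        rcases Finset.mem_insert.1 hz with rfl | hz
        · exact (min_le_right _ _).trans (hν2 s hs' t ht k)
        · exact (min_le_left _ _).trans (hμ2 z hz s hs' t ht k)
    obtain ⟨μ, hμ, hμ2⟩ := hmar S subset_rfl
    obtain ⟨β, B, hβ, hβper, hB, hβbd, hβ1, hβ0⟩ := exists_bump P hP q hq a hfar.1
    obtain ⟨l, hl, hl2⟩ := avoid hn (fun t => c t + e' t) (fun t => c t + e' t) hce hce
      (min (η / (2 * (B + 1))) (μ / (2 * (B + 1)))) (lt_min (by positivity) (by positivity))
    have hBl1 : B * ‖l‖ ≤ η / 2 := by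
      have h1 := hl.le.trans (min_le_left _ _)
      rw [le_div_iff₀ (by positivity)] at h1
      nlinarith [norm_nonneg l]
    have hBl2 : B * ‖l‖ ≤ μ / 2 := by
      have h1 := hl.le.trans (min_le_right _ _)
      rw [le_div_iff₀ (by positivity)] at h1
      nlinarith [norm_nonneg l]
    have hBl3 : 2 * (B * ‖l‖) < μ := by
      have h1 := lt_of_lt_of_le hl (min_le_right _ _)
      rw [lt_div_iff₀ (by positivity)] at h1
      rcases eq_or_lt_of_le (norm_nonneg l) with h0 | h0
      · rw [← h0]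
        linarith
      · nlinarith
    have hd1 : deriv (fun t => e' t + β t • l) = fun t => deriv e' t + deriv β t • l := by
      funext t
      exact (((he'.differentiable htop t).hasDerivAt).add
        (((hβ.differentiable htop t).hasDerivAt).smul_const l)).deriv
    have he'1 : ContDiff ℝ ∞ (deriv e') := he'.deriv'
    have hβ'1 : ContDiff ℝ ∞ (deriv β) := hβ.deriv'
    have hd2 : deriv (fun t => deriv e' t + deriv β t • l) = fun t =>
        deriv (deriv e') t + deriv (deriv β) t • l := by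
      funext t
      exact (((he'1.differentiable htop t).hasDerivAt).add
        (((hβ'1.differentiable htop t).hasDerivAt).smul_const l)).deriv
    have hbd : ∀ (r : ℝ) (v : E n), |r| ≤ B → ‖v‖ ≤ η / 2 → ‖v + r • l‖ ≤ η := by
      intro r v hr hv
      refine (norm_add_le _ _).trans ?_
      rw [norm_smul, Real.norm_eq_abs]
      have := mul_le_mul_of_nonneg_right hr (norm_nonneg l)
      linarith
    refine ⟨fun t => e' t + β t • l, he'.add (hβ.smul contDiff_const), fun t => ?_, fun t => ?_, ?_⟩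
    · simp only [hper' t, hβper t]
    · refine ⟨hbd _ _ (hβbd t).1 (hsm' t).1, ?_, ?_⟩
      · rw [hd1]
        exact hbd _ _ (hβbd t).2.1 (hsm' t).2.1
      · rw [hd1, hd2]
        exact hbd _ _ (hβbd t).2.2 (hsm' t).2.2
    · intro y hy
      rcases Finset.mem_insert.1 hy with rfl | hy
      · intro s hs1 t ht1 k hk
        have e1 : β s = 1 := hβ1 s hs1
        have e2 : β t = 0 := hβ0 b hfar.2.1 hfar.2.2 t ht1
        simp only [e1, e2, one_smul, zero_smul, add_zero] at hk
        apply hl2 s t k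
        rw [← hk]
        abel
      · intro s hs1 t ht1 k hk
        have h1 := hμ2 y hy s hs1 t ht1 k
        have h2 : (c s + e' s) - ((c t + e' t) + latt k) = β t • l - β s • l := by
          have hk' : c s + (e' s + β s • l) = c t + (e' t + β t • l) + latt k := hk
          have h3 : c s + e' s = (c t + (e' t + β t • l) + latt k) - β s • l := by
            rw [← hk']
            abel
          rw [h3]
          abel
        rw [h2] at h1
        have h4 := norm_sub_le (β t • l) (β s • l)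
        rw [norm_smul, norm_smul, Real.norm_eq_abs, Real.norm_eq_abs] at h4
        have h5 := mul_le_mul_of_nonneg_right (hβbd t).1 (norm_nonneg l)
        have h6 := mul_le_mul_of_nonneg_right (hβbd s).1 (norm_nonneg l)
        linarith

end Pool.Agent.Helper59.GT
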