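import Pool.Agent.Helper59.GT.Defs

/-!
# GT-24 Avoid: two curves in dimension at least three are made disjoint modulo translations by a small translation

Proof. The bad set is `⋃_k range f_k`, `f_k (s, t) = c2 t + latt k - c1 s`, `f_k : ℝ × ℝ → E n` of class `C ^ 1`, so `dimH (range f_k) ≤ 2` (`ContDiff.dimH_range_le`), and `dimH` of the countable union is `≤ 2 < 3 ≤ n = finrank` (`dimH_iUnion`). So its complement is dense
(`dense_compl_of_dimH_lt_finrank`) and contains points of norm `< η`.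
-/

set_option autoImplicit false
set_option maxSynthPendingDepth 3

open scoped ContDiff

namespace Pool.Agent.Helper59.GT

theorem avoid {n : ℕ} (hn : 3 ≤ n) (c1 c2 : ℝ → E n) (h1 : ContDiff ℝ ∞ c1) (h2 : ContDiff ℝ ∞ c2) (η : ℝ) (hη : 0 < η) :
    ∃ l : E n, ‖l‖ < η ∧ ∀ s t k, c1 s + l ≠ c2 t + latt k := by
  let f : (Fin n → ℤ) → ℝ × ℝ → E n := fun k p => c2 p.2 + latt k - c1 p.1
  have hf : ∀ k, dimH (Set.range (f k)) ≤ 2 := by
    intro k
    have hc : ContDiff ℝ 1 (f k) :=
      (((h2.comp contDiff_snd).add contDiff_const).sub (h1.comp contDiff_fst)).of_le (by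
        exact_mod_cast le_top)
    refine (hc.dimH_range_le).trans (le_of_eq ?_)
    simp
  have hdim : dimH (⋃ k, Set.range (f k)) < Module.finrank ℝ (E n) := by
    rw [dimH_iUnion, finrank_euclideanSpace, Fintype.card_fin]
    refine lt_of_le_of_lt (iSup_le hf) ?_
    have : (2 : ℕ) < n := by omega
    exact_mod_cast this
  obtain ⟨l, hl1, hl2⟩ := (dense_compl_of_dimH_lt_finrank hdim).exists_mem_open Metric.isOpen_ball
    ⟨(0 : E n), Metric.mem_ball_self hη⟩
  refine ⟨l, by simpa using hl2, fun s t k h => hl1 ?_⟩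
  refine Set.mem_iUnion.2 ⟨k, (s, t), ?_⟩
  show c2 t + latt k - c1 s = l
  rw [← h]
  abel

end Pool.Agent.Helper59.GT
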