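import Pool.Agent.Helper59.GT.GeoFlow
import Pool.Agent.Helper59.GT.GeoHam

/-!
# GT-44 SmoothGeod: existence and uniqueness of unit speed geodesics of smooth metrics; symmetries of geodesics

Proof. `exists`: `Φ, K` from `exists_geoFlow`, `z = (x, opA g x v)`, `Hk g z = 1/2 < 4` (`Hk_eq`); `c t = (Φ t z).1`: `geod_of_ham`; `c 0 = x`, `c' 0 = cog g x (opA g x v) = v`; speed `2 Hk = 1` (`energy`).
`unique`: by `ham_of_geod` both `(c, opA g c c')` are solutions with the same initial value of energy `1/2`: `GeoFlow.uniq`.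
`geodesic_add`, `geodesic_shift` (any metric of class `C ^ 1`): `t ↦ c (t + s)` and `t ↦ c t + latt k` are geodesics (`g`, `fderiv g` periodic).
-/

set_option autoImplicit false
set_option maxSynthPendingDepth 3

open scoped ContDiff

namespace Pool.Agent.Helper59.GT

variable {n : ℕ} {g : E n → Bil n}

private lemma fderiv_latt (hper : ∀ k x, g (x + latt k) = g x) (k : Fin n → ℤ) (x : E n) :
    fderiv ℝ g (x + latt k) = fderiv ℝ g x := by
  rw [← fderiv_comp_add_right (f := g) (x := x) (latt k)]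
  have h : (fun y => g (y + latt k)) = g := funext fun y => hper k y
  rw [h]

theorem exists_geodesic_smooth (hg : IsMetric ∞ g) (x v : E n) (hv : g x v v = 1) :
    ∃ c, IsGeodesic g c ∧ UnitSpeed g c ∧ c 0 = x ∧ deriv c 0 = v := by
  obtain ⟨Φ, K, -, hF⟩ := exists_geoFlow hg
  have hE : Hk g ((x, opA g x v) : Ph n) = 1 / 2 := by
    rw [Hk_eq hg, hv]
    norm_num
  have hlt : Hk g ((x, opA g x v) : Ph n) < 4 := by
    rw [hE]
    norm_num
  obtain ⟨h1, h2, h3⟩ := geod_of_ham hg (Z := fun s => Φ s (x, opA g x v)) (hF.ham _ hlt)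
  refine ⟨fun t => (Φ t (x, opA g x v)).1, h1, ?_, ?_, ?_⟩
  · intro t
    have h4 := h3 t
    have h5 := hF.energy _ hlt t
    rw [h5, hE] at h4
    rw [h2 t, h4]
    norm_num
  · exact congrArg Prod.fst (hF.zero (x, opA g x v))
  · rw [h2 0]
    rw [hF.zero]
    exact cog_left hg x v

theorem unique_geodesic_smooth (hg : IsMetric ∞ g) (c d : ℝ → E n) (hc : IsGeodesic g c) (hd : IsGeodesic g d)
    (huc : UnitSpeed g c) (hud : UnitSpeed g d) (h0 : c 0 = d 0) (h1 : deriv c 0 = deriv d 0) : c = d := by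
  obtain ⟨Φ, K, -, hF⟩ := exists_geoFlow hg
  have key : ∀ e : ℝ → E n, IsGeodesic g e → UnitSpeed g e → ∀ t,
      ((e t, opA g (e t) (deriv e t)) : Ph n) = Φ t (e 0, opA g (e 0) (deriv e 0)) := by
    intro e he hu t
    refine hF.uniq (fun s => ((e s, opA g (e s) (deriv e s)) : Ph n)) (ham_of_geod hg he) ?_ t
    have h2 : Hk g ((e 0, opA g (e 0) (deriv e 0)) : Ph n) = 1 / 2 := by
      rw [Hk_eq hg, hu 0]
      norm_num
    have h3 : Hk g ((e 0, opA g (e 0) (deriv e 0)) : Ph n) < 4 := by
      rw [h2]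
      norm_num
    exact h3
  funext t
  have h2 := key c hc huc t
  have h3 := key d hd hud t
  rw [← h0, ← h1] at h3
  exact congrArg Prod.fst (h2.trans h3.symm)

theorem geodesic_time_shift {c : ℝ → E n} (hc : IsGeodesic g c) (hu : UnitSpeed g c) (s : ℝ) :
    IsGeodesic g (fun t => c (t + s)) ∧ UnitSpeed g (fun t => c (t + s)) ∧ ∀ t, deriv (fun t => c (t + s)) t = deriv c (t + s) := by
  have hd : ∀ t, deriv (fun t => c (t + s)) t = deriv c (t + s) := fun t =>
    deriv_comp_add_const (f := c) s t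
  refine ⟨⟨fun t => (hc.1 (t + s)).comp t ((differentiableAt_id).add_const s), ?_⟩, ?_, hd⟩
  · intro t w
    have h1 := (hc.2 (t + s) w).comp_add_const t s
    have h2 : (fun r => g (c (r + s)) (deriv (fun t => c (t + s)) r) w) =
        fun r => g (c (r + s)) (deriv c (r + s)) w := funext fun r => by rw [hd r]
    rw [h2, hd t]
    exact h1
  · intro t
    rw [hd t]
    exact hu (t + s)

theorem geodesic_translate (hper : ∀ k x, g (x + latt k) = g x) {c : ℝ → E n} (hc : IsGeodesic g c) (hu : UnitSpeed g c)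
    (k : Fin n → ℤ) :
    IsGeodesic g (fun t => c t + latt k) ∧ UnitSpeed g (fun t => c t + latt k) ∧
      ∀ t, deriv (fun t => c t + latt k) t = deriv c t := by
  have hd : ∀ t, deriv (fun t => c t + latt k) t = deriv c t := fun t =>
    deriv_add_const (latt k)
  refine ⟨⟨hc.1.add_const (latt k), ?_⟩, ?_, hd⟩
  · intro t w
    have h2 : (fun r => g (c r + latt k) (deriv (fun t => c t + latt k) r) w) =
        fun r => g (c r) (deriv c r) w := funext fun r => by rw [hd r, hper]
    rw [h2, hd t, fderiv_latt hper]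
    exact hc.2 t w
  · intro t
    rw [hd t, hper]
    exact hu t

end Pool.Agent.Helper59.GT
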