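import Pool.Agent.Helper59.GT.Defs

/-!
# GT-40 Space: the space of periodic `C ^ 1` functions is complete

Proof. The set of the `p` in the complete space `BoundedContinuousFunction (E n) (ℝ × (E n →L[ℝ] ℝ))` with the two properties is closed (`IsClosed.completeSpace_coe`): let `p_j → p`, i.e. uniformly. Periodicity: pointwise limits. Derivative: `hasFDerivAt_of_tendstoUniformly` (locally uniform convergence of the derivatives and pointwise
convergence of the functions). (Use `IsSeqClosed.isClosed`.)
`fn` facts: `fn_contDiff`: differentiable with continuous derivative (`contDiff_one_iff_fderiv`). `mk`: a smooth periodic function gives an element (bounded: continuous and periodic).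
`dist_lt_iff`-type facts: `|p.fn x - q.fn x| ≤ dist p q` and `‖fderiv p.fn x - fderiv q.fn x‖ ≤ dist p q` (`BoundedContinuousFunction.dist_coe_le_dist`, product norm), and conversely a uniform bound `≤ C` gives `dist ≤ C` (`dist_le`).
-/

set_option autoImplicit false
set_option maxSynthPendingDepth 3

open scoped ContDiff

namespace Pool.Agent.Helper59.GT

variable {n : ℕ}

instance : CompleteSpace (C1Fun n) := by
  have hcl : IsClosed {p : BoundedContinuousFunction (E n) (ℝ × (E n →L[ℝ] ℝ)) |
      (∀ x, HasFDerivAt (fun y => (p y).1) (p x).2 x) ∧ ∀ k x, p (x + latt k) = p x} := by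
    apply IsSeqClosed.isClosed
    intro f p hf hlim
    have hunif := BoundedContinuousFunction.tendsto_iff_tendstoUniformly.1 hlim
    have hpt : ∀ x, Filter.Tendsto (fun j => f j x) Filter.atTop (nhds (p x)) :=
      fun x => hunif.tendsto_at x
    constructor
    · refine hasFDerivAt_of_tendstoUniformly (l := Filter.atTop)
        (f := fun j y => (f j y).1) (f' := fun j y => (f j y).2) (g := fun y => (p y).1)
        (g' := fun y => (p y).2) ?_ (fun j x => (hf j).1 x) ?_
      · rw [Metric.tendstoUniformly_iff] at hunif ⊢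
        intro ε hε
        filter_upwards [hunif ε hε] with j hj x
        refine lt_of_le_of_lt ?_ (hj x)
        rw [Prod.dist_eq]
        exact le_max_right _ _
      · intro x
        exact (continuous_fst.tendsto _).comp (hpt x)
    · intro k x
      refine tendsto_nhds_unique (hpt (x + latt k)) ?_
      refine (hpt x).congr fun j => ?_
      exact ((hf j).2 k x).symm
  exact hcl.completeSpace_coe

private lemma h86_fderiv (p : C1Fun n) (x : E n) : fderiv ℝ p.fn x = (p.1 x).2 :=
  (p.2.1 x).fderiv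

theorem C1Fun.contDiff (p : C1Fun n) : ContDiff ℝ 1 p.fn := by
  rw [contDiff_one_iff_fderiv]
  refine ⟨fun x => (p.2.1 x).differentiableAt, ?_⟩
  have h1 : fderiv ℝ p.fn = fun x => (p.1 x).2 := by
    funext x
    exact h86_fderiv p x
  rw [h1]
  exact continuous_snd.comp p.1.continuous

theorem C1Fun.per (p : C1Fun n) (k : Fin n → ℤ) (x : E n) : p.fn (x + latt k) = p.fn x := by
  have h1 := p.2.2 k x
  exact congrArg Prod.fst h1

private lemma h86_bdd {F : Type*} [SeminormedAddCommGroup F] (f : E n → F) (hf : Continuous f)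
    (hper : ∀ k x, f (x + latt k) = f x) : ∃ C, ∀ x, ‖f x‖ ≤ C := by
  have hK : IsCompact (Metric.closedBall (0 : E n) (Real.sqrt n)) := isCompact_closedBall _ _
  obtain ⟨C, hC⟩ := hK.exists_bound_of_continuousOn hf.continuousOn
  refine ⟨C, fun x => ?_⟩
  have h1 := hper (fun i => -⌊x i⌋) x
  rw [← h1]
  apply hC
  rw [mem_closedBall_zero_iff, EuclideanSpace.norm_eq]
  apply Real.sqrt_le_sqrt
  have h2 : ∀ i : Fin n, ‖(x + latt (fun i => -⌊x i⌋) : E n) i‖ ^ 2 ≤ 1 := by
    intro i
    have h3 : (x + latt (fun i => -⌊x i⌋) : E n) i = Int.fract (x i) := by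
      have h4 : (x + latt (fun i => -⌊x i⌋) : E n) i = x i + ((-⌊x i⌋ : ℤ) : ℝ) := rfl
      rw [h4, Int.cast_neg, ← sub_eq_add_neg]
      exact Int.self_sub_floor (x i)
    rw [h3, Real.norm_eq_abs, abs_of_nonneg (Int.fract_nonneg _)]
    exact pow_le_one₀ (Int.fract_nonneg _) (Int.fract_lt_one _).le
  calc ∑ i : Fin n, ‖(x + latt (fun i => -⌊x i⌋) : E n) i‖ ^ 2 ≤ ∑ _i : Fin n, (1 : ℝ) :=
        Finset.sum_le_sum fun i _ => h2 i
    _ = (n : ℝ) := by simp

theorem C1Fun.exists_of (u : E n → ℝ) (hu : ContDiff ℝ 1 u) (hper : ∀ k x, u (x + latt k) = u x) :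
    ∃ p : C1Fun n, p.fn = u := by
  have hud : Differentiable ℝ u := hu.differentiable (by norm_num)
  have hcont : Continuous (fun x => (u x, fderiv ℝ u x)) :=
    hu.continuous.prodMk (hu.continuous_fderiv (by norm_num))
  have hperF : ∀ (k : Fin n → ℤ) (x : E n), fderiv ℝ u (x + latt k) = fderiv ℝ u x := by
    intro k x
    have h1 : (fun y => u (y + latt k)) = u := by
      funext y
      exact hper k y
    have h2 := fderiv_comp_add_right (𝕜 := ℝ) (f := u) (x := x) (latt k)
    rw [h1] at h2
    exact h2.symm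
  have hper2 : ∀ k x, (fun x => (u x, fderiv ℝ u x)) (x + latt k) =
      (fun x => (u x, fderiv ℝ u x)) x := by
    intro k x
    simp only [hper, hperF]
  obtain ⟨C, hC⟩ := h86_bdd (fun x => (u x, fderiv ℝ u x)) hcont hper2
  refine ⟨⟨BoundedContinuousFunction.ofNormedAddCommGroup (fun x => (u x, fderiv ℝ u x)) hcont C hC,
    ?_, ?_⟩, rfl⟩
  · intro x
    exact (hud x).hasFDerivAt
  · intro k x
    exact hper2 k x

theorem C1Fun.dist_fn (p q : C1Fun n) (x : E n) :
    |p.fn x - q.fn x| ≤ dist p q ∧ ‖fderiv ℝ p.fn x - fderiv ℝ q.fn x‖ ≤ dist p q := by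
  have h1 : dist (p.1 x) (q.1 x) ≤ dist p q := BoundedContinuousFunction.dist_coe_le_dist x
  rw [Prod.dist_eq] at h1
  refine ⟨?_, ?_⟩
  · rw [← Real.dist_eq]
    exact (le_max_left _ _).trans h1
  · rw [h86_fderiv, h86_fderiv, ← dist_eq_norm]
    exact (le_max_right _ _).trans h1

theorem C1Fun.dist_le_of (p q : C1Fun n) (C : ℝ) (hC : 0 ≤ C)
    (h : ∀ x, |p.fn x - q.fn x| ≤ C ∧ ‖fderiv ℝ p.fn x - fderiv ℝ q.fn x‖ ≤ C) : dist p q ≤ C := by
  have h0 : dist p.1 q.1 ≤ C := by
    rw [BoundedContinuousFunction.dist_le hC]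
    intro x
    rw [Prod.dist_eq]
    have h1 := h x
    rw [h86_fderiv, h86_fderiv, ← dist_eq_norm, ← Real.dist_eq] at h1
    exact max_le h1.1 h1.2
  exact h0

end Pool.Agent.Helper59.GT
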