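import Pool.Agent.Helper59.GT.Flow
import Pool.Agent.Helper59.GT.SmoothSol

/-!
# GT-29 Arc: the arc length reparametrisation as the solution of an equation

Proof. `X = 1 / σ` is smooth and periodic, so bounded and Lipschitz (its derivative is continuous and periodic, so bounded: compactness of `[0, P]`), `X ≥ b > 0`. `θ t = Φ t 0` with the flow of `exists_flow` (`F = ℝ`); smooth by `contDiff_of_solution`. `θ' ≥ b`, so `θ` is strictly increasing and unbounded in both directions:
surjective (intermediate value theorem). Take `L` with `θ L = P`; `L > 0` since `θ 0 = 0 < P`. `s ↦ θ (s + L) - P` is a solution (periodicity of `X`) with value `0` at `0`: equals `θ` (`eq_of_deriv`).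
-/

set_option autoImplicit false
set_option maxSynthPendingDepth 3

open scoped ContDiff

namespace Pool.Agent.Helper59.GT

private theorem bdd_of_periodic {f : ℝ → ℝ} (hf : Continuous f) {P : ℝ} (hP : 0 < P)
    (hper : ∀ t, f (t + P) = f t) : ∃ C : ℝ, 0 ≤ C ∧ ∀ t, ‖f t‖ ≤ C := by
  have hp : Function.Periodic f P := hper
  obtain ⟨C, hC⟩ := (hp.compact_of_continuous hP.ne' hf).isBounded.exists_norm_le
  have h0 : ‖f 0‖ ≤ C := hC _ ⟨0, rfl⟩
  exact ⟨C, (norm_nonneg _).trans h0, fun t => hC _ ⟨t, rfl⟩⟩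

private theorem pos_of_periodic {f : ℝ → ℝ} (hf : Continuous f) {P : ℝ} (hP : 0 < P)
    (hper : ∀ t, f (t + P) = f t) (hpos : ∀ t, 0 < f t) : ∃ b : ℝ, 0 < b ∧ ∀ t, b ≤ f t := by
  have hp : Function.Periodic f P := hper
  obtain ⟨b, hb⟩ := (hp.compact_of_continuous hP.ne' hf).exists_isLeast (Set.range_nonempty f)
  obtain ⟨t₀, ht₀⟩ := hb.1
  exact ⟨b, by rw [← ht₀]; exact hpos t₀, fun t => hb.2 ⟨t, rfl⟩⟩

theorem exists_arc (σ : ℝ → ℝ) (P : ℝ) (hP : 0 < P) (hs : ContDiff ℝ ∞ σ) (hper : ∀ t, σ (t + P) = σ t) (hpos : ∀ t, 0 < σ t) :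
    ∃ (θ : ℝ → ℝ) (L : ℝ), 0 < L ∧ ContDiff ℝ ∞ θ ∧ (∀ s, HasDerivAt θ (1 / σ (θ s)) s) ∧ (∀ s, θ (s + L) = θ s + P) ∧
      StrictMono θ ∧ Function.Surjective θ := by
  have hXs : ContDiff ℝ ∞ (fun z => 1 / σ z) := contDiff_const.div hs (fun z => (hpos z).ne')
  have hXper : ∀ t, (fun z => 1 / σ z) (t + P) = (fun z => 1 / σ z) t := by
    intro t
    simp only [hper t]
  have hXpos : ∀ t, 0 < (fun z => 1 / σ z) t := fun t => one_div_pos.2 (hpos t)
  obtain ⟨C, -, hC⟩ := bdd_of_periodic hXs.continuous hP hXper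
  obtain ⟨b, hb0, hb⟩ := pos_of_periodic hXs.continuous hP hXper hXpos
  have hder : Continuous (deriv (fun z => 1 / σ z)) :=
    hXs.continuous_deriv (by norm_num)
  have hdper : ∀ t, deriv (fun z => 1 / σ z) (t + P) = deriv (fun z => 1 / σ z) t := by
    intro t
    rw [← deriv_comp_add_const]
    congr 1
    funext z
    exact hXper z
  obtain ⟨K, hK0, hK⟩ := bdd_of_periodic hder hP hdper
  have hlip : LipschitzWith ⟨K, hK0⟩ (fun z => 1 / σ z) := by
    refine lipschitzWith_of_nnnorm_deriv_le (hXs.differentiable (by norm_num)) ?_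
    intro x
    exact hK x
  obtain ⟨Φ, hΦ⟩ := exists_flow (fun z => 1 / σ z) ⟨K, hK0⟩ hlip C hC
  have hθ : ∀ s, HasDerivAt (fun t => Φ t 0) (1 / σ (Φ s 0)) s := fun s => hΦ.deriv s 0
  have hθ0 : Φ 0 0 = 0 := hΦ.zero 0
  have hmono : StrictMono (fun t => Φ t 0) := by
    refine strictMono_of_deriv_pos fun x => ?_
    rw [(hθ x).deriv]
    exact hXpos _
  have hcont : Continuous (fun t => Φ t 0) :=
    continuous_iff_continuousAt.2 fun s => (hθ s).continuousAt
  have hmono2 : Monotone (fun t => Φ t 0 - b * t) := by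
    have hd : ∀ s, HasDerivAt (fun t => Φ t 0 - b * t) (1 / σ (Φ s 0) - b) s := by
      intro s
      have h1 : HasDerivAt (fun t => Φ t 0 - b * t) (1 / σ (Φ s 0) - b * 1) s :=
        (hθ s).sub ((hasDerivAt_id s).const_mul b)
      rwa [mul_one] at h1
    refine monotone_of_deriv_nonneg (fun s => (hd s).differentiableAt) fun s => ?_
    rw [(hd s).deriv]
    have := hb (Φ s 0)
    linarith
  have htop : Filter.Tendsto (fun t => Φ t 0) Filter.atTop Filter.atTop := by
    refine Filter.tendsto_atTop_mono' Filter.atTop (f₁ := fun t => b * t) ?_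
      (Filter.Tendsto.const_mul_atTop hb0 Filter.tendsto_id)
    filter_upwards [Filter.eventually_ge_atTop 0] with t ht
    have h1 := hmono2 ht
    simp only [hθ0, mul_zero, sub_zero] at h1
    linarith
  have hbot : Filter.Tendsto (fun t => Φ t 0) Filter.atBot Filter.atBot := by
    refine Filter.tendsto_atBot_mono' Filter.atBot (f₁ := fun t => b * t) ?_
      (Filter.Tendsto.const_mul_atBot hb0 Filter.tendsto_id)
    filter_upwards [Filter.eventually_le_atBot 0] with t ht
    have h1 := hmono2 ht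
    simp only [hθ0, mul_zero, sub_zero] at h1
    linarith
  have hsurj : Function.Surjective (fun t => Φ t 0) := hcont.surjective htop hbot
  obtain ⟨L, hL⟩ := hsurj P
  have hL' : Φ L 0 = P := hL
  have hLpos : 0 < L := by
    rw [← hmono.lt_iff_lt]
    show Φ 0 0 < Φ L 0
    rw [hθ0, hL']
    exact hP
  refine ⟨fun t => Φ t 0, L, hLpos, contDiff_of_solution hXs hθ, hθ, ?_, hmono, hsurj⟩
  intro s
  have hZ : ∀ t, HasDerivAt (fun s => Φ (s + L) 0 - P)
      ((fun z => 1 / σ z) ((fun s => Φ (s + L) 0 - P) t)) t := by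
    intro t
    have h1 : HasDerivAt (fun s => Φ (s + L) 0 - P) (1 / σ (Φ (t + L) 0)) t :=
      ((hθ (t + L)).comp_add_const t L).sub_const P
    have h2 : (fun z => 1 / σ z) ((fun s => Φ (s + L) 0 - P) t) = 1 / σ (Φ (t + L) 0) := by
      have h3 := hXper (Φ (t + L) 0 - P)
      simp only [sub_add_cancel] at h3
      exact h3.symm
    rw [h2]
    exact h1
  have h4 := hΦ.eq_of_deriv hlip hZ s
  have h5 : Φ (s + L) 0 - P = Φ s (Φ (0 + L) 0 - P) := h4
  rw [zero_add, hL', sub_self] at h5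
  show Φ (s + L) 0 = Φ s 0 + P
  linarith

end Pool.Agent.Helper59.GT
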