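import Pool.Agent.Helper59.GT.ELUnif
import Pool.Agent.Helper59.GT.Cometric

/-!
# GT-30 Reparam: the Euler-Lagrange covector under the arc length reparametrisation

Proof. `σ t = √(g (c t) (c' t, c' t))`, `θ' = 1 / σ ∘ θ`, `d = c ∘ θ`. `d' = θ' c' ∘ θ`, `d'' = θ' ^ 2 c'' ∘ θ + θ'' c' ∘ θ`, so by the homogeneity of `EL` (`EL g x (λ v) (λ ^ 2 a + μ v) = λ ^ 2 EL g x v a + μ g x v`; use `EL_apply`):
`EL (d) = θ' ^ 2 EL (c) + θ'' g (c) c'` (at `θ s`). `g (d', d') = θ' ^ 2 σ ^ 2 = 1` is constant, so `EL (d) (d') = 0` (`EL_energy`), i.e. `θ' ^ 2 EL (c) (c') + θ'' σ ^ 2 = 0` (divide by `θ' ≠ 0`), `|θ''| ≤ θ' ^ 2 ‖EL (c)‖ ‖c'‖ / σ ^ 2`. With `1 / 4 ≤ σ ^ 2 ≤ 6`: `θ' ^ 2 ≤ 4`, `‖c'‖ ^ 2 ≤ 6 / a`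
(`metric_bounds`), `‖g x‖ ≤ G` (continuous and periodic; or `g x u w` by Cauchy-Schwarz `≤ b ‖u‖ ‖w‖`). So `‖EL (d)‖ ≤ 4 (1 + 4 G (6 / a)) ‖EL (c)‖`.
-/

set_option autoImplicit false
set_option maxSynthPendingDepth 3

open scoped ContDiff

namespace Pool.Agent.Helper59.GT

private lemma bil_le {n : ℕ} (B : Bil n) (hs : ∀ u w, B u w = B w u) (hp : ∀ u, 0 ≤ B u u) (b : ℝ)
    (hb0 : 0 ≤ b) (hb : ∀ u, B u u ≤ b * ‖u‖ ^ 2) (u w : E n) : B u w ≤ b * ‖u‖ * ‖w‖ := by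
  by_cases hu : u = 0
  · simp [hu]
  by_cases hw : w = 0
  · simp [hw]
  have hu' : 0 < ‖u‖ := norm_pos_iff.2 hu
  have hw' : 0 < ‖w‖ := norm_pos_iff.2 hw
  have h1 := hb (‖w‖ • u + ‖u‖ • w)
  have h2 := hp (‖w‖ • u - ‖u‖ • w)
  have h3 : ‖‖w‖ • u + ‖u‖ • w‖ ≤ 2 * (‖u‖ * ‖w‖) := by
    refine (norm_add_le _ _).trans ?_
    rw [norm_smul, norm_smul, norm_norm, norm_norm]
    linarith [mul_comm ‖u‖ ‖w‖]
  have h4 : ‖‖w‖ • u + ‖u‖ • w‖ ^ 2 ≤ (2 * (‖u‖ * ‖w‖)) ^ 2 :=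
    pow_le_pow_left₀ (norm_nonneg _) h3 2
  have h5 : B (‖w‖ • u + ‖u‖ • w) (‖w‖ • u + ‖u‖ • w) =
      ‖w‖ ^ 2 * B u u + 2 * (‖u‖ * ‖w‖) * B u w + ‖u‖ ^ 2 * B w w := by
    simp only [map_add, map_smul, ContinuousLinearMap.add_apply, ContinuousLinearMap.smul_apply,
      smul_eq_mul, hs w u]
    ring
  have h6 : B (‖w‖ • u - ‖u‖ • w) (‖w‖ • u - ‖u‖ • w) =
      ‖w‖ ^ 2 * B u u - 2 * (‖u‖ * ‖w‖) * B u w + ‖u‖ ^ 2 * B w w := by
    simp only [map_sub, map_smul, ContinuousLinearMap.sub_apply, ContinuousLinearMap.smul_apply,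
      smul_eq_mul, hs w u]
    ring
  rw [h5] at h1
  rw [h6] at h2
  have h7 : b * ‖‖w‖ • u + ‖u‖ • w‖ ^ 2 ≤ b * (2 * (‖u‖ * ‖w‖)) ^ 2 :=
    mul_le_mul_of_nonneg_left h4 hb0
  have h8 : (4 * (‖u‖ * ‖w‖)) * B u w ≤ (4 * (‖u‖ * ‖w‖)) * (b * ‖u‖ * ‖w‖) := by
    nlinarith
  exact le_of_mul_le_mul_left h8 (by positivity)

private lemma bil_abs_le {n : ℕ} (B : Bil n) (hs : ∀ u w, B u w = B w u) (hp : ∀ u, 0 ≤ B u u)
    (b : ℝ) (hb0 : 0 ≤ b) (hb : ∀ u, B u u ≤ b * ‖u‖ ^ 2) (u w : E n) :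
    |B u w| ≤ b * ‖u‖ * ‖w‖ := by
  rw [abs_le]
  refine ⟨?_, bil_le B hs hp b hb0 hb u w⟩
  have h := bil_le B hs hp b hb0 hb u (-w)
  rw [map_neg, norm_neg] at h
  linarith

private lemma EL_hom {n : ℕ} (g : E n → Bil n) (x v A w : E n) (l m : ℝ) :
    EL g x (l • v) (m • v + l • (l • A)) w = l ^ 2 * EL g x v A w + m * g x v w := by
  rw [EL_apply, EL_apply]
  simp only [map_add, map_smul, ContinuousLinearMap.add_apply, ContinuousLinearMap.smul_apply,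
    smul_eq_mul]
  ring

theorem reparam {n : ℕ} {g : E n → Bil n} (hg : IsMetric ∞ g) :
    ∃ C : ℝ, 0 < C ∧ ∀ (c : ℝ → E n) (θ : ℝ → ℝ) (ε : ℝ), ContDiff ℝ ∞ c → ContDiff ℝ ∞ θ →
      (∀ t, 1 / 4 ≤ g (c t) (deriv c t) (deriv c t) ∧ g (c t) (deriv c t) (deriv c t) ≤ 6) →
      (∀ s, HasDerivAt θ (1 / Real.sqrt (g (c (θ s)) (deriv c (θ s)) (deriv c (θ s)))) s) →
      (∀ t, ‖EL g (c t) (deriv c t) (deriv (deriv c) t)‖ ≤ ε) →
      UnitSpeed g (fun s => c (θ s)) ∧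
      (∀ s, deriv (fun s => c (θ s)) s = (Real.sqrt (g (c (θ s)) (deriv c (θ s)) (deriv c (θ s))))⁻¹ • deriv c (θ s)) ∧
      ∀ s, ‖EL g (c (θ s)) (deriv (fun s => c (θ s)) s) (deriv (deriv (fun s => c (θ s))) s)‖ ≤ C * ε := by
  obtain ⟨a, b, ha, hb, hab⟩ := metric_bounds hg
  refine ⟨4 * (1 + b / a), by positivity, ?_⟩
  intro c θ ε hc hθ hq hθ' hε
  have hcd : Differentiable ℝ c := hc.differentiable (by simp)
  have hc1 : ContDiff ℝ ∞ (deriv c) := ((contDiff_infty_iff_deriv (𝕜 := ℝ)).1 hc).2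
  have hcd1 : Differentiable ℝ (deriv c) := hc1.differentiable (by simp)
  have hθ1 : ContDiff ℝ ∞ (deriv θ) := ((contDiff_infty_iff_deriv (𝕜 := ℝ)).1 hθ).2
  have hθd : Differentiable ℝ θ := hθ.differentiable (by simp)
  have hθd1 : Differentiable ℝ (deriv θ) := hθ1.differentiable (by simp)
  have hd : ContDiff ℝ ∞ (fun s => c (θ s)) := hc.comp hθ
  have hderiv : ∀ s, deriv (fun s => c (θ s)) s = deriv θ s • deriv c (θ s) := fun s =>
    ((hcd (θ s)).hasDerivAt.scomp s (hθd s).hasDerivAt).deriv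
  have hderivf : deriv (fun s => c (θ s)) = fun s => deriv θ s • deriv c (θ s) := funext hderiv
  have hderiv2 : ∀ s, deriv (deriv (fun s => c (θ s))) s =
      deriv (deriv θ) s • deriv c (θ s) + deriv θ s • (deriv θ s • deriv (deriv c) (θ s)) := by
    intro s
    rw [hderivf]
    have h1 : HasDerivAt (fun s => deriv c (θ s)) (deriv θ s • deriv (deriv c) (θ s)) s :=
      (hcd1 (θ s)).hasDerivAt.scomp s (hθd s).hasDerivAt
    have h2 := ((hθd1 s).hasDerivAt.smul h1).deriv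
    rw [add_comm]
    exact h2
  have hpos : ∀ s, 0 < g (c (θ s)) (deriv c (θ s)) (deriv c (θ s)) := fun s =>
    lt_of_lt_of_le (by norm_num) (hq (θ s)).1
  have hθv : ∀ s, deriv θ s = (Real.sqrt (g (c (θ s)) (deriv c (θ s)) (deriv c (θ s))))⁻¹ := by
    intro s
    rw [(hθ' s).deriv, one_div]
  have hlsq : ∀ s, deriv θ s ^ 2 = (g (c (θ s)) (deriv c (θ s)) (deriv c (θ s)))⁻¹ := by
    intro s
    rw [hθv, inv_pow, Real.sq_sqrt (hpos s).le]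
  have hunit : UnitSpeed g (fun s => c (θ s)) := by
    intro s
    show g (c (θ s)) (deriv (fun s => c (θ s)) s) (deriv (fun s => c (θ s)) s) = 1
    rw [hderiv]
    simp only [map_smul, ContinuousLinearMap.smul_apply, smul_eq_mul]
    rw [← mul_assoc, ← pow_two, hlsq]
    exact inv_mul_cancel₀ (hpos s).ne'
  refine ⟨hunit, fun s => by rw [hderiv, hθv], fun s => ?_⟩
  have hzero : EL g (c (θ s)) (deriv (fun s => c (θ s)) s) (deriv (deriv (fun s => c (θ s))) s)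
      (deriv (fun s => c (θ s)) s) = 0 := by
    have h1 := EL_energy hg hd s
    have h2 : (fun s => g ((fun s => c (θ s)) s) (deriv (fun s => c (θ s)) s)
        (deriv (fun s => c (θ s)) s)) = fun _ => (1 : ℝ) := funext hunit
    rw [h2] at h1
    have h3 := h1.unique (hasDerivAt_const s (1 : ℝ))
    linarith
  set x := c (θ s) with hx
  set v := deriv c (θ s) with hv
  set A := deriv (deriv c) (θ s) with hA
  set l := deriv θ s with hl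
  set m := deriv (deriv θ) s with hm
  set q := g x v v with hqdef
  have hqpos : 0 < q := hpos s
  have hl2 : l ^ 2 = q⁻¹ := hlsq s
  have hlne : l ≠ 0 := by
    intro h
    rw [h] at hl2
    have : 0 < q⁻¹ := inv_pos.2 hqpos
    rw [← hl2] at this
    simp at this
  rw [hderiv2 s, hderiv s] at hzero ⊢
  rw [← hl, ← hv, ← hA, ← hm] at hzero ⊢
  have hEL : ∀ w, EL g x (l • v) (m • v + l • (l • A)) w = l ^ 2 * EL g x v A w + m * g x v w :=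
    fun w => EL_hom g x v A w l m
  rw [hEL] at hzero
  simp only [map_smul, smul_eq_mul] at hzero
  have hmq : m * q = - (q⁻¹ * EL g x v A v) := by
    have h1 : l * (q⁻¹ * EL g x v A v + m * q) = 0 := by
      rw [← hl2, hqdef]
      linarith
    have h2 := (mul_eq_zero.1 h1).resolve_left hlne
    linarith
  have hmv : m = - (q⁻¹ * q⁻¹ * EL g x v A v) := by
    have h1 : m = m * q * q⁻¹ := by field_simp
    rw [h1, hmq]
    ring
  have hεs : ‖EL g x v A‖ ≤ ε := hε (θ s)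
  have hε0 : 0 ≤ ε := (norm_nonneg _).trans hεs
  have hELw : ∀ w, |EL g x v A w| ≤ ε * ‖w‖ := fun w => by
    rw [← Real.norm_eq_abs]
    exact (EL g x v A).le_of_opNorm_le hεs w
  have hqle : q⁻¹ ≤ 4 := by
    rw [inv_le_comm₀ hqpos (by norm_num)]
    have := (hq (θ s)).1
    linarith
  have hvq : a * ‖v‖ ^ 2 ≤ q := (hab x v).1
  have hgw : ∀ w, |g x v w| ≤ b * ‖v‖ * ‖w‖ := fun w =>
    bil_abs_le (g x) (hg.symm x) (fun u => by
      by_cases hu : u = 0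
      · simp [hu]
      · exact (hg.pos x u hu).le) b hb.le (fun u => (hab x u).2) v w
  refine ContinuousLinearMap.opNorm_le_bound _ (by positivity) (fun w => ?_)
  rw [hEL, Real.norm_eq_abs, hl2]
  have h1 : |q⁻¹ * EL g x v A w| ≤ q⁻¹ * (ε * ‖w‖) := by
    rw [abs_mul, abs_of_pos (inv_pos.2 hqpos)]
    exact mul_le_mul_of_nonneg_left (hELw w) (inv_pos.2 hqpos).le
  have h2 : |m * g x v w| ≤ q⁻¹ * ε * (b / a) * ‖w‖ := by
    rw [hmv, abs_mul, abs_neg, abs_mul, abs_of_pos (mul_pos (inv_pos.2 hqpos) (inv_pos.2 hqpos))]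
    have h3 : |EL g x v A v| * |g x v w| ≤ (ε * ‖v‖) * (b * ‖v‖ * ‖w‖) :=
      mul_le_mul (hELw v) (hgw w) (abs_nonneg _) (by positivity)
    have h4 : (ε * ‖v‖) * (b * ‖v‖ * ‖w‖) ≤ ε * b * ‖w‖ * (q / a) := by
      have h5 : ‖v‖ ^ 2 ≤ q / a := by
        rw [le_div_iff₀ ha]
        linarith
      have h6 : (ε * ‖v‖) * (b * ‖v‖ * ‖w‖) = ε * b * ‖w‖ * ‖v‖ ^ 2 := by ring
      rw [h6]
      exact mul_le_mul_of_nonneg_left h5 (by positivity)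
    calc q⁻¹ * q⁻¹ * |EL g x v A v| * |g x v w| = q⁻¹ * q⁻¹ * (|EL g x v A v| * |g x v w|) := by
          ring
      _ ≤ q⁻¹ * q⁻¹ * (ε * b * ‖w‖ * (q / a)) :=
          mul_le_mul_of_nonneg_left (h3.trans h4) (by positivity)
      _ = q⁻¹ * ε * (b / a) * ‖w‖ := by
          field_simp
  calc |q⁻¹ * EL g x v A w + m * g x v w| ≤ |q⁻¹ * EL g x v A w| + |m * g x v w| := abs_add_le _ _
    _ ≤ q⁻¹ * (ε * ‖w‖) + q⁻¹ * ε * (b / a) * ‖w‖ := add_le_add h1 h2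
    _ = q⁻¹ * ((1 + b / a) * ε * ‖w‖) := by ring
    _ ≤ 4 * ((1 + b / a) * ε * ‖w‖) := mul_le_mul_of_nonneg_right hqle (by positivity)
    _ = 4 * (1 + b / a) * ε * ‖w‖ := by ring

end Pool.Agent.Helper59.GT
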