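import Pool.Agent.Helper59.GT.Loop
import Pool.Agent.Helper59.GT.Embed
import Pool.Agent.Helper59.GT.Arc
import Pool.Agent.Helper59.GT.Reparam

/-!
# GT-31 UnitLoop: embedded closed unit speed curves of small geodesic curvature with `ε`-dense tangent vectors

Proof. `C` from `reparam`, `ε₁ = min (ε / (2 C + 2)) (ε / 2)`; `c₀, P` from `exists_loop` for `ε₁`. `c₀', c₀''` are continuous and periodic, bounded by `M`; `δ` from `EL_unif` for `M + 1` and a small `ε₂ ≤ min ε₁ (1/4)`. `e` from `exists_embedded` for `η < min δ 1` small, `c₁ = c₀ + e`: `‖EL (c₁)‖ ≤ 2 ε₁`, `1/4 ≤ g (c₁', c₁') ≤ 6`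
(`c₀' ≠ 0` since `g (c₀', c₀') ≥ 1/2`). The normalised directions of `c₁` and `c₀` at the same time differ by at most `ε / 2` if `η, ε₂` are small: `w ↦ (√(g (x) (w, w)))⁻¹ w`, with `u = g (c₀)(c₀',c₀') ≥ 1/2`, `u' = g (c₁)(c₁',c₁') ≥ 1/4`, `|u - u'| < ε₂`, `‖c₁' - c₀'‖ ≤ η`, `‖c₀'‖ ≤ M`: 
`‖u'^(-1/2) c₁' - u^(-1/2) c₀'‖ ≤ 2 η + |u'^(-1/2) - u^(-1/2)| M ≤ 2 η + 8 ε₂ M` or so. `θ, L` from `exists_arc` for `σ = √(g (c₁', c₁'))` (smooth, positive, periodic since `c₁ (t + P) = c₁ t + latt k` and `g` is periodic). `c = c₁ ∘ θ`, period `L`: `c (s + L) = c₁ (θ s + P) = c s + latt k`.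
Embedded: `c s = c t + latt k` gives `θ s - θ t = m P`, `θ s = θ (t + m L)` (`θ (t + m L) = θ t + m P` for `m : ℤ` by induction), so `s = t + m L` (`StrictMono.injective`). `EpsDense`: `θ` is surjective and `c' = ` normalised direction.
-/

set_option autoImplicit false
set_option maxSynthPendingDepth 3

open scoped ContDiff

namespace Pool.Agent.Helper59.GT

private theorem bdd_per {F : Type} [NormedAddCommGroup F] {f : ℝ → F} (hf : Continuous f) {P : ℝ}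
    (hP : 0 < P) (hper : ∀ t, f (t + P) = f t) : ∃ M : ℝ, 0 ≤ M ∧ ∀ t, ‖f t‖ ≤ M := by
  have hp : Function.Periodic f P := hper
  obtain ⟨M, hM⟩ := (hp.compact_of_continuous hP.ne' hf).isBounded.exists_norm_le
  have h0 : ‖f 0‖ ≤ M := hM _ ⟨0, rfl⟩
  exact ⟨M, (norm_nonneg _).trans h0, fun t => hM _ ⟨t, rfl⟩⟩

private theorem deriv_per {n : ℕ} {c : ℝ → E n} {P : ℝ} {w : E n}
    (h : ∀ t, c (t + P) = c t + w) (t : ℝ) : deriv c (t + P) = deriv c t := by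
  rw [← deriv_comp_add_const]
  have h1 : (fun x => c (x + P)) = fun x => c x + w := funext h
  rw [h1]
  exact deriv_add_const _

private theorem inv_sqrt_close {u u' ε : ℝ} (hu : 1 / 4 ≤ u) (hu' : 1 / 4 ≤ u')
    (h : |u - u'| ≤ ε) : |(Real.sqrt u')⁻¹ - (Real.sqrt u)⁻¹| ≤ 4 * ε := by
  have h1 : 1 / 2 ≤ Real.sqrt u := by
    apply Real.le_sqrt_of_sq_le
    linarith
  have h2 : 1 / 2 ≤ Real.sqrt u' := by
    apply Real.le_sqrt_of_sq_le
    linarith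
  have h3 : Real.sqrt u ^ 2 = u := Real.sq_sqrt (by linarith)
  have h4 : Real.sqrt u' ^ 2 = u' := Real.sq_sqrt (by linarith)
  have h5 : 0 < Real.sqrt u := by linarith
  have h6 : 0 < Real.sqrt u' := by linarith
  have h7 : (Real.sqrt u')⁻¹ - (Real.sqrt u)⁻¹ =
      (u - u') / (Real.sqrt u * Real.sqrt u' * (Real.sqrt u + Real.sqrt u')) := by
    rw [← h3, ← h4]
    rw [Real.sqrt_sq h5.le, Real.sqrt_sq h6.le]
    field_simp
    ring
  have h8 : 1 / 4 ≤ Real.sqrt u * Real.sqrt u' * (Real.sqrt u + Real.sqrt u') := by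
    have h9 : 1 / 4 ≤ Real.sqrt u * Real.sqrt u' := by nlinarith
    nlinarith
  rw [h7, abs_div, abs_of_pos (show (0 : ℝ) < Real.sqrt u * Real.sqrt u' *
    (Real.sqrt u + Real.sqrt u') by positivity), div_le_iff₀ (by positivity)]
  have hε : 0 ≤ ε := (abs_nonneg _).trans h
  nlinarith

theorem exists_unit_loop {n : ℕ} (hn : 3 ≤ n) {g : E n → Bil n} (hg : IsMetric ∞ g) (ε : ℝ) (hε : 0 < ε) :
    ∃ (c : ℝ → E n) (P : ℝ), 0 < P ∧ ContDiff ℝ ∞ c ∧ (∃ k, ∀ t, c (t + P) = c t + latt k) ∧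
      (∀ s t, (∃ k, c s = c t + latt k) → ∃ m : ℤ, s - t = m * P) ∧ UnitSpeed g c ∧
      (∀ t, ‖EL g (c t) (deriv c t) (deriv (deriv c) t)‖ ≤ ε) ∧ EpsDense g c ε Set.univ := by
  obtain ⟨C, hC, hrep⟩ := reparam hg
  obtain ⟨ε₁, hε₁, hε₁a, hε₁b⟩ : ∃ ε₁ : ℝ, 0 < ε₁ ∧ C * (2 * ε₁) ≤ ε ∧ ε₁ ≤ ε / 4 := by
    refine ⟨min (ε / (2 * C)) (ε / 4), lt_min (by positivity) (by positivity), ?_,
      min_le_right _ _⟩
    calc C * (2 * min (ε / (2 * C)) (ε / 4)) ≤ C * (2 * (ε / (2 * C))) := by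
          gcongr
          exact min_le_left _ _
      _ = ε := by field_simp
  obtain ⟨c₀, P, hP, hc₀, ⟨k₀, hper₀⟩, hEL₀, hq₀, hden⟩ := exists_loop (by omega : 2 ≤ n) hg ε₁ hε₁
  have hc₀1 : ContDiff ℝ ∞ (deriv c₀) := ((contDiff_infty_iff_deriv (𝕜 := ℝ)).1 hc₀).2
  have hc₀2 : ContDiff ℝ ∞ (deriv (deriv c₀)) := ((contDiff_infty_iff_deriv (𝕜 := ℝ)).1 hc₀1).2
  have hp1 : ∀ t, deriv c₀ (t + P) = deriv c₀ t := deriv_per hper₀
  have hp2 : ∀ t, deriv (deriv c₀) (t + P) = deriv (deriv c₀) t :=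
    deriv_per (w := 0) (fun t => by rw [hp1 t, add_zero])
  obtain ⟨M₁, hM₁, hM₁b⟩ := bdd_per hc₀1.continuous hP hp1
  obtain ⟨M₂, hM₂, hM₂b⟩ := bdd_per hc₀2.continuous hP hp2
  obtain ⟨M, hM0, hMa, hMb⟩ : ∃ M : ℝ, 0 ≤ M ∧ (∀ t, ‖deriv c₀ t‖ ≤ M) ∧
      ∀ t, ‖deriv (deriv c₀) t‖ ≤ M :=
    ⟨max M₁ M₂, hM₁.trans (le_max_left _ _), fun t => (hM₁b t).trans (le_max_left _ _),
      fun t => (hM₂b t).trans (le_max_right _ _)⟩
  obtain ⟨ε₂, hε₂, hε₂a, hε₂b, hε₂c⟩ : ∃ ε₂ : ℝ, 0 < ε₂ ∧ ε₂ ≤ ε₁ ∧ ε₂ ≤ 1 / 4 ∧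
      4 * ε₂ * M ≤ ε / 8 := by
    refine ⟨min (min ε₁ (1 / 4)) (ε / (32 * (M + 1))),
      lt_min (lt_min hε₁ (by norm_num)) (by positivity),
      (min_le_left _ _).trans (min_le_left _ _), (min_le_left _ _).trans (min_le_right _ _), ?_⟩
    calc 4 * min (min ε₁ (1 / 4)) (ε / (32 * (M + 1))) * M
        ≤ 4 * (ε / (32 * (M + 1))) * (M + 1) := by
          gcongr
          · exact min_le_right _ _
          · linarith
      _ = ε / 8 := by field_simp; ring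
  obtain ⟨δ, hδ, hunif⟩ := EL_unif hg (M + 1) ε₂ hε₂
  obtain ⟨η, hη, hηa, hηb, hηc⟩ : ∃ η : ℝ, 0 < η ∧ η < δ ∧ η ≤ 1 ∧ η ≤ ε / 8 := by
    refine ⟨min (min (δ / 2) 1) (ε / 8), lt_min (lt_min (by positivity) one_pos) (by positivity),
      ?_, (min_le_left _ _).trans (min_le_right _ _), min_le_right _ _⟩
    calc min (min (δ / 2) 1) (ε / 8) ≤ δ / 2 := (min_le_left _ _).trans (min_le_left _ _)
      _ < δ := by linarith
  have hreg : ∀ t, deriv c₀ t ≠ 0 := by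
    intro t ht
    have h1 := (hq₀ t).1
    rw [ht] at h1
    simp only [map_zero] at h1
    norm_num at h1
  obtain ⟨e, he, heP, hesm, hemb⟩ := exists_embedded hn c₀ P hP hc₀ ⟨k₀, hper₀⟩ hreg η hη
  have he1 : ContDiff ℝ ∞ (deriv e) := ((contDiff_infty_iff_deriv (𝕜 := ℝ)).1 he).2
  set c₁ : ℝ → E n := fun t => c₀ t + e t with hc₁def
  have hc₁ : ContDiff ℝ ∞ c₁ := hc₀.add he
  have hd1 : ∀ t, deriv c₁ t = deriv c₀ t + deriv e t := fun t =>
    deriv_fun_add (hc₀.differentiable (by simp) t) (he.differentiable (by simp) t)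
  have hd1f : deriv c₁ = fun t => deriv c₀ t + deriv e t := funext hd1
  have hd2 : ∀ t, deriv (deriv c₁) t = deriv (deriv c₀) t + deriv (deriv e) t := fun t => by
    rw [hd1f]
    exact deriv_fun_add (hc₀1.differentiable (by simp) t) (he1.differentiable (by simp) t)
  have hc₁1 : ContDiff ℝ ∞ (deriv c₁) := ((contDiff_infty_iff_deriv (𝕜 := ℝ)).1 hc₁).2
  have hper₁ : ∀ t, c₁ (t + P) = c₁ t + latt k₀ := by
    intro t
    simp only [hc₁def, hper₀ t, heP t]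
    abel
  have hp₁1 : ∀ t, deriv c₁ (t + P) = deriv c₁ t := deriv_per hper₁
  have hclose : ∀ t, ‖EL g (c₁ t) (deriv c₁ t) (deriv (deriv c₁) t) -
      EL g (c₀ t) (deriv c₀ t) (deriv (deriv c₀) t)‖ < ε₂ ∧
      |g (c₁ t) (deriv c₁ t) (deriv c₁ t) - g (c₀ t) (deriv c₀ t) (deriv c₀ t)| < ε₂ := by
    intro t
    obtain ⟨e0, e1, e2⟩ := hesm t
    apply hunif
    · rw [hd1]
      calc ‖deriv c₀ t + deriv e t‖ ≤ ‖deriv c₀ t‖ + ‖deriv e t‖ := norm_add_le _ _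
        _ ≤ M + 1 := add_le_add (hMa t) (e1.trans hηb)
    · rw [hd2]
      calc ‖deriv (deriv c₀) t + deriv (deriv e) t‖
          ≤ ‖deriv (deriv c₀) t‖ + ‖deriv (deriv e) t‖ := norm_add_le _ _
        _ ≤ M + 1 := add_le_add (hMb t) (e2.trans hηb)
    · linarith [hMa t]
    · linarith [hMb t]
    · have h1 : c₁ t - c₀ t = e t := by simp only [hc₁def]; abel
      rw [h1]
      linarith
    · have h1 : deriv c₁ t - deriv c₀ t = deriv e t := by rw [hd1]; abel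
      rw [h1]
      linarith
    · have h1 : deriv (deriv c₁) t - deriv (deriv c₀) t = deriv (deriv e) t := by rw [hd2]; abel
      rw [h1]
      linarith
  have hq₁ : ∀ t, 1 / 4 ≤ g (c₁ t) (deriv c₁ t) (deriv c₁ t) ∧
      g (c₁ t) (deriv c₁ t) (deriv c₁ t) ≤ 6 := by
    intro t
    have h1 := abs_lt.1 (hclose t).2
    have h2 := hq₀ t
    constructor
    · linarith [h1.1, h2.1]
    · linarith [h1.2, h2.2]
  have hEL₁ : ∀ t, ‖EL g (c₁ t) (deriv c₁ t) (deriv (deriv c₁) t)‖ ≤ 2 * ε₁ := by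
    intro t
    have h1 := norm_le_norm_add_norm_sub' (EL g (c₁ t) (deriv c₁ t) (deriv (deriv c₁) t))
      (EL g (c₀ t) (deriv c₀ t) (deriv (deriv c₀) t))
    linarith [(hclose t).1, hEL₀ t]
  have hσs : ContDiff ℝ ∞ (fun t => Real.sqrt (g (c₁ t) (deriv c₁ t) (deriv c₁ t))) := by
    apply ContDiff.sqrt
    · exact ((hg.smooth.comp hc₁).clm_apply hc₁1).clm_apply hc₁1
    · intro t
      have := (hq₁ t).1
      intro h0
      rw [h0] at this
      norm_num at this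
  have hσper : ∀ t, (fun t => Real.sqrt (g (c₁ t) (deriv c₁ t) (deriv c₁ t))) (t + P) =
      (fun t => Real.sqrt (g (c₁ t) (deriv c₁ t) (deriv c₁ t))) t := by
    intro t
    simp only [hp₁1 t, hper₁ t, hg.per]
  have hσpos : ∀ t, 0 < (fun t => Real.sqrt (g (c₁ t) (deriv c₁ t) (deriv c₁ t))) t := by
    intro t
    exact Real.sqrt_pos.2 (by linarith [(hq₁ t).1])
  obtain ⟨θ, L, hL, hθ, hθ', hθP, hθm, hθs⟩ := exists_arc _ P hP hσs hσper hσpos
  obtain ⟨hunit, hder, hELc⟩ := hrep c₁ θ (2 * ε₁) hc₁ hθ hq₁ hθ' hEL₁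
  refine ⟨fun s => c₁ (θ s), L, hL, hc₁.comp hθ, ⟨k₀, fun t => ?_⟩, ?_, hunit,
    fun t => (hELc t).trans hε₁a, ?_⟩
  · simp only [hθP t, hper₁]
  · rintro s t ⟨k, hk⟩
    obtain ⟨m, hm⟩ := hemb (θ s) (θ t) ⟨k, hk⟩
    have hθm' : ∀ (m : ℤ) (t : ℝ), θ (t + m * L) = θ t + m * P := by
      intro m
      induction m using Int.induction_on with
      | zero => intro t; simp
      | succ m ih =>
        intro t
        have h1 : t + ((m : ℤ) + 1 : ℤ) * L = (t + ((m : ℤ) : ℝ) * L) + L := by push_cast; ring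
        rw [h1, hθP, ih]
        push_cast
        ring
      | pred m ih =>
        intro t
        have h1 := hθP (t + (-(m : ℤ) - 1 : ℤ) * L)
        have h2 : t + (-(m : ℤ) - 1 : ℤ) * L + L = t + (-(m : ℤ) : ℤ) * L := by push_cast; ring
        rw [h2, ih] at h1
        have h3 : θ (t + (-(m : ℤ) - 1 : ℤ) * L) = θ t + (-(m : ℤ) : ℤ) * P - P := by linarith
        rw [h3]
        push_cast
        ring
    refine ⟨m, ?_⟩
    have h1 : θ s = θ (t + m * L) := by rw [hθm']; linarith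
    have h2 := hθm.injective h1
    linarith
  · intro x v hv
    obtain ⟨t, k, h1, h2⟩ := hden x v hv
    obtain ⟨s, rfl⟩ := hθs t
    refine ⟨s, Set.mem_univ _, k, ?_, ?_⟩
    · have h3 : c₁ (θ s) + latt k - x = (c₀ (θ s) + latt k - x) + e (θ s) := by
        simp only [hc₁def]; abel
      show ‖c₁ (θ s) + latt k - x‖ < ε
      rw [h3]
      calc ‖(c₀ (θ s) + latt k - x) + e (θ s)‖ ≤ ‖c₀ (θ s) + latt k - x‖ + ‖e (θ s)‖ :=
            norm_add_le _ _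
        _ < ε := by linarith [(hesm (θ s)).1]
    · rw [hder s]
      set r₁ := Real.sqrt (g (c₁ (θ s)) (deriv c₁ (θ s)) (deriv c₁ (θ s))) with hr₁
      set r₀ := Real.sqrt (g (c₀ (θ s)) (deriv c₀ (θ s)) (deriv c₀ (θ s))) with hr₀
      have h3 : r₁⁻¹ • deriv c₁ (θ s) - v =
          (r₀⁻¹ • deriv c₀ (θ s) - v) + (r₁⁻¹ • deriv e (θ s) + (r₁⁻¹ - r₀⁻¹) • deriv c₀ (θ s)) := by
        rw [hd1, smul_add, sub_smul]
        abel
      have h4 : |r₁⁻¹ - r₀⁻¹| ≤ 4 * ε₂ := by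
        apply inv_sqrt_close
        · linarith [(hq₀ (θ s)).1]
        · exact (hq₁ (θ s)).1
        · rw [abs_sub_comm]
          exact (hclose (θ s)).2.le
      have h5 : r₁⁻¹ ≤ 2 := by
        have h6 : 1 / 2 ≤ r₁ := by
          apply Real.le_sqrt_of_sq_le
          linarith [(hq₁ (θ s)).1]
        calc r₁⁻¹ ≤ (1 / 2)⁻¹ := by
              apply inv_anti₀ (by norm_num) h6
          _ = 2 := by norm_num
      have h6 : 0 ≤ r₁⁻¹ := by positivity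
      rw [h3]
      calc ‖(r₀⁻¹ • deriv c₀ (θ s) - v) + (r₁⁻¹ • deriv e (θ s) +
            (r₁⁻¹ - r₀⁻¹) • deriv c₀ (θ s))‖
          ≤ ‖r₀⁻¹ • deriv c₀ (θ s) - v‖ + (‖r₁⁻¹ • deriv e (θ s)‖ +
            ‖(r₁⁻¹ - r₀⁻¹) • deriv c₀ (θ s)‖) :=
            (norm_add_le _ _).trans (add_le_add le_rfl (norm_add_le _ _))
        _ = ‖r₀⁻¹ • deriv c₀ (θ s) - v‖ + (r₁⁻¹ * ‖deriv e (θ s)‖ +
            |r₁⁻¹ - r₀⁻¹| * ‖deriv c₀ (θ s)‖) := by
            rw [norm_smul, norm_smul, Real.norm_eq_abs, Real.norm_eq_abs, abs_of_nonneg h6]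
        _ ≤ ‖r₀⁻¹ • deriv c₀ (θ s) - v‖ + (2 * η + 4 * ε₂ * M) := by
            gcongr
            · exact (hesm (θ s)).2.1
            · exact hMa _
        _ < ε := by linarith

end Pool.Agent.Helper59.GT
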