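import Pool.Agent.Helper59.GT.SepStep

/-!
# GT-32 Branch: near a point of an embedded closed curve there is only one branch

Proof. Suppose not: for some `ρ > 0` and every `j` there are `t_j, k_j` with `‖c (t_j) + latt k_j - y‖ < 1 / (j + 1)`, `y = c t0 + latt k0`, violating the conclusion. Let `κ` be the lattice vector with `c (t + P) = c t + latt κ`; then `c (t - m P) = c t - latt (m κ)` for `m : ℤ`.
Choose `m_j` with `t_j' = t_j - m_j P ∈ [t0 - P/2, t0 + P/2]`, `k_j' = k_j + m_j κ`, so `c (t_j') + latt k_j' = c (t_j) + latt k_j`. A subsequence of `t_j'` converges to `t*`, and `latt k_j' → y - c t*`, so `k_j'` is eventually constant `= k*` along it (lattice vectors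
are at mutual distance `≥ 1`), `c t* + latt k* = c t0 + latt k0`. By embeddedness `t* - t0 ∈ ℤ P`, `|t* - t0| ≤ P / 2`, so `t* = t0` and `latt k* = latt k0`. Eventually `|t_j' - t0| < ρ` and `k_j' = k0`: then `|t_j - m_j P - t0| < ρ` and `c (t_j) + latt k_j = c (t_j - m_j P) + latt k0`,
the conclusion, a contradiction. (If convenient prove it directly by compactness of `[t0 - P/2, t0 + P/2]` and finiteness of the relevant `k`.)
-/

set_option autoImplicit false
set_option maxSynthPendingDepth 3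

open scoped ContDiff

namespace Pool.Agent.Helper59.GT

private theorem latt_add'' {n : ℕ} (k l : Fin n → ℤ) : latt (k + l) = (latt k + latt l : E n) := by
  ext i
  simp [latt]

private theorem latt_sub'' {n : ℕ} (k l : Fin n → ℤ) : latt (k - l) = (latt k - latt l : E n) := by
  ext i
  simp [latt]

private theorem one_le_norm_latt' {n : ℕ} (k : Fin n → ℤ) (hk : latt k ≠ (0 : E n)) :
    1 ≤ ‖(latt k : E n)‖ := by
  obtain ⟨i, hi⟩ : ∃ i, k i ≠ 0 := by
    by_contra h
    push Not at h
    apply hk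
    ext i
    simp [latt, h i]
  have h1 : (1 : ℝ) ≤ |(k i : ℝ)| := by
    have : (1 : ℤ) ≤ |k i| := Int.one_le_abs hi
    exact_mod_cast this
  refine h1.trans ?_
  have h2 := PiLp.norm_apply_le (latt k : E n) i
  rw [Real.norm_eq_abs] at h2
  exact h2

theorem branch {n : ℕ} (c : ℝ → E n) (P : ℝ) (hP : 0 < P) (hc : Continuous c) (hper : ∃ k, ∀ t, c (t + P) = c t + latt k)
    (hemb : ∀ s t, (∃ k, c s = c t + latt k) → ∃ m : ℤ, s - t = m * P) (t0 : ℝ) (k0 : Fin n → ℤ) (ρ : ℝ) (hρ : 0 < ρ) :
    ∃ r > 0, ∀ t k, ‖c t + latt k - (c t0 + latt k0)‖ < r →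
      ∃ m : ℤ, |t - m * P - t0| < ρ ∧ c t + latt k = c (t - m * P) + latt k0 := by
  obtain ⟨κ, hκ⟩ := hper
  have hshift : ∀ (m : ℤ) t, c (t + m * P) = c t + latt (m • κ) := by
    intro m
    induction m using Int.induction_on with
    | zero => intro t; ext i; simp [latt]
    | succ m ih =>
      intro t
      have h2 : t + ((m : ℤ) + 1 : ℤ) * P = t + m * P + P := by push_cast; ring
      rw [h2, hκ, add_smul, one_smul, latt_add'']
      have := ih t
      push_cast at this
      rw [this]
      abel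
    | pred m ih =>
      intro t
      have h2 : t + (-(m : ℤ) - 1 : ℤ) * P + P = t + (-(m : ℤ) : ℤ) * P := by push_cast; ring
      have h3 := hκ (t + (-(m : ℤ) - 1 : ℤ) * P)
      rw [h2, ih t] at h3
      rw [sub_smul, one_smul, latt_sub'', add_sub_assoc', h3]
      abel
  obtain ⟨δ, hδ, hδ2⟩ := Metric.continuous_iff.1 hc t0 (1 / 2) (by norm_num)
  set ρ' : ℝ := min (min ρ δ) (P / 2) with hρ'
  have hρ'0 : 0 < ρ' := lt_min (lt_min hρ hδ) (by positivity)
  have hρ'1 : ρ' ≤ ρ := (min_le_left _ _).trans (min_le_left _ _)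
  have hρ'2 : ρ' ≤ δ := (min_le_left _ _).trans (min_le_right _ _)
  have hnoz : ∀ t, ρ' ≤ |t - t0| → |t - t0| ≤ P / 2 → ∀ k, c t ≠ c t0 + latt k := by
    intro t h1 h2 k hk
    obtain ⟨m, hm⟩ := hemb t t0 ⟨k, hk⟩
    rw [hm, abs_mul, abs_of_pos hP] at h1 h2
    have h3 : |(m : ℝ)| ≤ 1 / 2 := by nlinarith
    have h4 : m = 0 := by
      by_contra h0
      have : (1 : ℤ) ≤ |m| := Int.one_le_abs h0
      have h5 : (1 : ℝ) ≤ |(m : ℝ)| := by exact_mod_cast this
      linarith
    rw [h4] at h1
    simp at h1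
    linarith
  obtain ⟨μ1, hμ1, hm1⟩ := sep_margin c hc (t0 + ρ') (t0 + P / 2) t0 t0 (by
    intro s hs t ht k
    have ht0 : t = t0 := le_antisymm ht.2 ht.1
    rw [ht0]
    have e1 : 0 ≤ s - t0 := by linarith [hs.1]
    exact hnoz s (by rw [abs_of_nonneg e1]; linarith [hs.1])
      (by rw [abs_of_nonneg e1]; linarith [hs.2]) k)
  obtain ⟨μ2, hμ2, hm2⟩ := sep_margin c hc (t0 - P / 2) (t0 - ρ') t0 t0 (by
    intro s hs t ht k
    have ht0 : t = t0 := le_antisymm ht.2 ht.1
    rw [ht0]
    have e1 : s - t0 ≤ 0 := by linarith [hs.2]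
    exact hnoz s (by rw [abs_of_nonpos e1]; linarith [hs.2])
      (by rw [abs_of_nonpos e1]; linarith [hs.1]) k)
  refine ⟨min (min μ1 μ2) (1 / 2), lt_min (lt_min hμ1 hμ2) (by norm_num), fun t k htk => ?_⟩
  set m : ℤ := round ((t - t0) / P) with hm
  have hround : |t - m * P - t0| ≤ P / 2 := by
    have h1 := abs_sub_round ((t - t0) / P)
    rw [← hm] at h1
    have h2 : t - m * P - t0 = ((t - t0) / P - m) * P := by
      field_simp
      ring
    rw [h2, abs_mul, abs_of_pos hP]
    nlinarith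
  have hct : c t = c (t - m * P) + latt (m • κ) := by
    have := hshift m (t - m * P)
    rwa [sub_add_cancel] at this
  have hrew : c t + latt k - (c t0 + latt k0) = c (t - m * P) - (c t0 + latt (k0 - k - m • κ)) := by
    rw [hct, latt_sub'', latt_sub'']
    abel
  have hlt : |t - m * P - t0| < ρ' := by
    by_contra hge
    push Not at hge
    rw [hrew] at htk
    rcases le_total 0 (t - m * P - t0) with h0 | h0
    · rw [abs_of_nonneg h0] at hge hround
      have := hm1 (t - m * P) ⟨by linarith, by linarith⟩ t0 ⟨le_rfl, le_rfl⟩ (k0 - k - m • κ)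
      have h3 := htk.trans_le ((min_le_left _ _).trans (min_le_left _ _))
      linarith
    · rw [abs_of_nonpos h0] at hge hround
      have := hm2 (t - m * P) ⟨by linarith, by linarith⟩ t0 ⟨le_rfl, le_rfl⟩ (k0 - k - m • κ)
      have h3 := htk.trans_le ((min_le_left _ _).trans (min_le_right _ _))
      linarith
  refine ⟨m, hlt.trans_le hρ'1, ?_⟩
  have hcl : ‖c (t - m * P) - c t0‖ < 1 / 2 := by
    rw [← dist_eq_norm]
    exact hδ2 _ (by rw [Real.dist_eq]; exact hlt.trans_le hρ'2)
  have hz : latt (k0 - k - m • κ) = (0 : E n) := by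
    by_contra hne
    have h1 := one_le_norm_latt' _ hne
    rw [hrew] at htk
    have h3 := htk.trans_le (min_le_right _ _)
    have h4 : latt (k0 - k - m • κ) = (c (t - m * P) - c t0) -
        (c (t - m * P) - (c t0 + latt (k0 - k - m • κ))) := by abel
    have h5 := norm_sub_le (c (t - m * P) - c t0)
      (c (t - m * P) - (c t0 + latt (k0 - k - m • κ)))
    rw [← h4] at h5
    linarith
  rw [latt_sub'', latt_sub''] at hz
  rw [hct]
  have h6 : (latt k0 : E n) = latt k + latt (m • κ) := by
    rw [sub_sub, sub_eq_zero] at hz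
    exact hz
  rw [h6]
  abel

end Pool.Agent.Helper59.GT
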