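import Pool.Agent.Helper59.GT.GenDefs
import Pool.Agent.Helper59.GT.Space
import Pool.Agent.Helper59.GT.Mollify
import Pool.Agent.Helper59.GT.Closing
import Pool.Agent.Helper59.GT.SmoothGeod

/-!
# GT-48 DenseUO: `UU g m ∩ OO g m` is dense

Proof. Let `p : C1Fun n`, `ε > 0`. `u₀` smooth periodic, `C ^ 1`-close (`ε / 4`) to `p.fn` (`exists_smooth_near`). `g₀ = conf u₀ g` is a smooth metric (`isMetric_conf`). `closing` for `g₀` and `min (ε / 4) (1 / (m + 1))`: `u` smooth periodic small, `conf u g₀ = conf (u₀ + u) g` (`conf_conf`), with the closed geodesic `c`. `q` = the element of `C1Fun` of `u₀ + u`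
(`C1Fun.exists_of`), `dist p q ≤ ε / 2 < ε` (`C1Fun.dist_le_of`). The metric `conf q.fn g` is smooth, so its geodesics are unique (`unique_geodesic_smooth`): `q ∈ UU g m` (the difference is `0`). `q ∈ OO g m` with `x = c 0`, `v = c' 0`, `T = P`: a geodesic with this initial vector is `c`; and `EpsDense ... univ` implies
`EpsDense ... (Icc 0 P)` because `c (t + P) = c t + latt k` (reduce `t` modulo `P`; `c' (t + P) = c' t`).
-/

set_option autoImplicit false
set_option maxSynthPendingDepth 3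

open scoped ContDiff

namespace Pool.Agent.Helper59.GT

private theorem du_shift {n : ℕ} {c : ℝ → E n} {P : ℝ} {k : Fin n → ℤ}
    (hk : ∀ t, c (t + P) = c t + latt k) (j : ℤ) :
    ∃ K : Fin n → ℤ, ∀ s, c (s + j * P) = c s + latt K := by
  induction j using Int.induction_on with
  | zero => exact ⟨0, fun s => by simp [latt_zero]⟩
  | succ i ih =>
    obtain ⟨K, hK⟩ := ih
    refine ⟨K + k, fun s => ?_⟩
    have h1 : s + (((i : ℤ) + 1 : ℤ) : ℝ) * P = s + ((i : ℤ) : ℝ) * P + P := by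
      push_cast
      ring
    rw [h1, hk, hK, latt_add, add_assoc]
  | pred i ih =>
    obtain ⟨K, hK⟩ := ih
    refine ⟨K + -k, fun s => ?_⟩
    have h1 : s + ((-(i : ℤ) : ℤ) : ℝ) * P = s + ((-(i : ℤ) - 1 : ℤ) : ℝ) * P + P := by
      push_cast
      ring
    have h2 := hK s
    rw [h1, hk] at h2
    rw [latt_add, latt_neg, ← add_assoc, ← h2, add_neg_cancel_right]

private theorem du_dense {n : ℕ} {g : E n → Bil n} {c : ℝ → E n} {P : ℝ} {k : Fin n → ℤ} (hP : 0 < P)
    (hk : ∀ t, c (t + P) = c t + latt k) {ε : ℝ} (h : EpsDense g c ε Set.univ) :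
    EpsDense g c ε (Set.Icc 0 P) := by
  intro x v hv
  obtain ⟨t, -, k', h1, h2⟩ := h x v hv
  obtain ⟨K, hK⟩ := du_shift hk ⌊t / P⌋
  have hs : t - ⌊t / P⌋ * P + ⌊t / P⌋ * P = t := sub_add_cancel _ _
  have hfl := Int.floor_le (t / P)
  have hlt := Int.lt_floor_add_one (t / P)
  rw [le_div_iff₀ hP] at hfl
  rw [div_lt_iff₀ hP] at hlt
  have hd : deriv c (t - ⌊t / P⌋ * P) = deriv c t := by
    have h3 : (fun s => c (s + ⌊t / P⌋ * P)) = fun s => c s + latt K := funext hK
    have h4 : deriv (fun s => c (s + ⌊t / P⌋ * P)) (t - ⌊t / P⌋ * P) = deriv c t := by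
      rw [deriv_comp_add_const, hs]
    rw [← h4, h3, deriv_add_const]
  refine ⟨t - ⌊t / P⌋ * P, ⟨by linarith, by linarith⟩, K + k', ?_, ?_⟩
  · rw [latt_add, ← add_assoc, ← hK, hs]
    exact h1
  · rw [hd]
    exact h2

theorem dense_UU_OO {n : ℕ} (hn : 3 ≤ n) {g : E n → Bil n} (hg : IsMetric ∞ g) (m : ℕ) : Dense (UU g m ∩ OO g m) := by
  rw [Metric.dense_iff]
  intro p ε hε
  obtain ⟨u₀, hu₀, hu₀p, hu₀n⟩ := exists_smooth_near p.fn p.contDiff p.per (ε / 4) (by positivity)
  have hm : (0 : ℝ) < 1 / ((m : ℝ) + 1) := by positivity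
  have hg₀ : IsMetric ∞ (conf u₀ g) := isMetric_conf hg hu₀ hu₀p
  obtain ⟨u, hu, hup, hun, c, P, hP, ⟨k, hk⟩, hc, huc, hcd⟩ :=
    closing hn hg₀ (min (ε / 4) (1 / ((m : ℝ) + 1))) (lt_min (by positivity) hm)
  rw [conf_conf] at hc huc hcd
  have hsum : ContDiff ℝ ∞ (fun x => u₀ x + u x) := hu₀.add hu
  have hsump : ∀ k x, (fun x => u₀ x + u x) (x + latt k) = (fun x => u₀ x + u x) x := by
    intro k x
    change u₀ (x + latt k) + u (x + latt k) = u₀ x + u x
    rw [hu₀p, hup]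
  obtain ⟨q, hq⟩ := C1Fun.exists_of (fun x => u₀ x + u x) (hsum.of_le (by exact_mod_cast le_top)) hsump
  have hcq : conf q.fn g = conf (fun x => u₀ x + u x) g := by rw [hq]
  have hgq : IsMetric ∞ (conf q.fn g) := by
    rw [hcq]
    exact isMetric_conf hg hsum hsump
  have hc' : IsGeodesic (conf q.fn g) c := by
    rw [hcq]
    exact hc
  have huc' : UnitSpeed (conf q.fn g) c := by
    rw [hcq]
    exact huc
  have hcd' : EpsDense (conf q.fn g) c (min (ε / 4) (1 / ((m : ℝ) + 1))) Set.univ := by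
    rw [hcq]
    exact hcd
  refine ⟨q, ?_, ?_, ?_⟩
  · rw [Metric.mem_ball, dist_comm]
    refine lt_of_le_of_lt (C1Fun.dist_le_of p q (ε / 2) (by positivity) fun x => ?_) (by linarith)
    have h1 := hu₀n x
    have h2 := hun x
    have h3 : min (ε / 4) (1 / ((m : ℝ) + 1)) ≤ ε / 4 := min_le_left _ _
    rw [hq]
    constructor
    · have h4 : p.fn x - (u₀ x + u x) = -(u₀ x - p.fn x) - u x := by ring
      change |p.fn x - (u₀ x + u x)| ≤ ε / 2
      rw [h4]
      refine (abs_sub _ _).trans ?_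
      rw [abs_neg]
      linarith [h1.1, h2.1]
    · have h5 : fderiv ℝ (fun x => u₀ x + u x) x = fderiv ℝ u₀ x + fderiv ℝ u x :=
        fderiv_fun_add (hu₀.differentiable (by simp) x) (hu.differentiable (by simp) x)
      rw [h5]
      have h4 : fderiv ℝ p.fn x - (fderiv ℝ u₀ x + fderiv ℝ u x) =
          -(fderiv ℝ u₀ x - fderiv ℝ p.fn x) - fderiv ℝ u x := by abel
      rw [h4]
      refine (norm_sub_le _ _).trans ?_
      rw [norm_neg]
      linarith [h1.2, h2.2]
  · intro a b ha hua hb hub h0 h1 t _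
    rw [unique_geodesic_smooth hgq a b ha hb hua hub h0 h1, sub_self, norm_zero]
    exact hm
  · refine ⟨c 0, deriv c 0, huc' 0, P, hP, ?_⟩
    intro a ha hua h0 h1
    rw [unique_geodesic_smooth hgq a c ha hc' hua huc' h0 h1]
    have h2 := du_dense hP hk hcd'
    intro x v hv
    obtain ⟨t, ht, k', h3, h4⟩ := h2 x v hv
    exact ⟨t, ht, k', h3.trans_le (min_le_right _ _), h4.trans_le (min_le_right _ _)⟩

end Pool.Agent.Helper59.GT
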