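import Pool.Agent.Helper59.GT.GenDefs
import Pool.Agent.Helper59.GT.Space
import Pool.Agent.Helper59.GT.ConfConv
import Pool.Agent.Helper59.GT.Limit

/-!
# GT-47 OpenO: `OO g m` is open

Proof. Let `p ∈ OO g m` with `x, v, T`, and suppose `p_j → p`, `p_j ∉ OO g m`. Put `g_j = conf p_j.fn g`, `v_j = (√(g_j x v v))⁻¹ • v → v`, a unit vector of `g_j`. For `(x, v_j, T)` the condition fails: there are a unit speed `g_j`-geodesic `c_j` with `c_j 0 = x`, `c_j' 0 = v_j` and a unit vector `(y_j, w_j)` of `g_j` such that for all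
`t ∈ [0, T]`, `k`: `‖c_j t + latt k - y_j‖ ≥ 1 / (m + 1)` or `‖c_j' t - w_j‖ ≥ 1 / (m + 1)`. Translating `y_j` we may assume `y_j ∈ [0, 1] ^ n` (`g_j` periodic; replace `k`). `ConvMet g_j (conf p.fn g)` (`conf_conv`, `C1Fun.dist_fn`). `U = hyperfilter ℕ`; `c` from `limit_geodesic`: `c 0 = x`, `c' 0 = v`. `w_j` is bounded (`metric_bounds` for the limit metric), so `(y_j, w_j)`
has a limit `(y, w)` along `U`, a unit vector of `conf p.fn g`. By hypothesis there are `t ∈ [0, T]`, `k` with `‖c t + latt k - y‖ < 1 / (m + 1)`, `‖c' t - w‖ < 1 / (m + 1)`; both inequalities hold for `U`-almost all `j` with index `j` (limits of norms), a contradiction.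
-/

set_option autoImplicit false
set_option maxSynthPendingDepth 3

open scoped ContDiff

namespace Pool.Agent.Helper59.GT

open Filter Topology

private theorem tendsto_clm {ι : Type} {l : Filter ι} {V W : Type} [NormedAddCommGroup V]
    [NormedSpace ℝ V] [NormedAddCommGroup W] [NormedSpace ℝ W] {f : ι → V →L[ℝ] W} {u : ι → V}
    {f0 : V →L[ℝ] W} {u0 : V} (hf : Tendsto f l (𝓝 f0)) (hu : Tendsto u l (𝓝 u0)) :
    Tendsto (fun i => f i (u i)) l (𝓝 (f0 u0)) := by
  have h1 : Continuous (fun p : (V →L[ℝ] W) × V => p.1 p.2) :=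
    isBoundedBilinearMap_apply.continuous
  exact (h1.tendsto (f0, u0)).comp (hf.prodMk_nhds hu)

private theorem conv_at {n : ℕ} {U : Filter ℕ} (hU : U ≤ atTop) {gs : ℕ → E n → Bil n}
    {g : E n → Bil n} (hconv : ConvMet gs g) (hg : Continuous g) {y : ℕ → E n} {y0 : E n}
    (hy : Tendsto y U (𝓝 y0)) : Tendsto (fun j => gs j (y j)) U (𝓝 (g y0)) := by
  have h1 : Tendsto (fun j => gs j (y j) - g (y j)) U (𝓝 0) := by
    rw [tendsto_zero_iff_norm_tendsto_zero, Metric.tendsto_nhds]
    intro ε hε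
    filter_upwards [hU (hconv ε hε)] with j hj
    rw [dist_zero_right, norm_norm]
    exact (hj (y j)).1
  have h2 : Tendsto (fun j => g (y j)) U (𝓝 (g y0)) := (hg.tendsto y0).comp hy
  have h3 := h1.add h2
  simpa using h3

private theorem norm_cube {n : ℕ} (y : E n) (hy : ∀ i, |y i| ≤ 1) : ‖y‖ ≤ Real.sqrt n := by
  rw [EuclideanSpace.norm_eq]
  apply Real.sqrt_le_sqrt
  calc ∑ i, ‖y i‖ ^ 2 ≤ ∑ _i : Fin n, (1 : ℝ) := by
        apply Finset.sum_le_sum
        intro i _
        rw [Real.norm_eq_abs]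
        have := hy i
        have h0 := abs_nonneg (y i)
        nlinarith
    _ = n := by simp

private theorem latt_apply' {n : ℕ} (k : Fin n → ℤ) (i : Fin n) : (latt k : E n) i = k i := rfl

private theorem latt_sub' {n : ℕ} (k l : Fin n → ℤ) : (latt (k - l) : E n) = latt k - latt l := by
  ext i
  simp [latt_apply']

/-- the negation of `EpsDense`, with a base point in the unit cube -/
private theorem not_dense {n : ℕ} {g : E n → Bil n} (hper : ∀ k x, g (x + latt k) = g x)
    {c : ℝ → E n} {ε : ℝ} {S : Set ℝ} (h : ¬ EpsDense g c ε S) :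
    ∃ y w, (∀ i, |y i| ≤ 1) ∧ g y w w = 1 ∧
      ∀ t ∈ S, ∀ k, ¬ (‖c t + latt k - y‖ < ε ∧ ‖deriv c t - w‖ < ε) := by
  unfold EpsDense at h
  push Not at h
  obtain ⟨y, w, h1, h2⟩ := h
  set l : Fin n → ℤ := fun i => -⌊y i⌋ with hl
  refine ⟨y + latt l, w, ?_, ?_, ?_⟩
  · intro i
    have e1 : (y + latt l : E n) i = Int.fract (y i) := by
      change y i + (latt l : E n) i = _
      rw [latt_apply', hl]
      simp only [Int.cast_neg]
      rw [← sub_eq_add_neg]
      rfl
    rw [e1, abs_of_nonneg (Int.fract_nonneg _)]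
    exact (Int.fract_lt_one _).le
  · rw [hper]
    exact h1
  · rintro t ht k ⟨h3, h4⟩
    have h5 : ‖c t + latt (k - l) - y‖ < ε := by
      rw [latt_sub']
      have e2 : c t + (latt k - latt l) - y = c t + latt k - (y + latt l) := by abel
      rw [e2]
      exact h3
    exact absurd h4 (not_lt.2 (h2 t ht (k - l) h5))

theorem isOpen_OO {n : ℕ} {g : E n → Bil n} (hg : IsMetric ∞ g) (m : ℕ) : IsOpen (OO g m) := by
  rw [← isClosed_compl_iff]
  apply IsSeqClosed.isClosed
  intro ps p hps hlim hp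
  obtain ⟨x, v, hv, T, hT, hall⟩ := hp
  have hg1 : IsMetric 1 g :=
    ⟨hg.smooth.of_le (by simp), hg.symm, hg.pos, hg.per⟩
  have hinf : IsMetric 1 (conf p.fn g) := isMetric_conf hg1 p.contDiff p.per
  have hgs : ∀ j, IsMetric 1 (conf (ps j).fn g) := fun j =>
    isMetric_conf hg1 (ps j).contDiff (ps j).per
  have hconv : ConvMet (fun j => conf (ps j).fn g) (conf p.fn g) := by
    intro ε hε
    obtain ⟨δ, hδ, hδ'⟩ := conf_conv hg p.fn p.contDiff p.per ε hε
    have h1 := (Metric.tendsto_nhds.1 hlim) δ hδ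
    filter_upwards [h1] with j hj
    refine hδ' (ps j).fn ((ps j).contDiff.differentiable (by simp)) ?_
    intro z
    obtain ⟨h2, h3⟩ := C1Fun.dist_fn (ps j) p z
    exact ⟨h2.trans_lt hj, h3.trans_lt hj⟩
  -- the initial vectors
  have hvne : v ≠ 0 := by
    rintro rfl
    rw [map_zero] at hv
    exact zero_ne_one hv
  have hpos : ∀ j, 0 < conf (ps j).fn g x v v := fun j => (hgs j).pos x v hvne
  set sc : ℕ → ℝ := fun j => (Real.sqrt (conf (ps j).fn g x v v))⁻¹ with hsc
  have hunit : ∀ j, conf (ps j).fn g x (sc j • v) (sc j • v) = 1 := by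
    intro j
    have h1 := Real.sq_sqrt (hpos j).le
    have h2 : Real.sqrt (conf (ps j).fn g x v v) ≠ 0 := (Real.sqrt_pos.2 (hpos j)).ne'
    rw [map_smul, map_smul, ContinuousLinearMap.smul_apply, smul_eq_mul, smul_eq_mul]
    simp only [hsc]
    calc (Real.sqrt (conf (ps j).fn g x v v))⁻¹ * ((Real.sqrt (conf (ps j).fn g x v v))⁻¹ *
          conf (ps j).fn g x v v)
        = (Real.sqrt (conf (ps j).fn g x v v))⁻¹ * ((Real.sqrt (conf (ps j).fn g x v v))⁻¹ *
          Real.sqrt (conf (ps j).fn g x v v) ^ 2) := by rw [h1]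
      _ = 1 := by field_simp
  -- violating geodesics
  have hviol : ∀ j, ∃ c : ℝ → E n, IsGeodesic (conf (ps j).fn g) c ∧
      UnitSpeed (conf (ps j).fn g) c ∧ c 0 = x ∧ deriv c 0 = sc j • v ∧
      ¬ EpsDense (conf (ps j).fn g) c (1 / ((m : ℝ) + 1)) (Set.Icc 0 T) := by
    intro j
    by_contra hcon
    push Not at hcon
    apply hps j
    exact ⟨x, sc j • v, hunit j, T, hT, fun c h1 h2 h3 h4 => hcon c h1 h2 h3 h4⟩
  choose cs hcs hus hc0 hd0 hnd using hviol
  have hyw := fun j => not_dense (hgs j).per (hnd j)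
  choose ys ws hys hws hfar using hyw
  -- the ultrafilter
  set U : Ultrafilter ℕ := hyperfilter ℕ with hUdef
  have hU : (U : Filter ℕ) ≤ atTop := Nat.hyperfilter_le_atTop
  obtain ⟨c, hc1, hc2, hc3, hc4, -⟩ := limit_geodesic U hU (conf p.fn g) hinf
    (fun j => conf (ps j).fn g) hgs hconv cs hcs hus ‖x‖ (fun j => by rw [hc0])
  have hgc : Continuous (conf p.fn g) := hinf.smooth.continuous
  have hsc1 : Tendsto sc U (𝓝 1) := by
    have h1 : Tendsto (fun j => conf (ps j).fn g x) U (𝓝 (conf p.fn g x)) :=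
      conv_at hU hconv hgc tendsto_const_nhds
    have h2 : Tendsto (fun j => conf (ps j).fn g x v v) U (𝓝 (conf p.fn g x v v)) :=
      tendsto_clm (tendsto_clm h1 tendsto_const_nhds) tendsto_const_nhds
    rw [hv] at h2
    have h3 := (Real.continuous_sqrt.tendsto 1).comp h2
    rw [Real.sqrt_one] at h3
    have h4 := h3.inv₀ one_ne_zero
    rw [inv_one] at h4
    exact h4
  have hcx : c 0 = x := by
    have h1 := hc3 0
    simp only [hc0] at h1
    exact tendsto_nhds_unique h1 tendsto_const_nhds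
  have hcv : deriv c 0 = v := by
    have h1 := hc4 0
    simp only [hd0] at h1
    have h2 : Tendsto (fun j => sc j • v) U (𝓝 ((1 : ℝ) • v)) := hsc1.smul_const v
    rw [one_smul] at h2
    exact tendsto_nhds_unique h1 h2
  have hdense := hall c hc1 hc2 hcx hcv
  -- the limit of the unit vectors
  obtain ⟨a, b, ha, hb, hab⟩ := metric_bounds hinf
  have hwb : ∀ᶠ j in (U : Filter ℕ), ‖ws j‖ ≤ Real.sqrt (2 / a) := by
    filter_upwards [hU (hconv (a / 2) (by positivity))] with j hj
    have h1 := (hj (ys j)).1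
    have h2 := (hab (ys j) (ws j)).1
    have h3 : |(conf (ps j).fn g (ys j) - conf p.fn g (ys j)) (ws j) (ws j)| ≤
        a / 2 * ‖ws j‖ ^ 2 := by
      have h4 := ContinuousLinearMap.le_opNorm₂
        (conf (ps j).fn g (ys j) - conf p.fn g (ys j)) (ws j) (ws j)
      rw [Real.norm_eq_abs] at h4
      refine h4.trans ?_
      have h5 : ‖conf (ps j).fn g (ys j) - conf p.fn g (ys j)‖ * ‖ws j‖ * ‖ws j‖ =
        ‖conf (ps j).fn g (ys j) - conf p.fn g (ys j)‖ * ‖ws j‖ ^ 2 := by ring
      rw [h5]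
      exact mul_le_mul_of_nonneg_right h1.le (by positivity)
    have h6 : (conf (ps j).fn g (ys j) - conf p.fn g (ys j)) (ws j) (ws j) =
        1 - conf p.fn g (ys j) (ws j) (ws j) := by
      rw [ContinuousLinearMap.sub_apply, ContinuousLinearMap.sub_apply, hws j]
    rw [h6] at h3
    apply Real.le_sqrt_of_sq_le
    rw [le_div_iff₀ ha]
    have h7 := neg_abs_le (1 - conf p.fn g (ys j) (ws j) (ws j))
    nlinarith
  have hyb : ∀ j, ‖ys j‖ ≤ Real.sqrt n := fun j => norm_cube (ys j) (hys j)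
  obtain ⟨y, -, hy⟩ := (isCompact_closedBall (0 : E n) (Real.sqrt n)).ultrafilter_le_nhds
    (U.map ys) (by
      rw [le_principal_iff]
      exact Filter.Eventually.of_forall (f := (U : Filter ℕ))
        (p := fun j => ys j ∈ Metric.closedBall (0 : E n) (Real.sqrt n))
        (fun j => by rw [mem_closedBall_zero_iff]; exact hyb j))
  obtain ⟨w, -, hw⟩ := (isCompact_closedBall (0 : E n) (Real.sqrt (2 / a))).ultrafilter_le_nhds
    (U.map ws) (by
      rw [le_principal_iff]
      have h8 : ∀ᶠ j in (U : Filter ℕ), ws j ∈ Metric.closedBall (0 : E n) (Real.sqrt (2 / a)) := by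
        filter_upwards [hwb] with j hj
        rw [mem_closedBall_zero_iff]
        exact hj
      exact h8)
  have hyT : Tendsto ys U (𝓝 y) := hy
  have hwT : Tendsto ws U (𝓝 w) := hw
  have hunitw : conf p.fn g y w w = 1 := by
    have h1 : Tendsto (fun j => conf (ps j).fn g (ys j)) U (𝓝 (conf p.fn g y)) :=
      conv_at hU hconv hgc hyT
    have h2 : Tendsto (fun j => conf (ps j).fn g (ys j) (ws j) (ws j)) U
        (𝓝 (conf p.fn g y w w)) := tendsto_clm (tendsto_clm h1 hwT) hwT
    simp only [hws] at h2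
    exact tendsto_nhds_unique h2 tendsto_const_nhds
  obtain ⟨t, ht, k, hk1, hk2⟩ := hdense y w hunitw
  have e1 : ∀ᶠ j in (U : Filter ℕ), ‖cs j t + latt k - ys j‖ < 1 / ((m : ℝ) + 1) := by
    have h1 : Tendsto (fun j => ‖cs j t + latt k - ys j‖) U (𝓝 ‖c t + latt k - y‖) :=
      (((hc3 t).add_const (latt k)).sub hyT).norm
    exact h1.eventually_lt_const hk1
  have e2 : ∀ᶠ j in (U : Filter ℕ), ‖deriv (cs j) t - ws j‖ < 1 / ((m : ℝ) + 1) := by
    have h1 : Tendsto (fun j => ‖deriv (cs j) t - ws j‖) U (𝓝 ‖deriv c t - w‖) :=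
      ((hc4 t).sub hwT).norm
    exact h1.eventually_lt_const hk2
  obtain ⟨j, hj1, hj2⟩ := (e1.and e2).exists
  exact hfar j t ht k ⟨hj1, hj2⟩

end Pool.Agent.Helper59.GT
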