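import Pool.Agent.Helper59.GT.GenDefs
import Pool.Agent.Helper59.GT.Space
import Pool.Agent.Helper59.GT.ConfConv
import Pool.Agent.Helper59.GT.Limit
import Pool.Agent.Helper59.GT.SmoothGeod

/-!
# GT-46 OpenU: `UU g m` is open

Proof. Suppose `p ∈ UU g m` is a limit of `p_j ∉ UU g m` (`IsOpen` via sequences: the complement is sequentially closed, `isClosed_of_closure_subset`/`IsSeqClosed`). Take `c_j, d_j, t_j` violating the condition. Translating both by `latt k_j` (`geodesic_translate`) we may assume `c_j 0 ∈ [0, 1] ^ n`, so `‖c_j 0‖ ≤ R`.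
`ConvMet (conf p_j.fn g) (conf p.fn g)` by `conf_conv` and `C1Fun.dist_fn`. `U = Filter.hyperfilter ℕ`; `limit_geodesic` twice: `c, d` unit speed geodesics of `conf p.fn g` with the same initial vector. `t_j ∈ [-m, m]` has a limit `t0` along `U` (compact). `‖c_j (t_j) - d_j (t_j)‖ ≥ 1 / (m + 1)` passes to the limit: `‖c t0 - d t0‖ ≥ 1 / (m + 1)`,
a contradiction. (`IsMetric 1 (conf p.fn g)`: `isMetric_conf` with `g` of class `C ^ 1` (from `∞`) and `C1Fun.contDiff`, `C1Fun.per`.)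
-/

set_option autoImplicit false
set_option maxSynthPendingDepth 3

open scoped ContDiff

namespace Pool.Agent.Helper59.GT

private lemma exists_translate {n : ℕ} (x : E n) : ∃ k : Fin n → ℤ, ‖x + latt k‖ ≤ √(n : ℝ) := by
  refine ⟨fun i => -⌊x i⌋, ?_⟩
  rw [EuclideanSpace.norm_eq]
  apply Real.sqrt_le_sqrt
  calc ∑ i, ‖(x + latt (fun i => -⌊x i⌋)) i‖ ^ 2 ≤ ∑ i : Fin n, (1 : ℝ) := by
        apply Finset.sum_le_sum
        intro i _
        have h1 : (x + latt (fun i => -⌊x i⌋)) i = Int.fract (x i) := by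
          simp only [PiLp.add_apply, latt, Int.fract, sub_eq_add_neg]
          push_cast
          rfl
        rw [h1, Real.norm_eq_abs, sq_abs]
        have h2 := Int.fract_nonneg (x i)
        have h3 := (Int.fract_lt_one (x i)).le
        nlinarith
    _ = n := by simp

theorem isOpen_UU {n : ℕ} {g : E n → Bil n} (hg : IsMetric ∞ g) (m : ℕ) : IsOpen (UU g m) := by
  rw [← isClosed_compl_iff]
  apply IsSeqClosed.isClosed
  intro ps p hps hlim
  have hg1 : IsMetric 1 g := ⟨hg.smooth.of_le (by exact_mod_cast le_top), hg.symm, hg.pos, hg.per⟩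
  have hmet : ∀ q : C1Fun n, IsMetric 1 (conf q.fn g) := fun q => isMetric_conf hg1 q.contDiff q.per
  have hex : ∀ j, ∃ c d : ℝ → E n, ∃ t : ℝ, IsGeodesic (conf (ps j).fn g) c ∧ UnitSpeed (conf (ps j).fn g) c ∧
      IsGeodesic (conf (ps j).fn g) d ∧ UnitSpeed (conf (ps j).fn g) d ∧ c 0 = d 0 ∧ deriv c 0 = deriv d 0 ∧
      |t| ≤ m ∧ 1 / ((m : ℝ) + 1) ≤ ‖c t - d t‖ ∧ ‖c 0‖ ≤ √(n : ℝ) := by
    intro j
    have h2 := hps j
    simp only [UU, Set.mem_compl_iff, Set.mem_ofPred_eq, not_forall, not_lt] at h2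
    obtain ⟨c, d, hc, huc, hd, hud, h0, h1, t, ht, hle⟩ := h2
    obtain ⟨k, hk⟩ := exists_translate (c 0)
    obtain ⟨a1, a2, a3⟩ := geodesic_translate (hmet (ps j)).per hc huc k
    obtain ⟨b1, b2, b3⟩ := geodesic_translate (hmet (ps j)).per hd hud k
    refine ⟨fun t => c t + latt k, fun t => d t + latt k, t, a1, a2, b1, b2, ?_, ?_, ht, ?_, hk⟩
    · simp [h0]
    · rw [a3, b3, h1]
    · simpa using hle
  choose c d t hc huc hd hud h0 h1 ht hle hR using hex
  have hconv : ConvMet (fun j => conf (ps j).fn g) (conf p.fn g) := by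
    intro ε hε
    obtain ⟨δ, hδ, hδ'⟩ := conf_conv hg p.fn p.contDiff p.per ε hε
    have h2 : ∀ᶠ j in Filter.atTop, dist (ps j) p < δ := (Metric.tendsto_nhds.1 hlim) δ hδ
    filter_upwards [h2] with j hj
    exact hδ' (ps j).fn ((ps j).contDiff.differentiable one_ne_zero) fun x =>
      ⟨((ps j).dist_fn p x).1.trans_lt hj, ((ps j).dist_fn p x).2.trans_lt hj⟩
  have hU : ((Filter.hyperfilter ℕ : Ultrafilter ℕ) : Filter ℕ) ≤ Filter.atTop := by
    rw [← Nat.cofinite_eq_atTop]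
    exact Filter.hyperfilter_le_cofinite
  obtain ⟨c', hc1, hc2, hc3, hc4, hc5⟩ :=
    limit_geodesic (Filter.hyperfilter ℕ) hU _ (hmet p) _ (fun j => hmet (ps j)) hconv c hc huc _ hR
  obtain ⟨d', hd1, hd2, hd3, hd4, hd5⟩ :=
    limit_geodesic (Filter.hyperfilter ℕ) hU _ (hmet p) _ (fun j => hmet (ps j)) hconv d hd hud _
      (fun j => (h0 j) ▸ hR j)
  obtain ⟨t0, ht0, hlt⟩ := (isCompact_Icc (a := -(m : ℝ)) (b := m)).ultrafilter_le_nhds
    ((Filter.hyperfilter ℕ).map t) (by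
      rw [Filter.le_principal_iff]
      refine Filter.mem_map.2 (Filter.univ_mem' fun j => ?_)
      exact abs_le.1 (ht j))
  have hlt' : Filter.Tendsto t (Filter.hyperfilter ℕ : Ultrafilter ℕ) (nhds t0) := hlt
  have hce := hc5 t t0 hlt'
  have hde := hd5 t t0 hlt'
  have hnorm : Filter.Tendsto (fun j => ‖c j (t j) - d j (t j)‖) (Filter.hyperfilter ℕ : Ultrafilter ℕ)
      (nhds ‖c' t0 - d' t0‖) := (hce.sub hde).norm
  have hge : 1 / ((m : ℝ) + 1) ≤ ‖c' t0 - d' t0‖ := ge_of_tendsto' hnorm hle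
  intro hp
  have h00 : c' 0 = d' 0 := by
    refine tendsto_nhds_unique (hc3 0) ?_
    have h2 : (fun j => c j 0) = fun j => d j 0 := funext h0
    rw [h2]
    exact hd3 0
  have h01 : deriv c' 0 = deriv d' 0 := by
    refine tendsto_nhds_unique (hc4 0) ?_
    have h2 : (fun j => deriv (c j) 0) = fun j => deriv (d j) 0 := funext h1
    rw [h2]
    exact hd4 0
  exact absurd (hp c' d' hc1 hc2 hd1 hd2 h00 h01 t0 (abs_le.2 ht0)) (not_lt.2 hge)

end Pool.Agent.Helper59.GT
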