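import Pool.Agent.Helper59.GT.Limit
import Pool.Agent.Helper59.GT.SmoothGeod

/-!
# GT-49 TransAbs: `ε`-dense geodesics for all `ε`, with unique geodesics, imply transitivity (Baire)

Proof. `S = {(x, v) | g x v v = 1} ⊆ E n × E n` is closed, so a complete metric space (Baire), nonempty. For `z ∈ S` let `c_z` be the unique geodesic. For an open set `V ⊆ E n × E n` let `W_V = {z ∈ S | ∃ t k, (c_z t + latt k, c_z' t) ∈ V}`.
* `W_V` is open in `S`: if `z_j → z` in `S` and `z ∈ W_V` with `t, k`: along every ultrafilter `U ≤ atTop` on `ℕ`, `limit_geodesic` (constant sequence of metrics; `‖c_(z_j) 0‖` bounded since `z_j` converges) and uniqueness give `(c_(z_j) t + latt k, c_(z_j)' t) → (c_z t + latt k, c_z' t) ∈ V`. If infinitely many `z_j ∉ W_V` pass to this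
  subsequence and get a contradiction.
* `W_V` is dense in `S` if `V ∩ S ≠ ∅`: let `z₀ ∈ S`, `η > 0`, `z₁ = (y, w) ∈ V ∩ S` with `ball z₁ η' ⊆ V`. Take an `ε`-dense geodesic `c`, `ε = min η η'`: `t₁, k₁` with `(c t₁ + latt k₁, c' t₁)` within `ε` of `z₀` and `t₂, k₂` with `(c t₂ + latt k₂, c' t₂)` within `ε` of `z₁`. `z = (c t₁ + latt k₁, c' t₁) ∈ S` (periodicity, unit speed) has
  `c_z t = c (t + t₁) + latt k₁` (`geodesic_time_shift`, `geodesic_translate`, uniqueness), so `(c_z (t₂ - t₁) + latt (k₂ - k₁), c_z' (t₂ - t₁)) ∈ V`.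
* Let `V_i` be a countable basis of `E n × E n`; by Baire (`dense_iInter_of_isOpen` in the subtype `S`) there is `z ∈ S` in all `W_(V_i)` with `V_i ∩ S ≠ ∅`. `c_z` is dense: for `(x, v) ∈ S`, `ε > 0` take a basis set with `(x, v) ∈ V_i ⊆ ball (x, v) ε`.
-/

set_option autoImplicit false
set_option maxSynthPendingDepth 3

open scoped ContDiff

namespace Pool.Agent.Helper59.GT

private theorem exists_unit_vec {n : ℕ} (hn : 1 ≤ n) {g : E n → Bil n} (hg : IsMetric 1 g) :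
    ∃ v : E n, g 0 v v = 1 := by
  have hu : (EuclideanSpace.single (⟨0, hn⟩ : Fin n) (1 : ℝ) : E n) ≠ 0 := by
    intro h
    have h1 := congrArg norm h
    rw [EuclideanSpace.norm_single, norm_one, norm_zero] at h1
    exact one_ne_zero h1
  set u : E n := EuclideanSpace.single (⟨0, hn⟩ : Fin n) (1 : ℝ) with hudef
  have hpos := hg.pos 0 u hu
  refine ⟨(Real.sqrt (g 0 u u))⁻¹ • u, ?_⟩
  simp only [map_smul, ContinuousLinearMap.smul_apply, smul_eq_mul]
  rw [← mul_assoc, ← mul_inv, Real.mul_self_sqrt hpos.le, inv_mul_cancel₀ hpos.ne']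

private theorem conv_const {n : ℕ} (g : E n → Bil n) : ConvMet (fun _ => g) g := by
  intro ε hε
  refine Filter.Eventually.of_forall fun j x => ?_
  simp only [sub_self, norm_zero]
  exact ⟨hε, hε⟩

open Filter Topology in
private theorem cont_geod {n : ℕ} {g : E n → Bil n} (hg : IsMetric 1 g)
    (hu : UniqueGeodesics g) (C : {z : E n × E n | g z.1 z.2 z.2 = 1} → ℝ → E n)
    (hC1 : ∀ z, IsGeodesic g (C z)) (hC2 : ∀ z, UnitSpeed g (C z)) (hC3 : ∀ z, C z 0 = z.1.1)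
    (hC4 : ∀ z, deriv (C z) 0 = z.1.2) (t : ℝ) :
    Continuous (fun z : {z : E n × E n | g z.1 z.2 z.2 = 1} => (C z t, deriv (C z) t)) := by
  refine SeqContinuous.continuous ?_
  intro zs z hz
  have hz1 : Tendsto (fun j => (zs j).1.1) atTop (𝓝 z.1.1) :=
    ((continuous_fst.comp continuous_subtype_val).tendsto z).comp hz
  have hz2 : Tendsto (fun j => (zs j).1.2) atTop (𝓝 z.1.2) :=
    ((continuous_snd.comp continuous_subtype_val).tendsto z).comp hz
  obtain ⟨R, hR⟩ := (Metric.isBounded_range_of_tendsto _ hz1).exists_norm_le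
  rw [tendsto_iff_ultrafilter]
  intro U hU
  obtain ⟨c, h1, h2, h3, h4, -⟩ := limit_geodesic U hU g hg (fun _ => g) (fun _ => hg)
    (conv_const g) (fun j => C (zs j)) (fun j => hC1 _) (fun j => hC2 _) R
    (fun j => by
      rw [hC3]
      exact hR _ ⟨j, rfl⟩)
  have h5 : c 0 = z.1.1 := by
    refine tendsto_nhds_unique (h3 0) ?_
    simp only [hC3]
    exact hz1.mono_left hU
  have h6 : deriv c 0 = z.1.2 := by
    refine tendsto_nhds_unique (h4 0) ?_
    simp only [hC4]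
    exact hz2.mono_left hU
  have h7 : c = C z := (hu z.1.1 z.1.2 z.2).unique ⟨h1, h2, h5, h6⟩
    ⟨hC1 z, hC2 z, hC3 z, hC4 z⟩
  subst h7
  exact (h3 t).prodMk_nhds (h4 t)

theorem transitive_of_dense {n : ℕ} (hn : 1 ≤ n) {g : E n → Bil n} (hg : IsMetric 1 g) (hu : UniqueGeodesics g)
    (hd : ∀ ε > 0, ∃ c, IsGeodesic g c ∧ UnitSpeed g c ∧ EpsDense g c ε Set.univ) : Transitive g := by
  have hgc : Continuous g := hg.smooth.continuous
  have hclosed : IsClosed {z : E n × E n | g z.1 z.2 z.2 = 1} :=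
    isClosed_eq (((hgc.comp continuous_fst).clm_apply continuous_snd).clm_apply continuous_snd)
      continuous_const
  haveI : CompleteSpace {z : E n × E n | g z.1 z.2 z.2 = 1} := hclosed.completeSpace_coe
  obtain ⟨v₀, hv₀⟩ := exists_unit_vec hn hg
  haveI : Nonempty {z : E n × E n | g z.1 z.2 z.2 = 1} := ⟨⟨(0, v₀), hv₀⟩⟩
  have hex : ∀ z : {z : E n × E n | g z.1 z.2 z.2 = 1}, ∃ c, IsGeodesic g c ∧ UnitSpeed g c ∧
      c 0 = z.1.1 ∧ deriv c 0 = z.1.2 := fun z => (hu z.1.1 z.1.2 z.2).exists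
  choose C hC1 hC2 hC3 hC4 using hex
  have hcont := cont_geod hg hu C hC1 hC2 hC3 hC4
  let W : Set (E n × E n) → Set {z : E n × E n | g z.1 z.2 z.2 = 1} := fun V =>
    {z | ∃ (t : ℝ) (k : Fin n → ℤ), (C z t + latt k, deriv (C z) t) ∈ V}
  have hWopen : ∀ V : Set (E n × E n), IsOpen V → IsOpen (W V) := by
    intro V hV
    have h1 : W V = ⋃ (t : ℝ) (k : Fin n → ℤ),
        {z | (C z t + latt k, deriv (C z) t) ∈ V} := by
      ext z
      simp only [W, Set.mem_setOf_eq, Set.mem_iUnion]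
    rw [h1]
    refine isOpen_iUnion fun t => isOpen_iUnion fun k => ?_
    have h2 : Continuous (fun z : {z : E n × E n | g z.1 z.2 z.2 = 1} =>
        (C z t + latt k, deriv (C z) t)) :=
      ((continuous_fst.comp (hcont t)).add continuous_const).prodMk
        (continuous_snd.comp (hcont t))
    exact hV.preimage h2
  have hWdense : ∀ V : Set (E n × E n), IsOpen V →
      (∃ z₁ ∈ V, g z₁.1 z₁.2 z₁.2 = 1) → Dense (W V) := by
    rintro V hV ⟨z₁, hz₁V, hz₁⟩
    rw [Metric.dense_iff]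
    intro z₀ η hη
    obtain ⟨η', hη', hball⟩ := Metric.isOpen_iff.1 hV z₁ hz₁V
    obtain ⟨c, hc1, hc2, hc3⟩ := hd (min η η') (lt_min hη hη')
    obtain ⟨t₁, -, k₁, ha, hb⟩ := hc3 z₀.1.1 z₀.1.2 z₀.2
    obtain ⟨t₂, -, k₂, ha', hb'⟩ := hc3 z₁.1 z₁.2 hz₁
    have hz : g (c t₁ + latt k₁) (deriv c t₁) (deriv c t₁) = 1 := by
      rw [hg.per]
      exact hc2 t₁
    obtain ⟨s1, s2, s3⟩ := geodesic_time_shift hc1 hc2 t₁
    obtain ⟨r1, r2, r3⟩ := geodesic_translate hg.per s1 s2 k₁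
    have hCz : (fun t => c (t + t₁) + latt k₁) = C ⟨(c t₁ + latt k₁, deriv c t₁), hz⟩ := by
      refine (hu (c t₁ + latt k₁) (deriv c t₁) hz).unique ⟨r1, r2, ?_, ?_⟩
        ⟨hC1 _, hC2 _, hC3 _, hC4 _⟩
      · simp only [zero_add]
      · rw [r3 0, s3 0, zero_add]
    refine ⟨⟨(c t₁ + latt k₁, deriv c t₁), hz⟩, ?_, t₂ - t₁, k₂ - k₁, ?_⟩
    · rw [Metric.mem_ball, Subtype.dist_eq, Prod.dist_eq, dist_eq_norm, dist_eq_norm]
      exact max_lt (lt_of_lt_of_le ha (min_le_left _ _)) (lt_of_lt_of_le hb (min_le_left _ _))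
    · rw [← hCz]
      refine hball ?_
      rw [Metric.mem_ball, Prod.dist_eq, dist_eq_norm, dist_eq_norm]
      refine max_lt ?_ ?_
      · have h1 : c (t₂ - t₁ + t₁) + latt k₁ + latt (k₂ - k₁) = c t₂ + latt k₂ := by
          rw [sub_add_cancel, add_assoc, ← latt_add, add_sub_cancel]
        show ‖c (t₂ - t₁ + t₁) + latt k₁ + latt (k₂ - k₁) - z₁.1‖ < η'
        rw [h1]
        exact lt_of_lt_of_le ha' (min_le_right _ _)
      · show ‖deriv (fun t => c (t + t₁) + latt k₁) (t₂ - t₁) - z₁.2‖ < η'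
        rw [r3, s3, sub_add_cancel]
        exact lt_of_lt_of_le hb' (min_le_right _ _)
  obtain ⟨b, hbc, -, hb⟩ := TopologicalSpace.exists_countable_basis (E n × E n)
  have hdense : Dense (⋂ V ∈ {V | V ∈ b ∧ ∃ z₁ ∈ V, g z₁.1 z₁.2 z₁.2 = 1}, W V) := by
    refine dense_biInter_of_isOpen ?_ (hbc.mono fun V hV => hV.1) ?_
    · intro V hV
      exact hWopen V (hb.isOpen hV.1)
    · intro V hV
      exact hWdense V (hb.isOpen hV.1) hV.2
  obtain ⟨z, hz⟩ := hdense.nonempty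
  refine ⟨C z, hC1 z, hC2 z, ?_⟩
  intro ε hε x v hxv
  obtain ⟨V, hVb, hxV, hVball⟩ := hb.exists_subset_of_mem_open
    (Metric.mem_ball_self hε : ((x, v) : E n × E n) ∈ Metric.ball (x, v) ε) Metric.isOpen_ball
  have hzV : z ∈ W V := Set.mem_iInter₂.1 hz V ⟨hVb, (x, v), hxV, hxv⟩
  obtain ⟨t, k, htk⟩ := hzV
  have h1 := hVball htk
  rw [Metric.mem_ball, Prod.dist_eq, dist_eq_norm, dist_eq_norm] at h1
  exact ⟨t, Set.mem_univ _, k, lt_of_le_of_lt (le_max_left _ _) h1,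
    lt_of_le_of_lt (le_max_right _ _) h1⟩

end Pool.Agent.Helper59.GT
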