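import Pool.Agent.Helper59.GT.ExistC1
import Pool.Agent.Helper59.GT.OpenU
import Pool.Agent.Helper59.GT.OpenO
import Pool.Agent.Helper59.GT.DenseUO
import Pool.Agent.Helper59.GT.TransAbs

/-!
# GT-50 Final: assembly
-/

set_option autoImplicit false
set_option maxSynthPendingDepth 3

open scoped ContDiff

namespace Pool.Agent.Helper59.GT

theorem unique_of_UU {n : ℕ} {g : E n → Bil n} (hg : IsMetric ∞ g) (p : C1Fun n) (hp : ∀ m, p ∈ UU g m) :
    UniqueGeodesics (conf p.fn g) := by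
  intro x v hv
  obtain ⟨c, hc, hu, h0, h1⟩ := exists_geodesic_C1 hg p.fn p.contDiff p.per x v hv
  refine ⟨c, ⟨hc, hu, h0, h1⟩, ?_⟩
  rintro d ⟨hd, hdu, hd0, hd1⟩
  funext t
  rw [← sub_eq_zero, ← norm_eq_zero]
  apply le_antisymm _ (norm_nonneg _)
  apply le_of_forall_pos_le_add
  intro ε hε
  obtain ⟨m, hm⟩ := exists_nat_gt (max |t| (1 / ε))
  have hm1 : |t| ≤ m := (le_max_left _ _).trans hm.le
  have hm2 : 1 / ε < m := (le_max_right _ _).trans_lt hm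
  have h := hp m d c hd hdu hc hu (hd0.trans h0.symm) (hd1.trans h1.symm) t hm1
  have h2 : 1 / ((m : ℝ) + 1) ≤ ε := by
    rw [div_le_iff₀ (by positivity)]
    rw [div_lt_iff₀ hε] at hm2
    nlinarith
  linarith

theorem generic {n : ℕ} (hn : 3 ≤ n) {g : E n → Bil n} (hg : IsMetric ∞ g) :
    ∃ R : Set (C1Fun n), IsGδ R ∧ Dense R ∧ ∀ p ∈ R, UniqueGeodesics (conf p.fn g) ∧ Transitive (conf p.fn g) := by
  refine ⟨⋂ m, (UU g m ∩ OO g m), ?_, ?_, ?_⟩
  · exact IsGδ.iInter_of_isOpen fun m => (isOpen_UU hg m).inter (isOpen_OO hg m)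
  · exact dense_iInter_of_isOpen (fun m => (isOpen_UU hg m).inter (isOpen_OO hg m)) (fun m => dense_UU_OO hn hg m)
  · intro p hp
    rw [Set.mem_iInter] at hp
    have hu := unique_of_UU hg p (fun m => (hp m).1)
    refine ⟨hu, ?_⟩
    have hm : IsMetric 1 (conf p.fn g) := by
      apply isMetric_conf _ p.contDiff p.per
      exact ⟨hg.smooth.of_le (by exact_mod_cast le_top), hg.symm, hg.pos, hg.per⟩
    apply transitive_of_dense (by omega) hm hu
    intro ε hε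
    obtain ⟨m, hm⟩ := exists_nat_gt (1 / ε)
    obtain ⟨x, v, hv, T, hT, h⟩ := (hp m).2
    obtain ⟨c, ⟨hc, hcu, h0, h1⟩, -⟩ := hu x v hv
    refine ⟨c, hc, hcu, fun y w hw => ?_⟩
    obtain ⟨t, -, k, h2, h3⟩ := h c hc hcu h0 h1 y w hw
    have h4 : 1 / ((m : ℝ) + 1) ≤ ε := by
      rw [div_le_iff₀ (by positivity)]
      rw [div_lt_iff₀ hε] at hm
      nlinarith
    exact ⟨t, Set.mem_univ _, k, h2.trans_le h4, h3.trans_le h4⟩

theorem dense_C1 {n : ℕ} (hn : 3 ≤ n) {g : E n → Bil n} (hg : IsMetric ∞ g) (ε : ℝ) (hε : 0 < ε) :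
    ∃ g' : E n → Bil n, IsMetric 1 g' ∧ (∀ x, ‖g' x - g x‖ < ε ∧ ‖fderiv ℝ g' x - fderiv ℝ g x‖ < ε) ∧
      UniqueGeodesics g' ∧ Transitive g' := by
  obtain ⟨R, -, hR, h⟩ := generic hn hg
  obtain ⟨p0, hp0⟩ := C1Fun.exists_of (n := n) (fun _ => (0 : ℝ)) contDiff_const (fun _ _ => rfl)
  obtain ⟨δ, hδ, h1⟩ := conf_close hg ε hε
  obtain ⟨p, hpR, hp⟩ := hR.exists_dist_lt p0 hδ
  have hm : IsMetric 1 (conf p.fn g) := by
    apply isMetric_conf _ p.contDiff p.per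
    exact ⟨hg.smooth.of_le (by exact_mod_cast le_top), hg.symm, hg.pos, hg.per⟩
  refine ⟨conf p.fn g, hm, ?_, h p hpR⟩
  apply h1 p.fn (p.contDiff.differentiable (by norm_num))
  intro x
  have h2 := C1Fun.dist_fn p p0 x
  rw [dist_comm] at h2
  rw [hp0] at h2
  simp only [sub_zero, fderiv_fun_const, Pi.zero_apply] at h2
  exact ⟨h2.1.trans_lt hp, h2.2.trans_lt hp⟩

end Pool.Agent.Helper59.GT
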