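import Pool.Agent.Helper59.GT.Stmt
import Pool.Agent.Helper59.GT.Final

/-!
# GT Bridge: from the working definitions to the definitions of the statement
-/

set_option autoImplicit false
set_option maxSynthPendingDepth 3

open scoped ContDiff

namespace Pool.Agent.Helper59.GT

variable {n : ℕ} {g : E n → Bil n}

/-- The function of three variables of a field of bilinear forms. -/
noncomputable def ofBil (g : E n → Bil n) : E n → E n → E n → ℝ := fun x u w => g x u w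

private theorem br_fderiv (hg : Differentiable ℝ g) (x u v w : E n) :
    fderiv ℝ (fun y => g y u v) x w = fderiv ℝ g x w u v := by
  have h1 : HasFDerivAt g (fderiv ℝ g x) x := (hg x).hasFDerivAt
  have h2 := (h1.clm_apply (hasFDerivAt_const u x)).clm_apply (hasFDerivAt_const v x)
  rw [h2.fderiv]
  simp

theorem exists_ofBil {m : WithTop ℕ∞} (g : E n → E n → E n → ℝ) (hg : GTS.IsMetric m g) :
    ∃ G : E n → Bil n, ofBil G = g ∧ IsMetric m G := by
  have hb : ∀ x, ∃ G : Bil n, ∀ u w, G u w = g x u w := by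
    intro x
    refine ⟨(LinearMap.mk₂ ℝ (g x) (hg.add x) (fun a u w => ?_) (fun u v w => ?_) (fun a u w => ?_)).toContinuousBilinearMap,
      fun u w => rfl⟩
    · rw [hg.smul, smul_eq_mul]
    · rw [hg.symm x u (v + w), hg.add, hg.symm x v u, hg.symm x w u]
    · rw [hg.symm x u (a • w), hg.smul, hg.symm x w u, smul_eq_mul]
  choose G hG using hb
  refine ⟨G, ?_, ?_, ?_, ?_, ?_⟩
  · funext x u w
    exact hG x u w
  · rw [contDiff_clm_apply_iff]
    intro u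
    rw [contDiff_clm_apply_iff]
    intro w
    simp only [hG]
    exact hg.smooth u w
  · intro x u w
    rw [hG, hG]
    exact hg.symm x u w
  · intro x u hu
    rw [hG]
    exact hg.pos x u hu
  · intro k x
    ext u w
    rw [hG, hG]
    exact hg.per k x u w

theorem isMetric_of {m : WithTop ℕ∞} (h : IsMetric m g) : GTS.IsMetric m (ofBil g) := by
  refine ⟨?_, ?_, h.symm, h.pos, ?_, ?_⟩
  · intro x u v w
    simp [ofBil]
  · intro x a u w
    simp [ofBil]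
  · intro k x u w
    show g (x + latt k) u w = g x u w
    rw [h.per]
  · intro u w
    have h1 := h.smooth
    rw [contDiff_clm_apply_iff] at h1
    have h2 := h1 u
    rw [contDiff_clm_apply_iff] at h2
    exact h2 w

theorem isGeodesic_iff (hg : Differentiable ℝ g) (c : ℝ → E n) : GTS.IsGeodesic (ofBil g) c ↔ IsGeodesic g c := by
  unfold GTS.IsGeodesic IsGeodesic ofBil
  simp only [br_fderiv hg]

theorem epsDense_iff (c : ℝ → E n) (ε : ℝ) : GTS.EpsDense (ofBil g) c ε ↔ EpsDense g c ε Set.univ := by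
  unfold GTS.EpsDense EpsDense
  constructor
  · intro h x v hv
    obtain ⟨t, k, h1⟩ := h x v hv
    exact ⟨t, Set.mem_univ _, k, h1⟩
  · intro h x v hv
    obtain ⟨t, -, k, h1⟩ := h x v hv
    exact ⟨t, k, h1⟩

theorem transitive_of (hg : Differentiable ℝ g) (h : Transitive g) : GTS.Transitive (ofBil g) := by
  obtain ⟨c, h1, h2, h3⟩ := h
  exact ⟨c, (isGeodesic_iff hg c).mpr h1, h2, fun ε hε => (epsDense_iff c ε).mpr (h3 ε hε)⟩

theorem unique_of (hg : Differentiable ℝ g) (h : UniqueGeodesics g) : GTS.UniqueGeodesics (ofBil g) := by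
  intro x v hv
  obtain ⟨c, ⟨h1, h2, h3, h4⟩, h5⟩ := h x v hv
  refine ⟨c, ⟨(isGeodesic_iff hg c).mpr h1, h2, h3, h4⟩, ?_⟩
  rintro d ⟨hd1, hd2, hd3, hd4⟩
  exact h5 d ⟨(isGeodesic_iff hg d).mp hd1, hd2, hd3, hd4⟩

theorem conf_ofBil (u : E n → ℝ) (g : E n → Bil n) : GTS.conf u (ofBil g) = ofBil (conf u g) := by
  funext x v w
  simp [GTS.conf, ofBil, conf]

theorem close_of (g' : E n → Bil n) (hg : Differentiable ℝ g) (hg' : Differentiable ℝ g') (ε : ℝ)
    (h : ∀ x, ‖g' x - g x‖ < ε ∧ ‖fderiv ℝ g' x - fderiv ℝ g x‖ < ε) (u v : E n) (hu : ‖u‖ ≤ 1) (hv : ‖v‖ ≤ 1) :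
    GTS.Close (fun x => ofBil g x u v) (fun x => ofBil g' x u v) ε := by
  intro x w hw
  have hε : 0 < ε := (norm_nonneg _).trans_lt (h x).1
  constructor
  · have h1 : ofBil g' x u v - ofBil g x u v = (g' x - g x) u v := by simp [ofBil]
    rw [h1, ← Real.norm_eq_abs]
    refine ((g' x - g x).le_opNorm₂ u v).trans_lt ?_
    calc ‖g' x - g x‖ * ‖u‖ * ‖v‖ ≤ ‖g' x - g x‖ * 1 * 1 := by gcongr
      _ < ε := by
        rw [mul_one, mul_one]
        exact (h x).1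
  · show |fderiv ℝ (fun y => g' y u v) x w - fderiv ℝ (fun y => g y u v) x w| < ε
    rw [br_fderiv hg, br_fderiv hg']
    have h1 : fderiv ℝ g' x w u v - fderiv ℝ g x w u v = (fderiv ℝ g' x - fderiv ℝ g x) w u v := by simp
    rw [h1, ← Real.norm_eq_abs]
    refine (((fderiv ℝ g' x - fderiv ℝ g x) w).le_opNorm₂ u v).trans_lt ?_
    have h2 : ‖(fderiv ℝ g' x - fderiv ℝ g x) w‖ ≤ ‖fderiv ℝ g' x - fderiv ℝ g x‖ * 1 :=
      (ContinuousLinearMap.le_opNorm _ _).trans (by gcongr)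
    calc ‖(fderiv ℝ g' x - fderiv ℝ g x) w‖ * ‖u‖ * ‖v‖ ≤ (‖fderiv ℝ g' x - fderiv ℝ g x‖ * 1) * 1 * 1 := by gcongr
      _ < ε := by
        rw [mul_one, mul_one, mul_one]
        exact (h x).2

private theorem br_fn_inj (p q : C1Fun n) (h : p.fn = q.fn) : p = q := by
  have h1 := C1Fun.dist_le_of p q 0 le_rfl (fun x => by rw [h]; simp)
  exact dist_le_zero.mp h1

private theorem br_isFun (p : C1Fun n) : GTS.IsFun 1 p.fn := ⟨C1Fun.contDiff p, C1Fun.per p⟩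

private theorem br_dist_le (p q : C1Fun n) (ε : ℝ) (h : GTS.Close p.fn q.fn ε) : dist q p ≤ ε := by
  have hε : 0 ≤ ε := by
    have h1 := (h 0 0 (by simp)).1
    exact (abs_nonneg _).trans h1.le
  apply C1Fun.dist_le_of q p ε hε
  intro x
  refine ⟨(h x 0 (by simp)).1.le, ?_⟩
  apply ContinuousLinearMap.opNorm_le_of_unit_norm hε
  intro w hw
  have h1 := (h x w hw.le).2
  rw [Real.norm_eq_abs]
  simpa using h1.le

private theorem br_close (p q : C1Fun n) (ε : ℝ) (h : dist p q < ε) : GTS.Close p.fn q.fn ε := by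
  intro x w hw
  have h1 := C1Fun.dist_fn q p x
  rw [dist_comm] at h1
  refine ⟨h1.1.trans_lt h, ?_⟩
  have h2 : fderiv ℝ q.fn x w - fderiv ℝ p.fn x w = (fderiv ℝ q.fn x - fderiv ℝ p.fn x) w := by simp
  rw [h2, ← Real.norm_eq_abs]
  calc ‖(fderiv ℝ q.fn x - fderiv ℝ p.fn x) w‖ ≤ ‖fderiv ℝ q.fn x - fderiv ℝ p.fn x‖ * ‖w‖ :=
        ContinuousLinearMap.le_opNorm _ _
    _ ≤ ‖fderiv ℝ q.fn x - fderiv ℝ p.fn x‖ * 1 := by gcongr
    _ < ε := by
        rw [mul_one]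
        exact h1.2.trans_lt h

theorem denseGdelta_of (R : Set (C1Fun n)) (h1 : IsGδ R) (h2 : Dense R) :
    GTS.DenseGdelta {u : E n → ℝ | ∃ p ∈ R, p.fn = u} := by
  obtain ⟨f, hf, hR⟩ := isGδ_iff_eq_iInter_nat.mp h1
  refine ⟨⟨fun j => {u | ∃ p ∈ f j, p.fn = u}, ?_, ?_⟩, ?_⟩
  · rintro j u ⟨p, hp, rfl⟩ -
    obtain ⟨ε, hε, hb⟩ := Metric.isOpen_iff.mp (hf j) p hp
    refine ⟨ε / 2, by positivity, fun u' hu' hc => ?_⟩
    obtain ⟨q, rfl⟩ := C1Fun.exists_of u' hu'.1 hu'.2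
    refine ⟨q, hb ?_, rfl⟩
    rw [Metric.mem_ball]
    exact (br_dist_le p q _ hc).trans_lt (by linarith)
  · ext u
    constructor
    · rintro ⟨p, hp, rfl⟩
      rw [hR, Set.mem_iInter] at hp
      exact ⟨br_isFun p, fun j => ⟨p, hp j, rfl⟩⟩
    · rintro ⟨hu, h⟩
      obtain ⟨p, rfl⟩ := C1Fun.exists_of u hu.1 hu.2
      refine ⟨p, ?_, rfl⟩
      rw [hR, Set.mem_iInter]
      intro j
      obtain ⟨q, hq, hqp⟩ := h j
      rwa [← br_fn_inj q p hqp]
  · intro u hu ε hε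
    obtain ⟨p, rfl⟩ := C1Fun.exists_of u hu.1 hu.2
    obtain ⟨q, hq, hd⟩ := h2.exists_dist_lt p hε
    exact ⟨q.fn, ⟨q, hq, rfl⟩, br_close p q ε hd⟩

theorem main {g : E n → E n → E n → ℝ} (hn : 3 ≤ n) (hg : GTS.IsMetric ∞ g) :
    (∀ ε : ℝ, 0 < ε → ∃ u : E n → ℝ, GTS.IsFun ∞ u ∧ GTS.Close 0 u ε ∧ ∃ (c : ℝ → E n) (P : ℝ), 0 < P ∧
      (∃ k, ∀ t, c (t + P) = c t + GTS.latt k) ∧
        GTS.IsGeodesic (GTS.conf u g) c ∧ GTS.UnitSpeed (GTS.conf u g) c ∧ GTS.EpsDense (GTS.conf u g) c ε) ∧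
    (∃ R : Set (E n → ℝ), GTS.DenseGdelta R ∧ ∀ u ∈ R, GTS.UniqueGeodesics (GTS.conf u g) ∧
      GTS.Transitive (GTS.conf u g)) ∧
    ∀ ε : ℝ, 0 < ε → ∃ g' : E n → E n → E n → ℝ, GTS.IsMetric 1 g' ∧
      (∀ u v, ‖u‖ ≤ 1 → ‖v‖ ≤ 1 → GTS.Close (fun x => g x u v) (fun x => g' x u v) ε) ∧
      GTS.UniqueGeodesics g' ∧ GTS.Transitive g' := by
  obtain ⟨G, rfl, hG⟩ := exists_ofBil g hg
  have hgd : Differentiable ℝ G := hG.smooth.differentiable (by simp)
  refine ⟨fun ε hε => ?_, ?_, fun ε hε => ?_⟩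
  · obtain ⟨u, hu, hper, hsm, c, P, hP, hcP, hc, hus, hd⟩ := closing hn hG ε hε
    have h1 : Differentiable ℝ (conf u G) := (isMetric_conf hG hu hper).smooth.differentiable (by simp)
    refine ⟨u, ⟨hu, hper⟩, ?_, c, P, hP, hcP, ?_, ?_, ?_⟩
    · intro x w hw
      refine ⟨by simpa using (hsm x).1, ?_⟩
      have h2 : fderiv ℝ (0 : E n → ℝ) x = 0 := fderiv_const_apply (0 : ℝ)
      rw [h2]
      rw [show (0 : E n →L[ℝ] ℝ) w = 0 from rfl, sub_zero, ← Real.norm_eq_abs]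
      calc ‖fderiv ℝ u x w‖ ≤ ‖fderiv ℝ u x‖ * ‖w‖ := ContinuousLinearMap.le_opNorm _ _
        _ ≤ ‖fderiv ℝ u x‖ * 1 := by gcongr
        _ < ε := by
          rw [mul_one]
          exact (hsm x).2
    · rw [conf_ofBil]
      exact (isGeodesic_iff h1 c).mpr hc
    · rw [conf_ofBil]
      exact hus
    · rw [conf_ofBil]
      exact (epsDense_iff c ε).mpr hd
  · obtain ⟨R, h1, h2, h3⟩ := generic hn hG
    refine ⟨_, denseGdelta_of R h1 h2, ?_⟩
    rintro u ⟨p, hp, rfl⟩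
    have hm : IsMetric 1 (conf (C1Fun.fn p) G) := by
      apply isMetric_conf _ (C1Fun.contDiff p) (C1Fun.per p)
      exact ⟨hG.smooth.of_le (by exact_mod_cast le_top), hG.symm, hG.pos, hG.per⟩
    have h4 : Differentiable ℝ (conf (C1Fun.fn p) G) := hm.smooth.differentiable (by norm_num)
    rw [conf_ofBil]
    exact ⟨unique_of h4 (h3 p hp).1, transitive_of h4 (h3 p hp).2⟩
  · obtain ⟨g', h1, h2, h3, h4⟩ := dense_C1 hn hG ε hε
    have h5 : Differentiable ℝ g' := h1.smooth.differentiable (by norm_num)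
    exact ⟨ofBil g', isMetric_of h1, close_of g' hgd h5 ε h2, unique_of h5 h3, transitive_of h5 h4⟩

end Pool.Agent.Helper59.GT
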