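import Pool.Agent.Helper59.GT.PerVol

/-!
# GT-08 ChainAbs: chain transitivity of a volume preserving map of a connected set of finite volume

`Step φ K δ a b`: `b ∈ K` and `φ a` is `δ`-close to `b` modulo integer translations.

Proof. Fix `a ∈ K` and `R = {b | TransGen (Step φ K δ) a b}`.
1. `R ⊆ K` (last step); `φ a ∈ R` (`φ a ∈ K`, `k = 0`).
2. `R` is open: let `b ∈ R`, last step `Step a' b` (`a' = a` or `a' ∈ R`), `dist (φ a') (sh k b) < δ`; for `b' ∈ K` close to `b` also `dist (φ a') (sh k b') < δ` (`dist_sh`), so `b' ∈ R`.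
3. `R` is invariant: `sh k' b ∈ K` and `sh (k - k') (sh k' b) = sh k b`.
4. `b ∈ R → φ b ∈ R`; and if `b ∈ R`, `y ∈ K`, `dist (φ b) y < δ` then `y ∈ R`.
5. `volume (R ∩ cell) ≤ volume (φ '' R ∩ cell) ≤ volume (R ∩ cell) < ∞`, `φ '' R ⊆ R` measurable (injective continuous image of an open set, `MeasurableSet.image_of_continuousOn_injOn`), so `(R \ φ '' R) ∩ cell` is null.
   The set `O = R \ closure (φ '' R)` is open and invariant (`closure (φ '' R)` is invariant: `sh k` is a homeomorphism commuting with `φ`), so it is empty by `pos_volume`: `R ⊆ closure (φ '' R)`.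
6. `R` is closed in `K`: if `b ∈ K ∩ closure R ⊆ closure (φ '' R)` then some `b' ∈ R` has `dist (φ b') b < δ`, so `b ∈ R` by 4.
7. `K` is preconnected, `R ⊆ K` nonempty, open, closed in `K`: `R = K` (`IsPreconnected.subset_of_closure_inter_subset`).
-/

set_option autoImplicit false
set_option maxSynthPendingDepth 3

open MeasureTheory

namespace Pool.Agent.Helper59.GT

/-- One step of a `δ`-chain in `K`. -/
def Step {n : ℕ} (φ : Ph n → Ph n) (K : Set (Ph n)) (δ : ℝ) (a b : Ph n) : Prop :=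
  b ∈ K ∧ ∃ k, dist (φ a) (sh k b) < δ

private lemma sh_cont {n : ℕ} (k : Fin n → ℤ) : Continuous (sh k : Ph n → Ph n) := by
  have h : (sh k : Ph n → Ph n) = fun z => (z.1 + latt k, z.2) := rfl
  rw [h]
  exact (continuous_fst.add continuous_const).prodMk continuous_snd

private lemma step_open {n : ℕ} (φ : Ph n → Ph n) (K : Set (Ph n)) (hKo : IsOpen K) (δ : ℝ)
    (a : Ph n) : IsOpen {b | Step φ K δ a b} := by
  have h : {b | Step φ K δ a b} = K ∩ ⋃ k, {b | dist (φ a) (sh k b) < δ} := by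
    ext b
    simp only [Step, Set.mem_ofPred_eq, Set.mem_inter_iff, Set.mem_iUnion]
  rw [h]
  refine hKo.inter (isOpen_iUnion fun k => ?_)
  exact isOpen_lt (continuous_const.dist (sh_cont k)) continuous_const

private lemma step_inv {n : ℕ} (φ : Ph n → Ph n) (K : Set (Ph n)) (hKi : Inv K) (δ : ℝ)
    (a b : Ph n) (k' : Fin n → ℤ) (h : Step φ K δ a b) : Step φ K δ a (sh k' b) := by
  obtain ⟨h1, k, h2⟩ := h
  refine ⟨hKi k' b h1, k - k', ?_⟩
  rw [sh_sh, sub_add_cancel]
  exact h2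

private lemma cell_meas (n : ℕ) : MeasurableSet (cell n) := by
  have h : cell n = ⋂ i, ({z : Ph n | 0 ≤ z.1 i} ∩ {z : Ph n | z.1 i < 1}) := by
    ext z
    simp only [cell, Set.mem_ofPred_eq, Set.mem_iInter, Set.mem_inter_iff]
  rw [h]
  refine MeasurableSet.iInter fun i => ?_
  have hci : Continuous fun z : Ph n => z.1 i := by fun_prop
  exact (isClosed_le continuous_const hci).measurableSet.inter
    (isOpen_lt hci continuous_const).measurableSet

theorem chain_transitive {n : ℕ} (φ : Ph n → Ph n) (hc : Continuous φ) (hi : Function.Injective φ)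
    (hsh : ∀ k z, φ (sh k z) = sh k (φ z)) (hv : ∀ A : Set (Ph n), MeasurableSet A → volume A ≤ volume (φ '' A))
    (K : Set (Ph n)) (hKo : IsOpen K) (hKc : IsPreconnected K) (hKi : Inv K) (hφ : ∀ z ∈ K, φ z ∈ K)
    (hfin : volume (K ∩ cell n) ≠ ⊤) (δ : ℝ) (hδ : 0 < δ) (a : Ph n) (ha : a ∈ K) (b : Ph n) (hb : b ∈ K) :
    Relation.TransGen (Step φ K δ) a b := by
  obtain ⟨R, hRdef⟩ : ∃ R : Set (Ph n), R = {b | Relation.TransGen (Step φ K δ) a b} := ⟨_, rfl⟩
  have hmem : ∀ y, y ∈ R ↔ Relation.TransGen (Step φ K δ) a y := fun y => by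
    rw [hRdef]
    exact Iff.rfl
  have hR : ∀ y, y ∈ R ↔ Step φ K δ a y ∨ ∃ c, c ∈ R ∧ Step φ K δ c y := by
    intro y
    rw [hmem, Relation.transGen_iff]
    simp only [hmem]
  have hRK : R ⊆ K := by
    intro y hy
    rcases (hR y).1 hy with h | ⟨c, -, h⟩
    · exact h.1
    · exact h.1
  have hself : ∀ z ∈ K, Step φ K δ z (φ z) := by
    intro z hz
    refine ⟨hφ z hz, 0, ?_⟩
    rw [sh_zero, dist_self]
    exact hδ
  have hne : φ a ∈ R := (hR _).2 (Or.inl (hself a ha))
  have hopen : IsOpen R := by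
    have h : R = {y | Step φ K δ a y} ∪ ⋃ c ∈ R, {y | Step φ K δ c y} := by
      ext y
      rw [hR y]
      simp only [Set.mem_union, Set.mem_ofPred_eq, Set.mem_iUnion, exists_prop]
    rw [h]
    exact (step_open φ K hKo δ a).union
      (isOpen_iUnion fun c => isOpen_iUnion fun _ => step_open φ K hKo δ c)
  have hinv : Inv R := by
    intro k z hz
    rcases (hR z).1 hz with h | ⟨c, hc', h⟩
    · exact (hR _).2 (Or.inl (step_inv φ K hKi δ a z k h))
    · exact (hR _).2 (Or.inr ⟨c, hc', step_inv φ K hKi δ c z k h⟩)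
  have hφR : φ '' R ⊆ R := by
    rintro _ ⟨z, hz, rfl⟩
    exact (hR _).2 (Or.inr ⟨z, hz, hself z (hRK hz)⟩)
  have hnear : ∀ z ∈ R, ∀ y ∈ K, dist (φ z) y < δ → y ∈ R := by
    intro z hz y hy hd
    refine (hR _).2 (Or.inr ⟨z, hz, hy, 0, ?_⟩)
    rw [sh_zero]
    exact hd
  have hRm : MeasurableSet R := hopen.measurableSet
  have hφm : MeasurableSet (φ '' R) :=
    hRm.image_of_continuousOn_injOn hc.continuousOn hi.injOn
  have hsub : φ '' R ∩ cell n ⊆ R ∩ cell n := Set.inter_subset_inter_left _ hφR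
  have hfinR : volume (R ∩ cell n) ≠ ⊤ :=
    ne_top_of_le_ne_top hfin (measure_mono (Set.inter_subset_inter_left _ hRK))
  have hfinφ : volume (φ '' R ∩ cell n) ≠ ⊤ := ne_top_of_le_ne_top hfinR (measure_mono hsub)
  have hle := per_volume φ hc hi hsh hv R hRm hinv
  have hzero : volume ((R ∩ cell n) \ (φ '' R ∩ cell n)) = 0 := by
    rw [measure_sdiff hsub (hφm.inter (cell_meas n)).nullMeasurableSet hfinφ]
    exact tsub_eq_zero_of_le hle
  have hinvφ : ∀ k, Set.MapsTo (sh k) (φ '' R) (φ '' R) := by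
    rintro k _ ⟨z, hz, rfl⟩
    exact ⟨sh k z, hinv k z hz, hsh k z⟩
  have hcl : R ⊆ closure (φ '' R) := by
    by_contra hcon
    obtain ⟨z, hz, hz2⟩ := Set.not_subset.1 hcon
    have hpos := pos_volume (R \ closure (φ '' R)) (hopen.sdiff isClosed_closure)
      (by
        rintro k y ⟨hy1, hy2⟩
        refine ⟨hinv k y hy1, fun h => hy2 ?_⟩
        have h2 := map_mem_closure (sh_cont (-k)) h (hinvφ (-k))
        rw [sh_sh, neg_add_cancel, sh_zero] at h2
        exact h2) ⟨z, hz, hz2⟩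
    have h0 : volume ((R \ closure (φ '' R)) ∩ cell n) = 0 := by
      refine measure_mono_null ?_ hzero
      rintro y ⟨⟨hy1, hy2⟩, hy3⟩
      exact ⟨⟨hy1, hy3⟩, fun h => hy2 (subset_closure h.1)⟩
    rw [h0] at hpos
    exact lt_irrefl _ hpos
  have hclosed : closure R ∩ K ⊆ R := by
    rintro y ⟨hy1, hy2⟩
    have h1 : y ∈ closure (φ '' R) := by
      have := closure_mono hcl hy1
      rwa [closure_closure] at this
    obtain ⟨w, ⟨z, hz, rfl⟩, hd⟩ := Metric.mem_closure_iff.1 h1 δ hδ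
    rw [dist_comm] at hd
    exact hnear z hz y hy2 hd
  have hfinal : K ⊆ R := hKc.subset_of_closure_inter_subset hopen
    ⟨φ a, hRK hne, hne⟩ hclosed
  exact (hmem b).1 (hfinal hb)

end Pool.Agent.Helper59.GT
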