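import Pool.Agent.Helper59.GT.Cometric
import Pool.Agent.Helper59.GT.HamTrace

/-!
# GT-12 Cut: cutting off the energy at large momenta

Proof. There is a smooth `θ : ℝ → ℝ` with `θ s = s` for `s ≤ 4` and `θ` constant for `s ≥ 5`, e.g. `θ s = s + (7 - s) * Real.smoothTransition (s - 4)` (for `s ≥ 5` it is `7`). Take `H = θ ∘ Hk g`.
`Hk g` is smooth (`contDiff_cog`) and periodic (`cog_per`). Where `Hk g z < 4` the functions `H` and `Hk g` agree near `z`, so `XH` agree (`Filter.EventuallyEq.fderiv_eq`). Where `Hk g z > 5`, `H` is locally constant, so `XH H z = 0`;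
by `Hk_bounds` this holds for `c ‖p‖ ^ 2 > 5`. Last: `θ s ≥ 4` for `s ≥ 4`: for `s ∈ [4, 5]`: `θ s = s + (7 - s) τ ≥ s` (`τ ∈ [0, 1]`, `7 - s ≥ 0`), and `θ s = 7` for `s ≥ 5`.
-/

set_option autoImplicit false
set_option maxSynthPendingDepth 3

open scoped ContDiff

namespace Pool.Agent.Helper59.GT

private noncomputable def th (s : ℝ) : ℝ := s + (7 - s) * Real.smoothTransition (s - 4)

private lemma th_contDiff : ContDiff ℝ ∞ th := by
  unfold th
  exact contDiff_id.add ((contDiff_const.sub contDiff_id).mul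
    (Real.smoothTransition.contDiff.comp (contDiff_id.sub contDiff_const)))

private lemma th_low {s : ℝ} (hs : s ≤ 4) : th s = s := by
  unfold th
  rw [Real.smoothTransition.zero_of_nonpos (by linarith), mul_zero, add_zero]

private lemma th_high {s : ℝ} (hs : 5 ≤ s) : th s = 7 := by
  unfold th
  rw [Real.smoothTransition.one_of_one_le (by linarith), mul_one]
  ring

private lemma th_ge {s : ℝ} (hs : 4 ≤ s) : 4 ≤ th s := by
  rcases le_total s 5 with h | h
  · have h1 := Real.smoothTransition.nonneg (s - 4)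
    have h2 : 0 ≤ (7 - s) * Real.smoothTransition (s - 4) := mul_nonneg (by linarith) h1
    unfold th
    linarith
  · rw [th_high h]
    norm_num

private lemma Hk_contDiff {n : ℕ} {g : E n → Bil n} (hg : IsMetric ∞ g) : ContDiff ℝ ∞ (Hk g) := by
  unfold Hk
  have h1 : ContDiff ℝ ∞ (fun z : Ph n => cog g z.1 z.2) :=
    ((contDiff_cog hg).comp contDiff_fst).clm_apply contDiff_snd
  exact contDiff_const.mul (h1.inner ℝ contDiff_snd)

private lemma XH_congr {n : ℕ} {H K : Ph n → ℝ} {z : Ph n} (h : fderiv ℝ H z = fderiv ℝ K z) : XH H z = XH K z := by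
  unfold XH gradp gradx
  rw [h]

theorem exists_cut {n : ℕ} {g : E n → Bil n} (hg : IsMetric ∞ g) :
    ∃ (H : Ph n → ℝ) (M : ℝ), ContDiff ℝ ∞ H ∧ (∀ k z, H (sh k z) = H z) ∧ (∀ z, Hk g z < 4 → H z = Hk g z) ∧
      (∀ z, Hk g z < 4 → XH H z = XH (Hk g) z) ∧ (∀ z, 4 ≤ Hk g z → 4 ≤ H z) ∧ (∀ z : Ph n, M < ‖z.2‖ → XH H z = 0) := by
  have hsm := Hk_contDiff hg
  have hcont : Continuous (Hk g) := hsm.continuous
  obtain ⟨c, d, hc, hd, hcd⟩ := Hk_bounds hg
  refine ⟨fun z => th (Hk g z), 1 + 5 / c, th_contDiff.comp hsm, ?_, ?_, ?_, ?_, ?_⟩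
  · intro k z
    have h : Hk g (sh k z) = Hk g z := by
      simp only [Hk, sh, cog_per hg k z.1]
    simp only [h]
  · intro z hz
    exact th_low hz.le
  · intro z hz
    refine XH_congr (Filter.EventuallyEq.fderiv_eq ?_)
    filter_upwards [(isOpen_lt hcont continuous_const).mem_nhds hz] with w hw
    exact th_low (le_of_lt hw)
  · intro z hz
    exact th_ge hz
  · intro z hz
    have h5 : 5 < Hk g z := by
      have h1 : 1 ≤ ‖z.2‖ := by
        have : 0 < 5 / c := by positivity
        linarith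
      have h2 : 5 / c < ‖z.2‖ := by linarith
      have h3 : 5 < c * ‖z.2‖ := by
        rw [div_lt_iff₀ hc] at h2
        linarith
      have h4 : ‖z.2‖ ≤ ‖z.2‖ ^ 2 := by nlinarith
      have h5 := (hcd z).1
      nlinarith
    have hf : fderiv ℝ (fun z => th (Hk g z)) z = fderiv ℝ (fun _ : Ph n => (7 : ℝ)) z := by
      refine Filter.EventuallyEq.fderiv_eq ?_
      filter_upwards [(isOpen_lt continuous_const hcont).mem_nhds h5] with w hw
      exact th_high (le_of_lt hw)
    rw [XH_congr hf]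
    have h0 : fderiv ℝ (fun _ : Ph n => (7 : ℝ)) z = 0 := by simp
    unfold XH gradp gradx
    rw [h0]
    simp

end Pool.Agent.Helper59.GT
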