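import Mathlib

/-!
# Project GT (MP_af5028_an): C^1-generic transitivity of geodesic flows on tori. Definitions

`E n` is `ℝ ^ n`, `latt k` the vector with integer coordinates `k`. Everything on the torus `T ^ n = ℝ ^ n / ℤ ^ n` is written as a
`ℤ ^ n`-periodic object on `ℝ ^ n`.

* `IsMetric m g`: `g` is a Riemannian metric of class `C ^ m` on the torus: `g x` is a symmetric positive definite bilinear form.
* `IsGeodesic g c`: `d/dt g (c) (c', w) = (1 / 2) (D g (c) w) (c', c')` for every constant vector `w` (Euler-Lagrange equation of the energy; it makes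
  sense for metrics of class `C ^ 1` and is equivalent to the usual geodesic equation).
* `UnitSpeed g c`: `g (c', c') = 1`.
* `EpsDense g c ε S`: the tangent vectors of `c` at the times in `S` are `ε`-dense in the unit tangent bundle of `g`.
* `Transitive g`: some unit speed geodesic has a dense set of tangent vectors.
* `conf u g = exp (2 u) g`.
* `EL g x v a`: the covector `g (x) (a, ·) + (D g (x) v) (v, ·) - (1 / 2) (D g (x) ·) (v, v)`: `EL g c c' c'' = 0` is the geodesic equation.
-/

set_option autoImplicit false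
set_option maxSynthPendingDepth 3

open scoped ContDiff

namespace Pool.Agent.Helper59.GT

/-- The Euclidean space `ℝ ^ n`. -/
abbrev E (n : ℕ) := EuclideanSpace ℝ (Fin n)

/-- Bilinear forms on `ℝ ^ n`. -/
abbrev Bil (n : ℕ) := E n →L[ℝ] E n →L[ℝ] ℝ

/-- The vector with integer coordinates `k`. -/
noncomputable def latt {n : ℕ} (k : Fin n → ℤ) : E n := WithLp.toLp 2 (fun i => (k i : ℝ))

/-- Riemannian metrics of class `C ^ m` on the torus. -/
structure IsMetric {n : ℕ} (m : WithTop ℕ∞) (g : E n → Bil n) : Prop where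
  smooth : ContDiff ℝ m g
  symm : ∀ x u w, g x u w = g x w u
  pos : ∀ x u, u ≠ 0 → 0 < g x u u
  per : ∀ k x, g (x + latt k) = g x

/-- Geodesics (parametrised proportionally to arc length). -/
def IsGeodesic {n : ℕ} (g : E n → Bil n) (c : ℝ → E n) : Prop :=
  Differentiable ℝ c ∧ ∀ t w, HasDerivAt (fun s => g (c s) (deriv c s) w)
    ((1 / 2) * fderiv ℝ g (c t) w (deriv c t) (deriv c t)) t

/-- `c` has unit speed. -/
def UnitSpeed {n : ℕ} (g : E n → Bil n) (c : ℝ → E n) : Prop :=
  ∀ t, g (c t) (deriv c t) (deriv c t) = 1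

/-- The tangent vectors of `c` at the times in `S` are `ε`-dense in the unit tangent bundle of `g` over the torus. -/
def EpsDense {n : ℕ} (g : E n → Bil n) (c : ℝ → E n) (ε : ℝ) (S : Set ℝ) : Prop :=
  ∀ x v, g x v v = 1 → ∃ t ∈ S, ∃ k, ‖c t + latt k - x‖ < ε ∧ ‖deriv c t - v‖ < ε

/-- The geodesic flow is transitive: some geodesic has a dense set of unit tangent vectors. -/
def Transitive {n : ℕ} (g : E n → Bil n) : Prop :=
  ∃ c, IsGeodesic g c ∧ UnitSpeed g c ∧ ∀ ε, 0 < ε → EpsDense g c ε Set.univ

/-- Every unit vector is the initial vector of exactly one unit speed geodesic. -/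
def UniqueGeodesics {n : ℕ} (g : E n → Bil n) : Prop :=
  ∀ x v, g x v v = 1 → ∃! c, IsGeodesic g c ∧ UnitSpeed g c ∧ c 0 = x ∧ deriv c 0 = v

/-- The conformal metric `exp (2 u) g`. -/
noncomputable def conf {n : ℕ} (u : E n → ℝ) (g : E n → Bil n) : E n → Bil n :=
  fun x => Real.exp (2 * u x) • g x

/-- The Euler-Lagrange covector. -/
noncomputable def EL {n : ℕ} (g : E n → Bil n) (x v a : E n) : E n →L[ℝ] ℝ :=
  g x a + fderiv ℝ g x v v - (1 / 2 : ℝ) • ((fderiv ℝ g x).flip v).flip v

lemma EL_apply {n : ℕ} (g : E n → Bil n) (x v a w : E n) :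
    EL g x v a w = g x a w + fderiv ℝ g x v v w - (1 / 2) * fderiv ℝ g x w v v := by
  simp [EL]

/-- The space of the periodic functions of class `C ^ 1`, with the distance `max (sup |u - u'|, sup ‖D u - D u'‖)`; the element `p` is the
function `x ↦ (p x).1` together with its derivative. -/
def C1Fun (n : ℕ) : Type :=
  {p : BoundedContinuousFunction (E n) (ℝ × (E n →L[ℝ] ℝ)) //
    (∀ x, HasFDerivAt (fun y => (p y).1) (p x).2 x) ∧ ∀ k x, p (x + latt k) = p x}

noncomputable instance (n : ℕ) : MetricSpace (C1Fun n) :=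
  inferInstanceAs (MetricSpace {p : BoundedContinuousFunction (E n) (ℝ × (E n →L[ℝ] ℝ)) //
    (∀ x, HasFDerivAt (fun y => (p y).1) (p x).2 x) ∧ ∀ k x, p (x + latt k) = p x})

/-- The function of an element of `C1Fun`. -/
noncomputable def C1Fun.fn {n : ℕ} (p : C1Fun n) : E n → ℝ := fun x => (p.1 x).1

end Pool.Agent.Helper59.GT
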