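import Mathlib

/-!
# GT-03 DetBound: `det (1 + h B) ≥ 1 - C h ^ 2` if `trace B = 0`, `‖B‖ ≤ K`, `0 ≤ h ≤ 1`

Proof. Take a basis of `F` (dimension `d`); the entries of the matrix `M` of `B` are bounded by `K' = K'(K)` (the linear map `B ↦ M_{ij}` is continuous on the finite-dimensional space `F →L F`,
or equivalence of norms). `det (1 + h M) = ∑_σ sign σ ∏_i (δ_{σ(i) i} + h M_{σ(i) i})`. A permutation `σ ≠ 1` moves at least two indices, so its term is at most `h ^ 2 (1 + K') ^ d` in absolute value (`0 ≤ h ≤ 1`).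
For `σ = 1`: `∏ (1 + h M_ii) = 1 + h ∑ M_ii + R`, `|R| ≤ h ^ 2 (1 + K') ^ d` (`Finset.prod_one_add`, terms with at least two factors; or induction on the finset), and `∑ M_ii = trace B = 0`.
Other ways are welcome: e.g. `Matrix.det_one_add_smul` gives the expansion `1 + trace M * h + (...) h ^ 2` with a polynomial remainder; or a compactness argument
(`h ↦ det (1 + h B)` has value `1` and derivative `trace B = 0` at `0`, and its second derivative is continuous in `(h, B)` on a compact set).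
-/

set_option autoImplicit false
set_option maxSynthPendingDepth 3

namespace Pool.Agent.Helper59.GT

section

variable (F : Type) [NormedAddCommGroup F] [NormedSpace ℝ F] [FiniteDimensional ℝ F]

private theorem contDiff_det :
    ContDiff ℝ 2 (fun N : F →L[ℝ] F => (ContinuousLinearMap.id ℝ F + N).det) := by
  classical
  obtain ⟨b, -⟩ : ∃ b : Module.Basis (Fin (Module.finrank ℝ F)) ℝ F, b = Module.finBasis ℝ F :=
    ⟨_, rfl⟩
  have h : (fun N : F →L[ℝ] F => (ContinuousLinearMap.id ℝ F + N).det) =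
      fun N : F →L[ℝ] F => ∑ σ : Equiv.Perm (Fin (Module.finrank ℝ F)),
        ((Equiv.Perm.sign σ : ℤ) : ℝ) * ∏ i, b.coord (σ i) (b i + N (b i)) := by
    funext N
    have h1 : (ContinuousLinearMap.id ℝ F + N).det =
        LinearMap.det ((ContinuousLinearMap.id ℝ F + N : F →L[ℝ] F) : F →ₗ[ℝ] F) := rfl
    rw [h1, ← LinearMap.det_toMatrix b, Matrix.det_apply']
    refine Finset.sum_congr rfl fun σ _ => ?_
    congr 1
    refine Finset.prod_congr rfl fun i _ => ?_
    rw [LinearMap.toMatrix_apply]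
    rfl
  rw [h]
  refine ContDiff.sum fun σ _ => ?_
  refine contDiff_const.mul ?_
  refine contDiff_prod fun i _ => ?_
  have h2 : ContDiff ℝ 2 (fun N : F →L[ℝ] F => b i + N (b i)) :=
    contDiff_const.add (ContinuousLinearMap.apply ℝ F (b i)).contDiff
  exact (LinearMap.toContinuousLinearMap (b.coord (σ i))).contDiff.comp h2

private noncomputable def trL : (F →L[ℝ] F) →L[ℝ] ℝ :=
  LinearMap.toContinuousLinearMap ((LinearMap.trace ℝ F) ∘ₗ (ContinuousLinearMap.coeLM ℝ))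

private theorem trL_apply (N : F →L[ℝ] F) : trL F N = LinearMap.trace ℝ F (N : F →ₗ[ℝ] F) := rfl

private theorem line_eq (M : F →L[ℝ] F) : ∃ P : Polynomial ℝ, ∀ t : ℝ,
    (ContinuousLinearMap.id ℝ F + t • M).det - 1 - trL F (t • M) = P.eval t * t ^ 2 := by
  classical
  obtain ⟨b, -⟩ : ∃ b : Module.Basis (Fin (Module.finrank ℝ F)) ℝ F, b = Module.finBasis ℝ F :=
    ⟨_, rfl⟩
  refine ⟨(Matrix.det (1 + (Polynomial.X : Polynomial ℝ) •
    (LinearMap.toMatrix b b (M : F →ₗ[ℝ] F)).map Polynomial.C)).divX.divX, fun t => ?_⟩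
  have h1 : (ContinuousLinearMap.id ℝ F + t • M).det =
      LinearMap.det (LinearMap.id + t • (M : F →ₗ[ℝ] F)) := rfl
  rw [h1, ← LinearMap.det_toMatrix b, map_add, map_smul, LinearMap.toMatrix_id,
    Matrix.det_one_add_smul, map_smul, trL_apply, LinearMap.trace_eq_matrix_trace ℝ b, smul_eq_mul]
  ring

private theorem quad_bound (K : ℝ) : ∃ L : ℝ, 0 ≤ L ∧ ∀ N : F →L[ℝ] F, ‖N‖ ≤ K →
    |(ContinuousLinearMap.id ℝ F + N).det - 1 - trL F N| ≤ L * ‖N‖ ^ 2 := by
  obtain ⟨G, hG⟩ : ∃ G : (F →L[ℝ] F) → ℝ, G = fun N =>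
    (ContinuousLinearMap.id ℝ F + N).det - 1 - trL F N := ⟨_, rfl⟩
  have hGc : ContDiff ℝ 2 G := by
    rw [hG]
    exact ((contDiff_det F).sub contDiff_const).sub (trL F).contDiff
  have hGd : Differentiable ℝ G := hGc.differentiable (by norm_num)
  have hG0 : G 0 = 0 := by
    obtain ⟨P, hP⟩ := line_eq F 0
    have := hP 0
    rw [smul_zero] at this
    rw [hG]
    change (ContinuousLinearMap.id ℝ F + 0).det - 1 - trL F 0 = 0
    rw [this]
    ring
  have hG' : fderiv ℝ G 0 = 0 := by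
    ext M
    obtain ⟨P, hP⟩ := line_eq F M
    have h1 : HasDerivAt (fun t : ℝ => t • M) M 0 := by
      have := (hasDerivAt_id (0 : ℝ)).smul_const M
      rwa [one_smul] at this
    have h2 : HasDerivAt (fun t : ℝ => G (t • M)) (fderiv ℝ G 0 M) 0 := by
      have h3 : HasFDerivAt G (fderiv ℝ G 0) ((0 : ℝ) • M) := by
        rw [zero_smul]
        exact (hGd 0).hasFDerivAt
      exact h3.comp_hasDerivAt (0 : ℝ) h1
    have h4 : (fun t : ℝ => G (t • M)) = fun t => P.eval t * t ^ 2 := by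
      funext t
      rw [hG]
      exact hP t
    rw [h4] at h2
    have h5 : HasDerivAt (fun t : ℝ => P.eval t * t ^ 2)
        (P.derivative.eval 0 * (0 : ℝ) ^ 2 + P.eval 0 * (2 * 0 ^ (2 - 1) * 1)) 0 :=
      (P.hasDerivAt 0).mul ((hasDerivAt_id (0 : ℝ)).pow 2)
    have h6 := h2.unique h5
    rw [h6]
    simp
  have hf1 : ContDiff ℝ 1 (fderiv ℝ G) := hGc.fderiv_right (by norm_num)
  have hf1d : Differentiable ℝ (fderiv ℝ G) := hf1.differentiable (by norm_num)
  have hf2 : Continuous (fderiv ℝ (fderiv ℝ G)) := hf1.continuous_fderiv (by norm_num)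
  have hprop : ProperSpace (F →L[ℝ] F) := FiniteDimensional.proper ℝ _
  obtain ⟨L, hL⟩ := (isCompact_closedBall (0 : F →L[ℝ] F) K).exists_bound_of_continuousOn
    hf2.continuousOn
  refine ⟨|L|, abs_nonneg _, fun N hN => ?_⟩
  have h1 : ∀ x : F →L[ℝ] F, ‖x‖ ≤ ‖N‖ → ‖fderiv ℝ G x‖ ≤ |L| * ‖N‖ := by
    intro x hx
    have hxK : x ∈ Metric.closedBall (0 : F →L[ℝ] F) K := by
      rw [mem_closedBall_zero_iff]
      exact hx.trans hN
    have h0K : (0 : F →L[ℝ] F) ∈ Metric.closedBall (0 : F →L[ℝ] F) K := by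
      rw [mem_closedBall_zero_iff, norm_zero]
      exact (norm_nonneg _).trans hN
    have := (convex_closedBall (0 : F →L[ℝ] F) K).norm_image_sub_le_of_norm_fderiv_le
      (f := fderiv ℝ G) (C := |L|) (fun y _ => hf1d y)
      (fun y hy => (hL y hy).trans (le_abs_self L)) h0K hxK
    rw [hG', sub_zero, sub_zero] at this
    exact this.trans (mul_le_mul_of_nonneg_left hx (abs_nonneg _))
  have h2 := (convex_closedBall (0 : F →L[ℝ] F) ‖N‖).norm_image_sub_le_of_norm_fderiv_le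
    (f := G) (C := |L| * ‖N‖) (fun y _ => hGd y)
    (fun y hy => h1 y (by rwa [mem_closedBall_zero_iff] at hy))
    (by rw [mem_closedBall_zero_iff, norm_zero]; exact norm_nonneg _)
    (by rw [mem_closedBall_zero_iff] : N ∈ Metric.closedBall (0 : F →L[ℝ] F) ‖N‖)
  rw [hG0, sub_zero, sub_zero, hG, Real.norm_eq_abs] at h2
  calc _ ≤ |L| * ‖N‖ * ‖N‖ := h2
    _ = |L| * ‖N‖ ^ 2 := by ring

end

theorem det_bound {F : Type} [NormedAddCommGroup F] [NormedSpace ℝ F] [FiniteDimensional ℝ F] (K : ℝ) :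
    ∃ C : ℝ, 0 ≤ C ∧ ∀ B : F →L[ℝ] F, ‖B‖ ≤ K → LinearMap.trace ℝ F (B : F →ₗ[ℝ] F) = 0 → ∀ h : ℝ, 0 ≤ h → h ≤ 1 →
      1 - C * h ^ 2 ≤ (ContinuousLinearMap.id ℝ F + h • B).det := by
  obtain ⟨L, hL0, hL⟩ := quad_bound F |K|
  refine ⟨L * K ^ 2, by positivity, fun B hB htr h h0 h1 => ?_⟩
  have hK : 0 ≤ K := (norm_nonneg B).trans hB
  have h2 : ‖h • B‖ ≤ h * K := by
    rw [norm_smul, Real.norm_of_nonneg h0]
    exact mul_le_mul_of_nonneg_left hB h0
  have h3 : ‖h • B‖ ≤ |K| := by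
    rw [abs_of_nonneg hK]
    exact h2.trans (mul_le_of_le_one_left hK h1)
  have h4 := hL (h • B) h3
  have h5 : trL F (h • B) = 0 := by
    rw [map_smul, trL_apply, htr, smul_zero]
  rw [h5, sub_zero] at h4
  have h6 : L * ‖h • B‖ ^ 2 ≤ L * K ^ 2 * h ^ 2 := by
    have : ‖h • B‖ ^ 2 ≤ (h * K) ^ 2 := pow_le_pow_left₀ (norm_nonneg _) h2 2
    calc L * ‖h • B‖ ^ 2 ≤ L * (h * K) ^ 2 := mul_le_mul_of_nonneg_left this hL0
      _ = _ := by ring
  have h7 := (abs_le.1 h4).1
  linarith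

end Pool.Agent.Helper59.GT
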