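import Pool.Agent.Helper59.GT.Flow
import Pool.Agent.Helper59.GT.DetBound

/-!
# GT-04 Euler: one Euler step almost preserves volume

`eul X h z = z + h X z`.

Proof. `injective`: if `z + h X z = w + h X w` then `‖z - w‖ = h ‖X z - X w‖ ≤ h K ‖z - w‖`, and `h K < 1`.
`volume`: `eul X h` has derivative `id + h D X (z)` at `z`, so by the change of variables formula (`MeasureTheory.lintegral_abs_det_fderiv_eq_addHaar_image`, injective on `A`)
`μ (eul '' A) = ∫⁻_A |det (id + h D X)| ≥ (1 - C h ^ 2) μ A` by `det_bound` (`C` depends only on `K`, `F`).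
`iterate`: the image of `A` under the `m`-th iterate: induction (the image of a measurable set under an injective continuous map is measurable, `MeasurableSet.image_of_continuousOn_injOn`);
`(1 - C h ^ 2) ^ m` with `0 ≤ 1 - C h ^ 2`.
-/

set_option autoImplicit false
set_option maxSynthPendingDepth 3

open MeasureTheory
open scoped NNReal

namespace Pool.Agent.Helper59.GT

variable {F : Type} [NormedAddCommGroup F] [NormedSpace ℝ F]

/-- The Euler map. -/
def eul (X : F → F) (h : ℝ) (z : F) : F := z + h • X z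

theorem eul_injective {X : F → F} {K : ℝ≥0} (hK : LipschitzWith K X) {h : ℝ} (h0 : 0 ≤ h) (h1 : h * K < 1) :
    Function.Injective (eul X h) := by
  intro z w hzw
  have h2 : z - w = h • (X w - X z) := by
    have h3 : z + h • X z = w + h • X w := hzw
    rw [smul_sub, sub_eq_sub_iff_add_eq_add, h3, add_comm]
  have h4 : ‖z - w‖ ≤ h * K * ‖z - w‖ := by
    calc ‖z - w‖ = ‖h • (X w - X z)‖ := by rw [h2]
      _ = h * ‖X w - X z‖ := by rw [norm_smul, Real.norm_of_nonneg h0]
      _ ≤ h * (K * ‖z - w‖) := by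
        refine mul_le_mul_of_nonneg_left ?_ h0
        have h5 := hK.dist_le_mul w z
        rwa [dist_eq_norm, dist_eq_norm, norm_sub_rev w z] at h5
      _ = h * K * ‖z - w‖ := by ring
  have h6 : ‖z - w‖ ≤ 0 := by
    by_contra h7
    push Not at h7
    have h8 : h * K * ‖z - w‖ < 1 * ‖z - w‖ := mul_lt_mul_of_pos_right h1 h7
    linarith
  exact sub_eq_zero.1 (norm_le_zero_iff.1 h6)

theorem eul_iterate_volume [FiniteDimensional ℝ F] [MeasurableSpace F] [BorelSpace F] (μ : Measure F) [μ.IsAddHaarMeasure]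
    (K : ℝ≥0) : ∃ C : ℝ, 0 ≤ C ∧ ∀ X : F → F, LipschitzWith K X → Differentiable ℝ X →
      (∀ z, LinearMap.trace ℝ F (fderiv ℝ X z : F →ₗ[ℝ] F) = 0) → ∀ h : ℝ, 0 ≤ h → h ≤ 1 → h * K < 1 → C * h ^ 2 ≤ 1 →
      ∀ (m : ℕ) (A : Set F), MeasurableSet A →
        ENNReal.ofReal ((1 - C * h ^ 2) ^ m) * μ A ≤ μ ((eul X h)^[m] '' A) := by
  obtain ⟨C, hC0, hC⟩ := det_bound (F := F) K
  refine ⟨C, hC0, ?_⟩
  intro X hX hd htr h h0 h1 hhK hCh
  have hcomp : CompleteSpace F := FiniteDimensional.complete ℝ F
  have hprop : ProperSpace F := FiniteDimensional.proper ℝ F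
  have hinj : Function.Injective (eul X h) := eul_injective hX h0 hhK
  have hcont : Continuous (eul X h) := by
    unfold eul
    exact continuous_id.add (hX.continuous.const_smul h)
  have hder : ∀ z, HasFDerivAt (eul X h) (ContinuousLinearMap.id ℝ F + h • fderiv ℝ X z) z := by
    intro z
    exact (hasFDerivAt_id z).add ((hd z).hasFDerivAt.const_smul h)
  have hone : ∀ A : Set F, MeasurableSet A → ENNReal.ofReal (1 - C * h ^ 2) * μ A ≤ μ (eul X h '' A) := by
    intro A hA
    rw [← lintegral_abs_det_fderiv_eq_addHaar_image μ hA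
      (fun z _ => (hder z).hasFDerivWithinAt) hinj.injOn, ← setLIntegral_const]
    refine lintegral_mono fun z => ENNReal.ofReal_le_ofReal ?_
    exact (hC (fderiv ℝ X z) (norm_fderiv_le_of_lipschitz ℝ hX) (htr z) h h0 h1).trans (le_abs_self _)
  have hmeas : ∀ (m : ℕ) (A : Set F), MeasurableSet A → MeasurableSet ((eul X h)^[m] '' A) := by
    intro m A hA
    exact hA.image_of_continuousOn_injOn (hcont.iterate m).continuousOn (hinj.iterate m).injOn
  intro m A hA
  induction m with
  | zero =>
    rw [pow_zero, ENNReal.ofReal_one, one_mul, Function.iterate_zero, Set.image_id]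
  | succ m ih =>
    rw [Function.iterate_succ', Set.image_comp, pow_succ']
    have h2 : 0 ≤ 1 - C * h ^ 2 := by linarith
    rw [ENNReal.ofReal_mul h2, mul_assoc]
    exact (mul_le_mul_right ih _).trans (hone _ (hmeas m A hA))

end Pool.Agent.Helper59.GT
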