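import Pool.Agent.Helper59.GT.Euler

/-!
# GT-05 EulerConv: the Euler iterates converge uniformly to the time one map

Proof. Local error: for `0 ≤ h ≤ 1`, `‖Φ h z - (z + h X z)‖ ≤ K C h ^ 2`: the curve `s ↦ Φ s z - s X z` has derivative `X (Φ s z) - X z` of norm `≤ K ‖Φ s z - z‖ ≤ K C s ≤ K C h` on `[0, h]`
(`‖Φ s z - z‖ ≤ C s` since the derivative is bounded by `C`; `norm_image_sub_le_of_norm_deriv_le_segment` or the mean value inequality `Convex.norm_image_sub_le_of_norm_hasDerivWithin_le`).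
Induction on `j`: `e_j = ‖eul ^ j z - Φ (j h) z‖`: `e_(j+1) ≤ ‖eul (eul ^ j z) - eul (Φ (j h) z)‖ + ‖eul (Φ (j h) z) - Φ h (Φ (j h) z)‖ ≤ (1 + h K) e_j + K C h ^ 2`, so
`e_j ≤ j (1 + h K) ^ j K C h ^ 2`. With `h = 1 / m`, `j = m`: `e_m ≤ (1 + K / m) ^ m K C / m ≤ exp K * K C / m`.
-/

set_option autoImplicit false
set_option maxSynthPendingDepth 3

open scoped NNReal

namespace Pool.Agent.Helper59.GT

variable {F : Type} [NormedAddCommGroup F] [NormedSpace ℝ F]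

private theorem local_err {X : F → F} {Φ : ℝ → F → F} (hf : IsFlow X Φ) {K : ℝ≥0}
    (hK : LipschitzWith K X) {C : ℝ} (hC : ∀ z, ‖X z‖ ≤ C) {h : ℝ} (h0 : 0 ≤ h) (z : F) :
    ‖Φ h z - eul X h z‖ ≤ K * C * h ^ 2 := by
  have h1 : ∀ s ∈ Set.Icc (0 : ℝ) h, ‖Φ s z - Φ 0 z‖ ≤ C * (s - 0) := by
    refine norm_image_sub_le_of_norm_deriv_le_segment' (f := fun s => Φ s z)
      (f' := fun s => X (Φ s z)) (fun x _ => (hf.deriv x z).hasDerivWithinAt) (fun x _ => hC _)
  have h2 : ∀ s ∈ Set.Icc (0 : ℝ) h, ‖(Φ s z - s • X z) - (Φ 0 z - (0 : ℝ) • X z)‖ ≤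
      (K * C * h) * (s - 0) := by
    refine norm_image_sub_le_of_norm_deriv_le_segment' (f := fun s => Φ s z - s • X z)
      (f' := fun s => X (Φ s z) - X z) (fun x _ => ?_) (fun x hx => ?_)
    · have h3 := (hf.deriv x z).sub ((hasDerivAt_id x).smul_const (X z))
      rw [one_smul] at h3
      exact h3.hasDerivWithinAt
    · have h3 := h1 x ⟨hx.1, hx.2.le⟩
      rw [hf.zero, sub_zero] at h3
      have h4 : ‖X (Φ x z) - X z‖ ≤ K * ‖Φ x z - z‖ := by
        have := hK.dist_le_mul (Φ x z) z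
        rwa [dist_eq_norm, dist_eq_norm] at this
      have hC0 : 0 ≤ C := (norm_nonneg _).trans (hC z)
      calc ‖X (Φ x z) - X z‖ ≤ K * (C * x) := h4.trans
            (mul_le_mul_of_nonneg_left h3 K.coe_nonneg)
        _ = K * C * x := by ring
        _ ≤ K * C * h := mul_le_mul_of_nonneg_left hx.2.le (mul_nonneg K.coe_nonneg hC0)
  have h3 := h2 h ⟨h0, le_rfl⟩
  rw [hf.zero, zero_smul, sub_zero, sub_zero] at h3
  have h4 : Φ h z - eul X h z = Φ h z - h • X z - z := by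
    unfold eul
    abel
  rw [h4]
  calc _ ≤ K * C * h * h := h3
    _ = _ := by ring

private theorem eul_lip {X : F → F} {K : ℝ≥0} (hK : LipschitzWith K X) {h : ℝ} (h0 : 0 ≤ h)
    (a b : F) : ‖eul X h a - eul X h b‖ ≤ (1 + h * K) * ‖a - b‖ := by
  have h1 : eul X h a - eul X h b = (a - b) + h • (X a - X b) := by
    unfold eul
    rw [smul_sub]
    abel
  rw [h1]
  have h4 : ‖X a - X b‖ ≤ K * ‖a - b‖ := by
    have := hK.dist_le_mul a b
    rwa [dist_eq_norm, dist_eq_norm] at this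
  calc ‖(a - b) + h • (X a - X b)‖ ≤ ‖a - b‖ + ‖h • (X a - X b)‖ := norm_add_le _ _
    _ = ‖a - b‖ + h * ‖X a - X b‖ := by rw [norm_smul, Real.norm_of_nonneg h0]
    _ ≤ ‖a - b‖ + h * (K * ‖a - b‖) := by gcongr
    _ = _ := by ring

theorem euler_conv {X : F → F} {Φ : ℝ → F → F} (h : IsFlow X Φ) {K : ℝ≥0} (hK : LipschitzWith K X) {C : ℝ}
    (hC : ∀ z, ‖X z‖ ≤ C) : ∃ M : ℝ, 0 ≤ M ∧ ∀ (m : ℕ), 1 ≤ m → ∀ z,
      ‖(eul X (1 / (m : ℝ)))^[m] z - Φ 1 z‖ ≤ M / m := by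
  have hC0 : 0 ≤ C := (norm_nonneg _).trans (hC 0)
  refine ⟨Real.exp K * (K * C), by positivity, fun m hm z => ?_⟩
  have hm0 : (0 : ℝ) < m := by exact_mod_cast hm
  obtain ⟨η, hη⟩ : ∃ η : ℝ, η = 1 / (m : ℝ) := ⟨_, rfl⟩
  have hη0 : 0 ≤ η := by rw [hη]; positivity
  have h1 : 1 ≤ 1 + η * K := by
    have := mul_nonneg hη0 K.coe_nonneg
    linarith
  have key : ∀ j : ℕ, ‖(eul X η)^[j] z - Φ (j * η) z‖ ≤ j * (1 + η * K) ^ j * (K * C * η ^ 2) := by
    intro j
    induction j with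
    | zero =>
      rw [Function.iterate_zero_apply, Nat.cast_zero, zero_mul, h.zero, sub_self, norm_zero,
        zero_mul, zero_mul]
    | succ j ih =>
      have h2 : Φ ((j + 1 : ℕ) * η) z = Φ η (Φ (j * η) z) := by
        rw [← h.add hK]
        congr 1
        push_cast
        ring
      rw [Function.iterate_succ_apply', h2]
      have h3 : ‖eul X η ((eul X η)^[j] z) - Φ η (Φ (j * η) z)‖ ≤
          ‖eul X η ((eul X η)^[j] z) - eul X η (Φ (j * η) z)‖ +
            ‖Φ η (Φ (j * η) z) - eul X η (Φ (j * η) z)‖ := by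
        rw [norm_sub_rev (Φ η (Φ (j * η) z))]
        exact norm_sub_le_norm_sub_add_norm_sub _ _ _
      refine h3.trans ?_
      have h4 := eul_lip hK hη0 ((eul X η)^[j] z) (Φ (j * η) z)
      have h5 := local_err h hK hC hη0 (Φ (j * η) z)
      have h6 : (1 : ℝ) ≤ (1 + η * K) ^ (j + 1) := one_le_pow₀ h1
      have h7 : 0 ≤ K * C * η ^ 2 := by positivity
      have h8 : (1 + η * K) * ‖(eul X η)^[j] z - Φ (j * η) z‖ ≤
          (1 + η * K) * (j * (1 + η * K) ^ j * (K * C * η ^ 2)) :=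
        mul_le_mul_of_nonneg_left ih (by linarith)
      calc _ ≤ (1 + η * K) * (j * (1 + η * K) ^ j * (K * C * η ^ 2)) + 1 * (K * C * η ^ 2) := by
            linarith
        _ ≤ (1 + η * K) * (j * (1 + η * K) ^ j * (K * C * η ^ 2)) +
            (1 + η * K) ^ (j + 1) * (K * C * η ^ 2) := by gcongr
        _ = _ := by push_cast; ring
  have h2 := key m
  have h3 : (m : ℝ) * η = 1 := by rw [hη]; field_simp
  rw [h3] at h2
  rw [← hη]
  refine h2.trans ?_
  have h4 : (1 + η * K) ^ m ≤ Real.exp K := by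
    have h5 : 1 + η * K ≤ Real.exp (η * K) := by
      rw [add_comm]
      exact Real.add_one_le_exp _
    calc (1 + η * K) ^ m ≤ Real.exp (η * K) ^ m := pow_le_pow_left₀ (by linarith) h5 m
      _ = Real.exp K := by
        rw [← Real.exp_nat_mul, ← mul_assoc, h3, one_mul]
  have h5 : (m : ℝ) * (1 + η * K) ^ m * (K * C * η ^ 2) = (1 + η * K) ^ m * (K * C) * η := by
    calc _ = (m * η) * ((1 + η * K) ^ m * (K * C) * η) := by ring
      _ = _ := by rw [h3, one_mul]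
  rw [h5, hη, mul_one_div]
  rw [← hη]
  gcongr

end Pool.Agent.Helper59.GT
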