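import Pool.Agent.Helper59.GT.SmoothGeod
import Pool.Agent.Helper59.GT.ConfConv
import Pool.Agent.Helper59.GT.Mollify
import Pool.Agent.Helper59.GT.Limit

/-!
# GT-45 ExistC1: existence of geodesics for the metrics `conf u g`, `u` of class `C ^ 1`

Proof. For `j : ℕ` take smooth periodic `u_j` with `|u_j - u|, ‖D u_j - D u‖ < 1 / (j + 1)` (`exists_smooth_near`); `ConvMet (conf u_j g) (conf u g)` by `conf_conv`. `v_j = (√(conf u_j g x v v))⁻¹ • v → v` (`v ≠ 0`), unit for `conf u_j g`; `c_j` from `exists_geodesic_smooth` (`isMetric_conf`) with `c_j 0 = x`, `c_j' 0 = v_j`.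
`limit_geodesic` with `U = Filter.hyperfilter ℕ` gives `c`; `c 0 = lim x = x`, `c' 0 = lim v_j = v` (`tendsto_nhds_unique`).
-/

set_option autoImplicit false
set_option maxSynthPendingDepth 3

open scoped ContDiff

namespace Pool.Agent.Helper59.GT

theorem exists_geodesic_C1 {n : ℕ} {g : E n → Bil n} (hg : IsMetric ∞ g) (u : E n → ℝ) (hu : ContDiff ℝ 1 u)
    (hper : ∀ k x, u (x + latt k) = u x) (x v : E n) (hv : conf u g x v v = 1) :
    ∃ c, IsGeodesic (conf u g) c ∧ UnitSpeed (conf u g) c ∧ c 0 = x ∧ deriv c 0 = v := by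
  have hg1 : IsMetric 1 g := ⟨hg.smooth.of_le (by exact_mod_cast le_top), hg.symm, hg.pos, hg.per⟩
  have hpos : ∀ j : ℕ, (0 : ℝ) < 1 / ((j : ℝ) + 1) := fun j => by positivity
  choose us hs hp hn using fun j : ℕ => exists_smooth_near u hu hper (1 / ((j : ℝ) + 1)) (hpos j)
  have hconv : ConvMet (fun j => conf (us j) g) (conf u g) := by
    intro ε hε
    obtain ⟨δ, hδ, h⟩ := conf_conv hg u hu hper ε hε
    have h1 : ∀ᶠ j : ℕ in Filter.atTop, 1 / ((j : ℝ) + 1) < δ :=
      (tendsto_one_div_add_atTop_nhds_zero_nat (𝕜 := ℝ)).eventually_lt_const hδ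
    filter_upwards [h1] with j hj
    refine h (us j) ((hs j).differentiable (by simp)) fun y => ?_
    exact ⟨(hn j y).1.trans hj, (hn j y).2.trans hj⟩
  have hv0 : v ≠ 0 := by
    rintro rfl
    simp at hv
  have hm : ∀ j, IsMetric ∞ (conf (us j) g) := fun j => isMetric_conf hg (hs j) (hp j)
  have hm1 : ∀ j, IsMetric 1 (conf (us j) g) := fun j =>
    isMetric_conf hg1 ((hs j).of_le (by exact_mod_cast le_top)) (hp j)
  have hmu : IsMetric 1 (conf u g) := isMetric_conf hg1 hu hper
  have hq : ∀ j, 0 < conf (us j) g x v v := fun j => (hm j).pos x v hv0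
  have hunit : ∀ j, conf (us j) g x ((Real.sqrt (conf (us j) g x v v))⁻¹ • v)
      ((Real.sqrt (conf (us j) g x v v))⁻¹ • v) = 1 := by
    intro j
    have h1 : Real.sqrt (conf (us j) g x v v) * Real.sqrt (conf (us j) g x v v) =
        conf (us j) g x v v := Real.mul_self_sqrt (hq j).le
    have h2 : Real.sqrt (conf (us j) g x v v) ≠ 0 := (Real.sqrt_pos.2 (hq j)).ne'
    have h3 : conf (us j) g x ((Real.sqrt (conf (us j) g x v v))⁻¹ • v)
        ((Real.sqrt (conf (us j) g x v v))⁻¹ • v) =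
        (Real.sqrt (conf (us j) g x v v))⁻¹ * ((Real.sqrt (conf (us j) g x v v))⁻¹ *
          conf (us j) g x v v) := by
      rw [map_smul, map_smul, smul_apply, smul_eq_mul, smul_eq_mul]
    rw [h3]
    have h4 : (Real.sqrt (conf (us j) g x v v))⁻¹ * ((Real.sqrt (conf (us j) g x v v))⁻¹ *
        (Real.sqrt (conf (us j) g x v v) * Real.sqrt (conf (us j) g x v v))) = 1 := by
      field_simp
    rwa [h1] at h4
  choose cs hc1 hc2 hc3 hc4 using fun j => exists_geodesic_smooth (hm j) x _ (hunit j)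
  have hU : ((Filter.hyperfilter ℕ : Ultrafilter ℕ) : Filter ℕ) ≤ Filter.atTop :=
    Nat.hyperfilter_le_atTop
  obtain ⟨c, g1, g2, g3, g4, -⟩ := limit_geodesic (Filter.hyperfilter ℕ) hU (conf u g) hmu
    (fun j => conf (us j) g) hm1 hconv cs hc1 hc2 ‖x‖ (fun j => by rw [hc3 j])
  refine ⟨c, g1, g2, ?_, ?_⟩
  · have h1 := g3 0
    simp only [hc3] at h1
    exact tendsto_nhds_unique h1 tendsto_const_nhds
  · have h1 := g4 0
    simp only [hc4] at h1
    have h2 : Filter.Tendsto (fun j => conf (us j) g x) Filter.atTop (nhds (conf u g x)) := by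
      rw [Metric.tendsto_atTop']
      intro ε hε
      obtain ⟨N, hN⟩ := Filter.eventually_atTop.1 (hconv ε hε)
      refine ⟨N, fun j hj => ?_⟩
      rw [dist_eq_norm]
      exact (hN j hj.le x).1
    have h3 : Filter.Tendsto (fun j => conf (us j) g x v v) Filter.atTop (nhds 1) := by
      have hc : Continuous (fun B : Bil n => B v v) := by fun_prop
      have h4 := (hc.tendsto (conf u g x)).comp h2
      rw [hv] at h4
      exact h4
    have h5 : Filter.Tendsto (fun j => (Real.sqrt (conf (us j) g x v v))⁻¹ • v) Filter.atTop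
        (nhds v) := by
      have h6 := ((Real.continuous_sqrt.tendsto 1).comp h3).inv₀ (by simp)
      have h7 := h6.smul (tendsto_const_nhds (x := v))
      simpa using h7
    exact tendsto_nhds_unique h1 (h5.mono_left hU)

end Pool.Agent.Helper59.GT
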