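import Mathlib

/-!
# GT-01 Flow: global flow of a bounded Lipschitz vector field, and ODE facts

`IsFlow X Φ`: `Φ 0 z = z` and `d/dt Φ t z = X (Φ t z)`.

Proof.
* `exists_flow`. Fix `z`. For every `T > 0` Picard-Lindelof (`IsPicardLindelof` with radius `a = C T`, resp. `C * T + 1`, Lipschitz constant `K`, bound `C`; all conditions hold on the whole space) gives a
  solution on `[-T, T]` with value `z` at `0`. Two solutions on `[-T, T]` with the same value at `0` agree (`ODE_solution_unique_of_mem_Icc` or `ODE_solution_unique_of_mem_Ioo`). So put `Φ t z` = the value at `t` of the solution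
  on `[-(|t| + 1), |t| + 1]`; near `t` it agrees with one fixed solution, so it has the right derivative.
* `eq_of_deriv`: uniqueness on `ℝ` (`ODE_solution_unique_univ`).
* `add`: both sides are solutions in `s` (`HasDerivAt.comp_add_const` or so) with the same value at `s = 0`; use `eq_of_deriv`.
* `dist_le`: Gronwall (`dist_le_of_trajectories_ODE`) for `t ≥ 0`; for `t < 0` apply it to the reversed curves `s ↦ Φ (-s) z`, solutions for `-X`.
-/

set_option autoImplicit false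
set_option maxSynthPendingDepth 3

open scoped NNReal

namespace Pool.Agent.Helper59.GT

variable {F : Type} [NormedAddCommGroup F] [NormedSpace ℝ F]

/-- `Φ` is the global flow of `X`. -/
structure IsFlow (X : F → F) (Φ : ℝ → F → F) : Prop where
  zero : ∀ z, Φ 0 z = z
  deriv : ∀ t z, HasDerivAt (fun s => Φ s z) (X (Φ t z)) t

private theorem local_sol [CompleteSpace F] (X : F → F) (K : ℝ≥0) (hK : LipschitzWith K X) (C : ℝ)
    (hC : ∀ z, ‖X z‖ ≤ C) (z : F) (n : ℕ) :
    ∃ α : ℝ → F, α 0 = z ∧ ∀ t ∈ Set.Ioo (-((n : ℝ) + 1)) ((n : ℝ) + 1), HasDerivAt α (X (α t)) t := by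
  have h0 : (0 : ℝ) ∈ Set.Icc (-((n : ℝ) + 1)) ((n : ℝ) + 1) := by
    constructor
    · have : (0 : ℝ) ≤ n := Nat.cast_nonneg n
      linarith
    · positivity
  have hP : IsPicardLindelof (fun _ => X) (⟨0, h0⟩ : Set.Icc (-((n : ℝ) + 1)) ((n : ℝ) + 1)) z
      (C.toNNReal * ((n : ℝ≥0) + 1)) 0 C.toNNReal K := by
    refine IsPicardLindelof.of_time_independent ?_ hK.lipschitzOnWith ?_
    · intro x _
      exact (hC x).trans (Real.le_coe_toNNReal C)
    · show (C.toNNReal : ℝ) * max ((n : ℝ) + 1 - 0) (0 - -((n : ℝ) + 1)) ≤ _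
      rw [sub_zero, zero_sub, neg_neg, max_self]
      simp
  obtain ⟨α, h1, h2⟩ := hP.exists_eq_forall_mem_Icc_hasDerivWithinAt₀
  exact ⟨α, h1, fun t ht => (h2 t ⟨ht.1.le, ht.2.le⟩).hasDerivAt (Icc_mem_nhds ht.1 ht.2)⟩

theorem exists_flow [CompleteSpace F] (X : F → F) (K : ℝ≥0) (hK : LipschitzWith K X) (C : ℝ) (hC : ∀ z, ‖X z‖ ≤ C) :
    ∃ Φ : ℝ → F → F, IsFlow X Φ := by
  choose α hα0 hα using fun z n => local_sol X K hK C hC z n
  have hun : ∀ z (m n : ℕ) (t : ℝ), |t| < (m : ℝ) + 1 → |t| < (n : ℝ) + 1 → α z m t = α z n t := by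
    intro z m n t hm hn
    obtain ⟨b, hb1, hb2, hb3⟩ : ∃ b : ℝ, |t| < b ∧ b ≤ (m : ℝ) + 1 ∧ b ≤ (n : ℝ) + 1 :=
      ⟨min ((m : ℝ) + 1) ((n : ℝ) + 1), lt_min hm hn, min_le_left _ _, min_le_right _ _⟩
    have hb0 : 0 < b := (abs_nonneg t).trans_lt hb1
    refine ODE_solution_unique_of_mem_Ioo (v := fun _ => X) (s := fun _ => Set.univ) (K := K) (a := -b)
      (b := b) (t₀ := 0) (fun _ _ => hK.lipschitzOnWith) ⟨by linarith, hb0⟩
      (fun s hs => ⟨hα z m s ⟨by linarith [hs.1], by linarith [hs.2]⟩, Set.mem_univ _⟩)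
      (fun s hs => ⟨hα z n s ⟨by linarith [hs.1], by linarith [hs.2]⟩, Set.mem_univ _⟩)
      (by rw [hα0, hα0]) (abs_lt.1 hb1)
  refine ⟨fun t z => α z ⌈|t|⌉₊ t, ⟨fun z => hα0 z _, fun t z => ?_⟩⟩
  have hN : |t| < ((⌈|t|⌉₊ + 1 : ℕ) : ℝ) + 1 := by
    have := Nat.le_ceil |t|
    push_cast
    linarith
  have h1 : HasDerivAt (α z (⌈|t|⌉₊ + 1)) (X (α z (⌈|t|⌉₊ + 1) t)) t :=
    hα z _ t (abs_lt.1 hN)
  have h2 : α z ⌈|t|⌉₊ t = α z (⌈|t|⌉₊ + 1) t := by
    refine hun z _ _ t ?_ hN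
    have := Nat.le_ceil |t|
    linarith
  have h3 : (fun s => α z ⌈|s|⌉₊ s) =ᶠ[nhds t] α z (⌈|t|⌉₊ + 1) := by
    filter_upwards [Metric.ball_mem_nhds t one_pos] with s hs
    rw [Metric.mem_ball, Real.dist_eq] at hs
    refine hun z _ _ s ?_ ?_
    · have := Nat.le_ceil |s|
      linarith
    · have h4 := Nat.le_ceil |t|
      have h5 : |s| ≤ |s - t| + |t| := by
        have := abs_add_le (s - t) t
        rwa [sub_add_cancel] at this
      push_cast
      linarith
  show HasDerivAt (fun s => α z ⌈|s|⌉₊ s) (X (α z ⌈|t|⌉₊ t)) t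
  rw [h2]
  exact h1.congr_of_eventuallyEq h3

theorem IsFlow.eq_of_deriv {X : F → F} {Φ : ℝ → F → F} (h : IsFlow X Φ) {K : ℝ≥0} (hK : LipschitzWith K X)
    {Z : ℝ → F} (hZ : ∀ t, HasDerivAt Z (X (Z t)) t) (t : ℝ) : Z t = Φ t (Z 0) := by
  have h1 : Z = fun t => Φ t (Z 0) := by
    refine ODE_solution_unique_univ (v := fun _ => X) (s := fun _ => Set.univ) (K := K) (t₀ := 0)
      (fun _ => hK.lipschitzOnWith) (fun t => ⟨hZ t, Set.mem_univ _⟩)
      (fun t => ⟨h.deriv t (Z 0), Set.mem_univ _⟩) ?_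
    rw [h.zero]
  exact congrFun h1 t

theorem IsFlow.add {X : F → F} {Φ : ℝ → F → F} (h : IsFlow X Φ) {K : ℝ≥0} (hK : LipschitzWith K X)
    (s t : ℝ) (z : F) : Φ (s + t) z = Φ s (Φ t z) := by
  have h1 := h.eq_of_deriv hK (Z := fun s => Φ (s + t) z) (fun s => (h.deriv (s + t) z).comp_add_const s t) s
  rwa [zero_add] at h1

theorem IsFlow.dist_le {X : F → F} {Φ : ℝ → F → F} (h : IsFlow X Φ) {K : ℝ≥0} (hK : LipschitzWith K X)
    (t : ℝ) (z w : F) : dist (Φ t z) (Φ t w) ≤ Real.exp (K * |t|) * dist z w := by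
  have hcont : ∀ y, Continuous fun s => Φ s y := fun y =>
    continuous_iff_continuousAt.2 fun s => (h.deriv s y).continuousAt
  rcases le_total 0 t with ht | ht
  · have h1 := dist_le_of_trajectories_ODE (v := fun _ => X) (K := K) (a := 0) (b := t)
      (f := fun s => Φ s z) (g := fun s => Φ s w) (δ := dist z w) (fun _ => hK) (hcont z).continuousOn
      (fun s _ => (h.deriv s z).hasDerivWithinAt) (hcont w).continuousOn
      (fun s _ => (h.deriv s w).hasDerivWithinAt) (by rw [h.zero, h.zero]) t ⟨ht, le_refl _⟩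
    rw [sub_zero] at h1
    rw [abs_of_nonneg ht, mul_comm]
    exact h1
  · have hneg : ∀ y s, HasDerivAt (fun s => Φ (-s) y) (-X (Φ (-s) y)) s := by
      intro y s
      have h2 := (h.deriv (-s) y).scomp s (hasDerivAt_neg s)
      rw [neg_smul, one_smul] at h2
      exact h2
    have h1 := dist_le_of_trajectories_ODE (v := fun _ y => -X y) (K := K) (a := 0) (b := -t)
      (f := fun s => Φ (-s) z) (g := fun s => Φ (-s) w) (δ := dist z w) (fun _ => hK.neg)
      ((hcont z).comp continuous_neg).continuousOn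
      (fun s _ => (hneg z s).hasDerivWithinAt) ((hcont w).comp continuous_neg).continuousOn
      (fun s _ => (hneg w s).hasDerivWithinAt) (by rw [neg_zero, h.zero, h.zero]) (-t)
      ⟨by linarith, le_refl _⟩
    rw [sub_zero, neg_neg] at h1
    rw [abs_of_nonpos ht, mul_comm]
    exact h1

end Pool.Agent.Helper59.GT
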