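import Pool.Agent.Helper59.GT.Defs

/-!
# Project GT: the open dense sets (definitions)

* `UU g m`: any two unit speed geodesics of `conf p.fn g` with the same initial vector are `1 / (m + 1)`-close on `[-m, m]`.
* `OO g m`: for some unit vector and some `T`, all unit speed geodesics with this initial vector have `1 / (m + 1)`-dense tangent vectors on `[0, T]`.
-/

set_option autoImplicit false
set_option maxSynthPendingDepth 3

namespace Pool.Agent.Helper59.GT

/-- Almost uniqueness of geodesics. -/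
def UU {n : ℕ} (g : E n → Bil n) (m : ℕ) : Set (C1Fun n) :=
  {p | ∀ c d : ℝ → E n, IsGeodesic (conf p.fn g) c → UnitSpeed (conf p.fn g) c → IsGeodesic (conf p.fn g) d →
    UnitSpeed (conf p.fn g) d → c 0 = d 0 → deriv c 0 = deriv d 0 → ∀ t : ℝ, |t| ≤ m → ‖c t - d t‖ < 1 / ((m : ℝ) + 1)}

/-- Almost density of some geodesics. -/
def OO {n : ℕ} (g : E n → Bil n) (m : ℕ) : Set (C1Fun n) :=
  {p | ∃ x v, conf p.fn g x v v = 1 ∧ ∃ T : ℝ, 0 < T ∧ ∀ c : ℝ → E n, IsGeodesic (conf p.fn g) c →
    UnitSpeed (conf p.fn g) c → c 0 = x → deriv c 0 = v → EpsDense (conf p.fn g) c (1 / ((m : ℝ) + 1)) (Set.Icc 0 T)}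

end Pool.Agent.Helper59.GT
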