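import Pool.Agent.Helper59.GT.GeoFlow
import Pool.Agent.Helper59.GT.ShellLem
import Pool.Agent.Helper59.GT.ChainAbs

/-!
# GT-16 GeoChain: chain transitivity of the geodesic flow on the shell

Proof. `chain_transitive` with `φ = Φ 1` and `K = Shell g`: `φ` is continuous (`dist_le`) and injective (`Φ (-1) (Φ 1 z) = Φ 0 z = z`), commutes with `sh k`, `vol`; the shell is open, preconnected, invariant, `φ` preserves it (`energy`), finite volume per cell.
-/

set_option autoImplicit false
set_option maxSynthPendingDepth 3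

open scoped ContDiff

namespace Pool.Agent.Helper59.GT

theorem geo_chain {n : ℕ} (hn : 2 ≤ n) {g : E n → Bil n} (hg : IsMetric ∞ g) {Φ : ℝ → Ph n → Ph n} {K : ℝ}
    (hΦ : GeoFlow g Φ K) (δ : ℝ) (hδ : 0 < δ) (a : Ph n) (ha : a ∈ Shell g) (b : Ph n) (hb : b ∈ Shell g) :
    Relation.TransGen (Step (Φ 1) (Shell g) δ) a b := by
  have hc : Continuous (Φ 1) := by
    have hL : LipschitzWith (Real.toNNReal (Real.exp (K * |(1 : ℝ)|))) (Φ 1) := by
      apply LipschitzWith.of_dist_le_mul
      intro z w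
      rw [Real.coe_toNNReal _ (Real.exp_pos _).le]
      exact hΦ.dist_le 1 z w
    exact hL.continuous
  have hback : ∀ z, Φ (-1) (Φ 1 z) = z := fun z => by
    rw [← hΦ.add, neg_add_cancel, hΦ.zero]
  have hi : Function.Injective (Φ 1) := by
    intro z w h
    rw [← hback z, ← hback w, h]
  refine chain_transitive (Φ 1) hc hi (fun k z => hΦ.sh 1 k z) hΦ.vol (Shell g) (shell_open hg)
    (shell_preconnected hg hn) (shell_inv hg) (fun z hz => ?_) (shell_finite hg) δ hδ a ha b hb
  have h2 := hz.2
  have h1 : Hk g (Φ 1 z) = Hk g z := hΦ.energy z (by linarith) 1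
  exact ⟨by rw [h1]; exact hz.1, by rw [h1]; exact hz.2⟩

end Pool.Agent.Helper59.GT
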