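import Pool.Agent.Helper59.GT.LocalExt
import Pool.Agent.Helper59.GT.Periodize

/-!
# GT-35 Jet: a periodic smooth function with prescribed first jet along an embedded closed curve

Proof. For `y ∈ Q = [0, 1] ^ n` take `r_y, F_y` from `local_ext` and a smooth bump `b_y ≥ 0` with compact support, `b_y > 0` exactly on `ball y r_y` (`ContDiffBump`, radii `r_y / 2 < r_y`: positive on the ball, zero outside). Finitely many balls `ball y_i r_i` cover the compact `Q`.
`D = ∑_i pz b_i`, `A = ∑_i pz (b_i F_i)`, smooth and periodic; `D > 0` everywhere (every `x` has a translate in `Q`; the terms are nonnegative, `pz_eq_sum`, choose `S` large: the value `b_i (x + latt k) > 0` occurs in the finsum). `F = A / D`.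
At `x = c t`: by `pz_eq_sum` (for `b_i` and `b_i F_i`; use the union of the finsets, or apply it to both and compare finsums) and for every `i, k`: either `b_i (x + latt k) = 0`, and then also `D b_i (x + latt k) = 0` (`b_i ≥ 0` has a minimum there) or `x + latt k ∈ ball y_i r_i`, where `F_i = 0` and `D F_i = α t`. So
`(b_i F_i) (x + latt k) = 0` and `D (b_i F_i) (x + latt k) = b_i (x + latt k) α t` in both cases. Summing: `A (x) = 0`, `D A (x) = D (x) α t` (denominator value times `α t`), and the derivative of the quotient at a zero of the numerator is `D A (x) / D (x) = α t`.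
-/

set_option autoImplicit false
set_option maxSynthPendingDepth 3

open scoped ContDiff

namespace Pool.Agent.Helper59.GT

/-- a bump function, positive exactly on the ball -/
private lemma jet_bump {n : ℕ} (y : E n) (r : ℝ) (hr : 0 < r) :
    ∃ b : E n → ℝ, ContDiff ℝ ∞ b ∧ HasCompactSupport b ∧ (∀ x, 0 ≤ b x) ∧
      ∀ x, b x ≠ 0 ↔ ‖x - y‖ < r := by
  obtain ⟨f, hf⟩ : ∃ f : ContDiffBump y, f.rOut = r :=
    ⟨⟨r / 2, r, by linarith, by linarith⟩, rfl⟩
  refine ⟨f, f.contDiff, f.hasCompactSupport, fun x => f.nonneg, fun x => ?_⟩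
  rw [← Function.mem_support, f.support_eq, mem_ball_iff_norm, hf]

private lemma exists_translate {n : ℕ} (x : E n) :
    ∃ k : Fin n → ℤ, x + latt k ∈ Metric.closedBall (0 : E n) (Real.sqrt n) := by
  refine ⟨fun i => -⌊x i⌋, ?_⟩
  rw [mem_closedBall_zero_iff, EuclideanSpace.norm_eq]
  apply Real.sqrt_le_sqrt
  have h : ∀ i ∈ (Finset.univ : Finset (Fin n)),
      ‖(x + latt (fun i => -⌊x i⌋) : E n) i‖ ^ 2 ≤ 1 := by
    intro i _
    have h1 : (x + latt (fun i => -⌊x i⌋) : E n) i = x i - ⌊x i⌋ := by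
      simp [latt, sub_eq_add_neg]
    have h2 := Int.floor_le (x i)
    have h3 := Int.lt_floor_add_one (x i)
    rw [h1, Real.norm_eq_abs, sq_abs]
    nlinarith
  refine (Finset.sum_le_sum h).trans ?_
  simp

private lemma bump_mul {n : ℕ} {b F : E n → ℝ} (hb : ContDiff ℝ ∞ b) (hF : ContDiff ℝ ∞ F)
    (hb0 : ∀ x, 0 ≤ b x) (z : E n) (a : E n →L[ℝ] ℝ)
    (h : b z ≠ 0 → F z = 0 ∧ fderiv ℝ F z = a) :
    (fun x => b x * F x) z = 0 ∧ fderiv ℝ (fun x => b x * F x) z = b z • a := by
  have hbd : DifferentiableAt ℝ b z := (hb.differentiable (by simp)) z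
  have hFd : DifferentiableAt ℝ F z := (hF.differentiable (by simp)) z
  have hmul : fderiv ℝ (fun x => b x * F x) z = b z • fderiv ℝ F z + F z • fderiv ℝ b z :=
    fderiv_fun_mul hbd hFd
  by_cases hz : b z = 0
  · have h1 : fderiv ℝ b z = 0 := by
      apply IsLocalMin.fderiv_eq_zero
      refine Filter.Eventually.of_forall fun x => ?_
      rw [hz]
      exact hb0 x
    refine ⟨?_, ?_⟩
    · show b z * F z = 0
      rw [hz, zero_mul]
    · rw [hmul, hz, h1, zero_smul, zero_smul, smul_zero, add_zero]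
  · obtain ⟨h1, h2⟩ := h hz
    refine ⟨?_, ?_⟩
    · show b z * F z = 0
      rw [h1, mul_zero]
    · rw [hmul, h1, h2, zero_smul, add_zero]

theorem exists_jet {n : ℕ} (c : ℝ → E n) (P : ℝ) (hP : 0 < P) (hs : ContDiff ℝ ∞ c) (hper : ∃ k, ∀ t, c (t + P) = c t + latt k)
    (hemb : ∀ s t, (∃ k, c s = c t + latt k) → ∃ m : ℤ, s - t = m * P) (hreg : ∀ t, deriv c t ≠ 0)
    (α : ℝ → E n →L[ℝ] ℝ) (hα : ContDiff ℝ ∞ α) (hαP : ∀ t, α (t + P) = α t) (hα0 : ∀ t, α t (deriv c t) = 0) :
    ∃ F : E n → ℝ, ContDiff ℝ ∞ F ∧ (∀ k x, F (x + latt k) = F x) ∧ ∀ t, F (c t) = 0 ∧ fderiv ℝ F (c t) = α t := by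
  classical
  choose r hr F hFs hF using fun y : E n =>
    local_ext c P hP hs hper hemb hreg α hα hαP hα0 y
  choose b hbs hbc hb0 hbne using fun y : E n => jet_bump y (r y) (hr y)
  obtain ⟨I, -, hI⟩ := (isCompact_closedBall (0 : E n) (Real.sqrt n)).elim_nhds_subcover
    (fun y => Metric.ball y (r y)) (fun y _ => Metric.ball_mem_nhds y (hr y))
  have hbFs : ∀ y, ContDiff ℝ ∞ (fun x => b y x * F y x) := fun y => (hbs y).mul (hFs y)
  have hbFc : ∀ y, HasCompactSupport (fun x => b y x * F y x) := fun y => (hbc y).mul_right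
  -- denominator and numerator
  have hDs : ContDiff ℝ ∞ (fun x => ∑ y ∈ I, pz (b y) x) :=
    ContDiff.sum fun y _ => contDiff_pz (b y) (hbs y) (hbc y)
  have hAs : ContDiff ℝ ∞ (fun x => ∑ y ∈ I, pz (fun x => b y x * F y x) x) :=
    ContDiff.sum fun y _ => contDiff_pz _ (hbFs y) (hbFc y)
  have hpz0 : ∀ y x, 0 ≤ pz (b y) x := by
    intro y x
    obtain ⟨S, hS⟩ := pz_eq_sum (b y) (hbs y) (hbc y) x
    rw [(hS S (Finset.Subset.refl S)).1]
    exact Finset.sum_nonneg fun k _ => hb0 y _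
  have hDpos : ∀ x, 0 < ∑ y ∈ I, pz (b y) x := by
    intro x
    obtain ⟨k, hk⟩ := exists_translate x
    obtain ⟨y, hy⟩ := Set.mem_iUnion.1 (hI hk)
    obtain ⟨hyI, hy2⟩ := Set.mem_iUnion.1 hy
    apply Finset.sum_pos' (fun y _ => hpz0 y x)
    refine ⟨y, hyI, ?_⟩
    obtain ⟨S, hS⟩ := pz_eq_sum (b y) (hbs y) (hbc y) x
    rw [(hS (insert k S) (Finset.subset_insert k S)).1]
    apply Finset.sum_pos' (fun k _ => hb0 y _)
    refine ⟨k, Finset.mem_insert_self k S, ?_⟩
    have h1 : b y (x + latt k) ≠ 0 := (hbne y _).2 (by rwa [mem_ball_iff_norm] at hy2)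
    exact lt_of_le_of_ne (hb0 y _) h1.symm
  refine ⟨fun x => (∑ y ∈ I, pz (fun x => b y x * F y x) x) * (∑ y ∈ I, pz (b y) x)⁻¹,
    hAs.mul (hDs.inv fun x => (hDpos x).ne'), ?_, ?_⟩
  · intro k x
    simp only [pz_per]
  · intro t
    have hkey : ∀ y, pz (fun x => b y x * F y x) (c t) = 0 ∧
        fderiv ℝ (pz (fun x => b y x * F y x)) (c t) = pz (b y) (c t) • α t := by
      intro y
      obtain ⟨S1, hS1⟩ := pz_eq_sum (b y) (hbs y) (hbc y) (c t)
      obtain ⟨S2, hS2⟩ := pz_eq_sum _ (hbFs y) (hbFc y) (c t)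
      have h1 := hS1 (S1 ∪ S2) Finset.subset_union_left
      have h2 := hS2 (S1 ∪ S2) Finset.subset_union_right
      have h3 : ∀ k, (fun x => b y x * F y x) (c t + latt k) = 0 ∧
          fderiv ℝ (fun x => b y x * F y x) (c t + latt k) = b y (c t + latt k) • α t := by
        intro k
        apply bump_mul (hbs y) (hFs y) (hb0 y)
        intro hne
        exact hF y t k ((hbne y _).1 hne)
      constructor
      · rw [h2.1]
        exact Finset.sum_eq_zero fun k _ => (h3 k).1
      · rw [h2.2, h1.1, Finset.sum_smul]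
        exact Finset.sum_congr rfl fun k _ => (h3 k).2
    have hA0 : ∑ y ∈ I, pz (fun x => b y x * F y x) (c t) = 0 :=
      Finset.sum_eq_zero fun y _ => (hkey y).1
    have hA1 : HasFDerivAt (fun x => ∑ y ∈ I, pz (fun x => b y x * F y x) x)
        ((∑ y ∈ I, pz (b y) (c t)) • α t) (c t) := by
      rw [Finset.sum_smul]
      apply HasFDerivAt.fun_sum
      intro y _
      rw [← (hkey y).2]
      exact ((contDiff_pz _ (hbFs y) (hbFc y)).differentiable (by simp) (c t)).hasFDerivAt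
    have hD1 : HasFDerivAt (fun x => (∑ y ∈ I, pz (b y) x)⁻¹)
        (fderiv ℝ (fun x => (∑ y ∈ I, pz (b y) x)⁻¹) (c t)) (c t) :=
      ((hDs.inv fun x => (hDpos x).ne').differentiable (by simp) (c t)).hasFDerivAt
    refine ⟨by simp only [hA0, zero_mul], ?_⟩
    rw [(hA1.fun_mul hD1).fderiv, hA0, zero_smul, zero_add, smul_smul,
      inv_mul_cancel₀ (hDpos (c t)).ne', one_smul]

end Pool.Agent.Helper59.GT
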