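import Pool.Agent.Helper59.GT.Branch

/-!
# GT-33 LocalExt: local functions with prescribed first jet along the curve

Proof. The set `𝒞 = {c t + latt k}` is closed (`c '' [0, P]` is compact and `𝒞` is its union over all integer translations, a locally finite union). If `y ∉ 𝒞` take `r` with `ball y r` disjoint from `𝒞` and `F = 0`.
Let `y = c t0 + latt k0`. `deriv c t0 ≠ 0`: some coordinate `i` has `c_i' (t0) ≠ 0`. Inverse function theorem for `f t = c_i t + k0_i` at `t0` (`ContDiffAt.toOpenPartialHomeomorph`, `HasStrictDerivAt.localInverse`, `ContDiffAt.to_localInverse`):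
there are `ρ > 0`, an open interval `J ∋ y_i` and `τ : ℝ → ℝ`, smooth on `J`, with `τ (f t) = t` for `|t - t0| < ρ` with `f t ∈ J`. `F₁ x = α (τ (x_i)) (x - latt k0 - c (τ (x_i)))` is smooth on `{x_i ∈ J}`; let `b` be a smooth bump function (`ContDiffBump` at `y`),
`b = 1` on `ball y r₁`, with support in `{x_i ∈ J}`, and `F = b F₁` (`0` outside the support), smooth. Let `r ≤ r₁` also be from `branch` for `ρ`. If `‖c t + latt k - y‖ < r` then with `m` from `branch` and `t' = t - m P`: `x = c t + latt k = c t' + latt k0`, `x_i = f t'`, `|t' - t0| < ρ`, so `τ (x_i) = t'`,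
`F x = α t' (0) = 0`. Derivative at `x` of `F₁`: product rule at a point where `v (x) = x - latt k0 - c (τ (x_i))` vanishes: `D F₁ (w) = α t' (w - c' (t') τ' w_i) = α t' w` since `α t' (c' t') = 0`; and `α t' = α t` (periodic). (`F = F₁` near `x` since `x ∈ ball y r₁`.)
-/

set_option autoImplicit false
set_option maxSynthPendingDepth 3

open scoped ContDiff

namespace Pool.Agent.Helper59.GT

private theorem latt_add {n : ℕ} (a b : Fin n → ℤ) : latt (a + b) = latt a + latt b := by
  ext i
  simp [latt]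

private theorem latt_apply {n : ℕ} (a : Fin n → ℤ) (i : Fin n) : latt a i = (a i : ℝ) := rfl

private theorem c_shift {n : ℕ} (c : ℝ → E n) (P : ℝ) (κ : Fin n → ℤ)
    (h : ∀ t, c (t + P) = c t + latt κ) (m : ℤ) : ∀ t : ℝ, c (t + m * P) = c t + latt (m • κ) := by
  induction m using Int.induction_on with
  | zero =>
    intro t
    ext i
    simp [latt]
  | succ m ih =>
    intro t
    have h1 : t + ((m : ℤ) + 1 : ℤ) * P = (t + (m : ℤ) * P) + P := by push_cast; ring
    rw [h1, h, ih t, add_assoc, ← latt_add]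
    congr 2
    rw [add_smul, one_smul]
  | pred m ih =>
    intro t
    have h1 : t + (-(m : ℤ) - 1 : ℤ) * P + P = t + (-(m : ℤ) : ℤ) * P := by push_cast; ring
    have h2 := h (t + (-(m : ℤ) - 1 : ℤ) * P)
    rw [h1, ih t] at h2
    have h3 : c (t + (-(m : ℤ) - 1 : ℤ) * P) = c t + latt ((-(m : ℤ)) • κ) - latt κ :=
      eq_sub_of_add_eq h2.symm
    rw [h3]
    ext i
    simp only [PiLp.sub_apply, PiLp.add_apply, latt_apply, Pi.smul_apply, smul_eq_mul]
    push_cast
    ring

private theorem isClosed_range_latt (n : ℕ) : IsClosed (Set.range (latt : (Fin n → ℤ) → E n)) := by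
  have h : Set.range (latt : (Fin n → ℤ) → E n) =
      ⋂ i, (fun x : E n => x i) ⁻¹' (Set.range (Int.cast : ℤ → ℝ)) := by
    ext x
    simp only [Set.mem_range, Set.mem_iInter, Set.mem_preimage]
    constructor
    · rintro ⟨k, rfl⟩ i
      exact ⟨k i, rfl⟩
    · intro hx
      choose k hk using hx
      refine ⟨k, ?_⟩
      ext i
      exact hk i
  rw [h]
  refine isClosed_iInter fun i => ?_
  exact (Int.isClosedEmbedding_coe_real.isClosed_range).preimage
    (EuclideanSpace.proj (𝕜 := ℝ) i).continuous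

open Pointwise in
private theorem off_curve {n : ℕ} (c : ℝ → E n) (P : ℝ) (hP : 0 < P) (hc : Continuous c)
    (κ : Fin n → ℤ) (hκ : ∀ t, c (t + P) = c t + latt κ) (y : E n)
    (hy : ∀ t k, c t + latt k ≠ y) : ∃ r > 0, ∀ t k, ¬ ‖c t + latt k - y‖ < r := by
  have h1 : IsClosed (c '' Set.Icc 0 P + Set.range (latt : (Fin n → ℤ) → E n)) :=
    (isClosed_range_latt n).add_left_of_isCompact (isCompact_Icc.image hc)
  have h2 : y ∉ c '' Set.Icc 0 P + Set.range (latt : (Fin n → ℤ) → E n) := by
    rintro ⟨_, ⟨t, _, rfl⟩, _, ⟨k, rfl⟩, h⟩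
    exact hy t k h
  obtain ⟨r, hr, hb⟩ := Metric.isOpen_iff.1 h1.isOpen_compl y h2
  refine ⟨r, hr, fun t k hlt => ?_⟩
  have hbb : c t + latt k ∈ Metric.ball y r := by
    rw [Metric.mem_ball, dist_eq_norm]
    exact hlt
  apply hb hbb
  · set m : ℤ := ⌊t / P⌋ with hm
    have h3 := c_shift c P κ hκ m (t - m * P)
    rw [sub_add_cancel] at h3
    refine ⟨c (t - m * P), ⟨t - m * P, ⟨?_, ?_⟩, rfl⟩, latt (m • κ + k), ⟨_, rfl⟩, ?_⟩
    · have := Int.floor_le (t / P)
      rw [le_div_iff₀ hP] at this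
      linarith
    · have := (Int.lt_floor_add_one (t / P)).le
      rw [div_le_iff₀ hP] at this
      linarith
    · change c (t - m * P) + latt (m • κ + k) = c t + latt k
      rw [h3, latt_add, add_assoc]

/-- a smooth local inverse of a function with nonzero derivative -/
private theorem local_inv (f : ℝ → ℝ) (hf : ContDiff ℝ ∞ f) (t0 : ℝ) (h0 : deriv f t0 ≠ 0) :
    ∃ (ρ : ℝ) (J : Set ℝ) (τ : ℝ → ℝ), 0 < ρ ∧ IsOpen J ∧ f t0 ∈ J ∧
      (∀ b ∈ J, ContDiffAt ℝ ∞ τ b) ∧ ∀ t, |t - t0| < ρ → f t ∈ J ∧ τ (f t) = t := by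
  have hd : ∀ t, HasDerivAt f (deriv f t) t := fun t =>
    ((hf.differentiable (by simp)) t).hasDerivAt
  have hn : (∞ : WithTop ℕ∞) ≠ 0 := by simp
  let e := (hf.contDiffAt (x := t0)).toOpenPartialHomeomorph f ((hd t0).hasFDerivAt_equiv h0) hn
  have hcoe : (e : ℝ → ℝ) = f := ContDiffAt.toOpenPartialHomeomorph_coe _ _ _
  have hmem : t0 ∈ e.source := ContDiffAt.mem_toOpenPartialHomeomorph_source _ _ _
  have hS : IsOpen {t | deriv f t ≠ 0} := by
    have : Continuous (deriv f) := hf.continuous_deriv (by simp)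
    exact isOpen_ne.preimage this
  have hJ : IsOpen (e.target ∩ e.symm ⁻¹' {t | deriv f t ≠ 0}) :=
    e.isOpen_inter_preimage_symm hS
  obtain ⟨ρ, hρ, hb⟩ := Metric.isOpen_iff.1 (e.open_source.inter hS) t0 ⟨hmem, h0⟩
  have key : ∀ t, |t - t0| < ρ →
      f t ∈ e.target ∩ e.symm ⁻¹' {t | deriv f t ≠ 0} ∧ e.symm (f t) = t := by
    intro t ht
    have h0' : t ∈ Metric.ball t0 ρ := by
      rw [Metric.mem_ball, Real.dist_eq]
      exact ht
    have h1 := hb h0'
    have h2 : e.symm (f t) = t := by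
      rw [← hcoe]
      exact e.left_inv h1.1
    refine ⟨⟨?_, ?_⟩, h2⟩
    · rw [← hcoe]
      exact e.map_source h1.1
    · rw [Set.mem_preimage, h2]
      exact h1.2
  refine ⟨ρ, _, e.symm, hρ, hJ, (key t0 (by rw [sub_self, abs_zero]; exact hρ)).1, ?_, key⟩
  intro b hb'
  refine e.contDiffAt_symm_deriv (f₀' := deriv f (e.symm b)) hb'.2 hb'.1 ?_ ?_
  · rw [hcoe]
    exact hd _
  · rw [hcoe]
    exact hf.contDiffAt

theorem local_ext {n : ℕ} (c : ℝ → E n) (P : ℝ) (hP : 0 < P) (hs : ContDiff ℝ ∞ c) (hper : ∃ k, ∀ t, c (t + P) = c t + latt k)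
    (hemb : ∀ s t, (∃ k, c s = c t + latt k) → ∃ m : ℤ, s - t = m * P) (hreg : ∀ t, deriv c t ≠ 0)
    (α : ℝ → E n →L[ℝ] ℝ) (hα : ContDiff ℝ ∞ α) (hαP : ∀ t, α (t + P) = α t) (hα0 : ∀ t, α t (deriv c t) = 0) (y : E n) :
    ∃ r > 0, ∃ F : E n → ℝ, ContDiff ℝ ∞ F ∧ ∀ t k, ‖c t + latt k - y‖ < r →
      F (c t + latt k) = 0 ∧ fderiv ℝ F (c t + latt k) = α t := by
  obtain ⟨κ, hκ⟩ := hper
  by_cases hy : ∀ t k, c t + latt k ≠ y
  · obtain ⟨r, hr, h⟩ := off_curve c P hP hs.continuous κ hκ y hy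
    exact ⟨r, hr, fun _ => 0, contDiff_const, fun t k hlt => absurd hlt (h t k)⟩
  push Not at hy
  obtain ⟨t0, k0, rfl⟩ := hy
  obtain ⟨i, hi⟩ : ∃ i, deriv c t0 i ≠ 0 := by
    by_contra hcon
    push Not at hcon
    exact hreg t0 (by ext i; exact hcon i)
  have hci : ∀ t, HasDerivAt (fun t => c t i) (deriv c t i) t := by
    intro t
    have h1 : HasDerivAt c (deriv c t) t :=
      ((hs.differentiable (by simp)) t).hasDerivAt
    exact ((EuclideanSpace.proj (𝕜 := ℝ) i).hasFDerivAt.comp_hasDerivAt t h1)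
  set f : ℝ → ℝ := fun t => c t i + k0 i with hf
  have hfs : ContDiff ℝ ∞ f :=
    ((EuclideanSpace.proj (𝕜 := ℝ) i).contDiff.comp hs).add contDiff_const
  have hfd : ∀ t, HasDerivAt f (deriv c t i) t := fun t => (hci t).add_const _
  obtain ⟨ρ, J, τ, hρ, hJ, hJ0, hτ, hinv⟩ := local_inv f hfs t0 (by rw [(hfd t0).deriv]; exact hi)
  -- the local function
  set v : E n → E n := fun x => x - latt k0 - c (τ (x i)) with hv
  set F₁ : E n → ℝ := fun x => α (τ (x i)) (v x) with hF₁
  set U : Set (E n) := (fun x : E n => x i) ⁻¹' J with hU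
  have hUo : IsOpen U := hJ.preimage (EuclideanSpace.proj (𝕜 := ℝ) i).continuous
  have hτs : ∀ x ∈ U, ContDiffAt ℝ ∞ (fun x : E n => τ (x i)) x := by
    intro x hx
    exact (hτ _ hx).comp x (EuclideanSpace.proj (𝕜 := ℝ) i).contDiff.contDiffAt
  have hvs : ∀ x ∈ U, ContDiffAt ℝ ∞ v x := by
    intro x hx
    exact (contDiffAt_id.sub contDiffAt_const).sub (hs.contDiffAt.comp x (hτs x hx))
  have hF₁s : ∀ x ∈ U, ContDiffAt ℝ ∞ F₁ x := by
    intro x hx
    exact (hα.contDiffAt.comp x (hτs x hx)).clm_apply (hvs x hx)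
  have hyU : c t0 + latt k0 ∈ U := hJ0
  obtain ⟨R, hR, hball⟩ := Metric.isOpen_iff.1 hUo _ hyU
  obtain ⟨r2, hr2, hbr⟩ := branch c P hP hs.continuous ⟨κ, hκ⟩ hemb t0 k0 ρ hρ
  let b : ContDiffBump (c t0 + latt k0) := ⟨R / 4, R / 2, by linarith, by linarith⟩
  refine ⟨min r2 (R / 4), lt_min hr2 (by linarith), fun x => b x * F₁ x, ?_, ?_⟩
  · rw [contDiff_iff_contDiffAt]
    intro x
    by_cases hx : x ∈ Metric.ball (c t0 + latt k0) R
    · exact b.contDiff.contDiffAt.mul (hF₁s x (hball hx))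
    · have hev : (fun x => b x * F₁ x) =ᶠ[nhds x] fun _ => 0 := by
        have hopen : IsOpen (Metric.closedBall (c t0 + latt k0) (R / 2))ᶜ :=
          Metric.isClosed_closedBall.isOpen_compl
        have hx2 : x ∈ (Metric.closedBall (c t0 + latt k0) (R / 2))ᶜ := by
          intro h
          apply hx
          rw [Metric.mem_closedBall] at h
          rw [Metric.mem_ball]
          linarith
        filter_upwards [hopen.mem_nhds hx2] with z hz
        have : b z = 0 := by
          apply b.zero_of_le_dist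
          rw [Set.mem_compl_iff, Metric.mem_closedBall, not_le] at hz
          exact hz.le
        rw [this, zero_mul]
      exact (contDiffAt_const (c := (0 : ℝ))).congr_of_eventuallyEq hev
  · intro t k hlt
    obtain ⟨m, hm, hck⟩ := hbr t k (lt_of_lt_of_le hlt (min_le_left _ _))
    set t' := t - m * P with ht'
    obtain ⟨hJt, hτt⟩ := hinv t' hm
    set x : E n := c t + latt k with hx
    have hxi : x i = f t' := by
      rw [hck]
      rfl
    have hxball : x ∈ Metric.ball (c t0 + latt k0) (R / 4) := by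
      rw [Metric.mem_ball, dist_eq_norm]
      exact lt_of_lt_of_le hlt (min_le_right _ _)
    have hxU : x ∈ U := by
      change x i ∈ J
      rw [hxi]
      exact hJt
    have hτx : τ (x i) = t' := by rw [hxi, hτt]
    have hvx : v x = 0 := by
      change x - latt k0 - c (τ (x i)) = 0
      rw [hτx, hck]
      abel
    have hF₁x : F₁ x = 0 := by
      change α (τ (x i)) (v x) = 0
      rw [hvx, map_zero]
    have hev : (fun x => b x * F₁ x) =ᶠ[nhds x] F₁ := by
      filter_upwards [Metric.isOpen_ball.mem_nhds hxball] with z hz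
      have : b z = 1 := by
        apply b.one_of_mem_closedBall
        exact Metric.ball_subset_closedBall hz
      rw [this, one_mul]
    refine ⟨?_, ?_⟩
    · change b x * F₁ x = 0
      rw [hF₁x, mul_zero]
    · rw [hev.fderiv_eq]
      -- the derivative of `F₁`
      have hτd : HasDerivAt τ (deriv τ (x i)) (x i) :=
        ((hτ _ hxU).differentiableAt (by simp)).hasDerivAt
      have hprojd : HasFDerivAt (fun x : E n => x i) (EuclideanSpace.proj (𝕜 := ℝ) i) x :=
        (EuclideanSpace.proj (𝕜 := ℝ) i).hasFDerivAt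
      have hτx' : HasFDerivAt (fun x : E n => τ (x i))
          (deriv τ (x i) • (EuclideanSpace.proj (𝕜 := ℝ) i : E n →L[ℝ] ℝ)) x :=
        hτd.comp_hasFDerivAt x hprojd
      have hcd : HasDerivAt c (deriv c (τ (x i))) (τ (x i)) :=
        ((hs.differentiable (by simp)) _).hasDerivAt
      have hcτ : HasFDerivAt (fun x : E n => c (τ (x i)))
          ((deriv τ (x i) • (EuclideanSpace.proj (𝕜 := ℝ) i : E n →L[ℝ] ℝ)).smulRight
            (deriv c (τ (x i)))) x := by
        have h1 := hcd.hasFDerivAt.comp x hτx'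
        refine h1.congr_fderiv ?_
        ext w
        simp
        ring
      have hvd : HasFDerivAt v (ContinuousLinearMap.id ℝ (E n) -
          ((deriv τ (x i) • (EuclideanSpace.proj (𝕜 := ℝ) i : E n →L[ℝ] ℝ)).smulRight
            (deriv c (τ (x i))))) x :=
        ((hasFDerivAt_id x).sub_const _).sub hcτ
      have hαd : HasFDerivAt (fun x : E n => α (τ (x i)))
          (fderiv ℝ (fun x : E n => α (τ (x i))) x) x :=
        ((hα.contDiffAt.comp x (hτs x hxU)).differentiableAt (by simp)).hasFDerivAt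
      have hF := hαd.clm_apply hvd
      rw [hF.fderiv]
      ext w
      simp only [hvx, ContinuousLinearMap.comp_apply, add_apply, sub_apply,
        ContinuousLinearMap.flip_apply, map_zero, add_zero,
        ContinuousLinearMap.id_apply, ContinuousLinearMap.smulRight_apply, map_sub, map_smul, hτx,
        hα0, smul_zero, sub_zero]
      have hper' : Function.Periodic α P := hαP
      have h5 : α t' = α t := (hper'.int_mul m).sub_eq t
      rw [h5]

end Pool.Agent.Helper59.GT
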