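import Pool.Agent.Helper59.GT.Phase

/-!
# GT-07 PerVol: volume of periodic sets per cell

`sh k` is a bijection of phase space that preserves `volume` and the sets `sh k '' cell n` (`k : Fin n → ℤ`, countably many) are pairwise disjoint with union everything (`Int.floor` of the coordinates).

* `per_volume`. Let `B = R ∩ cell`. `φ '' R = ⋃_k sh k '' (φ '' B)` (commutation and invariance), pairwise disjoint since `φ` is injective and the `sh k '' B` are disjoint. All sets are measurable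
  (`φ` continuous and injective: `MeasurableSet.image_of_continuousOn_injOn`). So `volume (φ '' R ∩ cell) = ∑_k volume (sh k '' (φ '' B) ∩ cell) = ∑_k volume (φ '' B ∩ sh (-k) '' cell) = volume (φ '' B) ≥ volume B`
  (`measure_iUnion`, `measure_preimage` of translations).
* `pos_volume`. If `O` is open, invariant, nonempty, and `volume (O ∩ cell) = 0` then `O = ⋃_k sh k '' (O ∩ cell)` is null, but a nonempty open set has positive volume (`IsOpen.measure_pos`).
(`Mathlib.MeasureTheory.Group.FundamentalDomain` can also be used.)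
-/

set_option autoImplicit false
set_option maxSynthPendingDepth 3

open MeasureTheory

namespace Pool.Agent.Helper59.GT

private lemma sh_fun {n : ℕ} (k : Fin n → ℤ) : (sh k : Ph n → Ph n) = fun z => z + (latt k, 0) := by
  funext z
  simp [sh, Prod.ext_iff]

private lemma vol_sh {n : ℕ} (k : Fin n → ℤ) (A : Set (Ph n)) : volume (sh k '' A) = volume A := by
  have h1 : (volume : Measure (Ph n)).IsAddLeftInvariant := by
    rw [Measure.volume_eq_prod]
    infer_instance
  have h2 : (volume : Measure (Ph n)).IsAddRightInvariant := inferInstance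
  rw [sh_fun, Set.image_add_right, measure_preimage_add_right]

private lemma meas_sh {n : ℕ} (k : Fin n → ℤ) {A : Set (Ph n)} (hA : MeasurableSet A) :
    MeasurableSet (sh k '' A) := by
  rw [sh_fun, Set.image_add_right]
  exact measurable_add_const _ hA

private lemma sh_neg_sh {n : ℕ} (k : Fin n → ℤ) (z : Ph n) : sh (-k) (sh k z) = z := by
  rw [sh_sh, neg_add_cancel, sh_zero]

private lemma sh_sh_neg {n : ℕ} (k : Fin n → ℤ) (z : Ph n) : sh k (sh (-k) z) = z := by
  rw [sh_sh, add_neg_cancel, sh_zero]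

private lemma cell_unique {n : ℕ} {k : Fin n → ℤ} {z : Ph n} (h : z ∈ cell n)
    (h' : sh k z ∈ cell n) : k = 0 := by
  funext i
  obtain ⟨h1, h2⟩ := h i
  obtain ⟨h3, h4⟩ := h' i
  have h5 : (sh k z).1 i = z.1 i + k i := by
    simp [sh, latt_apply]
  rw [h5] at h3 h4
  have h6 : (-1 : ℝ) < k i := by linarith
  have h7 : (k i : ℝ) < 1 := by linarith
  have h8 : (-1 : ℤ) < k i := by exact_mod_cast h6
  have h9 : k i < (1 : ℤ) := by exact_mod_cast h7
  have h10 : k i = 0 := by omega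
  exact h10

private lemma exists_cell {n : ℕ} (z : Ph n) : ∃ k : Fin n → ℤ, sh k z ∈ cell n := by
  refine ⟨fun i => -⌊z.1 i⌋, fun i => ?_⟩
  have h5 : (sh (fun i => -⌊z.1 i⌋) z).1 i = z.1 i - ⌊z.1 i⌋ := by
    simp [sh, latt_apply, sub_eq_add_neg]
  rw [h5]
  have h1 := Int.floor_le (z.1 i)
  have h2 := Int.lt_floor_add_one (z.1 i)
  constructor <;> linarith

private lemma meas_cell (n : ℕ) : MeasurableSet (cell n) := by
  have h : cell n = ⋂ i, ({z : Ph n | 0 ≤ z.1 i} ∩ {z : Ph n | z.1 i < 1}) := by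
    ext z
    simp [cell]
  rw [h]
  refine MeasurableSet.iInter fun i => ?_
  have hc : Continuous fun z : Ph n => z.1 i := by fun_prop
  exact (measurableSet_le measurable_const hc.measurable).inter
    (measurableSet_lt hc.measurable measurable_const)

theorem per_volume {n : ℕ} (φ : Ph n → Ph n) (hc : Continuous φ) (hi : Function.Injective φ)
    (hsh : ∀ k z, φ (sh k z) = sh k (φ z)) (hv : ∀ A : Set (Ph n), MeasurableSet A → volume A ≤ volume (φ '' A))
    (R : Set (Ph n)) (hR : MeasurableSet R) (hinv : Inv R) : volume (R ∩ cell n) ≤ volume (φ '' R ∩ cell n) := by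
  have hB : MeasurableSet (R ∩ cell n) := hR.inter (meas_cell n)
  have hCm : MeasurableSet (φ '' (R ∩ cell n)) :=
    hB.image_of_continuousOn_injOn hc.continuousOn hi.injOn
  -- the sets `sh k '' C` are pairwise disjoint
  have hdis : Pairwise (Function.onFun Disjoint
      (fun k : Fin n → ℤ => sh (-k) '' (φ '' (R ∩ cell n)) ∩ cell n)) := by
    intro k l hkl
    rw [Function.onFun, Set.disjoint_left]
    rintro z ⟨⟨w, ⟨u, hu, rfl⟩, rfl⟩, -⟩ ⟨⟨w', ⟨u', hu', rfl⟩, hw'⟩, -⟩
    apply hkl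
    rw [← hsh, ← hsh] at hw'
    have h1 : sh (-l) u' = sh (-k) u := hi hw'
    have h2 : sh (k - l) u' = u := by
      have h3 := congrArg (sh k) h1
      rw [sh_sh_neg, sh_sh, ← sub_eq_add_neg] at h3
      exact h3
    have h4 : k - l = 0 := cell_unique hu'.2 (by rw [h2]; exact hu.2)
    exact sub_eq_zero.1 h4
  have hU : (⋃ k : Fin n → ℤ, sh (-k) '' (φ '' (R ∩ cell n)) ∩ cell n) ⊆ φ '' R ∩ cell n := by
    intro z hz
    obtain ⟨k, ⟨w, ⟨u, hu, rfl⟩, rfl⟩, hzc⟩ := Set.mem_iUnion.1 hz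
    refine ⟨⟨sh (-k) u, hinv (-k) u hu.1, hsh _ _⟩, hzc⟩
  have hcov : φ '' (R ∩ cell n) ⊆ ⋃ k : Fin n → ℤ, φ '' (R ∩ cell n) ∩ sh k '' cell n := by
    intro z hz
    obtain ⟨k, hk⟩ := exists_cell z
    exact Set.mem_iUnion.2 ⟨-k, hz, ⟨sh k z, hk, sh_neg_sh k z⟩⟩
  have htr : ∀ k : Fin n → ℤ, volume (φ '' (R ∩ cell n) ∩ sh k '' cell n) =
      volume (sh (-k) '' (φ '' (R ∩ cell n)) ∩ cell n) := by
    intro k
    have h1 : sh (-k) '' (φ '' (R ∩ cell n)) ∩ cell n =
        sh (-k) '' (φ '' (R ∩ cell n) ∩ sh k '' cell n) := by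
      ext z
      constructor
      · rintro ⟨⟨w, hw, rfl⟩, hz⟩
        exact ⟨w, ⟨hw, ⟨sh (-k) w, hz, sh_sh_neg k w⟩⟩, rfl⟩
      · rintro ⟨w, ⟨hw, ⟨y, hy, rfl⟩⟩, rfl⟩
        refine ⟨⟨_, hw, rfl⟩, ?_⟩
        rw [sh_neg_sh]
        exact hy
    rw [h1, vol_sh]
  calc volume (R ∩ cell n) ≤ volume (φ '' (R ∩ cell n)) := hv _ hB
    _ ≤ volume (⋃ k : Fin n → ℤ, φ '' (R ∩ cell n) ∩ sh k '' cell n) := measure_mono hcov
    _ ≤ ∑' k : Fin n → ℤ, volume (φ '' (R ∩ cell n) ∩ sh k '' cell n) := measure_iUnion_le _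
    _ = ∑' k : Fin n → ℤ, volume (sh (-k) '' (φ '' (R ∩ cell n)) ∩ cell n) := by
      exact tsum_congr htr
    _ = volume (⋃ k : Fin n → ℤ, sh (-k) '' (φ '' (R ∩ cell n)) ∩ cell n) := by
      rw [measure_iUnion hdis fun k => (meas_sh _ hCm).inter (meas_cell n)]
    _ ≤ volume (φ '' R ∩ cell n) := measure_mono hU

theorem pos_volume {n : ℕ} (O : Set (Ph n)) (hO : IsOpen O) (hinv : Inv O) (hne : O.Nonempty) :
    0 < volume (O ∩ cell n) := by
  by_contra hcon
  have h0 : volume (O ∩ cell n) = 0 := by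
    rcases eq_or_ne (volume (O ∩ cell n)) 0 with h | h
    · exact h
    · exact absurd (pos_iff_ne_zero.2 h) hcon
  have hsub : O ⊆ ⋃ k : Fin n → ℤ, sh k '' (O ∩ cell n) := by
    intro z hz
    obtain ⟨k, hk⟩ := exists_cell z
    exact Set.mem_iUnion.2 ⟨-k, ⟨sh k z, ⟨hinv k z hz, hk⟩, sh_neg_sh k z⟩⟩
  have h1 : volume (⋃ k : Fin n → ℤ, sh k '' (O ∩ cell n)) = 0 := by
    refine measure_iUnion_null fun k => ?_
    rw [vol_sh, h0]
  have h2 := hO.measure_pos volume hne
  exact absurd (measure_mono_null hsub h1) h2.ne'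

end Pool.Agent.Helper59.GT
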