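import Pool.Agent.Helper59.GT.Defs

/-!
# Project GT: the phase space `ℝ ^ n × ℝ ^ n` (positions and momenta), Hamiltonian vector fields, the energy of a metric (definitions, proved basics)

* `Ph n = E n × E n`, `sh k (x, p) = (x + latt k, p)`, `cell n` the fundamental domain `[0, 1) ^ n × ℝ ^ n`.
* `riesz f` is the vector with `⟪riesz f, w⟫ = f w`; `XH H z = (∂_p H, - ∂_x H)`, the Hamiltonian vector field (gradients with respect to the inner product).
* `opA g x`: the symmetric operator with `⟪opA g x u, w⟫ = g x u w`; `cog g x` its inverse; `Hk g (x, p) = (1 / 2) ⟪cog g x p, p⟫`.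
-/

set_option autoImplicit false
set_option maxSynthPendingDepth 3

open scoped ContDiff InnerProductSpace

namespace Pool.Agent.Helper59.GT

/-- Phase space. -/
abbrev Ph (n : ℕ) := E n × E n

/-- Translation of the positions by an integer vector. -/
noncomputable def sh {n : ℕ} (k : Fin n → ℤ) (z : Ph n) : Ph n := (z.1 + latt k, z.2)

/-- The fundamental domain. -/
def cell (n : ℕ) : Set (Ph n) := {z | ∀ i, 0 ≤ z.1 i ∧ z.1 i < 1}

/-- Invariant under the integer translations. -/
def Inv {n : ℕ} (R : Set (Ph n)) : Prop := ∀ k, ∀ z ∈ R, sh k z ∈ R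

/-- The Riesz isomorphism. -/
noncomputable def riesz {n : ℕ} : (E n →L[ℝ] ℝ) →L[ℝ] E n :=
  LinearMap.toContinuousLinearMap
    { toFun := fun f => (InnerProductSpace.toDual ℝ (E n)).symm f
      map_add' := fun f g => by simp
      map_smul' := fun a f => by simp }

lemma inner_riesz {n : ℕ} (f : E n →L[ℝ] ℝ) (w : E n) : ⟪riesz f, w⟫_ℝ = f w := by
  simp [riesz]

/-- The gradient of `H` in the positions. -/
noncomputable def gradx {n : ℕ} (H : Ph n → ℝ) (z : Ph n) : E n :=
  riesz ((fderiv ℝ H z).comp (ContinuousLinearMap.inl ℝ (E n) (E n)))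

/-- The gradient of `H` in the momenta. -/
noncomputable def gradp {n : ℕ} (H : Ph n → ℝ) (z : Ph n) : E n :=
  riesz ((fderiv ℝ H z).comp (ContinuousLinearMap.inr ℝ (E n) (E n)))

/-- The Hamiltonian vector field of `H`. -/
noncomputable def XH {n : ℕ} (H : Ph n → ℝ) (z : Ph n) : Ph n := (gradp H z, -gradx H z)

lemma inner_gradx {n : ℕ} (H : Ph n → ℝ) (z : Ph n) (w : E n) : ⟪gradx H z, w⟫_ℝ = fderiv ℝ H z (w, 0) := by
  simp [gradx, inner_riesz]

lemma inner_gradp {n : ℕ} (H : Ph n → ℝ) (z : Ph n) (w : E n) : ⟪gradp H z, w⟫_ℝ = fderiv ℝ H z (0, w) := by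
  simp [gradp, inner_riesz]

/-- The operator of the metric. -/
noncomputable def opA {n : ℕ} (g : E n → Bil n) (x : E n) : E n →L[ℝ] E n :=
  riesz.comp (g x)

lemma inner_opA {n : ℕ} (g : E n → Bil n) (x u w : E n) : ⟪opA g x u, w⟫_ℝ = g x u w := by
  simp [opA, inner_riesz]

/-- The dual metric. -/
noncomputable def cog {n : ℕ} (g : E n → Bil n) (x : E n) : E n →L[ℝ] E n := (opA g x).inverse

/-- The energy. -/
noncomputable def Hk {n : ℕ} (g : E n → Bil n) (z : Ph n) : ℝ := (1 / 2) * ⟪cog g z.1 z.2, z.2⟫_ℝ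

/-- The shell of the energies in `(1 / 2, 2)`. -/
def Shell {n : ℕ} (g : E n → Bil n) : Set (Ph n) := {z | 1 / 2 < Hk g z ∧ Hk g z < 2}

lemma latt_apply {n : ℕ} (k : Fin n → ℤ) (i : Fin n) : (latt k : E n) i = k i := rfl

lemma latt_zero {n : ℕ} : (latt 0 : E n) = 0 := by
  ext i
  simp [latt_apply]

lemma latt_add {n : ℕ} (k l : Fin n → ℤ) : (latt (k + l) : E n) = latt k + latt l := by
  ext i
  simp [latt_apply]

lemma latt_neg {n : ℕ} (k : Fin n → ℤ) : (latt (-k) : E n) = -latt k := by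
  ext i
  simp [latt_apply]

lemma sh_zero {n : ℕ} (z : Ph n) : sh 0 z = z := by
  simp [sh, latt_zero]

lemma sh_sh {n : ℕ} (k l : Fin n → ℤ) (z : Ph n) : sh k (sh l z) = sh (k + l) z := by
  simp only [sh, latt_add, Prod.mk.injEq, and_true]
  abel

lemma dist_sh {n : ℕ} (k : Fin n → ℤ) (z w : Ph n) : dist (sh k z) (sh k w) = dist z w := by
  simp [sh, Prod.dist_eq, dist_add_right]

end Pool.Agent.Helper59.GT
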