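import Mathlib

/-!
# Project GT (MP_af5028_an): the definitions of the statement

`E n` is `ℝ ^ n`, `latt k` the vector with integer coordinates `k`. Objects on the torus `T ^ n = ℝ ^ n / ℤ ^ n` are `ℤ ^ n`-periodic objects on `ℝ ^ n`.
-/

set_option autoImplicit false

open scoped ContDiff

namespace Pool.Agent.Helper59.GTS

/-- The Euclidean space `ℝ ^ n`. -/
abbrev E (n : ℕ) := EuclideanSpace ℝ (Fin n)

/-- The vector with integer coordinates `k`. -/
noncomputable def latt {n : ℕ} (k : Fin n → ℤ) : E n := WithLp.toLp 2 (fun i => (k i : ℝ))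

/-- `g` is a Riemannian metric of class `C ^ m` on the torus: `g x u w` is the inner product of the vectors `u` and `w` at the point `x`. -/
structure IsMetric {n : ℕ} (m : WithTop ℕ∞) (g : E n → E n → E n → ℝ) : Prop where
  add : ∀ x u v w, g x (u + v) w = g x u w + g x v w
  smul : ∀ (x : E n) (a : ℝ) (u w : E n), g x (a • u) w = a * g x u w
  symm : ∀ x u w, g x u w = g x w u
  pos : ∀ x u, u ≠ 0 → 0 < g x u u
  per : ∀ k x u w, g (x + latt k) u w = g x u w
  smooth : ∀ u w, ContDiff ℝ m (fun x => g x u w)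

/-- Geodesics (parametrised proportionally to arc length): `d/dt g (c) (c', w) = (1 / 2) D_w g (c) (c', c')` for every constant vector `w`. -/
def IsGeodesic {n : ℕ} (g : E n → E n → E n → ℝ) (c : ℝ → E n) : Prop :=
  Differentiable ℝ c ∧ ∀ t w, HasDerivAt (fun s => g (c s) (deriv c s) w)
    ((1 / 2) * fderiv ℝ (fun x => g x (deriv c t) (deriv c t)) (c t) w) t

/-- `c` has unit speed. -/
def UnitSpeed {n : ℕ} (g : E n → E n → E n → ℝ) (c : ℝ → E n) : Prop :=
  ∀ t, g (c t) (deriv c t) (deriv c t) = 1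

/-- The tangent vectors of `c` are `ε`-dense in the unit tangent bundle of `g` over the torus. -/
def EpsDense {n : ℕ} (g : E n → E n → E n → ℝ) (c : ℝ → E n) (ε : ℝ) : Prop :=
  ∀ x v, g x v v = 1 → ∃ t k, ‖c t + latt k - x‖ < ε ∧ ‖deriv c t - v‖ < ε

/-- The geodesic flow is transitive: some unit speed geodesic has a dense set of tangent vectors. -/
def Transitive {n : ℕ} (g : E n → E n → E n → ℝ) : Prop :=
  ∃ c, IsGeodesic g c ∧ UnitSpeed g c ∧ ∀ ε, 0 < ε → EpsDense g c ε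

/-- Every unit vector is the initial vector of exactly one unit speed geodesic. -/
def UniqueGeodesics {n : ℕ} (g : E n → E n → E n → ℝ) : Prop :=
  ∀ x v, g x v v = 1 → ∃! c, IsGeodesic g c ∧ UnitSpeed g c ∧ c 0 = x ∧ deriv c 0 = v

/-- The conformal metric `exp (2 u) g`. -/
noncomputable def conf {n : ℕ} (u : E n → ℝ) (g : E n → E n → E n → ℝ) : E n → E n → E n → ℝ :=
  fun x v w => Real.exp (2 * u x) * g x v w

/-- The space `C ^ m (T ^ n)`: `u` is a periodic function of class `C ^ m`. -/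
def IsFun {n : ℕ} (m : WithTop ℕ∞) (u : E n → ℝ) : Prop :=
  ContDiff ℝ m u ∧ ∀ k x, u (x + latt k) = u x

/-- `|u' - u| < ε` and `|D_w u' - D_w u| < ε` at every point for all `w` with `‖w‖ ≤ 1`. -/
def Close {n : ℕ} (u u' : E n → ℝ) (ε : ℝ) : Prop :=
  ∀ x w, ‖w‖ ≤ 1 → |u' x - u x| < ε ∧ |fderiv ℝ u' x w - fderiv ℝ u x w| < ε

/-- `R` is a dense `G_δ` set in `C ^ 1 (T ^ n)` with the `C ^ 1` topology: `R` is the intersection of `C ^ 1 (T ^ n)` with the sets `U j`, which are open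
in `C ^ 1 (T ^ n)`, and `R` is dense. -/
def DenseGdelta {n : ℕ} (R : Set (E n → ℝ)) : Prop :=
  (∃ U : ℕ → Set (E n → ℝ), (∀ j, ∀ u ∈ U j, IsFun 1 u → ∃ ε, 0 < ε ∧ ∀ u', IsFun 1 u' → Close u u' ε → u' ∈ U j) ∧
    R = {u | IsFun 1 u ∧ ∀ j, u ∈ U j}) ∧
  ∀ u, IsFun 1 u → ∀ ε, 0 < ε → ∃ u' ∈ R, Close u u' ε

end Pool.Agent.Helper59.GTS
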